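import Pool.Agent.Helper3.EV.StC
import Pool.Agent.Helper54.HQ.M_Ch1

/-!
# EV module Ch1: the distinguished orbit
-/

set_option autoImplicit false

namespace Pool.Agent.Helper3.EV

open Polynomial Finset Filter Topology Matrix IsDedekindDomain
open Pool.Agent.Helper3.HY (co tau co_mk sum_co)
open Pool.Agent.Helper54.HQ (Prm pz factPrm fK RR LL algRL th kp red Bf Smooth NearOne LocSq Weak Fam qS
  toR IsRed rts evc met InR IsIdl EvenAt Bf_apply)

private theorem tau_pow_Ch1 {f : ℤ[X]} (hm : f.Monic) {g : ℕ} (hdeg : f.natDegree = 2 * g + 2)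
    {k : ℕ} (hk : k ≤ 2 * g + 1) :
    tau (hm.map (Int.castRingHom ℚ)) (th f ^ k) = if k = 2 * g + 1 then 1 else 0 := by
  have hd : (fK f).natDegree = 2 * g + 2 := by rw [hm.natDegree_map, hdeg]
  have h1 : th f ^ k = AdjoinRoot.mk (fK f) (X ^ k) := by rw [map_pow, AdjoinRoot.mk_X]
  have hd1 : 2 * g + 2 - 1 = 2 * g + 1 := by omega
  rw [tau, h1, co_mk, hd, hd1, (modByMonic_eq_self_iff (hm.map _)).2, coeff_X_pow]
  · simp only [eq_comm]
  · rw [degree_X_pow, degree_eq_natDegree (hm.map _).ne_zero, hd]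
    exact_mod_cast Nat.lt_succ_of_le hk

/-- if `τ (θ^k z) = 0` for `k < 2 g + 1` then `z` is a constant -/
private theorem const_of_tau_Ch1 {f : ℤ[X]} (hm : f.Monic) {g : ℕ}
    (hdeg : f.natDegree = 2 * g + 2) (z : LL f)
    (hz : ∀ k, k < 2 * g + 1 → tau (hm.map (Int.castRingHom ℚ)) (th f ^ k * z) = 0) :
    ∃ c : ℚ, z = algebraMap ℚ (LL f) c := by
  have hmK := hm.map (Int.castRingHom ℚ)
  have hdK : (fK f).natDegree = 2 * g + 2 := by rw [hm.natDegree_map, hdeg]
  have hsum := sum_co hmK z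
  rw [hdK] at hsum
  have key : ∀ k, k < 2 * g + 1 → co hmK (2 * g + 1 - k) z = 0 := by
    intro k
    induction k using Nat.strong_induction_on with
    | _ k ih =>
      intro hk
      have h1 := hz k hk
      conv_lhs at h1 => rw [hsum]
      rw [Finset.mul_sum, map_sum, Finset.sum_eq_single (2 * g + 1 - k)] at h1
      · rw [mul_smul_comm, map_smul, ← pow_add, tau_pow_Ch1 hm hdeg (by omega),
          if_pos (by omega), smul_eq_mul, mul_one] at h1
        exact h1
      · intro i hi hik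
        rw [Finset.mem_range] at hi
        rw [mul_smul_comm, map_smul, ← pow_add]
        rcases lt_or_ge (2 * g + 1) (k + i) with h2 | h2
        · have h3 := ih (2 * g + 1 - i) (by omega) (by omega)
          have h4 : 2 * g + 1 - (2 * g + 1 - i) = i := by omega
          rw [h4] at h3
          rw [h3, zero_smul]
        · rw [tau_pow_Ch1 hm hdeg h2, if_neg (by omega), smul_zero]
      · intro h2
        exact absurd (Finset.mem_range.2 (by omega)) h2
  refine ⟨co hmK 0 z, ?_⟩
  rw [Algebra.algebraMap_eq_smul_one]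
  conv_lhs => rw [hsum]
  rw [Finset.sum_eq_single 0]
  · rw [pow_zero]
  · intro i hi hi0
    rw [Finset.mem_range] at hi
    have h3 := key (2 * g + 1 - i) (by omega)
    have h4 : 2 * g + 1 - (2 * g + 1 - i) = i := by omega
    rw [h4] at h3
    rw [h3, zero_smul]
  · intro h2
    exact absurd (Finset.mem_range.2 (by omega)) h2

theorem hCh1 (hCg : StCg) : StCh1 := by
  intro g hg f hm hdeg _ α hα X Y hXY hX hY hY1 hX2
  have hmK := hm.map (Int.castRingHom ℚ)
  have hdK : (fK f).natDegree = 2 * g + 2 := by rw [hm.natDegree_map, hdeg]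
  have hfd : FiniteDimensional ℚ (LL f) := hmK.finite_adjoinRoot
  obtain ⟨b, hbth, hb⟩ := hCg g f hm hdeg α
  have hnorm : Algebra.norm ℚ α ≠ 0 := by
    rwa [Ne, Algebra.norm_eq_zero_iff]
  have hfr : Module.finrank ℚ (LL f) = 2 * g + 2 := by
    rw [Module.finrank_eq_card_basis b, Fintype.card_fin]
  have hnd : (Bf hm α).Nondegenerate := by
    rw [LinearMap.BilinForm.nondegenerate_iff_det_ne_zero b]
    have h1 : LinearMap.BilinForm.toMatrix b (Bf hm α) =
        Matrix.of fun i j => Bf hm α (b i) (b j) := by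
      ext i j
      rw [LinearMap.BilinForm.toMatrix_apply, Matrix.of_apply]
    rw [h1, hb]
    exact mul_ne_zero (pow_ne_zero _ (neg_ne_zero.2 one_ne_zero)) hnorm
  have hsymm : ∀ x y, Bf hm α x y = Bf hm α y x := by
    intro x y
    rw [Bf_apply, Bf_apply, mul_right_comm]
  -- `Y` is its own orthogonal
  have hPY : ∀ y, (∀ x ∈ Y, Bf hm α x y = 0) → y ∈ Y := by
    have h1 : Y ≤ (Bf hm α).orthogonal Y := by
      intro y hy
      rw [LinearMap.BilinForm.mem_orthogonal_iff]
      exact fun x hx => hY1 x hx y hy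
    have h2 : Y = (Bf hm α).orthogonal Y := by
      refine Submodule.eq_of_le_of_finrank_eq h1 ?_
      rw [LinearMap.BilinForm.finrank_orthogonal hnd, hfr, hY]
      omega
    intro y hy
    rw [h2, LinearMap.BilinForm.mem_orthogonal_iff]
    exact hy
  have hthX : ∀ x ∈ X, th f * x ∈ Y := by
    intro x hx
    refine hPY _ fun y hy => ?_
    rw [hsymm]
    exact hX2 x hx y hy
  obtain ⟨l, hl⟩ := Pool.Agent.Helper54.HQ.Ch1.exists_fun hXY (by rw [hX, hY])
  -- a vector whose first `g` translates lie in `X`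
  obtain ⟨v, hv0, hv⟩ : ∃ v : LL f, v ≠ 0 ∧ ∀ i < g, th f ^ i * v ∈ X := by
    let T : X →ₗ[ℚ] (Fin (g - 1) → ℚ) :=
      LinearMap.pi fun i => (l ∘ₗ LinearMap.mulLeft ℚ (th f ^ ((i : ℕ) + 1))) ∘ₗ X.subtype
    have hT : LinearMap.ker T ≠ ⊥ := by
      refine LinearMap.ker_ne_bot_of_finrank_lt ?_
      rw [Module.finrank_fin_fun, hX]
      omega
    obtain ⟨v, hvT, hv0⟩ := Submodule.exists_mem_ne_zero_of_ne_bot hT
    refine ⟨v, fun h => hv0 (Subtype.ext h), ?_⟩
    intro i
    induction i with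
    | zero =>
      intro _
      rw [pow_zero, one_mul]
      exact v.2
    | succ i ih =>
      intro hi
      have h1 := ih (by omega)
      refine hl _ ?_ ?_
      · rw [pow_succ', mul_assoc]
        exact hthX _ h1
      · have h2 := congrFun (LinearMap.mem_ker.1 hvT) ⟨i, by omega⟩
        exact h2
  have hvY : ∀ i < g + 1, th f ^ i * v ∈ Y := by
    intro i hi
    rcases Nat.eq_zero_or_pos i with rfl | hi0
    · exact hXY (hv 0 (by omega))
    · obtain ⟨j, rfl⟩ : ∃ j, i = j + 1 := ⟨i - 1, by omega⟩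
      rw [pow_succ', mul_assoc]
      exact hthX _ (hv j (by omega))
  obtain ⟨c, hc⟩ := const_of_tau_Ch1 hm hdeg (α * v ^ 2) (by
    intro k hk
    obtain ⟨i, j, hi, hj, rfl⟩ : ∃ i j, i < g + 1 ∧ j < g + 1 ∧ k = i + j := by
      rcases Nat.lt_or_ge k (g + 1) with h1 | h1
      · exact ⟨k, 0, h1, by omega, rfl⟩
      · exact ⟨k - g, g, by omega, by omega, by omega⟩
    have h2 := hY1 _ (hvY i hi) _ (hvY j hj)
    rw [Bf_apply] at h2
    rw [← h2]
    congr 1
    rw [pow_add]
    ring)
  replace hc : α * v ^ 2 = algebraMap ℚ (LL f) c := by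
    rw [hc, eq_ratCast, eq_ratCast]
  have hc0 : c ≠ 0 := by
    rintro rfl
    rw [map_zero] at hc
    exact mul_ne_zero hα (pow_ne_zero 2 hv0) hc
  have hli : ∀ n, n ≤ 2 * g + 2 →
      LinearIndependent ℚ fun i : Fin n => th f ^ (i : ℕ) * v := by
    intro n hn
    have h1 : LinearIndependent ℚ fun i : Fin n => b (Fin.castLE hn i) :=
      b.linearIndependent.comp _ (Fin.castLE_injective _)
    have h2 := h1.map' (LinearMap.mulRight ℚ v)
      (LinearMap.ker_eq_bot.2 fun x y hxy => mul_right_cancel₀ hv0 hxy)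
    have h3 : (fun i : Fin n => th f ^ (i : ℕ) * v) =
        (LinearMap.mulRight ℚ v) ∘ fun i : Fin n => b (Fin.castLE hn i) := by
      ext i
      rw [Function.comp_apply, LinearMap.mulRight_apply, hbth]
      rfl
    rw [h3]
    exact h2
  refine ⟨v, c, hv0, hc0, hc, ?_, ?_⟩
  · symm
    refine Submodule.eq_of_le_of_finrank_eq ?_ ?_
    · rw [Submodule.span_le]
      rintro _ ⟨i, rfl⟩
      exact hv i i.2
    · rw [finrank_span_eq_card (hli g (by omega)), Fintype.card_fin, hX]
  · symm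
    refine Submodule.eq_of_le_of_finrank_eq ?_ ?_
    · rw [Submodule.span_le]
      rintro _ ⟨i, rfl⟩
      exact hvY i i.2
    · rw [finrank_span_eq_card (hli (g + 1) (by omega)), Fintype.card_fin, hY]

end Pool.Agent.Helper3.EV
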