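import Pool.Agent.Helper3.EV.StC
import Pool.Agent.Helper54.HQ.Base
import Pool.Agent.Helper3.HY.M_Cj

/-!
# EV module Cj2 (local goodness)
-/

set_option autoImplicit false

namespace Pool.Agent.Helper3.EV

open Polynomial Finset Filter Topology Matrix IsDedekindDomain
open Pool.Agent.Helper3.HY (co tau)
open Pool.Agent.Helper54.HQ (Prm pz factPrm fK RR LL algRL th kp red Bf Smooth NearOne LocSq Weak Fam qS
  toR IsRed rts evc met InR IsIdl EvenAt co_algebraMap algebraMap_intCast algebraMap_root Bf_apply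
  red_eq_zero)

private theorem tau_int_Cj2 {f : ℤ[X]} (hm : f.Monic) (n : ℤ) (z : LL f) :
    tau (hm.map (Int.castRingHom ℚ)) ((n : LL f) * z) =
      (n : ℚ) * tau (hm.map (Int.castRingHom ℚ)) z := by
  rw [← zsmul_eq_mul, map_zsmul, zsmul_eq_mul]

private theorem tau_alg_Cj2 {f : ℤ[X]} (hm : f.Monic) (z : RR f) :
    tau (hm.map (Int.castRingHom ℚ)) (algebraMap (RR f) (LL f) z) = ((tau hm z : ℤ) : ℚ) := by
  have h1 := co_algebraMap hm (f.natDegree - 1) z
  have h2 : (f.map (Int.castRingHom ℚ)).natDegree - 1 = f.natDegree - 1 := by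
    rw [hm.natDegree_map]
  rw [tau, tau, h2]
  exact h1

theorem hCj2 : StCj2 := by
  intro g hg f hm hdeg _ P α β d hd hβ hnear e B T hI hc S hS
  obtain ⟨r, a, ha, hr⟩ := hnear
  choose c hcP ri hri using hc
  rw [eq_intCast, eq_intCast] at hr
  -- the relation in `L`
  have key : ∀ i j, ∀ z : RR f, ((a * d * (c i * c j) : ℤ) : LL f) *
      (α * e i * e j * algebraMap (RR f) (LL f) z) =
      algebraMap (RR f) (LL f) (((a : RR f) + (pz P : RR f) * r) * (ri i * ri j) * z) := by
    intro i j z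
    have h1 : (a : LL f) + (pz P : LL f) * algebraMap (RR f) (LL f) r =
        a * ((d : LL f) * α * β ^ 2) := by
      rw [← hr]; ring
    rw [map_mul, map_mul, map_mul, map_add, map_mul, ← hri i, ← hri j, algebraMap_intCast,
      algebraMap_intCast, h1]
    push_cast
    field_simp
  -- the relation in `ℤ`
  have keyZ : ∀ (i j : Jx g) (z : RR f) (M : ℤ),
      tau (hm.map (Int.castRingHom ℚ)) (α * e i * e j * algebraMap (RR f) (LL f) z) = (M : ℚ) →
      a * d * (c i * c j) * M = tau hm (((a : RR f) + (pz P : RR f) * r) * (ri i * ri j) * z) := by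
    intro i j z M hM
    have h1 := congrArg (tau (hm.map (Int.castRingHom ℚ))) (key i j z)
    rw [tau_int_Cj2 hm, hM, tau_alg_Cj2 hm] at h1
    exact_mod_cast h1
  set h : (kp P)[X] := f.map (red P) with hh
  have hhm : h.Monic := hm.map _
  have hhdeg : h.natDegree = 2 * g + 2 := by rw [hh, hm.natDegree_map, hdeg]
  have hc0 : ∀ i, red P (c i) ≠ 0 := fun i h0 => hcP i (red_eq_zero.1 h0)
  have ha0 : red P a ≠ 0 := fun h0 => ha (red_eq_zero.1 h0)
  have hd0 : red P d ≠ 0 := fun h0 => hd (red_eq_zero.1 h0)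
  have hP0 : red P (pz P) = 0 := red_eq_zero.2 dvd_rfl
  have htau : ∀ z : RR f, tau hhm (HY.Cj.rho (red P) f z) = red P (tau hm z) := by
    intro z
    have h1 := HY.Cj.co_rho (red P) hm (f.natDegree - 1) z
    have h2 : h.natDegree - 1 = f.natDegree - 1 := by rw [hhdeg, hdeg]
    rw [tau, tau, h2]
    exact h1
  have hcast : ∀ n : ℤ, ((n : ℤ) : AdjoinRoot h) = algebraMap (kp P) (AdjoinRoot h) (red P n) := by
    intro n
    rw [eq_intCast, map_intCast]
  -- reduction
  have keyP : ∀ (i j : Jx g) (z : RR f) (M : ℤ),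
      tau (hm.map (Int.castRingHom ℚ)) (α * e i * e j * algebraMap (RR f) (LL f) z) = (M : ℚ) →
      (red P d)⁻¹ * tau hhm (((red P (c i))⁻¹ • HY.Cj.rho (red P) f (ri i)) *
        ((red P (c j))⁻¹ • HY.Cj.rho (red P) f (ri j)) * HY.Cj.rho (red P) f z) = red P M := by
    intro i j z M hM
    have h1 := congrArg (red P) (keyZ i j z M hM)
    rw [← htau, map_mul (HY.Cj.rho (red P) f), map_mul (HY.Cj.rho (red P) f),
      map_mul (HY.Cj.rho (red P) f), map_add (HY.Cj.rho (red P) f),
      map_mul (HY.Cj.rho (red P) f), map_intCast (HY.Cj.rho (red P) f),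
      map_intCast (HY.Cj.rho (red P) f), hcast, hcast, hP0, map_zero, zero_mul, add_zero,
      mul_assoc (algebraMap _ _ (red P a)), ← Algebra.smul_def, map_smul, smul_eq_mul, map_mul,
      map_mul, map_mul, map_mul] at h1
    have h2 : red P d * (red P (c i) * red P (c j) * red P M) =
        tau hhm (HY.Cj.rho (red P) f (ri i) * HY.Cj.rho (red P) f (ri j) *
          HY.Cj.rho (red P) f z) := by
      apply mul_left_cancel₀ ha0
      rw [← h1]
      ring
    rw [smul_mul_smul_comm, smul_mul_assoc, map_smul, ← h2, smul_eq_mul]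
    have hi := hc0 i
    have hj := hc0 j
    field_simp
  refine ⟨h, hS, hhm, hhdeg, (red P d)⁻¹,
    fun i => (red P (c i))⁻¹ • HY.Cj.rho (red P) f (ri i), inv_ne_zero hd0, ?_, ?_⟩
  · intro i j
    have h1 := keyP i j 1 (B i j) (by
      rw [map_one, mul_one, ← Bf_apply hm]
      exact hI.gram i j)
    rw [map_one, mul_one] at h1
    exact h1
  · intro i j
    have h1 := keyP i j (AdjoinRoot.root f) ((B * T) i j) (by
      rw [algebraMap_root]
      have h2 : α * e i * e j * th f = α * e i * (th f * e j) := by ring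
      rw [h2, ← Bf_apply hm, hI.mat j, map_sum, Matrix.mul_apply]
      push_cast
      refine Finset.sum_congr rfl fun k _ => ?_
      rw [map_smul, hI.gram i k, smul_eq_mul]
      ring)
    rw [HY.Cj.rho_root] at h1
    have h3 : AdjoinRoot.root h * ((red P (c i))⁻¹ • HY.Cj.rho (red P) f (ri i)) *
        ((red P (c j))⁻¹ • HY.Cj.rho (red P) f (ri j)) =
        ((red P (c i))⁻¹ • HY.Cj.rho (red P) f (ri i)) *
        ((red P (c j))⁻¹ • HY.Cj.rho (red P) f (ri j)) * AdjoinRoot.root h := by ring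
    simp only
    rw [h3]
    exact h1

end Pool.Agent.Helper3.EV
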