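import Pool.Agent.Helper3.EV.StC
import Pool.Agent.Helper54.HQ.Base
import Pool.Agent.Helper54.HQ.M_Ce
import Pool.Agent.Helper54.HQ.M_Cj1

/-!
# EV module Ck: a class gives a pair (assembly)
-/

set_option autoImplicit false

namespace Pool.Agent.Helper3.EV

open Polynomial Finset Filter Topology Matrix IsDedekindDomain
open Pool.Agent.Helper3.HY (co tau)
open Pool.Agent.Helper54.HQ (Prm pz factPrm fK RR LL algRL th kp red Bf Smooth NearOne LocSq Weak Fam qS
  toR IsRed rts evc met InR IsIdl EvenAt)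

/-- integral combinations stay in the lattice -/
theorem mem_Ck {g : ℕ} {f : ℤ[X]} {I : Submodule ℤ (LL f)}
    {e e' : Module.Basis (Jx g) ℚ (LL f)} {U : Matrix (Jx g) (Jx g) ℤ} (he : ∀ i, e i ∈ I)
    (he' : ∀ j, e' j = ∑ i, ((U i j : ℤ) : ℚ) • e i) (j : Jx g) : e' j ∈ I := by
  rw [he' j]
  refine sum_mem fun i _ => ?_
  rw [Int.cast_smul_eq_zsmul ℚ]
  exact I.smul_mem _ (he i)

/-- a bilinear form vanishes on a pair of spans if it vanishes on the generators -/
theorem span_Ck {V : Type} [AddCommGroup V] [Module ℚ V] (b : LinearMap.BilinForm ℚ V) {ι κ : Type}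
    (v : ι → V) (w : κ → V) (h : ∀ i j, b (v i) (w j) = 0) :
    ∀ x ∈ Submodule.span ℚ (Set.range v), ∀ y ∈ Submodule.span ℚ (Set.range w), b x y = 0 := by
  intro x hx y hy
  induction hx using Submodule.span_induction with
  | mem x hx =>
    obtain ⟨i, rfl⟩ := hx
    induction hy using Submodule.span_induction with
    | mem y hy =>
      obtain ⟨j, rfl⟩ := hy
      exact h i j
    | zero => exact map_zero _
    | add y z _ _ h1 h2 => rw [map_add, h1, h2, add_zero]
    | smul a y _ h1 => rw [map_smul, h1, smul_zero]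
  | zero => rw [map_zero, LinearMap.zero_apply]
  | add y z _ _ h1 h2 => rw [map_add, LinearMap.add_apply, h1, h2, add_zero]
  | smul a y _ h1 => rw [map_smul, LinearMap.smul_apply, h1, smul_zero]

/-- **Ck** (a class gives a pair). -/
theorem hCk (hCf : StCf) (hMf : StMf) (hMh : StMh) (hCh1 : StCh1) (hCj2 : StCj2) : StCk := by
  intro g hg
  obtain ⟨C, κ, hC, hM⟩ := hMh g hg
  refine ⟨C, κ, hC, ?_⟩
  intro H hH f hf _ _ _ T hT α hα hev hloc hns
  have hm : f.Monic := hf.1
  have hdeg : f.natDegree = 2 * g + 2 := hf.2.1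
  have hirr : Irreducible (fK f) := Fact.out
  obtain ⟨I, hI⟩ := Pool.Agent.Helper54.HQ.hCe f hm α hα hev
  obtain ⟨e, B, T₀, hInt, heI⟩ := hCf g f hm hdeg α hα I hI
  obtain ⟨U, e', B', T', m, -, he', hInt', -, hbox, -, hcase⟩ :=
    hM H hH f hf hm hirr α hα e B T₀ hInt
  obtain ⟨-, -, -, hchi, hmat⟩ := hMf g f hm hdeg hirr α e' B' T' hInt'
  rcases hcase with hadm | htl
  · refine ⟨m, hadm, hm, hdeg, hirr, (B', B' * T'), hbox, ?_, hchi⟩
    intro P hP
    obtain ⟨c, hc, β, hβ, hnear⟩ := hloc P hP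
    refine hCj2 g hg f hm hdeg P α β c hc hβ hnear e' B' T' hInt' (fun i => ?_) _ (hT P hP)
    refine Pool.Agent.Helper54.HQ.hCj1 f hm P ((c : LL f) * α) β (e' i) hβ hnear ?_
    obtain ⟨r, hr⟩ := hI.int (e' i) (mem_Ck heI he' i) (e' i)
      (mem_Ck heI he' i)
    refine ⟨(c : RR f) * r, ?_⟩
    rw [map_mul, ← hr, map_intCast]
    ring
  · exfalso
    have hlt : ∀ i : Fin g, (i : ℕ) < 2 * g + 2 := fun i => by have := i.2; omega
    have hlt' : ∀ i : Fin (g + 1), (i : ℕ) < 2 * g + 2 := fun i => by have := i.2; omega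
    let v : Fin g → LL f := fun i => e' ⟨i, hlt i⟩
    let w : Fin (g + 1) → LL f := fun i => e' ⟨i, hlt' i⟩
    have hliv : LinearIndependent ℚ v := by
      refine e'.linearIndependent.comp (fun i : Fin g => (⟨i, hlt i⟩ : Jx g)) ?_
      intro i j hij
      exact Fin.ext (congrArg (fun x : Jx g => (x : ℕ)) hij)
    have hliw : LinearIndependent ℚ w := by
      refine e'.linearIndependent.comp (fun i : Fin (g + 1) => (⟨i, hlt' i⟩ : Jx g)) ?_
      intro i j hij
      exact Fin.ext (congrArg (fun x : Jx g => (x : ℕ)) hij)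
    have hrv : Module.finrank ℚ (Submodule.span ℚ (Set.range v)) = g := by
      rw [finrank_span_eq_card hliv, Fintype.card_fin]
    have hrw : Module.finrank ℚ (Submodule.span ℚ (Set.range w)) = g + 1 := by
      rw [finrank_span_eq_card hliw, Fintype.card_fin]
    have hle : Submodule.span ℚ (Set.range v) ≤ Submodule.span ℚ (Set.range w) := by
      refine Submodule.span_mono ?_
      rintro x ⟨i, rfl⟩
      exact ⟨⟨i, by have := i.2; omega⟩, rfl⟩
    have hBY : ∀ x ∈ Submodule.span ℚ (Set.range w), ∀ y ∈ Submodule.span ℚ (Set.range w),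
        Bf hm α x y = 0 := by
      refine span_Ck (Bf hm α) w w fun i j => ?_
      show Bf hm α (e' _) (e' _) = 0
      have h10 : B' ⟨i, hlt' i⟩ ⟨j, hlt' j⟩ = 0 :=
        htl.1 ⟨i, hlt' i⟩ ⟨j, hlt' j⟩ (Nat.lt_succ_iff.mp i.2) (Nat.lt_succ_iff.mp j.2)
      rw [hInt'.gram, h10, Int.cast_zero]
    have hBX : ∀ x ∈ Submodule.span ℚ (Set.range v), ∀ y ∈ Submodule.span ℚ (Set.range w),
        Bf hm α (th f * x) y = 0 := by
      intro x hx y hy
      exact span_Ck ((Bf hm α).comp (LinearMap.mulLeft ℚ (th f)) LinearMap.id) v w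
        (fun i j => by
          show Bf hm α (th f * e' _) (e' _) = 0
          have h10 : (B' * T') ⟨i, hlt i⟩ ⟨j, hlt' j⟩ = 0 :=
            htl.2 ⟨i, hlt i⟩ ⟨j, hlt' j⟩ i.2 (Nat.lt_succ_iff.mp j.2)
          rw [hmat, h10, Int.cast_zero]) x hx y hy
    obtain ⟨u, c, hu, hc, huc, -⟩ :=
      hCh1 g hg f hm hdeg α hα (Submodule.span ℚ (Set.range v)) (Submodule.span ℚ (Set.range w))
        hle hrv hrw hBY hBX
    refine hns ⟨c, u⁻¹, ?_⟩
    have h11 : α = (α * u ^ 2) * u⁻¹ ^ 2 := by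
      rw [inv_pow, mul_assoc, mul_inv_cancel₀ (pow_ne_zero 2 hu), mul_one]
    refine h11.trans ?_
    rw [huc]
    exact congrArg (fun z : LL f => z * u⁻¹ ^ 2)
      (RingHom.congr_fun (Subsingleton.elim (α := (ℚ →+* LL f)) _ _) c)

end Pool.Agent.Helper3.EV
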