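import Pool.Agent.Helper3.EV.StS

/-! # EV, module Dbl: the tail (adapted from `HQ/M_Strong.lean`) -/

set_option autoImplicit false

namespace Pool.Agent.Helper3.EV

open Polynomial Finset
open Pool.Agent.Helper54.HQ (Fam)

theorem hDbl (h1 : StTa) (h2 : StTb) : StDbl := by
  intro g hg
  set N : ℕ := 2 * g + 2 with hN
  obtain ⟨K, hK, h2⟩ := h2 N (by omega)
  refine ⟨2 * 4 ^ N + K, by positivity, fun M H hM hMH hNH => ?_⟩
  obtain ⟨hfin, h1⟩ := h1 N H (by omega)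
  have he : (g + 1) * (2 * g + 3) = N * (N + 1) / 2 := by
    rw [hN]
    have : (2 * g + 2) * (2 * g + 2 + 1) = ((g + 1) * (2 * g + 3)) * 2 := by ring
    rw [this, Nat.mul_div_cancel _ (by norm_num)]
  rw [he]
  set Y : ℝ := (H : ℝ) ^ (N * (N + 1) / 2) with hY
  have hY0 : 0 ≤ Y := by positivity
  have hM' : (0 : ℝ) < M := by exact_mod_cast hM
  have hH' : (0 : ℝ) < H := by exact_mod_cast (by omega : 0 < H)
  have hMH' : (M : ℝ) ≤ H := by exact_mod_cast hMH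
  set P : Finset ℕ := (Finset.Ioc M H).filter Nat.Prime with hP
  have hsub : {f | f ∈ Fam N H ∧ ∃ p : ℕ, p.Prime ∧ M < p ∧ Dbl p f} ⊆
      (⋃ p ∈ P, {f | f ∈ Fam N H ∧ Dbl p f}) ∪
        {f | f ∈ Fam N H ∧ ∃ p : ℕ, p.Prime ∧ H < p ∧ N < p ∧ Dbl p f} := by
    rintro f ⟨hf, p, hp, hMp, hs⟩
    by_cases hpH : p ≤ H
    · left
      rw [Set.mem_iUnion₂]
      exact ⟨p, by rw [hP, Finset.mem_filter, Finset.mem_Ioc]; exact ⟨⟨hMp, hpH⟩, hp⟩, hf, hs⟩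
    · right
      exact ⟨hf, p, hp, by omega, by omega, hs⟩
  have hfin1 : (⋃ p ∈ P, {f | f ∈ Fam N H ∧ Dbl p f}).Finite :=
    hfin.subset (by
      intro f hf
      rw [Set.mem_iUnion₂] at hf
      obtain ⟨p, _, hf, _⟩ := hf
      exact hf)
  have hfin2 : {f | f ∈ Fam N H ∧ ∃ p : ℕ, p.Prime ∧ H < p ∧ N < p ∧ Dbl p f}.Finite :=
    hfin.subset (fun f hf => hf.1)
  have hc1 := (Set.ncard_le_ncard hsub (hfin1.union hfin2)).trans (Set.ncard_union_le _ _)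
  have hc2 : ((⋃ p ∈ P, {f | f ∈ Fam N H ∧ Dbl p f}).ncard : ℝ) ≤
      ∑ p ∈ P, ({f | f ∈ Fam N H ∧ Dbl p f}.ncard : ℝ) := by
    have hgen : ∀ Q : Finset ℕ, ((⋃ p ∈ Q, {f | f ∈ Fam N H ∧ Dbl p f}).ncard) ≤
        ∑ p ∈ Q, ({f | f ∈ Fam N H ∧ Dbl p f}.ncard) := by
      intro Q
      induction Q using Finset.induction_on with
      | empty => simp
      | insert a s ha ih =>
        rw [Finset.set_biUnion_insert, Finset.sum_insert ha]
        exact (Set.ncard_union_le _ _).trans (Nat.add_le_add_left ih _)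
    exact_mod_cast hgen P
  have hc3 : ∑ p ∈ P, ({f | f ∈ Fam N H ∧ Dbl p f}.ncard : ℝ) ≤ 2 * 4 ^ N * Y / M := by
    calc ∑ p ∈ P, ({f | f ∈ Fam N H ∧ Dbl p f}.ncard : ℝ)
        ≤ ∑ p ∈ P, 2 * 4 ^ N * Y / (p : ℝ) ^ 2 := by
          apply Finset.sum_le_sum
          intro p hp
          rw [hP, Finset.mem_filter, Finset.mem_Ioc] at hp
          exact h1 p hp.2 hp.1.2
      _ ≤ ∑ p ∈ Finset.Ioc M H, 2 * 4 ^ N * Y / (p : ℝ) ^ 2 := by
          apply Finset.sum_le_sum_of_subset_of_nonneg (Finset.filter_subset _ _)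
          intro i _ _
          positivity
      _ = 2 * 4 ^ N * Y * ∑ p ∈ Finset.Ioc M H, ((p : ℝ) ^ 2)⁻¹ := by
          rw [Finset.mul_sum]
          rfl
      _ ≤ 2 * 4 ^ N * Y * ((M : ℝ)⁻¹ - (H : ℝ)⁻¹) := by
          apply mul_le_mul_of_nonneg_left _ (by positivity)
          exact sum_Ioc_inv_sq_le_sub (by omega) hMH
      _ ≤ 2 * 4 ^ N * Y / M := by
          rw [div_eq_mul_inv]
          apply mul_le_mul_of_nonneg_left _ (by positivity)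
          have : (0 : ℝ) ≤ (H : ℝ)⁻¹ := by positivity
          linarith
  have hc4 : ({f | f ∈ Fam N H ∧ ∃ p : ℕ, p.Prime ∧ H < p ∧ N < p ∧ Dbl p f}.ncard : ℝ) ≤
      K * Y / M := by
    have h3 := h2 H (by omega)
    rw [le_div_iff₀ hM']
    refine le_trans ?_ h3
    exact mul_le_mul_of_nonneg_left hMH' (by positivity)
  have hc5 : ({f | f ∈ Fam N H ∧ ∃ p : ℕ, p.Prime ∧ M < p ∧ Dbl p f}.ncard : ℝ) ≤
      ((⋃ p ∈ P, {f | f ∈ Fam N H ∧ Dbl p f}).ncard : ℝ) +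
      ({f | f ∈ Fam N H ∧ ∃ p : ℕ, p.Prime ∧ H < p ∧ N < p ∧ Dbl p f}.ncard : ℝ) := by
    exact_mod_cast hc1
  have hc6 : (2 * 4 ^ N + K) / (M : ℝ) * Y = 2 * 4 ^ N * Y / M + K * Y / M := by ring
  rw [hc6]
  linarith

end Pool.Agent.Helper3.EV
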