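import Pool.Agent.Helper3.EV.StS
import Pool.Agent.Helper3.HY.M_Ui
import Pool.Agent.Helper3.HY.M_Pn
import Pool.Agent.Helper54.HQ.M_Dn

/-!
# EV, module Dn: the primes and the densities
-/

set_option autoImplicit false

namespace Pool.Agent.Helper3.EV

open Polynomial Finset Filter Topology Matrix
open Pool.Agent.Helper54.HQ (Prm pz factPrm kp red inf_Dn)

theorem hDn (_h : StSn) : StDn := by
  intro g hg
  refine ⟨fun P => ?_, fun P₀ n => ?_⟩
  · have hne : (TType (kp P) g).Nonempty := by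
      obtain ⟨p, hp1, hp2, hp3⟩ := Pool.Agent.Helper3.HY.Pn.exists_irr (kp P) (2 * g) (by omega)
      exact ⟨(X - C 0) * (X - C 1) * p, 0, 1, p, zero_ne_one, hp1, hp2, hp3, rfl⟩
    have hfin : (TType (kp P) g).Finite := by
      refine (Pool.Agent.Helper3.HY.MUi.finite_deg (kp P) (2 * g + 2)).subset ?_
      rintro h ⟨a, b, p, hab, hp, hirr, hd, rfl⟩
      change ((X - C a) * (X - C b) * p).natDegree ≤ 2 * g + 2
      rw [((monic_X_sub_C a).mul (monic_X_sub_C b)).natDegree_mul hp,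
        (monic_X_sub_C a).natDegree_mul (monic_X_sub_C b), natDegree_X_sub_C, natDegree_X_sub_C, hd]
      omega
    unfold dens
    have h1 : 0 < (TType (kp P) g).ncard := (Set.ncard_pos hfin).2 hne
    have h2 : 0 < ((P : ℕ) : ℝ) := by exact_mod_cast P.2.pos
    have h3 : (0 : ℝ) < ((TType (kp P) g).ncard : ℝ) := by exact_mod_cast h1
    positivity
  · obtain ⟨T, hT, h⟩ := inf_Dn (2 * g + 2 + (P₀ : ℕ)) n
    refine ⟨T, hT, fun hmem => ?_, fun P hP => ⟨(h P hP).1, by have := (h P hP).2; omega⟩⟩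
    have := (h P₀ hmem).2
    omega

end Pool.Agent.Helper3.EV
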