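import Pool.Agent.Helper3.EV.StF

/-!
# EV module Fe (upper bound for the family)
-/

set_option autoImplicit false

namespace Pool.Agent.Helper3.EV

open Polynomial Finset Filter Topology Matrix IsDedekindDomain

private lemma sum_Fe (N : ℕ) : 2 * ∑ i ∈ Finset.range N, (N - i) = N * (N + 1) := by
  induction N with
  | zero => simp
  | succ N ih =>
    rw [Finset.sum_range_succ']
    have : ∀ i ∈ Finset.range N, N + 1 - (i + 1) = N - i := fun i _ => by omega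
    rw [Finset.sum_congr rfl this, mul_add, ih]
    simp only [Nat.sub_zero]
    ring

/-- the box of coefficients -/
private noncomputable def box_Fe (N B H : ℕ) : Finset (Fin (N + 1) → ℤ) :=
  Fintype.piFinset fun i : Fin (N + 1) =>
    if (i : ℕ) < N then Finset.Icc (-(H : ℤ) ^ (N - (i : ℕ))) ((H : ℤ) ^ (N - (i : ℕ)))
    else Finset.Icc 1 (B : ℤ)

private lemma card_box_Fe (N B H : ℕ) (hH : 1 ≤ H) :
    ((box_Fe N B H).card : ℝ) ≤ B * 3 ^ N * (H : ℝ) ^ (∑ i ∈ Finset.range N, (N - i)) := by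
  have hH1 : (1 : ℝ) ≤ H := by exact_mod_cast hH
  unfold box_Fe
  rw [Fintype.card_piFinset, Fin.prod_univ_castSucc]
  have h1 : ∀ i : Fin N, ((if ((Fin.castSucc i : Fin (N + 1)) : ℕ) < N then
      Finset.Icc (-(H : ℤ) ^ (N - ((Fin.castSucc i : Fin (N + 1)) : ℕ)))
        ((H : ℤ) ^ (N - ((Fin.castSucc i : Fin (N + 1)) : ℕ)))
      else Finset.Icc 1 (B : ℤ)).card : ℝ) ≤ 3 * (H : ℝ) ^ (N - (i : ℕ)) := by
    intro i
    rw [if_pos (by simp), Int.card_Icc]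
    have e1 : ((H : ℤ) ^ (N - ((Fin.castSucc i : Fin (N + 1)) : ℕ)) + 1 -
        -(H : ℤ) ^ (N - ((Fin.castSucc i : Fin (N + 1)) : ℕ))).toNat = 2 * H ^ (N - (i : ℕ)) + 1 := by
      have : ((H : ℤ) ^ (N - ((Fin.castSucc i : Fin (N + 1)) : ℕ)) + 1 -
        -(H : ℤ) ^ (N - ((Fin.castSucc i : Fin (N + 1)) : ℕ))) = ((2 * H ^ (N - (i : ℕ)) + 1 : ℕ) : ℤ) := by
        push_cast
        simp only [Fin.val_castSucc]
        ring
      rw [this, Int.toNat_natCast]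
    rw [e1]
    have h2 : (1 : ℝ) ≤ (H : ℝ) ^ (N - (i : ℕ)) := one_le_pow₀ hH1
    push_cast
    linarith
  have h2 : ((if ((Fin.last N : Fin (N + 1)) : ℕ) < N then
      Finset.Icc (-(H : ℤ) ^ (N - ((Fin.last N : Fin (N + 1)) : ℕ)))
        ((H : ℤ) ^ (N - ((Fin.last N : Fin (N + 1)) : ℕ)))
      else Finset.Icc 1 (B : ℤ)).card : ℝ) = B := by
    rw [if_neg (by simp), Int.card_Icc]
    simp
  rw [Nat.cast_mul, Nat.cast_prod, h2]
  have h3 : (∏ i : Fin N, ((if ((Fin.castSucc i : Fin (N + 1)) : ℕ) < N then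
      Finset.Icc (-(H : ℤ) ^ (N - ((Fin.castSucc i : Fin (N + 1)) : ℕ)))
        ((H : ℤ) ^ (N - ((Fin.castSucc i : Fin (N + 1)) : ℕ)))
      else Finset.Icc 1 (B : ℤ)).card : ℝ)) ≤ ∏ i : Fin N, 3 * (H : ℝ) ^ (N - (i : ℕ)) :=
    Finset.prod_le_prod (fun _ _ => Nat.cast_nonneg _) fun i _ => h1 i
  have h4 : ∏ i : Fin N, 3 * (H : ℝ) ^ (N - (i : ℕ)) =
      3 ^ N * (H : ℝ) ^ (∑ i ∈ Finset.range N, (N - i)) := by
    rw [Finset.prod_mul_distrib, Finset.prod_const, Finset.card_univ, Fintype.card_fin,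
      Finset.prod_pow_eq_pow_sum, Fin.sum_univ_eq_sum_range (fun i => N - i) N]
  calc _ ≤ (∏ i : Fin N, 3 * (H : ℝ) ^ (N - (i : ℕ))) * (B : ℝ) :=
        mul_le_mul_of_nonneg_right h3 (Nat.cast_nonneg _)
    _ = _ := by rw [h4]; ring

theorem hFe : StFe := by
  intro g B H hH
  have hmaps : ∀ F ∈ FamE g B H, (fun i : Fin (2 * g + 2 + 1) => F.coeff (i : ℕ)) ∈
      ((box_Fe (2 * g + 2) B H : Finset (Fin (2 * g + 2 + 1) → ℤ)) :
        Set (Fin (2 * g + 2 + 1) → ℤ)) := by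
    rintro F ⟨hd, hl1, hl2, hc⟩
    rw [Finset.mem_coe, box_Fe, Fintype.mem_piFinset]
    intro i
    by_cases hi : (i : ℕ) < 2 * g + 2
    · rw [if_pos hi, Finset.mem_Icc]
      exact abs_le.1 (hc i (by omega))
    · rw [if_neg hi, Finset.mem_Icc]
      have hi' : (i : ℕ) = F.natDegree := by have := i.2; omega
      rw [hi']
      exact ⟨hl1, hl2⟩
  have hinj : Set.InjOn (fun (F : ℤ[X]) => fun i : Fin (2 * g + 2 + 1) => F.coeff (i : ℕ))
      (FamE g B H) := by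
    intro F hF G hG h
    ext k
    by_cases hk : k < 2 * g + 2 + 1
    · exact congrFun h ⟨k, hk⟩
    · rw [coeff_eq_zero_of_natDegree_lt (by rw [hF.1]; omega),
        coeff_eq_zero_of_natDegree_lt (by rw [hG.1]; omega)]
  refine ⟨Set.Finite.of_injOn hmaps hinj (Finset.finite_toSet _), ?_⟩
  have h1 : (FamE g B H).ncard ≤ (box_Fe (2 * g + 2) B H).card := by
    rw [← Set.ncard_coe_finset]
    exact Set.ncard_le_ncard_of_injOn _ hmaps hinj (Finset.finite_toSet _)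
  have h2 : ∑ i ∈ Finset.range (2 * g + 2), (2 * g + 2 - i) = (g + 1) * (2 * g + 3) := by
    have := sum_Fe (2 * g + 2)
    have h3 : (2 * g + 2) * (2 * g + 2 + 1) = 2 * ((g + 1) * (2 * g + 3)) := by ring
    omega
  calc ((FamE g B H).ncard : ℝ) ≤ ((box_Fe (2 * g + 2) B H).card : ℝ) := by exact_mod_cast h1
    _ ≤ _ := card_box_Fe (2 * g + 2) B H hH
    _ = _ := by rw [h2]

end Pool.Agent.Helper3.EV
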