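import Pool.Agent.Helper3.EV.StG

/-!
# EV, module Good: many good polynomials (assembly, choice of the constants)
-/

set_option autoImplicit false

namespace Pool.Agent.Helper3.EV

open Polynomial Finset Filter Topology Matrix IsDedekindDomain
open Pool.Agent.Helper54.HQ (Prm pz factPrm fK RR LL algRL th kp red Weak Fam)

private theorem exists_M_Good {C₁ C₂ e : ℝ} (he : 0 < e) :
    ∃ M : ℕ, 2 ≤ M ∧ C₁ / √(M : ℝ) + C₂ / (M : ℝ) ≤ e := by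
  have ht : Tendsto (fun M : ℕ => C₁ / √(M : ℝ) + C₂ / (M : ℝ)) atTop (𝓝 (0 + 0)) := by
    refine Tendsto.add ?_ ?_
    · refine Tendsto.div_atTop tendsto_const_nhds ?_
      exact Real.tendsto_sqrt_atTop.comp tendsto_natCast_atTop_atTop
    · exact Tendsto.div_atTop tendsto_const_nhds tendsto_natCast_atTop_atTop
  rw [add_zero] at ht
  have h3 := (ht.eventually (gt_mem_nhds he)).and (eventually_ge_atTop 2)
  obtain ⟨M, hM1, hM2⟩ := h3.exists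
  exact ⟨M, hM2, hM1.le⟩

private theorem sub_Good {g : ℕ} (hg : 1 ≤ g) (h6 : StWg) (h8 : StDe1)
    (h9 : StWb) {C C' : ℝ} {κ κ' : ℕ} (hC : 1 ≤ C) (hC' : 1 ≤ C')
    (hWf : ∀ H : ℕ, 1 ≤ H → ∀ f ∈ Reg g H,
      Irreducible (fK f) → f.map (Int.castRingHom (ZMod 2)) ∈ AType (ZMod 2) g →
      ∀ (T : Finset Prm), (∀ P ∈ T, f.map (red P) ∈ TType (kp P) g) →
      ∀ (M p : ℕ), p.Prime → p ≠ 2 → M < p → Weak p f →
        f ∈ BadSet g C' κ' H T ∪ DeepSet g C' κ' H M) {H M : ℕ} (hH : 1 ≤ H) (hM : 2 ≤ M)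
    (P₀ : Prm) (T : Finset Prm) :
    SvMain g H P₀ T M ⊆ {f | f ∈ Good g H P₀ T ∧ f ∉ BadSet g C κ H T} ∪
      (BadSet g (max C C') (max κ κ') H T ∪ (DeepSet g (max C C') (max κ κ') H M ∪
        {f | f ∈ Fam (2 * g + 2) H ∧ ∃ p : ℕ, p.Prime ∧ M < p ∧ Dbl p f})) := by
  intro f hf
  obtain ⟨hR, h2, hP0, hTT, hsm⟩ := hf
  have hmono := h6 g C (max C C') κ (max κ κ') H M T (by linarith) (le_max_left _ _)
    (le_max_left _ _)
  have hmono' := h6 g C' (max C C') κ' (max κ κ') H M T (by linarith) (le_max_right _ _)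
    (le_max_right _ _)
  by_cases hgood : ∀ p : ℕ, p.Prime → ¬ Weak p f ∧ ¬ Dbl p f
  · by_cases hb : f ∈ BadSet g C κ H T
    · exact Or.inr (Or.inl (hmono.1 hb))
    · exact Or.inl ⟨⟨hR, h2, hP0, hTT, hgood⟩, hb⟩
  · push Not at hgood
    obtain ⟨p, hp, hps⟩ := hgood
    have hMp : M < p := by
      by_contra hle
      push Not at hle
      have h1 := hsm p hp hle
      exact h1.2 (hps h1.1)
    by_cases hw : Weak p f
    · have hi := (h8 f hR.1 P₀ hP0.2.1).1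
      rcases hWf H hH f hR hi h2 T hTT M p hp (by omega) hMp hw with h | h
      · exact Or.inr (Or.inl (hmono'.1 h))
      · exact Or.inr (Or.inr (Or.inl (hmono'.2 h)))
    · exact Or.inr (Or.inr (Or.inr ⟨(h9 g H hg f hR).1, p, hp, hMp, hps hw⟩))

theorem hGood (h1 : StSieve) (h2 : StU) (h3 : StDeep) (h4 : StDbl) (h5 : StWf)
    (h6 : StWg) (h7 : StDn) (h8 : StDe1) (h9 : StWb) (h10 : StTa) : StGood := by
  intro g hg C κ hC
  obtain ⟨C', κ', hC', hWf⟩ := h5 g hg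
  have h0 : (0 : ℝ) ≤ max C C' := le_max_of_le_left (by linarith)
  obtain ⟨hdens, hT⟩ := h7 g hg
  obtain ⟨T₀, hT₀c, -, hT₀p⟩ := hT ⟨2, Nat.prime_two⟩ 1
  obtain ⟨P₀, hP₀⟩ : ∃ P₀, P₀ ∈ T₀ := by
    obtain ⟨a, ha⟩ := Finset.card_eq_one.1 hT₀c
    exact ⟨a, by rw [ha]; exact Finset.mem_singleton_self a⟩
  have hP8 : (P₀ : ℕ) % 8 = 1 := (hT₀p P₀ hP₀).1
  have hPg : 2 * g + 2 < (P₀ : ℕ) := (hT₀p P₀ hP₀).2
  obtain ⟨c₀, hc₀, hSv⟩ := h1 g hg P₀ hPg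
  obtain ⟨C₀, hC₀, hU⟩ := h2 g hg (max C C') (max κ κ') h0
  obtain ⟨C₁, hC₁, hD⟩ := h3 g hg (max C C') (max κ κ') h0
  obtain ⟨C₂, hC₂, hS⟩ := h4 g hg
  obtain ⟨n, hn⟩ := exists_pow_lt_of_lt_one (show 0 < c₀ / (4 * C₀) by positivity)
    (show (1 / 2 : ℝ) < 1 by norm_num)
  obtain ⟨T, hTc, hP₀T, hTp⟩ := hT P₀ n
  have hT2 : ∀ P ∈ T, (P : ℕ) ≠ 2 := fun P hP => by
    have := (hTp P hP).2
    omega
  set d : ℝ := ∏ P ∈ T, dens g P with hd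
  have hd0 : 0 < d := Finset.prod_pos fun P _ => hdens P
  obtain ⟨M, hM2, hM⟩ := exists_M_Good (C₁ := C₁) (C₂ := C₂) (show 0 < c₀ * d / 8 by positivity)
  refine ⟨P₀, T, c₀ * d / 2, hP8, hP₀T, fun P hP => (hTp P hP).1, by positivity, ?_⟩
  filter_upwards [hSv T hP₀T (fun P hP => (hTp P hP).2) M,
    hU T hT2 (c₀ * d / 8) (by positivity), eventually_ge_atTop (M + (2 * g + 2))]
    with H hH1 hH2 hH3
  have hH : 1 ≤ H := by omega
  have hFam : (Fam (2 * g + 2) H).Finite := (h10 (2 * g + 2) H (by omega)).1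
  have hGfin : {f | f ∈ Good g H P₀ T ∧ f ∉ BadSet g C κ H T}.Finite :=
    hFam.subset fun f hf => (h9 g H hg f hf.1.1).1
  refine ⟨hGfin, ?_⟩
  have hDD := hD M (by omega) H hH
  have hSS := hS M H (by omega) (by omega) (by omega)
  have hSfin : {f | f ∈ Fam (2 * g + 2) H ∧ ∃ p : ℕ, p.Prime ∧ M < p ∧ Dbl p f}.Finite :=
    hFam.subset fun f hf => hf.1
  have hsub := sub_Good (κ := κ) (κ' := κ') hg h6 h8 h9 hC hC' hWf hH hM2 P₀ T
  have hcard : ((SvMain g H P₀ T M).ncard : ℝ) ≤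
      ({f | f ∈ Good g H P₀ T ∧ f ∉ BadSet g C κ H T}.ncard : ℝ) +
        (((BadSet g (max C C') (max κ κ') H T).ncard : ℝ) +
          (((DeepSet g (max C C') (max κ κ') H M).ncard : ℝ) +
          ({f | f ∈ Fam (2 * g + 2) H ∧ ∃ p : ℕ, p.Prime ∧ M < p ∧ Dbl p f}.ncard : ℝ))) := by
    have e1 := Set.ncard_le_ncard hsub (hGfin.union (hH2.1.union (hDD.1.union hSfin)))
    have e2 := Set.ncard_union_le {f | f ∈ Good g H P₀ T ∧ f ∉ BadSet g C κ H T}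
      (BadSet g (max C C') (max κ κ') H T ∪ (DeepSet g (max C C') (max κ κ') H M ∪
        {f | f ∈ Fam (2 * g + 2) H ∧ ∃ p : ℕ, p.Prime ∧ M < p ∧ Dbl p f}))
    have e3 := Set.ncard_union_le (BadSet g (max C C') (max κ κ') H T)
      (DeepSet g (max C C') (max κ κ') H M ∪
        {f | f ∈ Fam (2 * g + 2) H ∧ ∃ p : ℕ, p.Prime ∧ M < p ∧ Dbl p f})
    have e4 := Set.ncard_union_le (DeepSet g (max C C') (max κ κ') H M)
        {f | f ∈ Fam (2 * g + 2) H ∧ ∃ p : ℕ, p.Prime ∧ M < p ∧ Dbl p f}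
    have e5 := e1.trans (e2.trans (Nat.add_le_add_left (e3.trans (Nat.add_le_add_left e4 _)) _))
    exact_mod_cast e5
  have hHn : 0 ≤ (H : ℝ) ^ ((g + 1) * (2 * g + 3)) := by positivity
  have hk1 : C₀ * ((1 / 2 : ℝ) ^ T.card * d) ≤ c₀ * d / 4 := by
    rw [hTc]
    have h11 : C₀ * (1 / 2 : ℝ) ^ n ≤ c₀ / 4 := by
      have h12 := mul_le_mul_of_nonneg_left hn.le hC₀.le
      calc C₀ * (1 / 2 : ℝ) ^ n ≤ C₀ * (c₀ / (4 * C₀)) := h12
        _ = c₀ / 4 := by field_simp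
    calc C₀ * ((1 / 2 : ℝ) ^ n * d) = C₀ * (1 / 2 : ℝ) ^ n * d := by ring
      _ ≤ c₀ / 4 * d := mul_le_mul_of_nonneg_right h11 hd0.le
      _ = c₀ * d / 4 := by ring
  have hk2 := mul_le_mul_of_nonneg_right hk1 hHn
  have hk3 := mul_le_mul_of_nonneg_right hM hHn
  have hk4 := hH2.2
  have hk5 := hH1.2
  have hk6 := hDD.2
  rw [add_mul] at hk3 hk4
  nlinarith [hk2, hk3, hk4, hk5, hk6, hSS, hcard]

end Pool.Agent.Helper3.EV
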