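import Pool.Agent.Helper3.EV.StR
import Pool.Agent.Helper54.HQ.M_Ma
import Pool.Agent.Helper54.HQ.M_Mb

/-!
# EV: Me, the real matrix of the canonical metric
-/

set_option autoImplicit false

namespace Pool.Agent.Helper3.EV

open Polynomial Finset Filter Topology Matrix IsDedekindDomain
open Pool.Agent.Helper3.HY (co tau)
open Pool.Agent.Helper54.HQ (Prm pz factPrm fK RR LL algRL th kp red Bf Smooth NearOne LocSq Weak Fam qS
  toR IsRed rts evc met)

private lemma aeval_conj_Me (f : ℤ[X]) (ρ : ℂ) :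
    aeval ((starRingEnd ℂ) ρ) f = (starRingEnd ℂ) (aeval ρ f) := by
  rw [aeval_def, aeval_def, Polynomial.hom_eval₂]
  congr 1
  exact (RingHom.ext_int _ _)

private lemma mem_rts_Me {f : ℤ[X]} (hm : f.Monic) (ρ : ℂ) : ρ ∈ rts f ↔ aeval ρ f = 0 := by
  have h0 : f.map (Int.castRingHom ℂ) ≠ 0 := (hm.map _).ne_zero
  rw [rts, Multiset.mem_toFinset, mem_roots h0, IsRoot, eval_map, aeval_def]
  rfl

private lemma conj_mem_rts_Me {f : ℤ[X]} (hm : f.Monic) {ρ : ℂ} (h : ρ ∈ rts f) :
    (starRingEnd ℂ) ρ ∈ rts f := by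
  rw [mem_rts_Me hm] at h ⊢
  rw [aeval_conj_Me, h, map_zero]

private lemma sum_rts_conj_Me {f : ℤ[X]} (hm : f.Monic) (F : ℂ → ℂ) :
    ∑ ρ ∈ rts f, F ((starRingEnd ℂ) ρ) = ∑ ρ ∈ rts f, F ρ := by
  refine Finset.sum_nbij' (fun ρ => (starRingEnd ℂ) ρ) (fun ρ => (starRingEnd ℂ) ρ)
    (fun ρ h => conj_mem_rts_Me hm h) (fun ρ h => conj_mem_rts_Me hm h)
    (fun ρ _ => Complex.conj_conj ρ) (fun ρ _ => Complex.conj_conj ρ) (fun ρ _ => rfl)

theorem hMe : StMe := by
  classical
  intro g f hm hdeg hirr z hz e hdet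
  have hN : 1 ≤ f.natDegree := by omega
  obtain ⟨hlin, hmul, hth, hroot, hconj⟩ := Pool.Agent.Helper54.HQ.hMa f hm hN
  obtain ⟨hcard, hder, htau⟩ := Pool.Agent.Helper54.HQ.hMb f hm hN hirr.separable
  have hc : Fintype.card (Jx g) = Fintype.card (rts f) := by
    rw [Fintype.card_fin, Fintype.card_coe, hcard, hdeg]
  let σ : Jx g ≃ rts f := Fintype.equivOfCardEq hc
  set R : Jx g → ℂ := fun k => (σ k : ℂ) with hR
  have hRm : ∀ k, R k ∈ rts f := fun k => (σ k).2
  have hsumC : ∀ F : ℂ → ℂ, ∑ ρ ∈ rts f, F ρ = ∑ k, F (R k) := by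
    intro F
    rw [← Finset.sum_coe_sort (rts f) F]
    exact (Equiv.sum_comp σ (fun ρ : rts f => F ρ)).symm
  have hsumR : ∀ F : ℂ → ℝ, ∑ ρ ∈ rts f, F ρ = ∑ k, F (R k) := by
    intro F
    rw [← Finset.sum_coe_sort (rts f) F]
    exact (Equiv.sum_comp σ (fun ρ : rts f => F ρ)).symm
  set V : Matrix (Jx g) (Jx g) ℂ := Matrix.of fun k i => evc hm (R k) (e i) with hV
  set wt : ℂ → ℝ := fun ρ => ‖evc hm ρ z‖ / ‖aeval ρ (derivative f)‖ with hwt
  set w : Jx g → ℝ := fun k => wt (R k) with hw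
  set S : Matrix (Jx g) (Jx g) ℝ :=
    Matrix.of fun i j => ∑ k, w k * ((starRingEnd ℂ) (V k i) * V k j).re with hS
  -- the Gram matrix
  set B : Matrix (Jx g) (Jx g) ℚ := Matrix.of fun i j => Bf hm z (e i) (e j) with hB
  have hBV : B.map (algebraMap ℚ ℂ) = Vᵀ * Matrix.diagonal
      (fun k => evc hm (R k) z / aeval (R k) (derivative f)) * V := by
    ext i j
    rw [Matrix.map_apply, Matrix.mul_apply]
    have h3 : (algebraMap ℚ ℂ) (B i j) =
        ((tau (hm.map (Int.castRingHom ℚ)) (z * e i * e j) : ℚ) : ℂ) := rfl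
    rw [h3, htau, hsumC]
    apply Finset.sum_congr rfl
    intro k _
    rw [Matrix.mul_diagonal, Matrix.transpose_apply, hmul _ (hRm k), hmul _ (hRm k)]
    simp only [hV, Matrix.of_apply]
    ring
  have hdetB : (algebraMap ℚ ℂ) B.det = V.det * (∏ k, (evc hm (R k) z /
      aeval (R k) (derivative f))) * V.det := by
    have h3 := congrArg Matrix.det hBV
    rw [Matrix.det_mul, Matrix.det_mul, Matrix.det_diagonal, Matrix.det_transpose] at h3
    rw [← h3, RingHom.map_det]
    rfl
  have hnorm : ‖V.det‖ * (∏ k, w k) * ‖V.det‖ = 1 := by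
    have h3 := congrArg norm hdetB
    rw [norm_mul, norm_mul, norm_prod] at h3
    have h4 : ‖(algebraMap ℚ ℂ) B.det‖ = 1 := by
      have h5 : (algebraMap ℚ ℂ) B.det = ((B.det : ℚ) : ℂ) := rfl
      rw [h5, Complex.norm_ratCast]
      have h6 : |B.det| = 1 := hdet
      exact_mod_cast h6
    rw [h4] at h3
    rw [h3]
    congr 2
    apply Finset.prod_congr rfl
    intro k _
    rw [norm_div]
  have hVdet : V.det ≠ 0 := by
    intro h
    rw [h, norm_zero] at hnorm
    simp at hnorm
  have hw0 : ∀ k, 0 ≤ w k := fun k => by positivity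
  have hwpos : ∀ k, 0 < w k := by
    intro k
    refine lt_of_le_of_ne (hw0 k) ?_
    intro h
    have h3 : ∏ k, w k = 0 := Finset.prod_eq_zero (Finset.mem_univ k) h.symm
    rw [h3] at hnorm
    simp at hnorm
  -- the real form
  have hq : ∀ x : Jx g → ℝ, x ⬝ᵥ S *ᵥ x = ∑ k, w k * ‖∑ i, (x i : ℂ) * V k i‖ ^ 2 := by
    intro x
    have h3 : ∀ k, ‖∑ i, (x i : ℂ) * V k i‖ ^ 2 =
        ∑ i, ∑ j, x i * x j * ((starRingEnd ℂ) (V k i) * V k j).re := by
      intro k
      rw [← Complex.normSq_eq_norm_sq, ← Complex.ofReal_re (Complex.normSq _),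
        Complex.normSq_eq_conj_mul_self, map_sum, Finset.sum_mul_sum, Complex.re_sum]
      apply Finset.sum_congr rfl
      intro i _
      rw [Complex.re_sum]
      apply Finset.sum_congr rfl
      intro j _
      rw [map_mul, Complex.conj_ofReal,
        show (x i : ℂ) * (starRingEnd ℂ) (V k i) * ((x j : ℂ) * V k j) =
          ((x i * x j : ℝ) : ℂ) * ((starRingEnd ℂ) (V k i) * V k j) by push_cast; ring,
        Complex.re_ofReal_mul]
    simp only [h3]
    have h4 : ∑ k, w k * ∑ i, ∑ j, x i * x j * ((starRingEnd ℂ) (V k i) * V k j).re =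
        ∑ i, ∑ j, ∑ k, w k * (x i * x j * ((starRingEnd ℂ) (V k i) * V k j).re) := by
      simp only [Finset.mul_sum]
      rw [Finset.sum_comm]
      apply Finset.sum_congr rfl
      intro i _
      rw [Finset.sum_comm]
    rw [h4, dotProduct]
    apply Finset.sum_congr rfl
    intro i _
    rw [Matrix.mulVec, dotProduct, Finset.mul_sum]
    apply Finset.sum_congr rfl
    intro j _
    simp only [hS, Matrix.of_apply]
    rw [Finset.sum_mul, Finset.mul_sum]
    apply Finset.sum_congr rfl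
    intro k _
    ring
  -- symmetry
  have hSsymm : S.IsHermitian := by
    ext i j
    simp only [Matrix.conjTranspose_apply, hS, Matrix.of_apply, star_trivial]
    apply Finset.sum_congr rfl
    intro k _
    congr 1
    rw [← Complex.conj_re ((starRingEnd ℂ) (V k j) * V k i), map_mul, Complex.conj_conj,
      mul_comm]
  have hpos : S.PosDef := by
    refine Matrix.PosDef.of_dotProduct_mulVec_pos hSsymm ?_
    intro x hx
    rw [star_trivial, hq]
    have hne : (V *ᵥ fun i => (x i : ℂ)) ≠ 0 := by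
      intro h
      have h3 := Matrix.eq_zero_of_mulVec_eq_zero hVdet h
      apply hx
      ext i
      have := congrFun h3 i
      simpa using this
    obtain ⟨k, hk⟩ := Function.ne_iff.1 hne
    apply Finset.sum_pos'
    · intro k _
      have := hw0 k
      positivity
    · refine ⟨k, Finset.mem_univ k, ?_⟩
      have h3 : ∑ i, (x i : ℂ) * V k i = (V *ᵥ fun i => (x i : ℂ)) k := by
        rw [Matrix.mulVec, dotProduct]
        apply Finset.sum_congr rfl
        intro i _
        ring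
      rw [h3]
      have h4 : 0 < ‖(V *ᵥ fun i => (x i : ℂ)) k‖ := norm_pos_iff.2 hk
      have := hwpos k
      positivity
  -- the determinant
  have hSV : S.map (algebraMap ℝ ℂ) = Vᴴ * Matrix.diagonal (fun k => (w k : ℂ)) * V := by
    ext i j
    rw [Matrix.map_apply, Matrix.mul_apply]
    set F : ℂ → ℂ := fun ρ => (starRingEnd ℂ) (evc hm ρ (e i)) * (wt ρ : ℂ) * evc hm ρ (e j)
      with hF
    have h3 : ∑ k, (Vᴴ * Matrix.diagonal (fun k => (w k : ℂ))) i k * V k j =
        ∑ ρ ∈ rts f, F ρ := by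
      rw [hsumC]
      apply Finset.sum_congr rfl
      intro k _
      rw [Matrix.mul_diagonal, Matrix.conjTranspose_apply]
      rfl
    rw [h3]
    have h4 : (starRingEnd ℂ) (∑ ρ ∈ rts f, F ρ) = ∑ ρ ∈ rts f, F ρ := by
      rw [map_sum, ← sum_rts_conj_Me hm F]
      apply Finset.sum_congr rfl
      intro ρ _
      simp only [hF, hwt]
      rw [hconj, hconj, hconj, aeval_conj_Me, RCLike.norm_conj, RCLike.norm_conj, map_mul,
        map_mul, Complex.conj_ofReal]
    have h5 : (algebraMap ℝ ℂ) (S i j) = (((∑ ρ ∈ rts f, F ρ).re : ℝ) : ℂ) := by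
      change ((S i j : ℝ) : ℂ) = _
      congr 1
      rw [hsumC, Complex.re_sum]
      simp only [hS, Matrix.of_apply]
      apply Finset.sum_congr rfl
      intro k _
      rw [hF]
      simp only
      rw [show (starRingEnd ℂ) (evc hm (R k) (e i)) * (wt (R k) : ℂ) * evc hm (R k) (e j) =
        (wt (R k) : ℂ) * ((starRingEnd ℂ) (evc hm (R k) (e i)) * evc hm (R k) (e j)) by ring,
        Complex.re_ofReal_mul]
      rfl
    rw [h5]
    exact Complex.conj_eq_iff_re.1 h4
  have hdetS : S.det = 1 := by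
    have h3 := congrArg Matrix.det hSV
    rw [Matrix.det_mul, Matrix.det_mul, Matrix.det_diagonal, Matrix.det_conjTranspose] at h3
    have h4 : (S.map (algebraMap ℝ ℂ)).det = ((S.det : ℝ) : ℂ) := by
      have := (RingHom.map_det (algebraMap ℝ ℂ) S).symm
      exact this
    rw [h4] at h3
    have h5 : (star V.det * ∏ k, (w k : ℂ)) * V.det =
        ((‖V.det‖ * (∏ k, w k) * ‖V.det‖ : ℝ) : ℂ) := by
      push_cast
      have h6 : star V.det * V.det = ((‖V.det‖ : ℝ) : ℂ) ^ 2 := by
        have := Complex.conj_mul' V.det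
        exact this
      calc (star V.det * ∏ k, (w k : ℂ)) * V.det = (star V.det * V.det) * ∏ k, (w k : ℂ) := by
            ring
        _ = _ := by rw [h6]; ring
    rw [h5, hnorm] at h3
    exact_mod_cast h3
  refine ⟨S, hpos, hdetS, ?_⟩
  intro x
  rw [qS, hq]
  have hev : ∀ ρ : ℂ, evc hm ρ (∑ i, (x i : ℚ) • e i) = ∑ i, (x i : ℂ) * evc hm ρ (e i) := by
    intro ρ
    have h3 : ∀ s : Finset (Jx g), evc hm ρ (∑ i ∈ s, (x i : ℚ) • e i) =
        ∑ i ∈ s, (x i : ℂ) * evc hm ρ (e i) := by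
      intro s
      induction s using Finset.induction_on with
      | empty =>
        rw [Finset.sum_empty, Finset.sum_empty]
        have := (hlin ρ 0 0 0).2
        simpa using this
      | insert a s ha ih =>
        rw [Finset.sum_insert ha, Finset.sum_insert ha, (hlin ρ _ _ 0).1, ih, (hlin ρ _ 0 _).2]
        push_cast
        rfl
    exact h3 _
  rw [met, hsumR]
  apply Finset.sum_congr rfl
  intro k _
  rw [hev]
  simp only [hw, hwt, hV, Matrix.of_apply]
  push_cast
  ring

end Pool.Agent.Helper3.EV
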