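import Pool.Agent.Helper3.EV.StR
import Pool.Agent.Helper54.HQ.Base

/-!
# EV: Mg, change of basis
-/

set_option autoImplicit false

namespace Pool.Agent.Helper3.EV

open Polynomial Finset Filter Topology Matrix IsDedekindDomain
open Pool.Agent.Helper3.HY (co tau)
open Pool.Agent.Helper54.HQ (Prm pz factPrm fK RR LL algRL th kp red Bf)

theorem hMg (_hMf : StMf) : StMg := by
  classical
  intro g f hm hdeg hirr z e B T U hI hU
  obtain ⟨hgram, hunit, hmat⟩ := hI
  set UQ : Matrix (Jx g) (Jx g) ℚ := U.map (Int.castRingHom ℚ) with hUQ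
  have hUQdet : IsUnit UQ.det := by
    have h1 : UQ.det = Int.castRingHom ℚ U.det := by
      rw [RingHom.map_det]
      rfl
    rw [h1]
    exact hU.map _
  set e' : Module.Basis (Jx g) ℚ (LL f) := e.map (Matrix.toLinearEquiv e UQ hUQdet) with he'
  have he'j : ∀ j, e' j = ∑ i, ((U i j : ℤ) : ℚ) • e i := by
    intro j
    rw [he', Module.Basis.map_apply, Matrix.toLinearEquiv_apply, Matrix.toLin_self]
    rfl
  set T' : Matrix (Jx g) (Jx g) ℤ := U⁻¹ * T * U with hT'
  have hUT : U * T' = T * U := by
    rw [hT', ← mul_assoc, ← mul_assoc, Matrix.mul_nonsing_inv U hU, one_mul]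
  refine ⟨e', T', ⟨?_, ?_, ?_⟩, he'j, ?_⟩
  · intro i j
    rw [he'j, he'j, map_sum]
    have h1 : (((Uᵀ * B * U) i j : ℤ) : ℚ) =
        ∑ l, ∑ k, ((U k i : ℤ) : ℚ) * ((B k l : ℤ) : ℚ) * ((U l j : ℤ) : ℚ) := by
      rw [Matrix.mul_apply]
      push_cast
      apply Finset.sum_congr rfl
      intro l _
      rw [Matrix.mul_apply]
      push_cast
      rw [Finset.sum_mul]
      rfl
    rw [h1]
    apply Finset.sum_congr rfl
    intro l _
    rw [map_smul, map_sum, LinearMap.sum_apply, Finset.smul_sum]
    apply Finset.sum_congr rfl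
    intro k _
    rw [map_smul, LinearMap.smul_apply, hgram, smul_eq_mul, smul_eq_mul]
    ring
  · rw [Matrix.det_mul, Matrix.det_mul, Matrix.det_transpose]
    exact (hU.mul hunit).mul hU
  · intro j
    rw [he'j, Finset.mul_sum]
    have h1 : ∀ k, ∑ i, (((U k i : ℤ) : ℚ) * ((T' i j : ℤ) : ℚ)) =
        ∑ i, (((T k i : ℤ) : ℚ) * ((U i j : ℤ) : ℚ)) := by
      intro k
      have h2 := congrFun (congrFun hUT k) j
      rw [Matrix.mul_apply, Matrix.mul_apply] at h2
      exact_mod_cast h2
    calc ∑ i, th f * (((U i j : ℤ) : ℚ) • e i)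
        = ∑ i, ∑ k, ((((T k i : ℤ) : ℚ) * ((U i j : ℤ) : ℚ)) • e k) := by
          apply Finset.sum_congr rfl
          intro i _
          rw [mul_smul_comm, hmat, Finset.smul_sum]
          apply Finset.sum_congr rfl
          intro k _
          rw [smul_smul, mul_comm]
      _ = ∑ k, (∑ i, (((T k i : ℤ) : ℚ) * ((U i j : ℤ) : ℚ))) • e k := by
          rw [Finset.sum_comm]
          apply Finset.sum_congr rfl
          intro k _
          rw [Finset.sum_smul]
      _ = ∑ k, (∑ i, (((U k i : ℤ) : ℚ) * ((T' i j : ℤ) : ℚ))) • e k := by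
          apply Finset.sum_congr rfl
          intro k _
          rw [h1]
      _ = ∑ i, ((T' i j : ℤ) : ℚ) • e' i := by
          simp only [Finset.sum_smul]
          rw [Finset.sum_comm]
          apply Finset.sum_congr rfl
          intro i _
          rw [he'j, Finset.smul_sum]
          apply Finset.sum_congr rfl
          intro k _
          rw [smul_smul, mul_comm]
  · rw [mul_assoc (Uᵀ * B) U T', hUT]
    simp only [mul_assoc]

end Pool.Agent.Helper3.EV
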