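import Pool.Agent.Helper3.EV.StR
import Pool.Agent.Helper54.HQ.Base

/-!
# EV module Mh: the pair of an integral structure (assembly)
-/

set_option autoImplicit false

namespace Pool.Agent.Helper3.EV

open Polynomial Finset Filter Topology Matrix IsDedekindDomain
open Pool.Agent.Helper3.HY (co tau)
open Pool.Agent.Helper54.HQ (Prm pz factPrm fK RR LL algRL th kp red Bf Smooth NearOne LocSq Weak Fam qS
  toR IsRed rts evc met)

/-- The form on integral combinations of the basis. -/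
private theorem form_Mh {g : ℕ} {f : ℤ[X]} (hm : f.Monic) (z : LL f)
    (e : Module.Basis (Jx g) ℚ (LL f)) (B T : Matrix (Jx g) (Jx g) ℤ) (hI : IsInt hm z e B T)
    (x y : Jx g → ℤ) :
    Bf hm z (∑ i, (x i : ℚ) • e i) (∑ j, (y j : ℚ) • e j) = ((x ⬝ᵥ B *ᵥ y : ℤ) : ℚ) := by
  have h1 : ∀ j, Bf hm z (∑ i, (x i : ℚ) • e i) ((y j : ℚ) • e j) =
      ∑ i, (x i : ℚ) * ((B i j : ℚ) * (y j : ℚ)) := by
    intro j
    rw [LinearMap.map_smul, LinearMap.map_sum₂, smul_eq_mul, Finset.mul_sum]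
    refine Finset.sum_congr rfl fun i _ => ?_
    rw [LinearMap.map_smul₂, hI.gram, smul_eq_mul]
    ring
  rw [map_sum, Finset.sum_congr rfl fun j _ => h1 j, Finset.sum_comm]
  simp only [dotProduct, mulVec]
  push_cast
  refine Finset.sum_congr rfl fun i _ => ?_
  rw [Finset.mul_sum]

/-- The coordinates of `θ x`. -/
private theorem coord_Mh {g : ℕ} {f : ℤ[X]} (hm : f.Monic) (z : LL f)
    (e : Module.Basis (Jx g) ℚ (LL f)) (B T : Matrix (Jx g) (Jx g) ℤ) (hI : IsInt hm z e B T)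
    (x : Jx g → ℤ) :
    ∑ i, (((T *ᵥ x) i : ℤ) : ℚ) • e i = th f * ∑ i, (x i : ℚ) • e i := by
  rw [Finset.mul_sum]
  simp only [mul_smul_comm, hI.mat]
  simp only [Finset.smul_sum, smul_smul]
  rw [Finset.sum_comm]
  refine Finset.sum_congr rfl fun i _ => ?_
  rw [← Finset.sum_smul]
  congr 1
  simp only [mulVec, dotProduct]
  push_cast
  refine Finset.sum_congr rfl fun j _ => ?_
  ring

theorem hMh (hMd : Pool.Agent.Helper54.HQ.StMd) (hMe : StMe) (hMf : StMf) (hMg : StMg) (hRh : StRh) : StMh := by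
  intro g hg
  obtain ⟨C, κ, hC, hRh'⟩ := hRh g hg
  refine ⟨C, κ, hC, ?_⟩
  intro H hH f hf hm hirr z hz e B T hI
  have hdeg : f.natDegree = 2 * g + 2 := hf.2.1
  have hsep : (fK f).Separable := hirr.separable
  obtain ⟨hBs, hBTs, hchar, -, -⟩ := hMf g f hm hdeg hirr z e B T hI
  have hdet : |(Matrix.of fun i j => Bf hm z (e i) (e j)).det| = 1 := by
    have h6 : (Matrix.of fun i j => Bf hm z (e i) (e j)) = B.map (Int.castRingHom ℚ) := by
      ext i j
      rw [Matrix.of_apply, hI.gram, Matrix.map_apply, eq_intCast]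
    have h7 : (B.map (Int.castRingHom ℚ)).det = ((B.det : ℤ) : ℚ) := by
      have := (RingHom.map_det (Int.castRingHom ℚ) B).symm
      rw [RingHom.mapMatrix_apply] at this
      rw [this, eq_intCast]
    rw [h6, h7]
    rcases Int.isUnit_iff.1 hI.unit with h8 | h8 <;> rw [h8] <;> simp
  obtain ⟨S, hS, hS1, hSm⟩ := hMe g f hm hdeg hirr z hz e hdet
  obtain ⟨hd1, hd2⟩ := hMd (2 * g + 2) H (by omega) f hf hm hsep z
  have hc1 : ∀ x y : Jx g → ℤ, (((x ⬝ᵥ B *ᵥ y : ℤ)) : ℝ) ^ 2 ≤ qS S x * qS S y := by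
    intro x y
    rw [hSm, hSm]
    have h6 := hd1 (∑ i, (x i : ℚ) • e i) (∑ j, (y j : ℚ) • e j)
    rw [form_Mh hm z e B T hI] at h6
    have h7 : (((x ⬝ᵥ B *ᵥ y : ℤ) : ℚ) : ℝ) = ((x ⬝ᵥ B *ᵥ y : ℤ) : ℝ) := by norm_cast
    rw [h7] at h6
    exact h6
  have hc2 : ∀ x : Jx g → ℤ, qS S (T *ᵥ x) ≤ (2 * (H : ℝ)) ^ 2 * qS S x := by
    intro x
    rw [hSm, hSm, coord_Mh hm z e B T hI]
    exact hd2 _
  have hTi : Irreducible (T.charpoly.map (Int.castRingHom ℚ)) := by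
    rw [hchar]; exact hirr
  obtain ⟨U, m, hU, hDA, hBox, hcol, hcusp⟩ :=
    hRh' H hH S B T hS hS1 hBs hI.unit hBTs hTi hc1 hc2
  obtain ⟨e', T', hI', he', hBT⟩ := hMg g f hm hdeg hirr z e B T U hI hU
  refine ⟨U, e', Uᵀ * B * U, T', m, hU, he', hI', hDA, ?_, ?_, ?_⟩
  · rw [hBT]; exact hBox
  · intro j
    have h6 := hcol j
    rw [hSm] at h6
    rw [he' j]
    exact h6
  · rw [hBT]; exact hcusp

end Pool.Agent.Helper3.EV

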