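import Pool.Agent.Helper3.EV.StC

/-!
# EV, module Nq: no quadratic subfield
-/

set_option autoImplicit false

namespace Pool.Agent.Helper3.EV

open Polynomial NumberField Module
open Pool.Agent.Helper54.HQ (fK LL th)

/-- The residue field argument: an irreducible polynomial of odd degree `2 g + 1` over `ZMod 2` does not
divide a product of two polynomials of degree `g + 1` over a field of order dividing `4`. -/
private theorem res_Nq (g : ℕ) (hg : 1 ≤ g) (F : Type) [Field F] [Algebra (ZMod 2) F] [Finite F]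
    (hF : Nat.card F ∣ 4) (p : (ZMod 2)[X]) (hp : Irreducible p) (hpm : p.Monic)
    (hpd : p.natDegree = 2 * g + 1) (h q : F[X]) (hh : h.Monic) (hq : q.Monic)
    (hhd : h.natDegree = g + 1) (hqd : q.natDegree = g + 1)
    (hdvd : p.map (algebraMap (ZMod 2) F) ∣ h * q) : False := by
  classical
  haveI : FiniteDimensional (ZMod 2) F := Module.Finite.of_finite
  have hcard : Nat.card F = 2 ^ finrank (ZMod 2) F := by
    have := Module.natCard_eq_pow_finrank (K := ZMod 2) (V := F)
    rwa [Nat.card_zmod] at this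
  have hn : finrank (ZMod 2) F ≤ 2 := by
    by_contra hlt
    push Not at hlt
    have h8 : 8 ∣ Nat.card F := by
      rw [hcard]; exact (pow_dvd_pow 2 hlt : 2 ^ 3 ∣ 2 ^ finrank (ZMod 2) F)
    have := h8.trans hF
    omega
  have hnpos : 0 < finrank (ZMod 2) F := finrank_pos
  set Ω := AlgebraicClosure F
  have hpd0 : (p.map (algebraMap (ZMod 2) F)).degree ≠ 0 := by
    rw [degree_map, degree_eq_natDegree hpm.ne_zero, hpd]
    exact_mod_cast (by omega : 2 * g + 1 ≠ 0)
  obtain ⟨α, hα⟩ := IsAlgClosed.exists_aeval_eq_zero Ω (p.map (algebraMap (ZMod 2) F)) hpd0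
  have hα2 : aeval α p = 0 := by
    rwa [aeval_map_algebraMap] at hα
  have hhq : aeval α (h * q) = 0 := by
    obtain ⟨r, hr⟩ := hdvd
    rw [hr, map_mul, hα, zero_mul]
  have key : ∀ h : F[X], h.Monic → h.natDegree = g + 1 → aeval α h = 0 → False := by
    intro h hh hhd hα3
    have hint : IsIntegral F α := ⟨h, hh, by rwa [← aeval_def]⟩
    have hle : (minpoly F α).natDegree ≤ g + 1 := by
      rw [← hhd]
      exact natDegree_le_of_dvd (minpoly.dvd F α hα3) hh.ne_zero
    haveI : FiniteDimensional F (IntermediateField.adjoin F {α}) :=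
      IntermediateField.adjoin.finiteDimensional hint
    have hfr : finrank F (IntermediateField.adjoin F {α}) = (minpoly F α).natDegree :=
      IntermediateField.adjoin.finrank hint
    have hmul : finrank (ZMod 2) F * finrank F (IntermediateField.adjoin F {α}) =
        finrank (ZMod 2) (IntermediateField.adjoin F {α}) := Module.finrank_mul_finrank _ _ _
    haveI : FiniteDimensional (ZMod 2) (IntermediateField.adjoin F {α}) :=
      Module.Finite.trans F _
    set β : IntermediateField.adjoin F {α} := IntermediateField.AdjoinSimple.gen F α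
    have hβ : aeval β p = 0 := by
      have h1 : algebraMap (IntermediateField.adjoin F {α}) Ω (aeval β p) = 0 := by
        rw [← aeval_algebraMap_apply]
        exact hα2
      exact (map_eq_zero_iff _ (algebraMap (IntermediateField.adjoin F {α}) Ω).injective).1 h1
    have hmin : minpoly (ZMod 2) β = p := (minpoly.eq_of_irreducible_of_monic hp hβ hpm).symm
    have hdv : p.natDegree ∣ finrank (ZMod 2) (IntermediateField.adjoin F {α}) := by
      rw [← hmin]
      exact minpoly.degree_dvd (IsIntegral.of_finite (ZMod 2) β)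
    rw [← hmul, hfr, hpd] at hdv
    have hcop : Nat.Coprime (2 * g + 1) (finrank (ZMod 2) F) := by
      interval_cases (finrank (ZMod 2) F)
      · exact Nat.coprime_one_right _
      · exact Nat.Coprime.symm ((Nat.coprime_two_left).2 ⟨g, rfl⟩)
    have hdv2 : 2 * g + 1 ∣ (minpoly F α).natDegree := hcop.dvd_of_dvd_mul_left hdv
    have hpos : 0 < (minpoly F α).natDegree := minpoly.natDegree_pos hint
    have := Nat.le_of_dvd hpos hdv2
    omega
  rw [map_mul, mul_eq_zero] at hhq
  rcases hhq with h1 | h1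
  · exact key h hh hhd h1
  · exact key q hq hqd h1

/-- The number field argument: a quadratic subfield `K` of `L = ℚ(θ)` is impossible. -/
private theorem quad_Nq (g : ℕ) (hg : 1 ≤ g) (f : ℤ[X]) (hm : f.Monic)
    (hA : f.map (Int.castRingHom (ZMod 2)) ∈ AType (ZMod 2) g) (K : Type) [Field K] [NumberField K]
    (hK : finrank ℚ K = 2) (h q : K[X]) (hh : h.Monic) (hq : q.Monic) (hhd : h.natDegree = g + 1)
    (hqd : q.natDegree = g + 1) (hf : f.map (algebraMap ℤ K) = h * q) : False := by
  classical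
  have hmO : (f.map (algebraMap ℤ (𝓞 K))).Monic := hm.map _
  have hmap : (f.map (algebraMap ℤ (𝓞 K))).map (algebraMap (𝓞 K) K) = h * q := by
    rw [Polynomial.map_map, ← IsScalarTower.algebraMap_eq, hf]
  have lift : ∀ r : K[X], r.Monic → r ∣ h * q → ∃ r' : (𝓞 K)[X], r'.Monic ∧
      r'.map (algebraMap (𝓞 K) K) = r ∧ r'.natDegree = r.natDegree := by
    intro r hr hrd
    obtain ⟨r', hr'⟩ := IsIntegrallyClosed.eq_map_mul_C_of_dvd K hmO (g := r) (by rw [hmap]; exact hrd)
    rw [hr.leadingCoeff, C_1, mul_one] at hr'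
    have hinj : Function.Injective (algebraMap (𝓞 K) K) := FaithfulSMul.algebraMap_injective _ _
    refine ⟨r', ?_, hr', ?_⟩
    · have : (r'.map (algebraMap (𝓞 K) K)).Monic := by rw [hr']; exact hr
      exact (Function.Injective.monic_map_iff hinj).2 this
    · rw [← hr', natDegree_map_eq_of_injective hinj]
  obtain ⟨h', hh'm, hh', hh'd⟩ := lift h hh (dvd_mul_right _ _)
  obtain ⟨q', hq'm, hq', hq'd⟩ := lift q hq (dvd_mul_left _ _)
  have hfac : f.map (algebraMap ℤ (𝓞 K)) = h' * q' := by
    apply Polynomial.map_injective (algebraMap (𝓞 K) K) (FaithfulSMul.algebraMap_injective _ _)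
    rw [hmap, Polynomial.map_mul, hh', hq']
  -- a maximal ideal above 2
  have hnu : ¬ IsUnit (2 : 𝓞 K) := by
    intro hu
    have h1 : IsUnit (Algebra.norm ℤ (2 : 𝓞 K)) := hu.map _
    have h2 : Algebra.norm ℤ (2 : 𝓞 K) = 4 := by
      have h3 : (2 : 𝓞 K) = algebraMap ℤ (𝓞 K) 2 := by simp
      rw [h3, Algebra.norm_algebraMap, RingOfIntegers.rank, hK]
      norm_num
    rw [h2] at h1
    have := Int.isUnit_iff.1 h1
    omega
  obtain ⟨P, hPmax, hP⟩ := Ideal.exists_le_maximal (Ideal.span {(2 : 𝓞 K)})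
    (by rw [Ne, Ideal.span_singleton_eq_top]; exact hnu)
  have h2P : (2 : 𝓞 K) ∈ P := hP (Ideal.mem_span_singleton_self _)
  letI : Field (𝓞 K ⧸ P) := Ideal.Quotient.field P
  haveI : CharP (𝓞 K ⧸ P) 2 := by
    have h20 : (2 : 𝓞 K ⧸ P) = 0 := by
      have : Ideal.Quotient.mk P (2 : 𝓞 K) = 0 := Ideal.Quotient.eq_zero_iff_mem.2 h2P
      rwa [map_ofNat] at this
    exact CharTwo.of_one_ne_zero_of_two_eq_zero one_ne_zero h20
  letI : Algebra (ZMod 2) (𝓞 K ⧸ P) := ZMod.algebra _ 2
  have hPne : P ≠ ⊥ := by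
    rintro rfl
    have : (2 : 𝓞 K) = 0 := by simpa using h2P
    exact two_ne_zero this
  haveI : Finite (𝓞 K ⧸ P) := Ideal.finiteQuotientOfFreeOfNeBot P hPne
  have hcardP : Nat.card (𝓞 K ⧸ P) ∣ 4 := by
    have h1 := Ideal.absNorm_dvd_absNorm_of_le hP
    rw [Ideal.absNorm_span_singleton] at h1
    have h2 : Algebra.norm ℤ (2 : 𝓞 K) = 4 := by
      have h3 : (2 : 𝓞 K) = algebraMap ℤ (𝓞 K) 2 := by simp
      rw [h3, Algebra.norm_algebraMap, RingOfIntegers.rank, hK]
      norm_num
    rw [h2, Ideal.absNorm_apply, Submodule.cardQuot_apply] at h1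
    exact h1
  obtain ⟨a, p, hpm, hpi, hpd, hfp⟩ := hA
  refine res_Nq g hg (𝓞 K ⧸ P) hcardP p hpi hpm hpd (h'.map (Ideal.Quotient.mk P))
    (q'.map (Ideal.Quotient.mk P)) (hh'm.map _) (hq'm.map _) ?_ ?_ ?_
  · rw [hh'm.natDegree_map, hh'd, hhd]
  · rw [hq'm.natDegree_map, hq'd, hqd]
  · rw [← Polynomial.map_mul, ← hfac, Polynomial.map_map]
    have e : (Ideal.Quotient.mk P).comp (algebraMap ℤ (𝓞 K)) =
        (algebraMap (ZMod 2) (𝓞 K ⧸ P)).comp (Int.castRingHom (ZMod 2)) := RingHom.ext_int _ _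
    rw [e, ← Polynomial.map_map, hfp, Polynomial.map_mul]
    exact dvd_mul_left _ _

theorem hNq : StNq := by
  intro g hg f hm hd hirr hA v c hv
  classical
  by_contra hcon
  push Not at hcon
  have hne : (fK f) ≠ 0 := (Fact.out : Irreducible (fK f)).ne_zero
  have hfKm : (fK f).Monic := hm.map _
  haveI : FiniteDimensional ℚ (LL f) := (AdjoinRoot.powerBasis hne).finite
  have hfin : finrank ℚ (LL f) = 2 * g + 2 := by
    rw [(AdjoinRoot.powerBasis hne).finrank, AdjoinRoot.powerBasis_dim, hm.natDegree_map, hd]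
  have hint : IsIntegral ℚ v := IsIntegral.of_finite ℚ v
  set K := IntermediateField.adjoin ℚ {v}
  have hKfin : finrank ℚ K = 2 := by
    rw [IntermediateField.adjoin.finrank hint]
    have h1 : (minpoly ℚ v).natDegree ≤ 2 := by
      have h2 : aeval v (X ^ 2 - C c) = 0 := by simp [hv]
      have h3 : (X ^ 2 - C c : ℚ[X]).Monic := monic_X_pow_sub_C c two_ne_zero
      have h4 := natDegree_le_of_dvd (minpoly.dvd ℚ v h2) h3.ne_zero
      rwa [natDegree_X_pow_sub_C] at h4
    have h5 : (minpoly ℚ v).natDegree ≠ 1 := by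
      intro h6
      obtain ⟨a, ha⟩ := minpoly.natDegree_eq_one_iff.1 h6
      exact hcon a ha.symm
    have h7 := minpoly.natDegree_pos hint
    omega
  haveI : NumberField K := ⟨⟩
  have hKL : finrank K (LL f) = g + 1 := by
    have := Module.finrank_mul_finrank ℚ K (LL f)
    rw [hKfin, hfin] at this
    omega
  have hthint : IsIntegral K (th f) := IsIntegral.of_finite K (th f)
  have hadj : IntermediateField.adjoin K {th f} = ⊤ := by
    rw [eq_top_iff]
    intro x _
    obtain ⟨r, rfl⟩ := AdjoinRoot.mk_surjective x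
    rw [← AdjoinRoot.aeval_eq, ← aeval_map_algebraMap K]
    exact IntermediateField.algebra_adjoin_le_adjoin K _ (aeval_mem_adjoin_singleton K _)
  have hdeg : (minpoly K (th f)).natDegree = g + 1 := by
    rw [← IntermediateField.adjoin.finrank hthint, hadj, IntermediateField.finrank_top', hKL]
  have hfz : aeval (th f) (f.map (algebraMap ℤ K)) = 0 := by
    rw [aeval_map_algebraMap]
    have h1 : (f.map (Int.castRingHom ℚ)).eval₂ (AdjoinRoot.of (fK f)) (AdjoinRoot.root (fK f)) = 0 :=
      AdjoinRoot.eval₂_root (fK f)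
    rw [eval₂_map] at h1
    rw [aeval_def]
    have e : (algebraMap ℤ (LL f)) = (AdjoinRoot.of (fK f)).comp (Int.castRingHom ℚ) :=
      RingHom.ext_int _ _
    rw [e]
    exact h1
  obtain ⟨q, hq⟩ := minpoly.dvd K (th f) hfz
  have hmK : (f.map (algebraMap ℤ K)).Monic := hm.map _
  have hmin : (minpoly K (th f)).Monic := minpoly.monic hthint
  have hqm : q.Monic := hmin.of_mul_monic_left (by rw [← hq]; exact hmK)
  have hqd : q.natDegree = g + 1 := by
    have h1 : (f.map (algebraMap ℤ K)).natDegree = 2 * g + 2 := by rw [hm.natDegree_map, hd]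
    rw [hq, hmin.natDegree_mul hqm, hdeg] at h1
    omega
  exact quad_Nq g hg f hm hA K hKfin _ q hmin hqm hdeg hqd hq

end Pool.Agent.Helper3.EV
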