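import Pool.Agent.Helper3.EV.StF

/-!
# EV, module Pol: one good polynomial has a twist with trivial fake Selmer set
-/

set_option autoImplicit false

namespace Pool.Agent.Helper3.EV

open Polynomial Finset Filter Topology Matrix IsDedekindDomain
open Pool.Agent.Helper54.HQ (Prm pz factPrm fK RR LL algRL th kp red Weak Fam LocSq EvenAt StDe2 StDe3 StDe4)
open Pool.Agent.Helper54.EVL (TwAtE LocSqC StFt)

theorem hPol (h1 : StDe1) (h2 : StDe2) (h3 : StDe3) (h4 : StDe4) (h5 : StCk) (h6 : StWb)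
    (h7 : StFt) : StPol := by
  intro g hg
  obtain ⟨C, κ, hC, hCk⟩ := h5 g hg
  refine ⟨C, κ, hC, fun H hH P₀ hP₀ T hT f hf hbad => ?_⟩
  obtain ⟨hreg, hA, hI, hTT, hws⟩ := id hf
  have hm := hreg.1
  have hdeg := hreg.2.1
  obtain ⟨hirr, -⟩ := h1 f hm P₀ hI.2.1
  have i1 : Fact (Irreducible (fK f)) := ⟨hirr⟩
  have i2 : IsFractionRing (RR f) (LL f) := h2 f hm hirr
  have hws' : ∀ p : ℕ, p.Prime → ¬ Weak p f ∧ ¬ Pool.Agent.Helper54.HQ.Strong p f := by
    intro p hp
    refine ⟨(hws p hp).1, fun hS => (hws p hp).2 ?_⟩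
    obtain ⟨φ, hφ1, -, hφ2, hφ3⟩ := hS
    exact ⟨φ, hφ1, hφ2, hφ3⟩
  have i3 : IsDedekindDomain (RR f) := h3 f hm (by omega) hirr (h4 f hm hws')
  refine ⟨hirr, ?_⟩
  obtain ⟨R, hR, hz⟩ := h7 g H hg hH P₀ hP₀ T hT f hf
    (fun α hα _ hv hl => by
      have htriv : IsTriv α := by
        by_contra hnt
        refine hbad (hCk H hH f (h6 g H hg f hreg).1 T hTT α hα hv (fun P hP => ?_) hnt)
        obtain ⟨c, β, hc, hβ, hn⟩ := hl P hP
        exact ⟨c, hc, β, hβ, hn⟩
      obtain ⟨c, w, hcw⟩ := htriv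
      have hd : (c.den : LL f) ≠ 0 := by
        have : ((c.den : ℚ)) ≠ 0 := by exact_mod_cast c.den_ne_zero
        intro h0
        apply this
        have h00 : algebraMap ℚ (LL f) (c.den : ℚ) = algebraMap ℚ (LL f) 0 := by
          rw [map_natCast, h0, map_zero]
        exact (algebraMap ℚ (LL f)).injective h00
      refine ⟨c.num * c.den, w * (c.den : LL f)⁻¹, ?_⟩
      have hcc : ∀ φ : ℚ →+* LL f, φ c = (c.num : LL f) / (c.den : LL f) := by
        intro φ
        conv_lhs => rw [← Rat.num_div_den c]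
        rw [map_div₀, map_intCast, map_natCast]
      rw [hcc] at hcw
      rw [hcw]
      push_cast
      field_simp)
  exact ⟨R, hR, fun z hz1 hz2 => hz z hz1 hz2⟩

end Pool.Agent.Helper3.EV
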