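import Pool.Agent.Helper3.EV.StF

/-!
# EV, module PosB: a positive proportion of good polynomials, for every large bound for the leading
coefficient
-/

set_option autoImplicit false

namespace Pool.Agent.Helper3.EV

open Polynomial Finset Filter Topology Matrix IsDedekindDomain
open Pool.Agent.Helper54.HQ (Prm pz factPrm fK RR LL algRL th kp red Weak Fam LocSq EvenAt StDe2 StDe3 StDe4)
open Pool.Agent.Helper54.EVL (TwAtE LocSqC StFt)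

private theorem DD_cast_PosB (P₀ : Prm) (R : Finset Prm) :
    DD P₀ R = (((P₀ : ℕ) * ∏ P ∈ R, (P : ℕ) : ℕ) : ℤ) := by
  unfold DD
  push_cast
  rfl

private theorem DD_pos_PosB (P₀ : Prm) (R : Finset Prm) : 1 ≤ (P₀ : ℕ) * ∏ P ∈ R, (P : ℕ) :=
  Nat.one_le_iff_ne_zero.2 (mul_ne_zero P₀.2.ne_zero
    (Finset.prod_ne_zero_iff.2 fun P _ => P.2.ne_zero))

private theorem DD_le_PosB (P₀ : Prm) {R T : Finset Prm} (h : R ⊆ T) :
    (P₀ : ℕ) * ∏ P ∈ R, (P : ℕ) ≤ (P₀ : ℕ) * ∏ P ∈ T, (P : ℕ) :=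
  Nat.mul_le_mul_left _ (Finset.prod_le_prod_of_subset_of_one_le' h fun P _ _ => P.2.one_lt.le)

private theorem famE_PosB {g B H D : ℕ} {f : ℤ[X]} (hD : 1 ≤ D) (hDB : D ≤ B)
    (hf : f ∈ Fam (2 * g + 2) (H / B)) : C (D : ℤ) * f ∈ FamE g B H := by
  obtain ⟨hm, hd, hc⟩ := hf
  have hD0 : (D : ℤ) ≠ 0 := by exact_mod_cast (by omega : D ≠ 0)
  refine ⟨?_, ?_, ?_, ?_⟩
  · rw [natDegree_C_mul hD0, hd]
  · rw [leadingCoeff_mul, leadingCoeff_C, hm.leadingCoeff, mul_one]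
    exact_mod_cast hD
  · rw [leadingCoeff_mul, leadingCoeff_C, hm.leadingCoeff, mul_one]
    exact_mod_cast hDB
  · intro i hi
    rw [coeff_C_mul, abs_mul, Nat.abs_cast]
    have h1 := hc i (by omega)
    have h2 : (D : ℤ) * |f.coeff i| ≤ (B : ℤ) * ((H / B : ℕ) : ℤ) ^ (2 * g + 2 - i) := by
      refine mul_le_mul (by exact_mod_cast hDB) h1 (abs_nonneg _) (by positivity)
    have h3 : (B : ℤ) ≤ (B : ℤ) ^ (2 * g + 2 - i) := by
      have hB1 : (1 : ℤ) ≤ (B : ℤ) := by exact_mod_cast hD.trans hDB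
      exact le_self_pow₀ hB1 (by omega)
    have h4 : (B : ℤ) * ((H / B : ℕ) : ℤ) ^ (2 * g + 2 - i) ≤
        ((B : ℤ) * ((H / B : ℕ) : ℤ)) ^ (2 * g + 2 - i) := by
      rw [mul_pow]
      exact mul_le_mul_of_nonneg_right h3 (by positivity)
    have h5 : (B : ℤ) * ((H / B : ℕ) : ℤ) ≤ (H : ℤ) := by exact_mod_cast Nat.mul_div_le H B
    exact (h2.trans h4).trans (pow_le_pow_left₀ (by positivity) h5 _)

/-- PosB: as `StPos`, for every large `B`. -/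
def StPosB : Prop :=
  ∀ g : ℕ, 1 ≤ g → ∃ (P₀ : Prm) (T : Finset Prm) (B₀ : ℕ),
    (P₀ : ℕ) % 8 = 1 ∧ P₀ ∉ T ∧ (∀ P ∈ T, (P : ℕ) % 8 = 1) ∧ 1 ≤ B₀ ∧
    ∀ B : ℕ, B₀ ≤ B → ∃ δ : ℝ, 0 < δ ∧ ∀ᶠ H : ℕ in atTop, (FamE g B H).Finite ∧
      δ * ((FamE g B H).ncard : ℝ) ≤ ({F | F ∈ FamE g B H ∧ GoodF g P₀ T F}.ncard : ℝ)

theorem hPosB (h1 : StPol) (h2 : StGood) (h3 : StFe) (h4 : StWb) : StPosB := by
  intro g hg
  obtain ⟨C₀, κ, hC, hpol⟩ := h1 g hg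
  obtain ⟨P₀, T, δ₀, hP8, hP0T, hT8, hδ, hev⟩ := h2 g hg C₀ κ hC
  refine ⟨P₀, T, (P₀ : ℕ) * ∏ P ∈ T, (P : ℕ), hP8, hP0T, hT8, DD_pos_PosB P₀ T, fun B hBB => ?_⟩
  have hB : 1 ≤ B := (DD_pos_PosB P₀ T).trans hBB
  have hB0 : (0 : ℝ) < (B : ℝ) := by exact_mod_cast hB
  obtain ⟨n, hn⟩ : ∃ n : ℕ, n = (g + 1) * (2 * g + 3) := ⟨_, rfl⟩
  rw [← hn] at hev
  refine ⟨δ₀ / (B * 3 ^ (2 * g + 2) * (2 * (B : ℝ)) ^ n), by positivity, ?_⟩
  have htend : Tendsto (fun H : ℕ => H / B) atTop atTop :=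
    Nat.tendsto_div_const_atTop (by omega)
  filter_upwards [htend.eventually hev, htend.eventually (eventually_ge_atTop 1),
    eventually_ge_atTop 1] with H hH hH1 hHone
  obtain ⟨hfin, hcard⟩ := hH
  have hHB2 : H ≤ 2 * B * (H / B) := by
    have h5 : H < B * (H / B + 1) := Nat.lt_mul_div_succ H (by omega)
    nlinarith
  obtain ⟨hFfin, hFcard⟩ := h3 g B H hHone
  rw [← hn] at hFcard
  refine ⟨hFfin, ?_⟩
  have hSfin : {F | F ∈ FamE g B H ∧ GoodF g P₀ T F}.Finite := hFfin.subset fun F hF => hF.1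
  have hch : ∀ f : ℤ[X], ∃ R : Finset Prm, f ∈ {f | f ∈ Good g (H / B) P₀ T ∧
      f ∉ BadSet g C₀ κ (H / B) T} → R ⊆ T ∧ Irreducible (fK f) ∧ TrivF f (DD P₀ R) := by
    intro f
    by_cases hf : f ∈ {f | f ∈ Good g (H / B) P₀ T ∧ f ∉ BadSet g C₀ κ (H / B) T}
    · obtain ⟨hi, R, hR, ht⟩ := hpol (H / B) hH1 P₀ hP8 T hT8 f hf.1 hf.2
      exact ⟨R, fun _ => ⟨hR, hi, ht⟩⟩
    · exact ⟨∅, fun h => absurd h hf⟩
  choose R hR using hch
  have hmain : hfin.toFinset.card ≤ hSfin.toFinset.card := by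
    refine Finset.card_le_card_of_injOn (fun f => C (DD P₀ (R f)) * f) ?_ ?_
    · intro f hf
      have hf' : f ∈ {f | f ∈ Good g (H / B) P₀ T ∧ f ∉ BadSet g C₀ κ (H / B) T} := by
        simpa using hf
      obtain ⟨hRT, hirr, htriv⟩ := hR f hf'
      have hfam := (h4 g (H / B) hg f hf'.1.1).1
      rw [Finset.mem_coe, Set.Finite.mem_toFinset]
      refine ⟨?_, ⟨H / B, f, R f, hH1, hf'.1, hRT, rfl, hirr, htriv⟩⟩
      change C (DD P₀ (R f)) * f ∈ FamE g B H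
      rw [DD_cast_PosB]
      exact famE_PosB (DD_pos_PosB P₀ (R f)) ((DD_le_PosB P₀ hRT).trans hBB) hfam
    · intro f hf f' hf' hff
      have e1 : f ∈ {f | f ∈ Good g (H / B) P₀ T ∧ f ∉ BadSet g C₀ κ (H / B) T} := by
        simpa using hf
      have e2 : f' ∈ {f | f ∈ Good g (H / B) P₀ T ∧ f ∉ BadSet g C₀ κ (H / B) T} := by
        simpa using hf'
      have m1 : f.Monic := e1.1.1.1
      have m2 : f'.Monic := e2.1.1.1
      have hff' : C (DD P₀ (R f)) * f = C (DD P₀ (R f')) * f' := hff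
      have hl := congrArg leadingCoeff hff'
      rw [leadingCoeff_mul, leadingCoeff_C, m1.leadingCoeff, mul_one, leadingCoeff_mul,
        leadingCoeff_C, m2.leadingCoeff, mul_one] at hl
      rw [← hl] at hff'
      have hne : (C (DD P₀ (R f)) : ℤ[X]) ≠ 0 := by
        rw [Ne, C_eq_zero, DD_cast_PosB]
        have := DD_pos_PosB P₀ (R f)
        exact_mod_cast (by omega : (P₀ : ℕ) * ∏ P ∈ R f, (P : ℕ) ≠ 0)
      exact mul_left_cancel₀ hne hff'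
  rw [← Set.ncard_eq_toFinset_card _ hfin, ← Set.ncard_eq_toFinset_card _ hSfin] at hmain
  have hmain2 : δ₀ * ((H / B : ℕ) : ℝ) ^ n ≤
      ({F | F ∈ FamE g B H ∧ GoodF g P₀ T F}.ncard : ℝ) := by
    refine hcard.trans ?_
    exact_mod_cast hmain
  have hH2 : (H : ℝ) ^ n ≤ (2 * (B : ℝ)) ^ n * ((H / B : ℕ) : ℝ) ^ n := by
    rw [← mul_pow]
    refine pow_le_pow_left₀ (by positivity) ?_ n
    exact_mod_cast hHB2
  rw [div_mul_eq_mul_div, div_le_iff₀ (by positivity)]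
  calc δ₀ * ((FamE g B H).ncard : ℝ) ≤ δ₀ * (B * 3 ^ (2 * g + 2) * (H : ℝ) ^ n) :=
        mul_le_mul_of_nonneg_left hFcard hδ.le
    _ ≤ δ₀ * (B * 3 ^ (2 * g + 2) * ((2 * (B : ℝ)) ^ n * ((H / B : ℕ) : ℝ) ^ n)) := by
        refine mul_le_mul_of_nonneg_left ?_ hδ.le
        exact mul_le_mul_of_nonneg_left hH2 (by positivity)
    _ = (B * 3 ^ (2 * g + 2) * (2 * (B : ℝ)) ^ n) * (δ₀ * ((H / B : ℕ) : ℝ) ^ n) := by ring
    _ ≤ (B * 3 ^ (2 * g + 2) * (2 * (B : ℝ)) ^ n) *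
        ({F | F ∈ FamE g B H ∧ GoodF g P₀ T F}.ncard : ℝ) :=
        mul_le_mul_of_nonneg_left hmain2 (by positivity)
    _ = _ := by ring

end Pool.Agent.Helper3.EV
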