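import Pool.Agent.Helper3.EV.StR
import Pool.Agent.Helper54.HQ.M_Rg

/-!
# EV module Rg: the type of a reduced basis
-/

set_option autoImplicit false

namespace Pool.Agent.Helper3.EV

open Polynomial Finset Filter Topology Matrix IsDedekindDomain
open Pool.Agent.Helper54.HQ (exp_Rg pow4_Rg pow2_Rg low2_Rg)

theorem hRg : StRg := by
  intro g c₁ c₂ hc₁
  set c : ℝ := 2 ^ (2 * g + 2) with hc
  have hc1 : 1 ≤ c := one_le_pow₀ one_le_two
  set K₁ : ℝ := 2 + c + |c * c₂| with hK₁
  have hK₁2 : 2 ≤ K₁ := by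
    have := abs_nonneg (c * c₂)
    linarith
  set K : ℝ := K₁ * (1 + |c₂| + (1 + 1 / c₁)) with hK
  have hi1 : 0 < 1 / c₁ := by positivity
  have habs := abs_nonneg c₂
  have hKK : K₁ ≤ K := by
    rw [hK]
    nlinarith
  refine ⟨K, by linarith, ?_⟩
  intro a ha hmono hprod
  choose p hp1 hp2 using fun i => exp_Rg (ha i)
  set m : Fin (g + 1) → ℕ := fun i =>
    (univ.filter fun j : Jx g => (i : ℕ) ≤ j ∧ (j : ℕ) ≤ g).sup p with hm
  have hK₁0 : 0 < K₁ := by linarith
  -- the first half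
  have key : ∀ (i : Jx g) (hi : (i : ℕ) ≤ g),
      1 ≤ K₁ * ((2 : ℝ) ^ m ⟨i, Nat.lt_succ_of_le hi⟩ * a i) ∧
        (2 : ℝ) ^ m ⟨i, Nat.lt_succ_of_le hi⟩ * a i ≤ K₁ := by
    intro i hi
    constructor
    · have h1 : p i ≤ m ⟨i, Nat.lt_succ_of_le hi⟩ :=
        Finset.le_sup (f := p) (by simp only [Finset.mem_filter, Finset.mem_univ, true_and]; exact ⟨le_refl _, hi⟩)
      have h2 : (2 : ℝ) ^ p i ≤ 2 ^ m ⟨i, Nat.lt_succ_of_le hi⟩ := pow_le_pow_right₀ one_le_two h1
      have h3 := hp2 i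
      have h4 : (2 : ℝ) ^ p i * a i ≤ 2 ^ m ⟨i, Nat.lt_succ_of_le hi⟩ * a i :=
        mul_le_mul_of_nonneg_right h2 (ha i).le
      have h5 : 0 < (2 : ℝ) ^ m ⟨i, Nat.lt_succ_of_le hi⟩ * a i := mul_pos (by positivity) (ha i)
      nlinarith
    · obtain ⟨j, hj, hj2⟩ := Finset.exists_mem_eq_sup
        (univ.filter fun j : Jx g => (i : ℕ) ≤ j ∧ (j : ℕ) ≤ g)
        ⟨i, by simp only [Finset.mem_filter, Finset.mem_univ, true_and]; exact ⟨le_refl _, hi⟩⟩ p
      simp only [Finset.mem_filter, Finset.mem_univ, true_and] at hj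
      have hmj : m ⟨i, Nat.lt_succ_of_le hi⟩ = p j := hj2
      rw [hmj]
      rcases hp1 j with h1 | h1
      · have hrev : i ≤ Fin.rev i := by
          rw [Fin.le_def, Fin.val_rev]
          omega
        have h2 := hmono i (Fin.rev i) hrev
        have h3 := (hprod i).2
        have h4 : a i ^ 2 * a i ^ 2 ≤ c * c₂ := by
          calc a i ^ 2 * a i ^ 2 ≤ a i ^ 2 * (c * a (Fin.rev i) ^ 2) :=
                mul_le_mul_of_nonneg_left h2 (sq_nonneg _)
            _ = c * (a i ^ 2 * a (Fin.rev i) ^ 2) := by ring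
            _ ≤ c * c₂ := mul_le_mul_of_nonneg_left h3 (by linarith)
        have h5 := pow4_Rg (ha i) h4
        have h6 : (2 : ℝ) ^ p j * a i ≤ 1 * a i := mul_le_mul_of_nonneg_right h1 (ha i).le
        linarith
      · have h2 := hmono i j (Fin.le_def.2 hj.1)
        have h3 : ((2 : ℝ) ^ p j * a i) ^ 2 ≤ c := by
          calc ((2 : ℝ) ^ p j * a i) ^ 2 = ((2 : ℝ) ^ p j) ^ 2 * a i ^ 2 := by ring
            _ ≤ ((2 : ℝ) ^ p j) ^ 2 * (c * a j ^ 2) :=
              mul_le_mul_of_nonneg_left h2 (sq_nonneg _)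
            _ = c * ((2 : ℝ) ^ p j * a j) ^ 2 := by ring
            _ ≤ c * 1 := by
              refine mul_le_mul_of_nonneg_left ?_ (by linarith)
              exact pow_le_one₀ (mul_pos (by positivity) (ha j)).le h1
            _ = c := mul_one c
        have h4 := pow2_Rg (mul_pos (by positivity) (ha i)) h3
        rw [abs_of_pos (by linarith : (0 : ℝ) < c)] at h4
        have := abs_nonneg (c * c₂)
        linarith
  refine ⟨m, ?_, ?_⟩
  · intro i j hij
    refine Finset.sup_mono fun l hl => ?_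
    simp only [Finset.mem_filter, Finset.mem_univ, true_and] at hl ⊢
    exact ⟨(Fin.le_def.1 hij).trans hl.1, hl.2⟩
  · intro i
    rcases le_or_gt (i : ℕ) g with hi | hi
    · obtain ⟨h1, h2⟩ := key i hi
      have hnu : (2 : ℝ) ^ nu g m i = ((2 : ℝ) ^ m ⟨i, Nat.lt_succ_of_le hi⟩)⁻¹ := by
        unfold nu
        rw [dif_pos hi, _root_.zpow_neg, zpow_natCast]
      have h0 : (0 : ℝ) < 2 ^ m ⟨i, Nat.lt_succ_of_le hi⟩ := by positivity
      rw [hnu]
      constructor
      · rw [inv_le_iff_one_le_mul₀ h0]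
        calc 1 ≤ K₁ * ((2 : ℝ) ^ m ⟨i, Nat.lt_succ_of_le hi⟩ * a i) := h1
          _ ≤ K * ((2 : ℝ) ^ m ⟨i, Nat.lt_succ_of_le hi⟩ * a i) :=
            mul_le_mul_of_nonneg_right hKK (mul_pos h0 (ha i)).le
          _ = K * a i * 2 ^ m ⟨i, Nat.lt_succ_of_le hi⟩ := by ring
      · rw [← div_eq_mul_inv, le_div_iff₀ h0]
        linarith
    · have hi2 := i.2
      have hi' : ((Fin.rev i : Jx g) : ℕ) ≤ g := by
        rw [Fin.val_rev]
        omega
      obtain ⟨h1, h2⟩ := key (Fin.rev i) hi'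
      have hnu : (2 : ℝ) ^ nu g m i =
          (2 : ℝ) ^ m ⟨(Fin.rev i : Jx g), Nat.lt_succ_of_le hi'⟩ := by
        unfold nu
        rw [dif_neg (by omega), zpow_natCast]
        congr 2
        rw [Fin.ext_iff]
        simp only [Fin.val_rev]
        omega
      rw [hnu]
      obtain ⟨h3, h4⟩ := hprod i
      set b := a (Fin.rev i) with hb
      have hb0 : 0 < b := ha _
      have ha0 := ha i
      set w := (2 : ℝ) ^ m ⟨(Fin.rev i : Jx g), Nat.lt_succ_of_le hi'⟩ with hw
      have hw0 : 0 < w := by positivity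
      have hab : 0 < a i * b := mul_pos ha0 hb0
      have h5 : 1 ≤ (1 + 1 / c₁) * (a i * b) := low2_Rg hab hc₁ (by linarith [mul_pow (a i) b 2])
      have h6 : a i * b ≤ 1 + |c₂| := pow2_Rg hab (by linarith [mul_pow (a i) b 2])
      constructor
      · -- `w b ≤ K₁`
        have h7 : w * b ≤ K * (a i * b) := by
          calc w * b ≤ K₁ * 1 := by linarith
            _ ≤ K₁ * ((1 + 1 / c₁) * (a i * b)) := mul_le_mul_of_nonneg_left h5 hK₁0.le
            _ = (K₁ * (1 + 1 / c₁)) * (a i * b) := by ring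
            _ ≤ K * (a i * b) := by
              refine mul_le_mul_of_nonneg_right ?_ hab.le
              rw [hK]
              refine mul_le_mul_of_nonneg_left ?_ hK₁0.le
              linarith
        have h8 : w * b ≤ (K * a i) * b := by linarith [mul_assoc K (a i) b]
        exact le_of_mul_le_mul_right h8 hb0
      · have h7 : a i * b ≤ K * w * b := by
          calc a i * b ≤ 1 + |c₂| := h6
            _ = (1 + |c₂|) * 1 := (mul_one _).symm
            _ ≤ (1 + |c₂|) * (K₁ * (w * b)) := mul_le_mul_of_nonneg_left h1 (by linarith)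
            _ = K₁ * (1 + |c₂|) * (w * b) := by ring
            _ ≤ K * (w * b) := by
              refine mul_le_mul_of_nonneg_right ?_ (mul_pos hw0 hb0).le
              rw [hK]
              refine mul_le_mul_of_nonneg_left ?_ hK₁0.le
              linarith
            _ = K * w * b := by ring
        exact le_of_mul_le_mul_right h7 hb0

end Pool.Agent.Helper3.EV
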