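import Pool.Agent.Helper3.EV.StR

/-!
# EV: Rh (the pair of a reduced basis)
-/

set_option autoImplicit false

namespace Pool.Agent.Helper3.EV

open Polynomial Finset Filter Topology Matrix IsDedekindDomain
open Pool.Agent.Helper3.HY (co tau)
open Pool.Agent.Helper54.HQ (Prm pz factPrm fK RR LL algRL th kp red Bf Smooth NearOne LocSq Weak Fam qS
  toR IsRed rts evc met)
open Pool.Agent.Helper54

private lemma qS_nonneg_Rh {n : ℕ} {S : Matrix (Fin n) (Fin n) ℝ} (hS : S.PosDef)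
    (x : Fin n → ℤ) : 0 ≤ qS S x := by
  have h := hS.posSemidef.dotProduct_mulVec_nonneg (fun i => (x i : ℝ))
  rw [star_trivial] at h
  exact h

private lemma entry_Rh {n : ℕ} (U B : Matrix (Fin n) (Fin n) ℤ) (i j : Fin n) :
    (Uᵀ * B * U) i j = (fun k => U k i) ⬝ᵥ B *ᵥ (fun k => U k j) := by
  rw [Matrix.mul_assoc]
  rfl

private lemma entry2_Rh {n : ℕ} (U B T : Matrix (Fin n) (Fin n) ℤ) (i j : Fin n) :
    (Uᵀ * (B * T) * U) i j = (fun k => U k i) ⬝ᵥ B *ᵥ (T *ᵥ (fun k => U k j)) := by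
  rw [entry_Rh, Matrix.mulVec_mulVec]

private lemma symm_Rh {n : ℕ} (U B : Matrix (Fin n) (Fin n) ℤ) (hB : B.IsSymm) :
    (Uᵀ * B * U).IsSymm := by
  unfold Matrix.IsSymm
  rw [Matrix.transpose_mul, Matrix.transpose_mul, Matrix.transpose_transpose, hB.eq,
    Matrix.mul_assoc]

/-- exponents up to `g` -/
private lemma nu_le_Rh {g : ℕ} (m : Fin (g + 1) → ℕ) (i : Jx g) (h : (i : ℕ) ≤ g) :
    nu g m i = -(m ⟨i, by omega⟩ : ℤ) := by
  unfold nu
  rw [dif_pos h]

private lemma nu_mid_Rh {g : ℕ} (m : Fin (g + 1) → ℕ) (i : Jx g) (h : (i : ℕ) = g + 1) :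
    nu g m i = (m ⟨g, by omega⟩ : ℤ) := by
  unfold nu
  rw [dif_neg (by omega)]
  congr 2
  apply Fin.ext
  simp only
  omega

private lemma zpow_pos_Rh (k : ℤ) : (0 : ℝ) < (2 : ℝ) ^ k := zpow_pos two_pos k

/-- The integral entries which are small vanish. -/
private lemma zero_Rh {z : ℤ} (h : |(z : ℝ)| < 1) : z = 0 := by
  have h1 : |z| < 1 := by exact_mod_cast h
  exact Int.abs_lt_one_iff.1 h1

theorem hRh (h1 : HQ.StRc) (h2 : HQ.StRd) (h3 : HQ.StRe) (h4 : HQ.StRf) (h5 : StRg) : StRh := by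
  intro g hg
  obtain ⟨K, hK1, hK⟩ := h5 g (1 / 2 ^ (4 * (2 * g + 2))) (2 ^ (4 * (2 * g + 2) ^ 2)) (by positivity)
  obtain ⟨κ, hκ⟩ := pow_unbounded_of_one_lt (K ^ 2 * 2 ^ (2 * (2 * g + 2) + 2)) (one_lt_two (α := ℝ))
  have hK0 : 0 < K := by linarith
  have hK2 : 1 ≤ K ^ 2 := one_le_pow₀ hK1
  set n : ℕ := 2 * g + 2 with hn
  have hC1 : (1 : ℝ) ≤ 2 ^ (n + 1) * K ^ 2 := by
    have : (1 : ℝ) ≤ 2 ^ (n + 1) := one_le_pow₀ (by norm_num)
    nlinarith
  have hCκ : 2 ^ (n + 1) * K ^ 2 ≤ (2 : ℝ) ^ κ := by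
    have : (2 : ℝ) ^ (n + 1) ≤ 2 ^ (2 * n + 2) := pow_le_pow_right₀ (by norm_num) (by omega)
    nlinarith
  refine ⟨2 ^ (n + 1) * K ^ 2, κ + κ, hC1, ?_⟩
  intro H hH S B T hS hdet hBs hBu hAs hirr hBS hTS
  have hH1 : (1 : ℝ) ≤ H := by exact_mod_cast hH
  have hHlog : (H : ℝ) < 2 ^ (Nat.log 2 H + 1) := by
    exact_mod_cast Nat.lt_pow_succ_log_self (by norm_num) H
  obtain ⟨U, M, a, hred⟩ := h1 n S hS
  obtain ⟨d1, d2, -, -⟩ := h2 n S U M a hred
  have e1 := h3 n S U M a hred hdet B hBu hBS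
  have f1 := h4 n S U M a hred H (by linarith) T hirr hTS
  have hapos := hred.pos
  obtain ⟨m, hm, hmK⟩ := hK a hapos d1 (by
    intro i
    refine ⟨?_, (e1 i).2⟩
    rw [div_le_iff₀ (by positivity)]
    have := (e1 i).1
    linarith)
  -- the entries
  have key : ∀ i j, a i * a j ≤ K ^ 2 * (2 : ℝ) ^ (nu g m i + nu g m j) := by
    intro i j
    rw [zpow_add₀ (by norm_num)]
    have hi := (hmK i).2
    have hj := (hmK j).2
    have pi := hapos i
    have pj := hapos j
    have := mul_le_mul hi hj pj.le (by have := zpow_pos_Rh (nu g m i); positivity)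
    calc a i * a j ≤ K * 2 ^ nu g m i * (K * 2 ^ nu g m j) := this
      _ = _ := by ring
  have hq : ∀ j, qS S (fun i => U i j) ≤ 2 ^ n * a j ^ 2 := d2
  have hq0 : ∀ x, 0 ≤ qS S x := qS_nonneg_Rh hS
  have bB : ∀ i j, |(((Uᵀ * B * U) i j : ℤ) : ℝ)| ≤ 2 ^ n * (a i * a j) := by
    intro i j
    rw [entry_Rh]
    have h := hBS (fun k => U k i) (fun k => U k j)
    have h' : qS S (fun k => U k i) * qS S (fun k => U k j) ≤ (2 ^ n * a i ^ 2) * (2 ^ n * a j ^ 2) :=
      mul_le_mul (hq i) (hq j) (hq0 _) (by positivity)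
    apply abs_le_of_sq_le_sq
    · calc _ ≤ _ := h
        _ ≤ _ := h'
        _ = _ := by ring
    · have := hapos i
      have := hapos j
      positivity
  have bA : ∀ i j, |(((Uᵀ * (B * T) * U) i j : ℤ) : ℝ)| ≤ 2 * H * 2 ^ n * (a i * a j) := by
    intro i j
    rw [entry2_Rh]
    have h := hBS (fun k => U k i) (T *ᵥ fun k => U k j)
    have h2 := hTS (fun k => U k j)
    have h3 : qS S (T *ᵥ fun k => U k j) ≤ (2 * (H : ℝ)) ^ 2 * (2 ^ n * a j ^ 2) :=
      h2.trans (mul_le_mul_of_nonneg_left (hq j) (by positivity))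
    have h' : qS S (fun k => U k i) * qS S (T *ᵥ fun k => U k j) ≤
        (2 ^ n * a i ^ 2) * ((2 * (H : ℝ)) ^ 2 * (2 ^ n * a j ^ 2)) :=
      mul_le_mul (hq i) h3 (hq0 _) (by positivity)
    apply abs_le_of_sq_le_sq
    · calc _ ≤ _ := h
        _ ≤ _ := h'
        _ = _ := by ring
    · have := hapos i
      have := hapos j
      positivity
  have cB : ∀ i j, |(((Uᵀ * B * U) i j : ℤ) : ℝ)| ≤
      2 ^ (n + 1) * K ^ 2 * (2 : ℝ) ^ (nu g m i + nu g m j) := by
    intro i j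
    have hp := zpow_pos_Rh (nu g m i + nu g m j)
    calc _ ≤ _ := bB i j
      _ ≤ 2 ^ n * (K ^ 2 * (2 : ℝ) ^ (nu g m i + nu g m j)) :=
        mul_le_mul_of_nonneg_left (key i j) (by positivity)
      _ ≤ 2 ^ (n + 1) * (K ^ 2 * (2 : ℝ) ^ (nu g m i + nu g m j)) :=
        mul_le_mul_of_nonneg_right (pow_le_pow_right₀ (by norm_num) (by omega)) (by positivity)
      _ = _ := by ring
  have cA : ∀ i j, |(((Uᵀ * (B * T) * U) i j : ℤ) : ℝ)| ≤
      2 ^ (n + 1) * K ^ 2 * (H : ℝ) * (2 : ℝ) ^ (nu g m i + nu g m j) := by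
    intro i j
    calc _ ≤ _ := bA i j
      _ ≤ 2 * H * 2 ^ n * (K ^ 2 * (2 : ℝ) ^ (nu g m i + nu g m j)) :=
        mul_le_mul_of_nonneg_left (key i j) (by positivity)
      _ = _ := by ring
  have hUu : IsUnit U.det := hred.unit
  -- the steps
  have step : ∀ i j : Jx g, (i : ℕ) + 1 = j → nu g m j ≤ nu g m i + (Nat.log 2 H + κ : ℕ) := by
    intro i j hij
    have hf := f1 i j hij
    have pi := hapos i
    have pj := hapos j
    have h' : a j ≤ 2 ^ (2 * n + 1) * H * a i := by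
      have : |a j| ≤ 2 ^ (2 * n + 1) * H * a i := by
        apply abs_le_of_sq_le_sq
        · calc a j ^ 2 ≤ _ := hf
            _ = _ := by ring
        · positivity
      exact (le_abs_self _).trans this
    have h'' : (2 : ℝ) ^ nu g m j < 2 ^ (nu g m i + (Nat.log 2 H + κ : ℕ)) := by
      rw [zpow_add₀ (by norm_num), zpow_natCast, pow_add]
      have hp := zpow_pos_Rh (nu g m i)
      calc (2 : ℝ) ^ nu g m j ≤ K * a j := (hmK j).1
        _ ≤ K * (2 ^ (2 * n + 1) * H * a i) := mul_le_mul_of_nonneg_left h' hK0.le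
        _ ≤ K * (2 ^ (2 * n + 1) * H * (K * 2 ^ nu g m i)) :=
          mul_le_mul_of_nonneg_left (mul_le_mul_of_nonneg_left (hmK i).2 (by positivity)) hK0.le
        _ = K ^ 2 * 2 ^ (2 * n + 1) * 2 ^ nu g m i * H := by ring
        _ ≤ K ^ 2 * 2 ^ (2 * n + 1) * 2 ^ nu g m i * 2 ^ (Nat.log 2 H + 1) :=
          mul_le_mul_of_nonneg_left hHlog.le (by positivity)
        _ = 2 ^ nu g m i * (2 ^ Nat.log 2 H * (K ^ 2 * 2 ^ (2 * n + 2))) := by ring
        _ < 2 ^ nu g m i * (2 ^ Nat.log 2 H * 2 ^ κ) :=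
          mul_lt_mul_of_pos_left (mul_lt_mul_of_pos_left hκ (by positivity)) hp
    exact ((zpow_lt_zpow_iff_right₀ (by norm_num)).1 h'').le
  have stepm : ∀ i j : Fin (g + 1), (i : ℕ) + 1 = j → m i ≤ m j + (Nat.log 2 H + κ) := by
    intro i j hij
    have h := step ⟨i, by omega⟩ ⟨j, by omega⟩ hij
    rw [nu_le_Rh m ⟨i, by omega⟩ (by simp only; omega), nu_le_Rh m ⟨j, by omega⟩ (by simp only; omega)] at h
    simp only [Fin.eta] at h
    omega
  have lastm : ∀ i : Fin (g + 1), (i : ℕ) = g → 2 * m i ≤ Nat.log 2 H + κ := by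
    intro i hi
    have h := step ⟨g, by omega⟩ ⟨g + 1, by omega⟩ rfl
    rw [nu_le_Rh m ⟨g, by omega⟩ le_rfl, nu_mid_Rh m ⟨g + 1, by omega⟩ rfl] at h
    simp only at h
    have hi' : i = ⟨g, by omega⟩ := Fin.ext hi
    rw [hi']
    omega
  have hD : DAdm g (Nat.log 2 H + (κ + κ)) m := by
    refine ⟨hm, fun i hi => ?_, fun i j hij => ?_⟩
    · have := lastm i hi
      omega
    · have := stepm i j hij
      omega
  refine ⟨U, m, hUu, hD, ⟨symm_Rh U B hBs, symm_Rh U (B * T) hAs, ?_, cB, cA⟩,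
    ?_, ?_⟩
  · change IsUnit (Uᵀ * B * U).det
    rw [Matrix.det_mul, Matrix.det_mul, Matrix.det_transpose]
    exact (hUu.mul hBu).mul hUu
  · intro j
    have hp := zpow_pos_Rh (nu g m j)
    have pj := hapos j
    calc qS S (fun i => U i j) ≤ 2 ^ n * a j ^ 2 := hq j
      _ ≤ 2 ^ n * (K * 2 ^ nu g m j) ^ 2 := by
        apply mul_le_mul_of_nonneg_left _ (by positivity)
        exact pow_le_pow_left₀ pj.le (hmK j).2 2
      _ = (2 ^ n * K ^ 2) * (2 ^ nu g m j) ^ 2 := by ring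
      _ ≤ (2 ^ (n + 1) * K ^ 2) ^ 2 * (2 ^ nu g m j) ^ 2 := by
        apply mul_le_mul_of_nonneg_right _ (by positivity)
        have h1 : (2 : ℝ) ^ n * K ^ 2 ≤ 2 ^ (n + 1) * K ^ 2 :=
          mul_le_mul_of_nonneg_right (pow_le_pow_right₀ (by norm_num) (by omega)) (by positivity)
        nlinarith
      _ = _ := by ring
  · by_cases hcase : ∀ i j : Fin (g + 1), (i : ℕ) + 1 = j → (j : ℕ) = g →
        m i + m j ≤ Nat.log 2 H + (κ + κ)
    · exact Or.inl ⟨hD, hcase⟩
    · right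
      push Not at hcase
      obtain ⟨l, l', hl, hl', hlm⟩ := hcase
      have hll := stepm l l' hl
      have small : ∀ i j : Jx g, (i : ℕ) < g → (j : ℕ) ≤ g →
          2 ^ (n + 1) * K ^ 2 * (H : ℝ) * (2 : ℝ) ^ (nu g m i + nu g m j) < 1 := by
        intro i j hi hj
        have hi' : nu g m i ≤ -(m l : ℤ) := by
          rw [nu_le_Rh m i hi.le]
          have := hm (show (⟨i, by omega⟩ : Fin (g + 1)) ≤ l by rw [Fin.le_def]; simp only; omega)
          omega
        have hj' : nu g m j ≤ -(m l' : ℤ) := by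
          rw [nu_le_Rh m j hj]
          have := hm (show (⟨j, by omega⟩ : Fin (g + 1)) ≤ l' by rw [Fin.le_def]; simp only; omega)
          omega
        have hsum : nu g m i + nu g m j ≤ -((Nat.log 2 H + 1 + κ : ℕ) : ℤ) := by
          push_cast
          omega
        have hle : (2 : ℝ) ^ (nu g m i + nu g m j) ≤ 2 ^ (-((Nat.log 2 H + 1 + κ : ℕ) : ℤ)) :=
          zpow_le_zpow_right₀ (by norm_num) hsum
        rw [_root_.zpow_neg, zpow_natCast] at hle
        have hP : (0 : ℝ) < 2 ^ (Nat.log 2 H + 1 + κ) := by positivity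
        calc 2 ^ (n + 1) * K ^ 2 * (H : ℝ) * (2 : ℝ) ^ (nu g m i + nu g m j)
            ≤ 2 ^ (n + 1) * K ^ 2 * (H : ℝ) * (2 ^ (Nat.log 2 H + 1 + κ))⁻¹ :=
              mul_le_mul_of_nonneg_left hle (by positivity)
          _ < 1 := by
            rw [← div_eq_mul_inv, div_lt_one hP]
            calc 2 ^ (n + 1) * K ^ 2 * (H : ℝ) ≤ 2 ^ κ * H :=
                  mul_le_mul_of_nonneg_right hCκ (by positivity)
              _ < 2 ^ κ * 2 ^ (Nat.log 2 H + 1) := mul_lt_mul_of_pos_left hHlog (by positivity)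
              _ = 2 ^ (Nat.log 2 H + 1 + κ) := by rw [pow_add 2 (Nat.log 2 H + 1) κ, mul_comm]
      have zB : ∀ i j : Jx g, (i : ℕ) < g → (j : ℕ) ≤ g → (Uᵀ * B * U) i j = 0 := by
        intro i j hi hj
        have hs := small i j hi hj
        refine zero_Rh (lt_of_le_of_lt (cB i j) (lt_of_le_of_lt ?_ hs))
        have hp := zpow_pos_Rh (nu g m i + nu g m j)
        apply mul_le_mul_of_nonneg_right _ hp.le
        nlinarith
      refine ⟨fun i j hi hj => ?_, fun i j hi hj => ?_⟩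
      · rcases lt_or_eq_of_le hi with hi1 | hi1
        · exact zB i j hi1 hj
        · rcases lt_or_eq_of_le hj with hj1 | hj1
          · have h := congrFun (congrFun (symm_Rh U B hBs) i) j
            rw [Matrix.transpose_apply] at h
            change (Uᵀ * B * U) i j = 0
            rw [← h]
            exact zB j i hj1 hi
          · have hl1 : nu g m i = -(m l' : ℤ) := by
              rw [nu_le_Rh m i hi]
              congr 3
              exact Fin.ext (by simp only; omega)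
            have hl2 : nu g m j = -(m l' : ℤ) := by
              rw [nu_le_Rh m j hj]
              congr 3
              exact Fin.ext (by simp only; omega)
            have hsum : nu g m i + nu g m j ≤ -((κ : ℕ) : ℤ) := by
              rw [hl1, hl2]
              omega
            have hle : (2 : ℝ) ^ (nu g m i + nu g m j) ≤ 2 ^ (-((κ : ℕ) : ℤ)) :=
              zpow_le_zpow_right₀ (by norm_num) hsum
            rw [_root_.zpow_neg, zpow_natCast] at hle
            refine zero_Rh (lt_of_le_of_lt (cB i j) ?_)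
            have hP : (0 : ℝ) < 2 ^ κ := by positivity
            have hCκ' : 2 ^ (n + 1) * K ^ 2 < (2 : ℝ) ^ κ := by
              refine lt_of_le_of_lt ?_ hκ
              have : (2 : ℝ) ^ (n + 1) ≤ 2 ^ (2 * n + 2) := pow_le_pow_right₀ (by norm_num) (by omega)
              nlinarith
            calc 2 ^ (n + 1) * K ^ 2 * (2 : ℝ) ^ (nu g m i + nu g m j)
                ≤ 2 ^ (n + 1) * K ^ 2 * (2 ^ κ)⁻¹ := mul_le_mul_of_nonneg_left hle (by positivity)
              _ < 1 := by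
                rw [← div_eq_mul_inv, div_lt_one hP]
                exact hCκ'
      · exact zero_Rh (lt_of_le_of_lt (cA i j) (small i j hi hj))

end Pool.Agent.Helper3.EV
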