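import Pool.Agent.Helper3.EV.StS

/-!
# EV, module Sd: the prime 2 and the prime `P₀`
-/

set_option autoImplicit false

namespace Pool.Agent.Helper3.EV

open Polynomial Finset
open Pool.Agent.Helper54.HQ (Prm pz factPrm kp red Weak Fam mkP critD StSp StSa StSw StSe StTc StTe StTg)

private lemma key_Sd (h : StSp) (h1 : StSq) (p N : ℕ) (hp : p.Prime) (f : (ZMod p)[X])
    (hfm : f.Monic) (hfd : f.natDegree = N) (hfs : Squarefree f) (c : Fin N → ℤ)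
    (hc : (fun j => (c j : ZMod p)) = fun j : Fin N => f.coeff (j : ℕ)) :
    (mkP c).map (Int.castRingHom (ZMod p)) = f ∧ ¬ Weak p (mkP c) ∧ ¬ Dbl p (mkP c) := by
  have : Fact p.Prime := ⟨hp⟩
  obtain ⟨hS1, hS2, hS3⟩ := h
  have hmap : (mkP c).map (Int.castRingHom (ZMod p)) = f := by
    rw [hS3, hS2 (ZMod p) N f hfm hfd]
    congr 1
  refine ⟨hmap, h1 p hp (mkP c) ?_⟩
  rw [hmap]
  exact hfs

theorem hSd (h : StSp) (h1 : StSq) (h2 : StSx) (h3 : StSn) : StSd ∧ StS0 := by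
  refine ⟨?_, ?_⟩
  · intro g hg
    have : Fact (Nat.Prime 2) := ⟨Nat.prime_two⟩
    obtain ⟨-, ⟨f, hf⟩, -⟩ := h3 g hg 2
    obtain ⟨hfm, hfd, hfs⟩ := h2 g hg (ZMod 2) f (Or.inr (Or.inl hf))
    refine ⟨fun j => f.coeff (j : ℕ), fun c hc => ?_⟩
    obtain ⟨k1, k2⟩ := key_Sd h h1 2 (2 * g + 2) Nat.prime_two f hfm hfd hfs c hc
    rw [k1]
    exact ⟨hf, k2⟩
  · intro g hg P
    obtain ⟨-, -, ⟨f, hf⟩⟩ := h3 g hg (P : ℕ)
    obtain ⟨hfm, hfd, hfs⟩ := h2 g hg (kp P) f (Or.inr (Or.inr hf))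
    refine ⟨fun j => f.coeff (j : ℕ), fun c hc => ?_⟩
    obtain ⟨k1, k2⟩ := key_Sd h h1 (P : ℕ) (2 * g + 2) P.2 f hfm hfd hfs c hc
    refine ⟨?_, k2⟩
    change (mkP c).map (Int.castRingHom (ZMod (P : ℕ))) ∈ IType (kp P) g
    rw [k1]
    exact hf

end Pool.Agent.Helper3.EV
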