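import Pool.Agent.Helper3.EV.StS

/-!
# EV: the main lower bound of the sieve
-/

set_option autoImplicit false

namespace Pool.Agent.Helper3.EV

open Polynomial Finset Filter Topology Matrix
open Pool.Agent.Helper54.HQ (Prm pz factPrm kp red Weak Fam mkP critD StSp StSa StSw StSe StTc StTe StTg)

section aux_Sieve

open Classical in
/-- the local densities -/
noncomputable def dl_Sieve (g : ℕ) (T : Finset Prm) (p : ℕ) : ℝ :=
  if hp : p.Prime then (if (⟨p, hp⟩ : Prm) ∈ T then dens g ⟨p, hp⟩ else 1 - 3 / (p : ℝ) ^ 2) else 1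

theorem dens_nonneg_Sieve (g : ℕ) (P : Prm) : 0 ≤ dens g P := by
  unfold dens
  positivity

theorem dl_nonneg_Sieve (g : ℕ) (T : Finset Prm) (p : ℕ) (hp : 3 ≤ p) : 0 ≤ dl_Sieve g T p := by
  unfold dl_Sieve
  split_ifs with h1 h2
  · exact dens_nonneg_Sieve _ _
  · have h3 : (3 : ℝ) ≤ p := by exact_mod_cast hp
    have h4 : 3 / (p : ℝ) ^ 2 ≤ 1 := by
      rw [div_le_one (by positivity)]
      nlinarith
    linarith
  · exact zero_le_one

theorem dl_mem_Sieve (g : ℕ) (T : Finset Prm) (P : Prm) (hP : P ∈ T) :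
    dl_Sieve g T (P : ℕ) = dens g P := by
  unfold dl_Sieve
  rw [dif_pos P.2]
  exact if_pos hP

/-- the classes at one prime -/
theorem per_Sieve (h3 : StSl) (h6 : StSt) (g : ℕ) (hg : 1 ≤ g) (T : Finset Prm) (p : ℕ)
    (hp : p.Prime) : ∃ (q : ℕ) (A : Finset (Fin (2 * g + 2) → ZMod q)), (∃ k, q = p ^ k) ∧ 0 < q ∧
      dl_Sieve g T p * (q : ℝ) ^ (2 * g + 2) ≤ A.card ∧
      ∀ c : Fin (2 * g + 2) → ℤ, (fun j => (c j : ZMod q)) ∈ A →
        (¬ Weak p (mkP c) ∧ ¬ Dbl p (mkP c)) ∧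
        ∀ P ∈ T, (P : ℕ) = p → (mkP c).map (red P) ∈ TType (kp P) g := by
  by_cases hT : (⟨p, hp⟩ : Prm) ∈ T
  · obtain ⟨A, hA1, hA2⟩ := h6 g hg ⟨p, hp⟩
    refine ⟨p, A, ⟨1, (pow_one p).symm⟩, hp.pos, ?_, fun c hc => ?_⟩
    · rw [hA1]
      unfold dl_Sieve
      rw [dif_pos hp, if_pos hT]
      unfold dens
      have : (0 : ℝ) < ((p : ℝ)) ^ (2 * g + 2) := by
        have := hp.pos
        positivity
      refine le_of_eq ?_
      exact div_mul_cancel₀ _ this.ne'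
    · obtain ⟨h7, h8, h9⟩ := hA2 c hc
      refine ⟨⟨h8, h9⟩, fun P hP hPp => ?_⟩
      have : P = ⟨p, hp⟩ := Subtype.ext hPp
      subst this
      exact h7
  · obtain ⟨A, hA1, hA2⟩ := h3 (2 * g + 2) p (by omega) hp
    refine ⟨p ^ 2, A, ⟨2, rfl⟩, pow_pos hp.pos 2, ?_, fun c hc => ?_⟩
    · unfold dl_Sieve
      rw [dif_pos hp, if_neg hT]
      push_cast
      exact hA1
    · refine ⟨hA2 c hc, fun P hP hPp => ?_⟩
      have : P = ⟨p, hp⟩ := Subtype.ext hPp
      rw [this] at hP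
      exact absurd hP hT

/-- lower ends of the box -/
def lo_Sieve (g H : ℕ) (j : Fin (2 * g + 2)) : ℤ :=
  if (j : ℕ) = 0 then ((H : ℤ) ^ (2 * g + 2) + 1) / 2 else -((H : ℤ) ^ (2 * g + 2 - (j : ℕ)) / 2 ^ (2 * g + 6))

/-- upper ends of the box -/
def hi_Sieve (g H : ℕ) (j : Fin (2 * g + 2)) : ℤ :=
  if (j : ℕ) = 0 then (H : ℤ) ^ (2 * g + 2) else (H : ℤ) ^ (2 * g + 2 - (j : ℕ)) / 2 ^ (2 * g + 6)

/-- the box is contained in the region -/
theorem reg_Sieve (h1 : StSp) (g H : ℕ) (c : Fin (2 * g + 2) → ℤ)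
    (hc : ∀ j, lo_Sieve g H j ≤ c j ∧ c j ≤ hi_Sieve g H j) : mkP c ∈ Reg g H := by
  obtain ⟨h2, h3, h4⟩ := h1.1 ℤ (2 * g + 2) c
  refine ⟨h2, h3, fun i hi1 hi2 => ?_, ?_, ?_⟩
  · have h5 := h4 ⟨i, by omega⟩
    have h6 : (mkP c).coeff i = c ⟨i, by omega⟩ := h5
    rw [h6]
    obtain ⟨h7, h8⟩ := hc ⟨i, by omega⟩
    have hi0 : ((⟨i, by omega⟩ : Fin (2 * g + 2)) : ℕ) ≠ 0 := by
      show i ≠ 0
      omega
    unfold lo_Sieve at h7
    unfold hi_Sieve at h8
    rw [if_neg hi0] at h7 h8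
    have h9 : |c ⟨i, by omega⟩| ≤ (H : ℤ) ^ (2 * g + 2 - i) / 2 ^ (2 * g + 6) := abs_le.2 ⟨h7, h8⟩
    have h10 : (2 : ℤ) ^ (2 * g + 6) * ((H : ℤ) ^ (2 * g + 2 - i) / 2 ^ (2 * g + 6)) ≤
        (H : ℤ) ^ (2 * g + 2 - i) := Int.mul_ediv_self_le (by positivity)
    exact (mul_le_mul_of_nonneg_left h9 (by positivity)).trans h10
  · have h5 : (mkP c).coeff 0 = c ⟨0, by omega⟩ := h4 ⟨0, by omega⟩
    rw [h5]
    have h7 := (hc ⟨0, by omega⟩).1
    unfold lo_Sieve at h7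
    rw [if_pos rfl] at h7
    omega
  · have h5 : (mkP c).coeff 0 = c ⟨0, by omega⟩ := h4 ⟨0, by omega⟩
    rw [h5]
    have h7 := (hc ⟨0, by omega⟩).2
    unfold hi_Sieve at h7
    rw [if_pos rfl] at h7
    exact h7

/-- the number of residue classes in a side of the box -/
theorem side_Sieve (g H Q : ℕ) (hQ : 0 < Q) (hH : 2 ^ (2 * g + 7) * (Q + 1) ≤ H)
    (j : Fin (2 * g + 2)) : ∃ n : ℕ, (n : ℤ) * (Q : ℤ) ≤ hi_Sieve g H j - lo_Sieve g H j + 1 ∧
      (H : ℝ) ^ (2 * g + 2 - (j : ℕ)) / 2 ^ (2 * g + 7) ≤ (n : ℝ) * Q := by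
  set h : ℤ := (H : ℤ) ^ (2 * g + 2 - (j : ℕ)) with hh
  set k : ℤ := 2 ^ (2 * g + 5) with hk
  have hk0 : 0 < k := by positivity
  have hk5 : (2 : ℤ) ^ (2 * g + 6) = 2 * k := by rw [hk]; ring
  have hk6 : (2 : ℤ) ^ (2 * g + 7) = 4 * k := by rw [hk]; ring
  have hH' : 4 * k * ((Q : ℤ) + 1) ≤ H := by
    rw [← hk6]
    exact_mod_cast hH
  have hQ' : (0 : ℤ) < Q := by exact_mod_cast hQ
  have hH1 : (1 : ℤ) ≤ H := by nlinarith
  have hhH : (H : ℤ) ≤ h := by
    have h1 : 2 * g + 2 - (j : ℕ) ≠ 0 := by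
      have := j.2
      omega
    rw [hh]
    exact le_self_pow₀ hH1 h1
  have hk1 : 1 ≤ k := hk0
  have hk2 : 2 ≤ k := by
    rw [hk, show 2 * g + 5 = (2 * g + 4) + 1 from rfl, pow_succ]
    have : (1 : ℤ) ≤ 2 ^ (2 * g + 4) := one_le_pow₀ (by norm_num)
    linarith
  set x : ℤ := hi_Sieve g H j - lo_Sieve g H j + 1 with hx
  have hx1 : h - k ≤ k * x := by
    rw [hx]
    unfold hi_Sieve lo_Sieve
    split_ifs with h0
    · have e1 : 2 * g + 2 - (j : ℕ) = 2 * g + 2 := by omega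
      rw [e1] at hh
      rw [← hh]
      have h2 : h ≤ 2 * (h - (h + 1) / 2 + 1) := by omega
      have h3 := mul_le_mul_of_nonneg_left h2 hk0.le
      have h4 : 2 * h ≤ k * h := mul_le_mul_of_nonneg_right hk2 (by linarith)
      linarith
    · rw [← hh, hk5]
      have h2 : h < (h / (2 * k) + 1) * (2 * k) := Int.lt_ediv_add_one_mul_self h (by linarith)
      have h3 : k * (h / (2 * k) - -(h / (2 * k)) + 1) = (h / (2 * k) + 1) * (2 * k) - k := by ring
      rw [h3]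
      linarith
  have hx0 : 0 ≤ x := by
    have h1 : 0 ≤ k * x := by nlinarith
    exact nonneg_of_mul_nonneg_right h1 hk0
  have hn0 : 0 ≤ x / Q := Int.ediv_nonneg hx0 hQ'.le
  refine ⟨(x / Q).toNat, ?_, ?_⟩
  · rw [Int.toNat_of_nonneg hn0]
    exact Int.ediv_mul_le x hQ'.ne'
  · have h1 : x < (x / Q + 1) * Q := Int.lt_ediv_add_one_mul_self x hQ'
    have h2 : h ≤ 4 * k * ((x / Q) * Q) := by
      have h3 : k * x ≤ k * ((x / Q) * Q) + k * Q := by nlinarith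
      nlinarith
    have h4 : ((h : ℤ) : ℝ) ≤ ((4 * k * ((x / Q) * Q) : ℤ) : ℝ) := by exact_mod_cast h2
    have h5 : (((x / Q).toNat : ℕ) : ℝ) = ((x / Q : ℤ) : ℝ) := by
      have h6 := Int.toNat_of_nonneg hn0
      exact_mod_cast h6
    rw [h5, div_le_iff₀ (by positivity)]
    have h6 : ((h : ℤ) : ℝ) = (H : ℝ) ^ (2 * g + 2 - (j : ℕ)) := by
      rw [hh]
      push_cast
      rfl
    have h7 : ((k : ℤ) : ℝ) = 2 ^ (2 * g + 5) := by
      rw [hk]
      push_cast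
      rfl
    rw [← h6]
    refine h4.trans (le_of_eq ?_)
    push_cast
    rw [h7]
    ring

theorem sum_Sieve (g : ℕ) : ∑ j : Fin (2 * g + 2), (2 * g + 2 - (j : ℕ)) = (g + 1) * (2 * g + 3) := by
  rw [Fin.sum_univ_eq_sum_range (fun j => 2 * g + 2 - j) (2 * g + 2)]
  have h1 := Finset.sum_range_reflect (fun j => j + 1) (2 * g + 2)
  have h2 : ∑ j ∈ range (2 * g + 2), (2 * g + 2 - j) =
      ∑ j ∈ range (2 * g + 2), (2 * g + 2 - 1 - j + 1) := by
    refine Finset.sum_congr rfl fun j hj => ?_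
    rw [Finset.mem_range] at hj
    omega
  rw [h2, h1, Finset.sum_add_distrib, Finset.sum_const, Finset.card_range, smul_eq_mul, mul_one]
  have h3 := Finset.sum_range_id_mul_two (2 * g + 2)
  have h4 : 2 * g + 2 - 1 = 2 * g + 1 := by omega
  rw [h4] at h3
  nlinarith

end aux_Sieve

theorem hSieve (h1 : StSp) (h2 : StSa) (h3 : StSl) (h4 : StSd ∧ StS0) (h5 : StSe) (h6 : StSt) :
    StSieve := by
  classical
  intro g hg P₀ hP₀
  obtain ⟨a, ha⟩ := h4.1 g hg
  obtain ⟨b, hb⟩ := h4.2 g hg P₀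
  have hPpos : 0 < (P₀ : ℕ) := P₀.2.pos
  have hPr : (0 : ℝ) < ((2 * (P₀ : ℕ) : ℕ) : ℝ) := by
    exact_mod_cast Nat.mul_pos two_pos hPpos
  refine ⟨1 / 3 / (((2 * (P₀ : ℕ) : ℕ) : ℝ) ^ (2 * g + 2) *
    ((2 : ℝ) ^ (2 * g + 7)) ^ (2 * g + 2)), by positivity, fun T hT0 hT M => ?_⟩
  set S₁ : Finset ℕ := T.image (fun P : Prm => (P : ℕ)) with hS₁
  set S₂ : Finset ℕ := ((range (M + 1)).filter
    fun p => p.Prime ∧ p % 2 = 1 ∧ p ≠ (P₀ : ℕ)) \ S₁ with hS₂
  have hS : ∀ p ∈ S₁ ∪ S₂, p.Prime ∧ p % 2 = 1 ∧ p ≠ (P₀ : ℕ) := by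
    intro p hp
    rw [Finset.mem_union] at hp
    rcases hp with hp | hp
    · rw [hS₁, Finset.mem_image] at hp
      obtain ⟨P, hP, rfl⟩ := hp
      have h7 := hT P hP
      refine ⟨P.2, ?_, fun h8 => ?_⟩
      · rcases P.2.eq_two_or_odd with h9 | h9
        · omega
        · exact h9
      · have h9 : P = P₀ := Subtype.ext h8
        exact hT0 (h9 ▸ hP)
    · rw [hS₂, Finset.mem_sdiff, Finset.mem_filter] at hp
      exact hp.1.2
  choose q A hqk hq0 hqA hqc using fun p : {p // p ∈ S₁ ∪ S₂} =>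
    per_Sieve h3 h6 g hg T p.1 (hS p.1 p.2).1
  let q' : Option (Option {p // p ∈ S₁ ∪ S₂}) → ℕ := fun i => match i with
    | none => 2
    | some none => (P₀ : ℕ)
    | some (some p) => q p
  let A' : ∀ i, Finset (Fin (2 * g + 2) → ZMod (q' i)) := fun i => match i with
    | none => {a}
    | some none => {b}
    | some (some p) => A p
  have hcop0 : ∀ p : {p // p ∈ S₁ ∪ S₂}, (2 : ℕ).Coprime (q p) := by
    intro p
    obtain ⟨k, hk⟩ := hqk p
    obtain ⟨h7, h8, h9⟩ := hS p.1 p.2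
    rw [hk]
    refine Nat.Coprime.pow_right k ?_
    rw [Nat.coprime_primes Nat.prime_two h7]
    intro h10
    rw [← h10] at h8
    norm_num at h8
  have hcopP : ∀ p : {p // p ∈ S₁ ∪ S₂}, (P₀ : ℕ).Coprime (q p) := by
    intro p
    obtain ⟨k, hk⟩ := hqk p
    obtain ⟨h7, h8, h9⟩ := hS p.1 p.2
    rw [hk]
    refine Nat.Coprime.pow_right k ?_
    rw [Nat.coprime_primes P₀.2 h7]
    exact fun h10 => h9 h10.symm
  have hcop2 : (2 : ℕ).Coprime (P₀ : ℕ) := by
    rw [Nat.coprime_primes Nat.prime_two P₀.2]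
    omega
  have hcop : ∀ i j, i ≠ j → (q' i).Coprime (q' j) := by
    intro i j hij
    match i, j with
    | none, none => exact absurd rfl hij
    | none, some none => exact hcop2
    | none, some (some p) => exact hcop0 p
    | some none, none => exact hcop2.symm
    | some none, some none => exact absurd rfl hij
    | some none, some (some p) => exact hcopP p
    | some (some p), none => exact (hcop0 p).symm
    | some (some p), some none => exact (hcopP p).symm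
    | some (some p), some (some r) =>
      obtain ⟨k, hk⟩ := hqk p
      obtain ⟨l, hl⟩ := hqk r
      show (q p).Coprime (q r)
      rw [hk, hl]
      refine Nat.Coprime.pow k l ?_
      rw [Nat.coprime_primes (hS p.1 p.2).1 (hS r.1 r.2).1]
      intro h7
      exact hij (congrArg (fun z => some (some z)) (Subtype.ext h7))
  have hpos : ∀ i, 0 < q' i := by
    intro i
    match i with
    | none => exact two_pos
    | some none => exact hPpos
    | some (some p) => exact hq0 p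
  set Q : ℕ := ∏ i, q' i with hQ
  have hQ0 : 0 < Q := Finset.prod_pos fun i _ => hpos i
  filter_upwards [eventually_ge_atTop (2 ^ (2 * g + 7) * (Q + 1))] with H hH
  -- finiteness
  have hfin : (SvMain g H P₀ T M).Finite := by
    have h7 : (Set.Icc (fun _ : Fin (2 * g + 2) => -(H : ℤ) ^ (2 * g + 2))
        (fun _ => (H : ℤ) ^ (2 * g + 2))).Finite := Set.finite_Icc _ _
    refine (h7.image mkP).subset ?_
    rintro f ⟨⟨hf1, hf2, hf3, hf4, hf5⟩, -⟩
    refine ⟨fun i => f.coeff i, ?_, (h1.2.1 ℤ (2 * g + 2) f hf1 hf2).symm⟩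
    have hH0 : (1 : ℤ) ≤ H := by
      have : 1 ≤ H := le_trans (Nat.mul_pos (by positivity) (by omega)) hH
      exact_mod_cast this
    have h8 : ∀ i : Fin (2 * g + 2), |f.coeff i| ≤ (H : ℤ) ^ (2 * g + 2) := by
      intro i
      by_cases hi : (i : ℕ) = 0
      · rw [hi, abs_le]
        have : (0 : ℤ) ≤ (H : ℤ) ^ (2 * g + 2) := by positivity
        constructor <;> linarith
      · have h9 := hf3 i (by omega) (by have := i.2; omega)
        have h10 : (1 : ℤ) ≤ 2 ^ (2 * g + 6) := one_le_pow₀ (by norm_num)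
        have h11 : (H : ℤ) ^ (2 * g + 2 - (i : ℕ)) ≤ (H : ℤ) ^ (2 * g + 2) :=
          pow_le_pow_right₀ hH0 (Nat.sub_le _ _)
        have h12 : |f.coeff i| ≤ 2 ^ (2 * g + 6) * |f.coeff i| :=
          le_mul_of_one_le_left (abs_nonneg _) h10
        linarith
    rw [Set.mem_Icc]
    exact ⟨fun i => (abs_le.1 (h8 i)).1, fun i => (abs_le.1 (h8 i)).2⟩
  refine ⟨hfin, ?_⟩
  choose n hn1 hn2 using fun j => side_Sieve g H Q hQ0 hH j
  have hmain := h2 (2 * g + 2) (Option (Option {p // p ∈ S₁ ∪ S₂})) q' hpos hcop A' (lo_Sieve g H)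
    (hi_Sieve g H) n (fun j => by
      have := hn1 j
      rw [hQ] at this
      push_cast at this
      exact this)
  -- the injection
  have hle : {c : Fin (2 * g + 2) → ℤ | (∀ j, lo_Sieve g H j ≤ c j ∧ c j ≤ hi_Sieve g H j) ∧
      ∀ i, (fun j => (c j : ZMod (q' i))) ∈ A' i}.ncard ≤ (SvMain g H P₀ T M).ncard := by
    refine Set.ncard_le_ncard_of_injOn mkP ?_ ?_ hfin
    · rintro c ⟨hc1, hc2⟩
      have hc0 : (fun j => (c j : ZMod 2)) = a := by
        have h7 : (fun j => (c j : ZMod 2)) ∈ ({a} : Finset (Fin (2 * g + 2) → ZMod 2)) := hc2 none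
        exact Finset.mem_singleton.1 h7
      obtain ⟨h7, h8, h9⟩ := ha c hc0
      have hc1' : (fun j => (c j : kp P₀)) = b := by
        have h7 : (fun j => (c j : kp P₀)) ∈ ({b} : Finset (Fin (2 * g + 2) → kp P₀)) :=
          hc2 (some none)
        exact Finset.mem_singleton.1 h7
      obtain ⟨h7', h8', h9'⟩ := hb c hc1'
      have hcp : ∀ p : {p // p ∈ S₁ ∪ S₂}, (fun j => (c j : ZMod (q p))) ∈ A p :=
        fun p => hc2 (some (some p))
      refine ⟨reg_Sieve h1 g H c hc1, h7, h7', fun P hP => ?_, fun p hp hpM => ?_⟩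
      · have h10 : (P : ℕ) ∈ S₁ ∪ S₂ :=
          Finset.mem_union_left _ (Finset.mem_image.2 ⟨P, hP, rfl⟩)
        exact (hqc ⟨P, h10⟩ c (hcp ⟨P, h10⟩)).2 P hP rfl
      · by_cases h10 : p = 2
        · rw [h10]
          exact ⟨h8, h9⟩
        · by_cases h10' : p = (P₀ : ℕ)
          · rw [h10']
            exact ⟨h8', h9'⟩
          · have h11 : p ∈ S₁ ∪ S₂ := by
              rw [Finset.mem_union]
              by_cases h12 : p ∈ S₁
              · exact Or.inl h12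
              · right
                rw [hS₂, Finset.mem_sdiff, Finset.mem_filter, Finset.mem_range]
                refine ⟨⟨by omega, hp, ?_, h10'⟩, h12⟩
                rcases hp.eq_two_or_odd with h14 | h14
                · exact absurd h14 h10
                · exact h14
            exact (hqc ⟨p, h11⟩ c (hcp ⟨p, h11⟩)).1
    · intro c _ c' _ hcc
      funext i
      have h7 := (h1.1 ℤ (2 * g + 2) c).2.2 i
      have h8 := (h1.1 ℤ (2 * g + 2) c').2.2 i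
      rw [← h7, ← h8, hcc]
  have hmain2 : ((∏ i, (A' i).card : ℕ) : ℝ) * ((∏ j, n j : ℕ) : ℝ) ≤
      ((SvMain g H P₀ T M).ncard : ℝ) := by
    have := hmain.trans hle
    exact_mod_cast this
  refine le_trans ?_ hmain2
  -- the product of the local factors
  set Qs : ℕ := ∏ p : {p // p ∈ S₁ ∪ S₂}, q p with hQs
  have hQQ : Q = 2 * (P₀ : ℕ) * Qs := by
    rw [hQ, Fintype.prod_option, Fintype.prod_option, ← mul_assoc]
  have hAA : ∏ i, (A' i).card = ∏ p, (A p).card := by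
    rw [Fintype.prod_option, Fintype.prod_option]
    have h7 : (A' none).card = 1 := Finset.card_singleton a
    have h8 : (A' (some none)).card = 1 := Finset.card_singleton b
    rw [h7, h8, one_mul, one_mul]
  have hS3 : ∀ p ∈ S₁ ∪ S₂, 3 ≤ p := by
    intro p hp
    obtain ⟨h7, h8, h9⟩ := hS p hp
    have := h7.two_le
    omega
  have hdl : ∏ p : {p // p ∈ S₁ ∪ S₂}, dl_Sieve g T p.1 = (∏ P ∈ T, dens g P) *
      ∏ p ∈ S₂, (1 - 3 / (p : ℝ) ^ 2) := by
    rw [Finset.prod_coe_sort (S₁ ∪ S₂) (fun p => dl_Sieve g T p),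
      Finset.prod_union Finset.disjoint_sdiff]
    congr 1
    · rw [hS₁]
      refine (Finset.prod_image (g := fun P : Prm => (P : ℕ))
        (fun P _ P' _ (h : (P : ℕ) = (P' : ℕ)) => Subtype.ext h)).trans ?_
      exact Finset.prod_congr rfl fun P hP => dl_mem_Sieve g T P hP
    · refine Finset.prod_congr rfl fun p hp => ?_
      have hp' := hp
      rw [hS₂, Finset.mem_sdiff, Finset.mem_filter] at hp'
      unfold dl_Sieve
      rw [dif_pos hp'.1.2.1, if_neg]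
      intro h7
      exact hp'.2 (Finset.mem_image.2 ⟨_, h7, rfl⟩)
  have hD0 : 0 ≤ ∏ P ∈ T, dens g P := Finset.prod_nonneg fun P _ => dens_nonneg_Sieve g P
  have hδ : 1 / 3 * (∏ P ∈ T, dens g P) ≤ ∏ p : {p // p ∈ S₁ ∪ S₂}, dl_Sieve g T p.1 := by
    rw [hdl, mul_comm]
    refine mul_le_mul_of_nonneg_left (h5 S₂ fun p hp => ?_) hD0
    have h7 := Finset.mem_union_right S₁ hp
    exact ⟨hS3 p h7, (hS p h7).2.1⟩
  have hX : (∏ p : {p // p ∈ S₁ ∪ S₂}, dl_Sieve g T p.1) * (Qs : ℝ) ^ (2 * g + 2) ≤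
      ((∏ i, (A' i).card : ℕ) : ℝ) := by
    rw [hAA, hQs]
    push_cast
    rw [← Finset.prod_pow, ← Finset.prod_mul_distrib]
    refine Finset.prod_le_prod (fun p _ => ?_) fun p _ => hqA p
    have := dl_nonneg_Sieve g T p.1 (hS3 p.1 p.2)
    positivity
  have hY : (H : ℝ) ^ ((g + 1) * (2 * g + 3)) / ((2 : ℝ) ^ (2 * g + 7)) ^ (2 * g + 2) ≤
      ((∏ j, n j : ℕ) : ℝ) * (Q : ℝ) ^ (2 * g + 2) := by
    have h7 : ∏ j : Fin (2 * g + 2), ((H : ℝ) ^ (2 * g + 2 - (j : ℕ)) / 2 ^ (2 * g + 7)) ≤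
        ∏ j : Fin (2 * g + 2), ((n j : ℝ) * Q) :=
      Finset.prod_le_prod (fun j _ => by positivity) fun j _ => hn2 j
    rw [Finset.prod_div_distrib, Finset.prod_pow_eq_pow_sum, sum_Sieve, Finset.prod_const,
      Finset.prod_mul_distrib, Finset.prod_const, Finset.card_univ, Fintype.card_fin] at h7
    push_cast
    exact h7
  set X : ℝ := ((∏ i, (A' i).card : ℕ) : ℝ) with hXdef
  set Y : ℝ := ((∏ j, n j : ℕ) : ℝ) with hYdef
  set D : ℝ := ∏ P ∈ T, dens g P with hDdef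
  set Hp : ℝ := (H : ℝ) ^ ((g + 1) * (2 * g + 3)) with hHp
  set K : ℝ := ((2 : ℝ) ^ (2 * g + 7)) ^ (2 * g + 2) with hKdef
  set m : ℝ := ((2 * (P₀ : ℕ) : ℕ) : ℝ) ^ (2 * g + 2) with hmdef
  have hQr : (Q : ℝ) ^ (2 * g + 2) = m * (Qs : ℝ) ^ (2 * g + 2) := by
    rw [hmdef, ← mul_pow, hQQ]
    push_cast
    ring
  have hm0 : 0 < m := by
    rw [hmdef]
    positivity
  have hK0 : 0 < K := by
    rw [hKdef]
    positivity
  have hHp0 : 0 ≤ Hp := by
    rw [hHp]
    positivity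
  have hQs0 : 0 < (Qs : ℝ) ^ (2 * g + 2) := by
    have : 0 < Qs := Finset.prod_pos fun p _ => hq0 p
    positivity
  have hX2 : 1 / 3 * D * (Qs : ℝ) ^ (2 * g + 2) ≤ X :=
    (mul_le_mul_of_nonneg_right hδ hQs0.le).trans hX
  rw [hQr] at hY
  have hfin2 : 1 / 3 * D * (Qs : ℝ) ^ (2 * g + 2) * (Hp / K) ≤
      X * (Y * (m * (Qs : ℝ) ^ (2 * g + 2))) := by
    refine mul_le_mul hX2 hY (by positivity) ?_
    exact le_trans (by positivity) hX2
  have h8 : 1 / 3 / (m * K) * D * Hp * (m * (Qs : ℝ) ^ (2 * g + 2)) =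
      1 / 3 * D * (Qs : ℝ) ^ (2 * g + 2) * (Hp / K) := by
    field_simp
  have h9 : 1 / 3 / (m * K) * D * Hp * (m * (Qs : ℝ) ^ (2 * g + 2)) ≤
      X * Y * (m * (Qs : ℝ) ^ (2 * g + 2)) := by
    rw [h8, mul_assoc X Y]
    exact hfin2
  exact le_of_mul_le_mul_right h9 (mul_pos hm0 hQs0)

end Pool.Agent.Helper3.EV
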