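import Pool.Agent.Helper3.EV.StS

/-!
# EV, module Sl: good classes modulo `p ^ 2`
-/

set_option autoImplicit false

namespace Pool.Agent.Helper3.EV

open Polynomial Finset
open Pool.Agent.Helper54.HQ (mkP StSw Weak)

theorem hSl (h1 : StSw) (h2 : StSs) : StSl := by
  intro N p hN hp
  have hp' : Fact p.Prime := ⟨hp⟩
  have hp2 : NeZero (p ^ 2) := ⟨(pow_pos hp.pos 2).ne'⟩
  classical
  obtain ⟨W, hW, hW'⟩ := h1 N p hN hp
  obtain ⟨S, hS, hS'⟩ := h2 N p hN hp
  set π : ZMod (p ^ 2) →+* ZMod p := ZMod.castHom (dvd_pow_self p two_ne_zero) (ZMod p) with hπ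
  set V : Finset (Fin N → ZMod (p ^ 2)) := Finset.univ.filter fun c => (fun j => π (c j)) ∈ S
    with hV
  have hVcard : V.card ≤ 2 * p ^ (2 * N - 2) := by
    have h3 : V.card ≤ (S ×ˢ Fintype.piFinset (fun _ : Fin N => range p)).card := by
      apply Finset.card_le_card_of_injOn
        (fun c => ((fun j => π (c j)), fun j => (c j).val / p))
      · intro c hc
        rw [Finset.mem_coe, hV, Finset.mem_filter] at hc
        rw [Finset.mem_coe, Finset.mem_product]
        refine ⟨hc.2, ?_⟩
        rw [Fintype.mem_piFinset]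
        intro j
        rw [Finset.mem_range]
        show (c j).val / p < p
        rw [Nat.div_lt_iff_lt_mul hp.pos, ← sq]
        exact ZMod.val_lt (c j)
      · intro c _ c' _ heq
        have e1 := (Prod.ext_iff.1 heq).1
        have e2 := (Prod.ext_iff.1 heq).2
        funext j
        have e3 : π (c j) = π (c' j) := congrFun e1 j
        have e4 : (c j).val / p = (c' j).val / p := congrFun e2 j
        have e5 : (c j).val % p = (c' j).val % p := by
          have h3 : ((ZMod.castHom (dvd_pow_self p two_ne_zero) (ZMod p)) (c j)).val =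
            ((ZMod.castHom (dvd_pow_self p two_ne_zero) (ZMod p)) (c' j)).val :=
            congrArg ZMod.val e3
          rw [ZMod.castHom_apply, ZMod.castHom_apply, ZMod.cast_eq_val, ZMod.cast_eq_val,
            ZMod.val_natCast, ZMod.val_natCast] at h3
          exact h3
        apply ZMod.val_injective
        rw [← Nat.div_add_mod (c j).val p, ← Nat.div_add_mod (c' j).val p, e4, e5]
    refine h3.trans ?_
    rw [Finset.card_product, Fintype.card_piFinset]
    simp only [Finset.card_range, Finset.prod_const, Finset.card_univ, Fintype.card_fin]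
    calc S.card * p ^ N ≤ 2 * p ^ (N - 2) * p ^ N := Nat.mul_le_mul_right _ hS
      _ = 2 * p ^ (2 * N - 2) := by
          rw [mul_assoc, ← pow_add]
          congr 2
          omega
  refine ⟨(W ∪ V)ᶜ, ?_, ?_⟩
  · have h4 : (W ∪ V)ᶜ.card + (W ∪ V).card = (p ^ 2) ^ N := by
      rw [Finset.card_compl_add_card, Fintype.card_fun, ZMod.card, Fintype.card_fin]
    have h5 : (W ∪ V).card ≤ 3 * p ^ (2 * N - 2) := by
      have := Finset.card_union_le W V
      omega
    have h6 : (((W ∪ V)ᶜ.card : ℕ) : ℝ) + ((W ∪ V).card : ℕ) = ((p : ℝ) ^ 2) ^ N := by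
      exact_mod_cast h4
    have h7 : (((W ∪ V).card : ℕ) : ℝ) ≤ 3 * (p : ℝ) ^ (2 * N - 2) := by exact_mod_cast h5
    have hp0 : (0 : ℝ) < p := by exact_mod_cast hp.pos
    have h8 : 3 / (p : ℝ) ^ 2 * ((p : ℝ) ^ 2) ^ N = 3 * (p : ℝ) ^ (2 * N - 2) := by
      rw [← pow_mul, show 2 * N = (2 * N - 2) + 2 by omega, pow_add,
        show 2 * N - 2 + 2 - 2 = 2 * N - 2 by omega]
      field_simp
    rw [sub_mul, one_mul, h8]
    linarith
  · intro c hc
    rw [Finset.mem_compl, Finset.mem_union, not_or] at hc
    constructor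
    · intro hw
      exact hc.1 (hW' c hw)
    · intro hs
      apply hc.2
      rw [hV, Finset.mem_filter]
      refine ⟨Finset.mem_univ _, ?_⟩
      have := hS' c hs
      simpa only [map_intCast] using this

end Pool.Agent.Helper3.EV
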