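import Pool.Agent.Helper3.EV.StS

/-!
# EV module Sq (squarefree reductions)
-/

set_option autoImplicit false

namespace Pool.Agent.Helper3.EV

open Polynomial Finset Filter Topology Matrix
open Pool.Agent.Helper54.HQ (Prm pz factPrm kp red Weak Fam mkP critD StSp StSa StSw StSe StTc StTe StTg)

theorem hSq : StSq := by
  intro p hp f hsq
  haveI : Fact p.Prime := ⟨hp⟩
  constructor
  · rintro ⟨r, h1, h2⟩
    have hr : (f.map (Int.castRingHom (ZMod p))).IsRoot (r : ZMod p) := by
      rw [IsRoot, eval_intCast_map, eq_intCast, ZMod.intCast_zmod_eq_zero_iff_dvd]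
      exact (dvd_pow_self _ two_ne_zero).trans h1
    have hd : (derivative (f.map (Int.castRingHom (ZMod p)))).IsRoot (r : ZMod p) := by
      rw [IsRoot, derivative_map, eval_intCast_map, eq_intCast, ZMod.intCast_zmod_eq_zero_iff_dvd]
      exact h2
    have hm : 2 ≤ (f.map (Int.castRingHom (ZMod p))).rootMultiplicity (r : ZMod p) :=
      (one_lt_rootMultiplicity_iff_isRoot hsq.ne_zero).2 ⟨hr, hd⟩
    have hdv : (X - C (r : ZMod p)) ^ 2 ∣ f.map (Int.castRingHom (ZMod p)) :=
      (pow_dvd_pow _ hm).trans (pow_rootMultiplicity_dvd _ _)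
    rw [pow_two] at hdv
    exact not_isUnit_X_sub_C _ (hsq _ hdv)
  · rintro ⟨φ, hφ, hdeg, hdv⟩
    rw [pow_two] at hdv
    have hu := hsq _ hdv
    have := natDegree_eq_zero_of_isUnit hu
    omega

end Pool.Agent.Helper3.EV
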