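import Pool.Agent.Helper3.EV.StS
import Pool.Agent.Helper54.HQ.M_Sp

/-!
# EV, module Ss: Dbl, local count
-/

set_option autoImplicit false

namespace Pool.Agent.Helper3.EV

open Polynomial Finset
open Pool.Agent.Helper54.HQ (Prm pz factPrm kp red Weak Fam mkP critD StSp StSa StSw StSe StTc StTe StTg)

private lemma geo_Ss (p : ℕ) (hp : 2 ≤ p) (M : ℕ) : ∑ k ∈ range (M + 1), p ^ k ≤ 2 * p ^ M := by
  induction M with
  | zero => simp
  | succ M ih =>
    rw [Finset.sum_range_succ]
    have : 2 * p ^ M ≤ p ^ (M + 1) := by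
      rw [pow_succ, mul_comm]
      exact Nat.mul_le_mul_left _ hp
    omega

theorem hSs : StSs := by
  have h : StSp := Pool.Agent.Helper54.HQ.hSp
  intro N p hN hp
  have hp' : Fact p.Prime := ⟨hp⟩
  classical
  set F : ∀ d : ℕ, ((Fin d → ZMod p) × (Fin (N - 2 * d) → ZMod p)) → (Fin N → ZMod p) :=
    fun d x j => ((mkP x.1) ^ 2 * mkP x.2).coeff j with hF
  set W : Finset (Fin N → ZMod p) := (Icc 2 N).biUnion fun d =>
    if 2 * d ≤ N then Finset.univ.image (F d) else ∅ with hW
  refine ⟨W, ?_, ?_⟩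
  · have h1 : ∀ d ∈ Icc 2 N, (if 2 * d ≤ N then Finset.univ.image (F d) else ∅).card ≤
        p ^ (N - d) := by
      intro d _
      split_ifs with hd
      · refine Finset.card_image_le.trans ?_
        rw [Finset.card_univ, Fintype.card_prod, Fintype.card_fun, Fintype.card_fun, ZMod.card,
          Fintype.card_fin, Fintype.card_fin, ← pow_add]
        exact Nat.pow_le_pow_right hp.pos (by omega)
      · simp
    calc W.card ≤ ∑ d ∈ Icc 2 N, (if 2 * d ≤ N then Finset.univ.image (F d) else ∅).card :=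
          Finset.card_biUnion_le
      _ ≤ ∑ d ∈ Icc 2 N, p ^ (N - d) := Finset.sum_le_sum h1
      _ = ∑ k ∈ range (N - 2 + 1), p ^ k := by
          refine Finset.sum_nbij' (fun d => N - d) (fun k => N - k) ?_ ?_ ?_ ?_ ?_
          · intro d hd
            rw [Finset.mem_Icc] at hd
            rw [Finset.mem_range]
            omega
          · intro k hk
            rw [Finset.mem_range] at hk
            rw [Finset.mem_Icc]
            omega
          · intro d hd
            rw [Finset.mem_Icc] at hd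
            omega
          · intro k hk
            rw [Finset.mem_range] at hk
            omega
          · intro d _
            rfl
      _ ≤ 2 * p ^ (N - 2) := geo_Ss p hp.two_le (N - 2)
  · rintro c ⟨φ, hφ, hd, hdvd⟩
    rw [h.2.2] at hdvd
    set c' : Fin N → ZMod p := fun j => (Int.castRingHom (ZMod p)) (c j) with hc'
    have hm := (h.1 (ZMod p) N c').1
    have hdeg := (h.1 (ZMod p) N c').2.1
    have hco := (h.1 (ZMod p) N c').2.2
    obtain ⟨ψ, hψ⟩ := hdvd
    have hψm : ψ.Monic := (hφ.pow 2).of_mul_monic_left (hψ ▸ hm)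
    have hdegs : N = 2 * φ.natDegree + ψ.natDegree := by
      rw [← hdeg, hψ, (hφ.pow 2).natDegree_mul hψm, hφ.natDegree_pow]
    rw [hW, Finset.mem_biUnion]
    refine ⟨φ.natDegree, Finset.mem_Icc.2 ⟨hd, by omega⟩, ?_⟩
    rw [if_pos (by omega), Finset.mem_image]
    refine ⟨(fun i => φ.coeff i, fun i => ψ.coeff i), Finset.mem_univ _, ?_⟩
    rw [hF]
    funext j
    show ((mkP fun i : Fin φ.natDegree => φ.coeff i) ^ 2 *
      mkP fun i : Fin (N - 2 * φ.natDegree) => ψ.coeff i).coeff (j : ℕ) = ((c j : ℤ) : ZMod p)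
    rw [← h.2.1 (ZMod p) φ.natDegree φ hφ rfl,
      ← h.2.1 (ZMod p) (N - 2 * φ.natDegree) ψ hψm (by omega), ← hψ, hco j]
    rfl

end Pool.Agent.Helper3.EV
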