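import Pool.Agent.Helper3.EV.StS

/-!
# EV module St: the classes at the primes of `T`
-/

set_option autoImplicit false

namespace Pool.Agent.Helper3.EV

open Polynomial Finset Filter Topology Matrix
open Pool.Agent.Helper54.HQ (Prm pz factPrm kp red Weak Fam mkP critD StSp StSa StSw StSe StTc StTe StTg)

theorem hSt (h : StSp) (hq : StSq) (hx : StSx) (_hn : StSn) : StSt := by
  intro g hg P
  classical
  obtain ⟨h1, h2, h3⟩ := h
  refine ⟨Finset.univ.filter (fun a : Fin (2 * g + 2) → kp P => mkP a ∈ TType (kp P) g), ?_, ?_⟩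
  · have hinj : Function.Injective (mkP : (Fin (2 * g + 2) → kp P) → (kp P)[X]) := by
      intro a b hab
      funext i
      rw [← (h1 (kp P) (2 * g + 2) a).2.2 i, hab, (h1 (kp P) (2 * g + 2) b).2.2 i]
    have himg : TType (kp P) g = mkP '' ((Finset.univ.filter
        (fun a : Fin (2 * g + 2) → kp P => mkP a ∈ TType (kp P) g) :
          Finset (Fin (2 * g + 2) → kp P)) : Set (Fin (2 * g + 2) → kp P)) := by
      ext f
      constructor
      · intro hf
        obtain ⟨hm, hd, _⟩ := hx g hg (kp P) f (Or.inl hf)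
        refine ⟨_, ?_, (h2 (kp P) (2 * g + 2) _ hm hd).symm⟩
        simp only [Finset.coe_filter, Finset.mem_univ, true_and, Set.mem_setOf_eq]
        rw [← h2 (kp P) (2 * g + 2) _ hm hd]
        exact hf
      · rintro ⟨a, ha, rfl⟩
        simpa using ha
    conv_rhs => rw [himg]
    rw [Set.ncard_image_of_injective _ hinj, Set.ncard_coe_finset]
  · intro c hc
    rw [Finset.mem_filter] at hc
    have hmap : (mkP c).map (red P) = mkP (fun j => (c j : kp P)) := by
      rw [h3]
      rfl
    have hT : (mkP c).map (red P) ∈ TType (kp P) g := by rw [hmap]; exact hc.2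
    have hsq : Squarefree ((mkP c).map (Int.castRingHom (ZMod (P : ℕ)))) :=
      (hx g hg (kp P) _ (Or.inl hT)).2.2
    have hP : (P : ℕ).Prime := (factPrm P).out
    exact ⟨hT, hq P hP _ hsq⟩

end Pool.Agent.Helper3.EV
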