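import Pool.Agent.Helper3.EV.StS

/-!
# EV, module Sx: the polynomials of the three types are squarefree
-/

set_option autoImplicit false

namespace Pool.Agent.Helper3.EV

open Polynomial

private lemma rel_Sx {k : Type} [Field k] (a : k) (p : k[X]) (hp : Irreducible p)
    (hd : p.natDegree ≠ 1) : IsRelPrime (X - C a) p := by
  apply IsCoprime.isRelPrime
  rw [(irreducible_X_sub_C a).coprime_iff_not_dvd]
  rintro ⟨q, hq⟩
  rcases hp.isUnit_or_isUnit hq with h | h
  · exact (irreducible_X_sub_C a).not_isUnit h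
  · apply hd
    rw [hq, natDegree_mul (X_sub_C_ne_zero a) h.ne_zero, natDegree_X_sub_C,
      natDegree_eq_zero_of_isUnit h]

theorem hSx : StSx := by
  intro g hg k _ h hh
  rcases hh with ⟨a, b, p, hab, hp, hirr, hdeg, rfl⟩ | ⟨a, p, hp, hirr, hdeg, rfl⟩ |
    ⟨hm, hirr, hdeg⟩
  · refine ⟨((monic_X_sub_C a).mul (monic_X_sub_C b)).mul hp, ?_, ?_⟩
    · rw [((monic_X_sub_C a).mul (monic_X_sub_C b)).natDegree_mul hp,
        (monic_X_sub_C a).natDegree_mul (monic_X_sub_C b), natDegree_X_sub_C, natDegree_X_sub_C,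
        hdeg]
      omega
    · have h1 : IsRelPrime (X - C a) p := rel_Sx a p hirr (by omega)
      have h2 : IsRelPrime (X - C b) p := rel_Sx b p hirr (by omega)
      rw [squarefree_mul_iff, squarefree_mul_iff]
      refine ⟨h1.mul_left h2, ⟨?_, (irreducible_X_sub_C a).squarefree,
        (irreducible_X_sub_C b).squarefree⟩, hirr.squarefree⟩
      exact (pairwise_coprime_X_sub_C (fun x y (hxy : (id x : k) = id y) => hxy) hab).isRelPrime
  · refine ⟨(monic_X_sub_C a).mul hp, ?_, ?_⟩
    · rw [(monic_X_sub_C a).natDegree_mul hp, natDegree_X_sub_C, hdeg]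
      omega
    · rw [squarefree_mul_iff]
      exact ⟨rel_Sx a p hirr (by omega), (irreducible_X_sub_C a).squarefree, hirr.squarefree⟩
  · exact ⟨hm, hdeg, hirr.squarefree⟩

end Pool.Agent.Helper3.EV
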