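import Pool.Agent.Helper3.EV.StS

/-!
# EV: Ta (Dbl for small primes)
-/

set_option autoImplicit false

namespace Pool.Agent.Helper3.EV

open Polynomial Finset Filter Topology Matrix
open Pool.Agent.Helper54.HQ (Prm pz factPrm kp red Weak Fam mkP critD StSp StSa StSw StSe StTc StTe StTg)

private lemma count_Ta {p : ℕ} (hp : 0 < p) (w : ZMod p) (M : ℕ) (hM : 1 ≤ M) (hpM : p ≤ M) :
    (((Icc (-(M : ℤ)) M).filter (fun x : ℤ => (x : ZMod p) = w)).card : ℝ) ≤ 4 * M / p := by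
  have : NeZero p := ⟨hp.ne'⟩
  have hp0 : (0 : ℝ) < p := by exact_mod_cast hp
  have h1 : (Icc (-(M : ℤ)) M).filter (fun x : ℤ => (x : ZMod p) = w) =
      (Ioc (-(M : ℤ) - 1) M).filter (fun x : ℤ => x ≡ (w.val : ℤ) [ZMOD (p : ℤ)]) := by
    ext x
    simp only [Finset.mem_filter, Finset.mem_Icc, Finset.mem_Ioc]
    rw [← ZMod.intCast_eq_intCast_iff]
    have : ((w.val : ℤ) : ZMod p) = w := by
      rw [Int.cast_natCast, ZMod.natCast_val, ZMod.cast_id', id]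
    rw [this]
    constructor <;> rintro ⟨h, h2⟩ <;> exact ⟨by omega, h2⟩
  have h2 := Int.Ioc_filter_modEq_card (-(M : ℤ) - 1) M (r := (p : ℤ)) (by exact_mod_cast hp) (w.val : ℤ)
  rw [← h1] at h2
  set c := ((Icc (-(M : ℤ)) M).filter (fun x : ℤ => (x : ZMod p) = w)).card with hc
  have hp0' : (0 : ℚ) < p := by exact_mod_cast hp
  have h3 : (c : ℚ) ≤ (2 * M + 1) / p + 1 := by
    have h4 : (c : ℤ) ≤ max (⌊((M : ℤ) - (w.val : ℤ) : ℚ) / ((p : ℤ) : ℚ)⌋ -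
        ⌊((-(M : ℤ) - 1 : ℤ) - (w.val : ℤ) : ℚ) / ((p : ℤ) : ℚ)⌋) 0 := by
      rw [h2]
    rcases le_max_iff.1 h4 with h5 | h5
    · have h6 : (c : ℚ) ≤ (⌊((M : ℤ) - (w.val : ℤ) : ℚ) / ((p : ℤ) : ℚ)⌋ : ℚ) -
        (⌊((-(M : ℤ) - 1 : ℤ) - (w.val : ℤ) : ℚ) / ((p : ℤ) : ℚ)⌋ : ℚ) := by exact_mod_cast h5
      have h7 := Int.floor_le (((M : ℤ) - (w.val : ℤ) : ℚ) / ((p : ℤ) : ℚ))
      have h8 := (Int.sub_one_lt_floor (((-(M : ℤ) - 1 : ℤ) - (w.val : ℤ) : ℚ) / ((p : ℤ) : ℚ))).le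
      have h9 : ((M : ℤ) - (w.val : ℤ) : ℚ) / ((p : ℤ) : ℚ) -
          (((-(M : ℤ) - 1 : ℤ) - (w.val : ℤ) : ℚ) / ((p : ℤ) : ℚ) - 1) = (2 * M + 1) / p + 1 := by
        push_cast
        field_simp
        ring
      linarith
    · have : (c : ℚ) ≤ 0 := by exact_mod_cast h5
      have : (0 : ℚ) ≤ (2 * M + 1) / p + 1 := by positivity
      linarith
  have h4 : (c : ℝ) ≤ (2 * M + 1) / p + 1 := by
    have h5 : (((c : ℚ) : ℚ) : ℝ) ≤ (((2 * M + 1) / p + 1 : ℚ) : ℝ) := Rat.cast_le.2 h3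
    push_cast at h5
    exact h5
  refine h4.trans ?_
  have h5 : (p : ℝ) ≤ M := by exact_mod_cast hpM
  have h6 : (1 : ℝ) ≤ M := by exact_mod_cast hM
  rw [div_add_one hp0.ne', div_le_div_iff_of_pos_right hp0]
  linarith

private lemma sum_Ta (N : ℕ) : ∑ i ∈ range N, (N - i) = N * (N + 1) / 2 := by
  have h : 2 * ∑ i ∈ range N, (N - i) = N * (N + 1) := by
    induction N with
    | zero => simp
    | succ n ih =>
      rw [Finset.sum_range_succ', mul_add]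
      simp only [Nat.add_sub_add_right, Nat.sub_zero]
      rw [ih]
      ring
  omega

/-- the box -/
private noncomputable def box_Ta (N H : ℕ) : Finset (Fin N → ℤ) :=
  Fintype.piFinset fun i : Fin N => Icc (-((H ^ (N - (i : ℕ)) : ℕ) : ℤ)) ((H ^ (N - (i : ℕ)) : ℕ) : ℤ)

private lemma mem_box_Ta {N H : ℕ} {f : ℤ[X]} (hf : f ∈ Fam N H) :
    (fun i : Fin N => f.coeff i) ∈ box_Ta N H := by
  unfold box_Ta
  rw [Fintype.mem_piFinset]
  intro i
  have := abs_le.1 (hf.2.2 i i.2.le)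
  rw [Finset.mem_Icc]
  push_cast
  exact this

theorem hTa (h1 : StSp) (h2 : StSs) : StTa := by
  intro N H hN
  have hinj : Set.InjOn (fun f : ℤ[X] => fun i : Fin N => f.coeff i) (Fam N H) := by
    intro f hf f' hf' he
    rw [h1.2.1 ℤ N f hf.1 hf.2.1, h1.2.1 ℤ N f' hf'.1 hf'.2.1]
    have he' : (fun i : Fin N => f.coeff i) = fun i : Fin N => f'.coeff i := he
    rw [he']
  refine ⟨Set.Finite.of_injOn (fun f hf => Finset.mem_coe.2 (mem_box_Ta hf)) hinj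
    (Finset.finite_toSet _), ?_⟩
  intro p hp hpH
  obtain ⟨W, hW, hWs⟩ := h2 N p hN hp
  have hp0 : (0 : ℝ) < p := by exact_mod_cast hp.pos
  set F : (Fin N → ZMod p) → Finset (Fin N → ℤ) := fun w =>
    Fintype.piFinset fun i : Fin N =>
      (Icc (-((H ^ (N - (i : ℕ)) : ℕ) : ℤ)) ((H ^ (N - (i : ℕ)) : ℕ) : ℤ)).filter
        (fun x : ℤ => (x : ZMod p) = w i) with hF
  have hmaps : ∀ f ∈ {f | f ∈ Fam N H ∧ Dbl p f}, (fun i : Fin N => f.coeff i) ∈
      ((W.biUnion F : Finset (Fin N → ℤ)) : Set (Fin N → ℤ)) := by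
    rintro f ⟨hf, hs⟩
    rw [Finset.mem_coe, Finset.mem_biUnion]
    refine ⟨fun j => ((f.coeff j : ℤ) : ZMod p), hWs (fun i : Fin N => f.coeff i) ?_, ?_⟩
    · rw [← h1.2.1 ℤ N f hf.1 hf.2.1]
      exact hs
    · rw [hF, Fintype.mem_piFinset]
      intro i
      rw [Finset.mem_filter]
      have := Fintype.mem_piFinset.1 (mem_box_Ta hf) i
      exact ⟨this, rfl⟩
  have h3 := Set.ncard_le_ncard_of_injOn (s := {f | f ∈ Fam N H ∧ Dbl p f}) _ hmaps
    (hinj.mono fun f hf => hf.1) (Finset.finite_toSet _)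
  rw [Set.ncard_coe_finset] at h3
  have h4 : ∀ w, ((F w).card : ℝ) ≤ 4 ^ N * (H : ℝ) ^ (N * (N + 1) / 2) / (p : ℝ) ^ N := by
    intro w
    rw [hF, Fintype.card_piFinset]
    push_cast
    calc _ ≤ ∏ i : Fin N, (4 * ((H ^ (N - (i : ℕ)) : ℕ) : ℝ) / p) := by
          refine Finset.prod_le_prod (fun i _ => Nat.cast_nonneg _) fun i _ => ?_
          have hH1 : 1 ≤ H := hp.one_lt.le.trans hpH
          have := count_Ta hp.pos (w i) (H ^ (N - (i : ℕ))) (Nat.one_le_pow _ _ hH1)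
            (hpH.trans (Nat.le_self_pow (by omega) H))
          push_cast at this ⊢
          exact this
      _ = 4 ^ N * (H : ℝ) ^ (N * (N + 1) / 2) / (p : ℝ) ^ N := by
          rw [Finset.prod_div_distrib, Finset.prod_mul_distrib]
          push_cast
          rw [Finset.prod_pow_eq_pow_sum, Finset.prod_const, Finset.prod_const, Finset.card_univ,
            Fintype.card_fin, Fin.sum_univ_eq_sum_range (fun i => N - i) N, sum_Ta]
  calc (({f | f ∈ Fam N H ∧ Dbl p f}.ncard : ℕ) : ℝ) ≤ ((W.biUnion F).card : ℝ) := by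
        exact_mod_cast h3
    _ ≤ ∑ w ∈ W, ((F w).card : ℝ) := by exact_mod_cast Finset.card_biUnion_le
    _ ≤ ∑ w ∈ W, 4 ^ N * (H : ℝ) ^ (N * (N + 1) / 2) / (p : ℝ) ^ N :=
        Finset.sum_le_sum fun w _ => h4 w
    _ = (W.card : ℝ) * (4 ^ N * (H : ℝ) ^ (N * (N + 1) / 2) / (p : ℝ) ^ N) := by
        rw [Finset.sum_const, nsmul_eq_mul]
    _ ≤ (2 * (p : ℝ) ^ (N - 2)) * (4 ^ N * (H : ℝ) ^ (N * (N + 1) / 2) / (p : ℝ) ^ N) := by
        apply mul_le_mul_of_nonneg_right _ (by positivity)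
        exact_mod_cast hW
    _ = 2 * 4 ^ N * (H : ℝ) ^ (N * (N + 1) / 2) / (p : ℝ) ^ 2 := by
        have : (p : ℝ) ^ N = (p : ℝ) ^ (N - 2) * (p : ℝ) ^ 2 := by
          rw [← pow_add]
          congr 1
          omega
        rw [this]
        field_simp

end Pool.Agent.Helper3.EV
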