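import Pool.Agent.Helper3.EV.StS

/-! # EV, module Tb: `Dbl p` for some large prime `p` -/

set_option autoImplicit false

namespace Pool.Agent.Helper3.EV

open Polynomial Finset
open Pool.Agent.Helper54.HQ (Prm pz factPrm kp red Weak Fam mkP critD StSp StSa StSw StSe StTc StTe StTg)

/-- integers of a box in a residue class -/
private theorem cnt_Tb (H N p : ℕ) (hH : 2 ≤ H) (hN : 1 ≤ N) (hp : H < p) (e : ZMod p) :
    ((Finset.Icc (-(H : ℤ) ^ N) ((H : ℤ) ^ N)).filter (fun x : ℤ => (x : ZMod p) = e)).card ≤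
      4 * H ^ (N - 1) := by
  have hpz : (0 : ℤ) < p := by exact_mod_cast (by omega : 0 < p)
  have hHp : (H : ℤ) ≤ p := by exact_mod_cast hp.le
  have hHN : (H : ℤ) ^ N = (H : ℤ) ^ (N - 1) * H := by
    rw [← pow_succ]; congr 1; omega
  have hHN0 : (0 : ℤ) ≤ (H : ℤ) ^ (N - 1) := by positivity
  have h1 : ((Finset.Icc (-(H : ℤ) ^ N) ((H : ℤ) ^ N)).filter
      (fun x : ℤ => (x : ZMod p) = e)).card ≤ (Finset.Icc (0 : ℤ) (2 * (H : ℤ) ^ (N - 1))).card := by
    apply Finset.card_le_card_of_injOn (fun x : ℤ => (x + (H : ℤ) ^ N) / p)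
    · intro x hx
      have hx' := Finset.mem_filter.1 (Finset.mem_coe.1 hx)
      rw [Finset.mem_Icc] at hx'
      rw [Finset.mem_coe, Finset.mem_Icc]
      constructor
      · apply Int.ediv_nonneg (by linarith [hx'.1.1]) hpz.le
      · apply Int.ediv_le_of_le_mul hpz
        have : (H : ℤ) ^ (N - 1) * H ≤ (H : ℤ) ^ (N - 1) * p := mul_le_mul_of_nonneg_left hHp hHN0
        linarith [hx'.1.2]
    · intro x hx y hy hxy
      have hx' := Finset.mem_filter.1 (Finset.mem_coe.1 hx)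
      have hy' := Finset.mem_filter.1 (Finset.mem_coe.1 hy)
      have h2 : (x : ZMod p) = (y : ZMod p) := by rw [hx'.2, hy'.2]
      have h3 : x ≡ y [ZMOD p] := (ZMod.intCast_eq_intCast_iff _ _ _).1 h2
      have h4 : (x + (H : ℤ) ^ N) % p = (y + (H : ℤ) ^ N) % p := h3.add_right _
      have h5 : (x + (H : ℤ) ^ N) / p = (y + (H : ℤ) ^ N) / p := hxy
      have h6 := Int.mul_ediv_add_emod (x + (H : ℤ) ^ N) p
      have h7 := Int.mul_ediv_add_emod (y + (H : ℤ) ^ N) p
      rw [h4, h5] at h6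
      linarith
  refine h1.trans ?_
  rw [Int.card_Icc]
  have h8 : (1 : ℤ) ≤ (H : ℤ) ^ (N - 1) := one_le_pow₀ (by exact_mod_cast (by omega : 1 ≤ H))
  have h9 : ((4 * H ^ (N - 1) : ℕ) : ℤ) = 4 * (H : ℤ) ^ (N - 1) := by push_cast; ring
  have h10 : (2 * (H : ℤ) ^ (N - 1) + 1 - 0) ≤ ((4 * H ^ (N - 1) : ℕ) : ℤ) := by rw [h9]; linarith
  omega

/-- the number of the tuples of the other coefficients -/
private theorem box_Tb (N H : ℕ) (hH : 2 ≤ H) :
    (Fintype.piFinset (fun i : Fin (N - 1) =>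
      Finset.Icc (-(H : ℤ) ^ (N - 1 - (i : ℕ))) ((H : ℤ) ^ (N - 1 - (i : ℕ))))).card ≤
      3 ^ (N - 1) * H ^ (∑ i ∈ Finset.range (N - 1), (N - 1 - i)) := by
  rw [Fintype.card_piFinset]
  have h1 : ∀ i : Fin (N - 1), (Finset.Icc (-(H : ℤ) ^ (N - 1 - (i : ℕ)))
      ((H : ℤ) ^ (N - 1 - (i : ℕ)))).card ≤ 3 * H ^ (N - 1 - (i : ℕ)) := by
    intro i
    rw [Int.card_Icc]
    have h8 : (1 : ℤ) ≤ (H : ℤ) ^ (N - 1 - (i : ℕ)) :=
      one_le_pow₀ (by exact_mod_cast (by omega : 1 ≤ H))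
    have h9 : ((3 * H ^ (N - 1 - (i : ℕ)) : ℕ) : ℤ) = 3 * (H : ℤ) ^ (N - 1 - (i : ℕ)) := by
      push_cast; ring
    have h10 : ((H : ℤ) ^ (N - 1 - (i : ℕ)) + 1 - -(H : ℤ) ^ (N - 1 - (i : ℕ))) ≤
      ((3 * H ^ (N - 1 - (i : ℕ)) : ℕ) : ℤ) := by rw [h9]; linarith
    omega
  refine (Finset.prod_le_prod' (fun i _ => h1 i)).trans (le_of_eq ?_)
  rw [Finset.prod_mul_distrib, Finset.prod_const, Finset.card_univ, Fintype.card_fin,
    Finset.prod_pow_eq_pow_sum, ← Finset.sum_range (fun i => N - 1 - i)]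

private theorem sum_Tb (N : ℕ) : ∑ i ∈ Finset.range (N - 1), (N - 1 - i) = N * (N - 1) / 2 := by
  have h1 : ∑ i ∈ Finset.range (N - 1), (N - 1 - i) = ∑ i ∈ Finset.range N, i := by
    rcases Nat.eq_zero_or_pos N with h | h
    · subst h; simp
    · obtain ⟨m, rfl⟩ : ∃ m, N = m + 1 := ⟨N - 1, by omega⟩
      rw [Nat.add_sub_cancel, Finset.sum_range_succ', ← Finset.sum_range_reflect]
      simp only [add_zero]
      apply Finset.sum_congr rfl
      intro i hi
      rw [Finset.mem_range] at hi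
      omega
  rw [h1, Finset.sum_range_id]

private theorem exp_Tb (N : ℕ) (hN : 1 ≤ N) : N * (N - 1) / 2 + N = N * (N + 1) / 2 := by
  obtain ⟨m, rfl⟩ : ∃ m, N = m + 1 := ⟨N - 1, by omega⟩
  rw [Nat.add_sub_cancel]
  have h1 : (m + 1) * (m + 1 + 1) = (m + 1) * m + (m + 1) * 2 := by ring
  rw [h1, Nat.add_mul_div_right _ _ (by norm_num)]

open Classical in
theorem hTb (h1 : StSp) (h2 : StTd) (h3 : StTe) (h4 : StTf) (h5 : StTg) : StTb := by
  intro N hN
  obtain ⟨D, hD0, hD⟩ := h2 N hN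
  obtain ⟨K1, hK1, hte⟩ := h3 N (by omega) D hD0
  obtain ⟨K2, htg⟩ := h5 N D
  refine ⟨K1 + (K2 * ((N - 1 : ℕ) * 4) * 3 ^ (N - 1) : ℝ), by positivity, fun H hH => ?_⟩
  -- the boxes
  set B : Finset (Fin N → ℤ) := Fintype.piFinset (fun i : Fin N =>
    Finset.Icc (-(H : ℤ) ^ (N - (i : ℕ))) ((H : ℤ) ^ (N - (i : ℕ)))) with hB
  have memB : ∀ c : Fin N → ℤ, c ∈ B ↔ ∀ i, |c i| ≤ (H : ℤ) ^ (N - (i : ℕ)) := by
    intro c
    rw [hB, Fintype.mem_piFinset]
    simp only [Finset.mem_Icc, abs_le]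
  set π : (Fin N → ℤ) → (Fin (N - 1) → ℤ) := fun c i => c ⟨(i : ℕ) + 1, by omega⟩ with hπ
  set S0 : Finset (Fin N → ℤ) := B.filter (fun c => MvPolynomial.eval (π c) D = 0) with hS0
  set S1 : Finset (Fin N → ℤ) := B.filter (fun c => MvPolynomial.eval (π c) D ≠ 0 ∧
    ∃ p : ℕ, p.Prime ∧ H < p ∧ N < p ∧ Dbl p (mkP c)) with hS1
  have hfin : ({f | f ∈ Fam N H ∧ ∃ p : ℕ, p.Prime ∧ H < p ∧ N < p ∧ Dbl p f}.ncard) ≤
      S0.card + S1.card := by
    have ha : {f | f ∈ Fam N H ∧ ∃ p : ℕ, p.Prime ∧ H < p ∧ N < p ∧ Dbl p f} ⊆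
        ((S0 ∪ S1).image (fun c => mkP c) : Set ℤ[X]) := by
      intro f hf
      obtain ⟨⟨hm, hd, hc⟩, hp⟩ := hf
      have hfe : f = mkP (fun i : Fin N => f.coeff i) := h1.2.1 ℤ N f hm hd
      rw [Finset.coe_image]
      refine ⟨fun i : Fin N => f.coeff i, ?_, hfe.symm⟩
      have hb : (fun i : Fin N => f.coeff i) ∈ B := by
        rw [memB]
        intro i
        exact hc i i.2.le
      rw [Finset.mem_coe, Finset.mem_union]
      by_cases he : MvPolynomial.eval (π (fun i : Fin N => f.coeff i)) D = 0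
      · left
        exact Finset.mem_filter.2 ⟨hb, he⟩
      · right
        refine Finset.mem_filter.2 ⟨hb, he, ?_⟩
        rw [← hfe]
        exact hp
    calc _ ≤ ((S0 ∪ S1).image (fun c => mkP c) : Set ℤ[X]).ncard :=
          Set.ncard_le_ncard ha (Finset.finite_toSet _)
      _ = ((S0 ∪ S1).image (fun c => mkP c)).card := Set.ncard_coe_finset _
      _ ≤ (S0 ∪ S1).card := Finset.card_image_le
      _ ≤ _ := Finset.card_union_le _ _
  -- the zeros of `D`
  have hs0 : (S0.card : ℝ) * H ≤ K1 * (H : ℝ) ^ (N * (N + 1) / 2) := by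
    have ha := hte H (by omega)
    have hb : {c : Fin N → ℤ | (∀ i, |c i| ≤ (H : ℤ) ^ (N - (i : ℕ))) ∧
      MvPolynomial.eval (fun i : Fin (N - 1) => c ⟨(i : ℕ) + 1, by omega⟩) D = 0} =
      (S0 : Set (Fin N → ℤ)) := by
      ext c
      rw [Finset.mem_coe, hS0, Finset.mem_filter, memB]
      rfl
    rw [hb, Set.ncard_coe_finset] at ha
    exact ha
  -- the others
  have hs1 : S1.card ≤ (K2 * ((N - 1) * (4 * H ^ (N - 1)))) *
      (3 ^ (N - 1) * H ^ (N * (N - 1) / 2)) := by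
    have hfib : ∀ b ∈ S1.image π, (S1.filter (fun a => π a = b)).card ≤
        K2 * ((N - 1) * (4 * H ^ (N - 1))) := by
      intro b hb
      rw [Finset.mem_image] at hb
      obtain ⟨c0, hc0, hc0b⟩ := hb
      have hc0' := Finset.mem_filter.1 (hS1 ▸ hc0)
      have hc0B := (memB c0).1 hc0'.1
      have hDb : MvPolynomial.eval b D ≠ 0 := by rw [← hc0b]; exact hc0'.2.1
      set P : Finset ℕ := (MvPolynomial.eval b D).natAbs.primeFactors.filter (fun p => H < p ∧ N < p)
        with hP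
      have hPc : P.card ≤ K2 := by
        apply htg H hH b _ hDb P
        · intro p hp
          rw [hP, Finset.mem_filter, Nat.mem_primeFactors] at hp
          exact ⟨hp.1.1, hp.2.1, Int.natCast_dvd.2 hp.1.2.1⟩
        · intro i
          rw [← hc0b]
          refine (hc0B _).trans ?_
          apply pow_le_pow_right₀ (by exact_mod_cast (by omega : 1 ≤ H))
          exact Nat.sub_le _ _
      set c' : Fin N → ℤ := c0 with hc'
      have hE : ∀ p : ℕ, ∃ E : Finset (ZMod p), E.card ≤ N - 1 ∧ (p ∈ P →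
          ∀ c : Fin N → ℤ, (∀ i : Fin N, (i : ℕ) ≠ 0 → c i = c' i) →
          Dbl p (mkP c) → ∀ i₀ : Fin N, (i₀ : ℕ) = 0 → (c i₀ : ZMod p) ∈ E) := by
        intro p
        by_cases hp : p ∈ P
        · have hp' := hp
          rw [hP, Finset.mem_filter, Nat.mem_primeFactors] at hp'
          obtain ⟨E, hE1, hE2⟩ := h4 N p hN hp'.1.1 hp'.2.2 c'
          exact ⟨E, hE1, fun _ => hE2⟩
        · exact ⟨∅, by simp, fun h => absurd h hp⟩
      choose E hE1 hE2 using hE
      have hcov : (S1.filter (fun a => π a = b)).card ≤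
          (P.biUnion (fun p => (E p).biUnion (fun e =>
            (Finset.Icc (-(H : ℤ) ^ N) ((H : ℤ) ^ N)).filter (fun x : ℤ => (x : ZMod p) = e)))).card := by
        apply Finset.card_le_card_of_injOn (fun c : Fin N → ℤ => c ⟨0, by omega⟩)
        · intro c hc
          have hc1 := Finset.mem_filter.1 (Finset.mem_coe.1 hc)
          have hc2 := Finset.mem_filter.1 (hS1 ▸ hc1.1)
          obtain ⟨hcB, hcD, p, hp, hHp, hNp, hst⟩ := hc2
          rw [memB] at hcB
          rw [Finset.mem_coe, Finset.mem_biUnion]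
          have hpD := hD p hp hNp c hst
          have hpP : p ∈ P := by
            rw [hP, Finset.mem_filter, Nat.mem_primeFactors]
            refine ⟨⟨hp, ?_, ?_⟩, hHp, hNp⟩
            · rw [← Int.natCast_dvd, ← hc1.2]
              exact hpD
            · rw [Int.natAbs_ne_zero]
              exact hDb
          refine ⟨p, hpP, ?_⟩
          rw [Finset.mem_biUnion]
          have hcc : ∀ i : Fin N, (i : ℕ) ≠ 0 → c i = c' i := by
            intro i hi
            have h6 : π c = π c0 := by rw [hc1.2, hc0b]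
            have h7 := congrFun h6 ⟨(i : ℕ) - 1, by omega⟩
            have h8 : (⟨((i : ℕ) - 1) + 1, by omega⟩ : Fin N) = i := by
              apply Fin.ext
              show (i : ℕ) - 1 + 1 = i
              omega
            have h9 : c ⟨((i : ℕ) - 1) + 1, by omega⟩ = c0 ⟨((i : ℕ) - 1) + 1, by omega⟩ := h7
            rw [h8] at h9
            exact h9
          refine ⟨(c ⟨0, by omega⟩ : ZMod p), hE2 p hpP c hcc hst ⟨0, by omega⟩ rfl, ?_⟩
          rw [Finset.mem_filter, Finset.mem_Icc]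
          refine ⟨?_, rfl⟩
          have h10 := hcB ⟨0, by omega⟩
          rw [abs_le] at h10
          simpa using h10
        · intro c hc d hd hcd
          have hc1 := Finset.mem_filter.1 (Finset.mem_coe.1 hc)
          have hd1 := Finset.mem_filter.1 (Finset.mem_coe.1 hd)
          have h6 : π c = π d := by rw [hc1.2, hd1.2]
          funext i
          by_cases hi : (i : ℕ) = 0
          · have h7 : i = ⟨0, by omega⟩ := Fin.ext hi
            rw [h7]
            exact hcd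
          · have h7 := congrFun h6 ⟨(i : ℕ) - 1, by omega⟩
            have h8 : (⟨((i : ℕ) - 1) + 1, by omega⟩ : Fin N) = i := by
              apply Fin.ext
              show (i : ℕ) - 1 + 1 = i
              omega
            have h9 : c ⟨((i : ℕ) - 1) + 1, by omega⟩ = d ⟨((i : ℕ) - 1) + 1, by omega⟩ := h7
            rw [h8] at h9
            exact h9
      refine hcov.trans ?_
      refine (Finset.card_biUnion_le_card_mul P _ ((N - 1) * (4 * H ^ (N - 1))) ?_).trans
        (Nat.mul_le_mul_right _ hPc)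
      intro p hp
      have hp' := hp
      rw [hP, Finset.mem_filter] at hp'
      refine (Finset.card_biUnion_le_card_mul (E p) _ (4 * H ^ (N - 1)) ?_).trans
        (Nat.mul_le_mul_right _ (hE1 p))
      intro e _
      exact cnt_Tb H N p hH (by omega) hp'.2.1 e
    have himg : (S1.image π).card ≤ 3 ^ (N - 1) * H ^ (N * (N - 1) / 2) := by
      rw [← sum_Tb]
      refine (Finset.card_le_card ?_).trans (box_Tb N H hH)
      intro b hb
      rw [Finset.mem_image] at hb
      obtain ⟨c, hc, rfl⟩ := hb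
      have hc2 := (Finset.mem_filter.1 (hS1 ▸ hc)).1
      rw [memB] at hc2
      rw [Fintype.mem_piFinset]
      intro i
      rw [Finset.mem_Icc, ← abs_le]
      have h6 := hc2 ⟨(i : ℕ) + 1, by omega⟩
      have h7 : N - 1 - (i : ℕ) = N - ((i : ℕ) + 1) := by omega
      rw [h7]
      exact h6
    exact (Finset.card_le_mul_card_image S1 _ hfib).trans (Nat.mul_le_mul_left _ himg)
  have hs1' : (S1.card : ℝ) * H ≤ (K2 * ((N - 1 : ℕ) * 4) * 3 ^ (N - 1) : ℝ) *
      (H : ℝ) ^ (N * (N + 1) / 2) := by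
    have ha : (S1.card : ℝ) ≤ ((K2 * ((N - 1) * (4 * H ^ (N - 1)))) *
      (3 ^ (N - 1) * H ^ (N * (N - 1) / 2)) : ℕ) := by exact_mod_cast hs1
    have hb : (H : ℝ) ^ (N * (N + 1) / 2) = (H : ℝ) ^ (N * (N - 1) / 2) * ((H : ℝ) ^ (N - 1) * H) := by
      rw [← pow_succ, show N - 1 + 1 = N by omega, ← pow_add, exp_Tb N (by omega)]
    calc (S1.card : ℝ) * H ≤ ((K2 * ((N - 1) * (4 * H ^ (N - 1)))) *
          (3 ^ (N - 1) * H ^ (N * (N - 1) / 2)) : ℕ) * H :=
          mul_le_mul_of_nonneg_right ha (by positivity)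
      _ = _ := by
          rw [hb]
          push_cast
          ring
  have hfin' : ({f | f ∈ Fam N H ∧ ∃ p : ℕ, p.Prime ∧ H < p ∧ N < p ∧ Dbl p f}.ncard : ℝ) ≤
      S0.card + S1.card := by exact_mod_cast hfin
  calc _ ≤ ((S0.card : ℝ) + S1.card) * H := mul_le_mul_of_nonneg_right hfin' (by positivity)
    _ = (S0.card : ℝ) * H + S1.card * H := by ring
    _ ≤ _ := by rw [add_mul]; exact add_le_add hs0 hs1'

end Pool.Agent.Helper3.EV
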