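import Pool.Agent.Helper3.EV.StS

/-!
# EV, module Td: elimination of the constant coefficient
-/

set_option autoImplicit false

namespace Pool.Agent.Helper3.EV

open Polynomial Finset Filter Topology Matrix
open Pool.Agent.Helper54.HQ (Prm pz factPrm kp red Weak Fam mkP critD StSp StSa StSw StSe StTc StTe StTg)

/-- The general polynomial without constant coefficient. -/
private noncomputable def gen_Td (N : ℕ) : (MvPolynomial (Fin (N - 1)) ℤ)[X] :=
  mkP (fun i : Fin N => if h : 0 < (i : ℕ) then
    MvPolynomial.X (⟨(i : ℕ) - 1, by have := i.2; omega⟩ : Fin (N - 1)) else 0)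

/-- The resultant of the first and the second derivative. -/
private noncomputable def res_Td {R : Type} [CommRing R] (N : ℕ) (f : R[X]) : R :=
  resultant (derivative f) (derivative (derivative f)) (N - 1) (N - 2)

private theorem res_map_Td {R S : Type} [CommRing R] [CommRing S] (φ : R →+* S) (N : ℕ) (f : R[X]) :
    res_Td N (f.map φ) = φ (res_Td N f) := by
  unfold res_Td
  rw [derivative_map, derivative_map, resultant_map_map]

private theorem mkP_erase_Td {R : Type} [CommRing R] {N : ℕ} (i₀ : Fin N) (hi₀ : (i₀ : ℕ) = 0)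
    (c : Fin N → R) :
    mkP c = mkP (fun i : Fin N => if 0 < (i : ℕ) then c i else 0) + C (c i₀) := by
  unfold mkP
  rw [add_assoc]
  congr 1
  rw [← Finset.add_sum_erase _ _ (Finset.mem_univ i₀),
    ← Finset.add_sum_erase (Finset.univ : Finset (Fin N)) _ (Finset.mem_univ i₀)]
  beta_reduce
  rw [if_neg (by omega), hi₀]
  simp only [map_zero, zero_add, pow_zero, mul_one]
  rw [add_comm]
  congr 1
  apply Finset.sum_congr rfl
  intro i hi
  have hne : i ≠ i₀ := (Finset.mem_erase.1 hi).1
  rw [if_pos]
  by_contra h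
  apply hne
  apply Fin.ext
  omega

/-- The generic polynomial specialises to `X ^ N - N X`. -/
private theorem gen_special_Td {N : ℕ} (hN : 3 ≤ N) (sp3 : ∀ (R S : Type) [CommRing R] [CommRing S]
    (φ : R →+* S) (N : ℕ) (c : Fin N → R), (mkP c).map φ = mkP (fun i => φ (c i))) :
    (gen_Td N).map ((Int.castRingHom ℂ).comp (MvPolynomial.eval
      (fun i : Fin (N - 1) => if (i : ℕ) = 0 then -(N : ℤ) else 0))) =
      (X ^ N - C (N : ℂ) * X : ℂ[X]) := by
  unfold gen_Td
  rw [sp3]
  unfold mkP
  rw [sub_eq_add_neg]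
  congr 1
  rw [Finset.sum_eq_single (⟨1, by omega⟩ : Fin N)]
  · beta_reduce
    rw [dif_pos (show 0 < ((⟨1, by omega⟩ : Fin N) : ℕ) from Nat.one_pos)]
    simp
  · intro i _ hi
    beta_reduce
    by_cases h : 0 < (i : ℕ)
    · rw [dif_pos h]
      have h3 : ¬ ((i : ℕ) - 1 = 0) := by
        intro h4
        apply hi
        apply Fin.ext
        change (i : ℕ) = 1
        omega
      simp [h3]
    · rw [dif_neg h]
      simp
  · intro h
    exact absurd (Finset.mem_univ _) h

private theorem der_special_Td (N : ℕ) : derivative (X ^ N - C (N : ℂ) * X : ℂ[X]) =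
    C (N : ℂ) * (X ^ (N - 1) - 1) := by
  rw [derivative_sub, derivative_X_pow, derivative_C_mul, derivative_X]
  ring

/-- `res_Td` of `X ^ N - N X` is not zero. -/
private theorem res_special_Td {N : ℕ} (hN : 3 ≤ N) : res_Td N (X ^ N - C (N : ℂ) * X : ℂ[X]) ≠ 0 := by
  have hNC : (N : ℂ) ≠ 0 := Nat.cast_ne_zero.2 (by omega)
  have hNC' : ((N - 1 : ℕ) : ℂ) ≠ 0 := Nat.cast_ne_zero.2 (by omega)
  have hd2 : derivative (C (N : ℂ) * (X ^ (N - 1) - 1) : ℂ[X]) =
      C ((N : ℂ) * ((N - 1 : ℕ) : ℂ)) * X ^ (N - 2) := by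
    rw [derivative_C_mul, derivative_sub, derivative_X_pow, derivative_one, sub_zero,
      show N - 1 - 1 = N - 2 by omega, C_mul, mul_assoc]
  have hdeg1 : (C (N : ℂ) * (X ^ (N - 1) - 1) : ℂ[X]).natDegree = N - 1 := by
    rw [natDegree_C_mul hNC, ← C_1, natDegree_X_pow_sub_C]
  have hdeg2 : (C ((N : ℂ) * ((N - 1 : ℕ) : ℂ)) * X ^ (N - 2) : ℂ[X]).natDegree = N - 2 := by
    rw [natDegree_C_mul (mul_ne_zero hNC hNC'), natDegree_X_pow]
  unfold res_Td
  rw [der_special_Td, hd2]
  have key : resultant (C (N : ℂ) * (X ^ (N - 1) - 1) : ℂ[X])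
      (C ((N : ℂ) * ((N - 1 : ℕ) : ℂ)) * X ^ (N - 2) : ℂ[X]) ≠ 0 := by
    apply resultant_ne_zero
    rw [isCoprime_mul_unit_left_left (isUnit_C.2 (isUnit_iff_ne_zero.2 hNC)),
      isCoprime_mul_unit_left_right (isUnit_C.2 (isUnit_iff_ne_zero.2 (mul_ne_zero hNC hNC')))]
    refine ⟨-1, X, ?_⟩
    have h : (X : ℂ[X]) ^ (N - 1) = X * X ^ (N - 2) := by
      rw [← pow_succ']
      congr 1
      omega
    rw [h]
    ring
  rw [hdeg1, hdeg2] at key
  exact key

theorem hTd (h1 : StSp) (h2 : StTc) : StTd := by
  intro N hN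
  obtain ⟨sp1, sp2, sp3⟩ := h1
  obtain ⟨tc1, tc2⟩ := h2
  have h0N : 0 < N := by omega
  refine ⟨critD N (gen_Td N) * res_Td N (gen_Td N), mul_ne_zero ?_ ?_, ?_⟩
  · intro hD
    -- evaluation at X ^ N - N X
    have hf := gen_special_Td hN sp3
    have hev := tc1 _ _ ((Int.castRingHom ℂ).comp (MvPolynomial.eval
      (fun i : Fin (N - 1) => if (i : ℕ) = 0 then -(N : ℤ) else 0))) N (gen_Td N)
    rw [hD, map_zero, hf] at hev
    have hNC : (N : ℂ) ≠ 0 := Nat.cast_ne_zero.2 (by omega)
    have hmon' : (X ^ N - C (N : ℂ) * X : ℂ[X]).Monic ∧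
        (X ^ N - C (N : ℂ) * X : ℂ[X]).natDegree = N := by
      rw [← hf]
      unfold gen_Td
      rw [sp3]
      have := sp1 ℂ N
      exact ⟨(this _).1, (this _).2.1⟩
    obtain ⟨hmon, hdeg⟩ := hmon'
    refine (tc2 ℂ N hN hNC _ hmon hdeg).2 ?_ ?_ hev
    · rw [der_special_Td]
      refine Separable.unit_mul ?_ ?_
      · exact isUnit_C.2 (isUnit_iff_ne_zero.2 hNC)
      · rw [X_pow_sub_one_separable_iff]
        exact Nat.cast_ne_zero.2 (by omega)
    · intro x y hx hy hxy
      rw [der_special_Td] at hx hy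
      have hroot : ∀ z : ℂ, (C (N : ℂ) * (X ^ (N - 1) - 1) : ℂ[X]).IsRoot z → z ^ (N - 1) = 1 := by
        intro z hz
        rw [IsRoot.def, eval_mul, eval_C, eval_sub, eval_pow, eval_X, eval_one] at hz
        rcases mul_eq_zero.1 hz with h | h
        · exact absurd h hNC
        · exact sub_eq_zero.1 h
      have hval : ∀ z : ℂ, z ^ (N - 1) = 1 →
          (X ^ N - C (N : ℂ) * X : ℂ[X]).eval z = (1 - (N : ℂ)) * z := by
        intro z hz
        rw [eval_sub, eval_pow, eval_X, eval_mul, eval_C, eval_X]
        have : z ^ N = z := by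
          conv_lhs => rw [show N = N - 1 + 1 by omega]
          rw [pow_succ, hz, one_mul]
        rw [this]
        ring
      rw [hval x (hroot x hx), hval y (hroot y hy)] at hxy
      refine mul_left_cancel₀ ?_ hxy
      intro h
      have h3 : (N : ℂ) = 1 := (sub_eq_zero.1 h).symm
      have h4 : N = 1 := by exact_mod_cast h3
      omega
  · intro hD
    have hev := res_map_Td ((Int.castRingHom ℂ).comp (MvPolynomial.eval
      (fun i : Fin (N - 1) => if (i : ℕ) = 0 then -(N : ℤ) else 0))) N (gen_Td N)
    rw [hD, map_zero, gen_special_Td hN sp3] at hev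
    exact res_special_Td hN hev
  · intro p hp hpN c hst
    have : Fact p.Prime := ⟨hp⟩
    obtain ⟨φ, hφm, hφd, hdvd⟩ := hst
    let K := AlgebraicClosure (ZMod p)
    have : CharP K p := inferInstance
    have hNK : (N : K) ≠ 0 := by
      intro h
      rw [CharP.cast_eq_zero_iff K p] at h
      exact absurd (Nat.le_of_dvd h0N h) (by omega)
    -- the polynomial over K
    set fK' : K[X] := (mkP c).map (Int.castRingHom K) with hfK
    have hfK2 : fK' = ((mkP c).map (Int.castRingHom (ZMod p))).map (algebraMap (ZMod p) K) := by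
      rw [Polynomial.map_map, hfK]
      exact congrArg (fun φ => (mkP c).map φ) (RingHom.ext_int _ _)
    set φK : K[X] := φ.map (algebraMap (ZMod p) K) with hφK
    have hdvdK : φK ^ 2 ∣ fK' := by
      rw [hfK2, hφK, ← Polynomial.map_pow]
      exact Polynomial.map_dvd _ hdvd
    let i₀ : Fin N := ⟨0, h0N⟩
    have hera := mkP_erase_Td i₀ rfl c
    set f0 : ℤ[X] := mkP (fun i : Fin N => if 0 < (i : ℕ) then c i else 0) with hf0
    have hK0 : fK' = f0.map (Int.castRingHom K) + C ((c i₀ : ℤ) : K) := by
      rw [hfK, hera, Polynomial.map_add, map_C, eq_intCast]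
    have hder0 : derivative fK' = derivative (f0.map (Int.castRingHom K)) := by
      rw [hK0, derivative_add, derivative_C, add_zero]
    have hmon : (f0.map (Int.castRingHom K)).Monic := (sp1 ℤ N _).1.map _
    have hdeg : (f0.map (Int.castRingHom K)).natDegree = N := by
      rw [(sp1 ℤ N _).1.natDegree_map]
      exact (sp1 ℤ N _).2.1
    -- a root `x` of `φ`, and a root `y` of the quotient
    have hφKd : φK.natDegree = φ.natDegree := by
      rw [hφK, natDegree_map]
    obtain ⟨x, hx⟩ := IsAlgClosed.exists_root φK (by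
      intro h
      have h' : φK.natDegree = 0 := natDegree_eq_of_degree_eq_some h
      omega)
    obtain ⟨ψ, hψ⟩ := dvd_iff_isRoot.2 hx
    have hφK0 : φK ≠ 0 := by
      intro h
      rw [h, natDegree_zero] at hφKd
      omega
    have hψ0 : ψ ≠ 0 := by
      rintro rfl
      exact hφK0 (by rw [hψ, mul_zero])
    obtain ⟨y, hy⟩ := IsAlgClosed.exists_root ψ (by
      intro h
      have h3 : ψ.natDegree = 0 := natDegree_eq_of_degree_eq_some h
      have h4 := congrArg natDegree hψ
      rw [natDegree_mul (X_sub_C_ne_zero x) hψ0, natDegree_X_sub_C] at h4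
      omega)
    have hprod : critD N (f0.map (Int.castRingHom K)) * res_Td N (f0.map (Int.castRingHom K)) = 0 := by
      by_cases hxy : x = y
      · -- a root of multiplicity 4
        refine mul_eq_zero_of_right _ ?_
        have h4 : (X - C x) ^ 4 ∣ fK' := by
          refine dvd_trans ?_ hdvdK
          obtain ⟨χ, hχ⟩ := dvd_iff_isRoot.2 hy
          rw [hψ, hχ, ← hxy]
          exact ⟨χ ^ 2, by ring⟩
        have h3 := pow_sub_one_dvd_derivative_of_pow_dvd h4
        have h2' := pow_sub_one_dvd_derivative_of_pow_dvd h3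
        have hr1 : (derivative fK').IsRoot x :=
          dvd_iff_isRoot.1 ((dvd_pow_self _ (by norm_num)).trans h3)
        have hr2 : (derivative (derivative fK')).IsRoot x :=
          dvd_iff_isRoot.1 ((dvd_pow_self _ (by norm_num)).trans h2')
        rw [hder0] at hr1 hr2
        have hd1 : (derivative (f0.map (Int.castRingHom K))).natDegree = N - 1 := by
          refine le_antisymm ((natDegree_derivative_le _).trans (by omega)) ?_
          apply le_natDegree_of_ne_zero
          rw [coeff_derivative, show N - 1 + 1 = N by omega]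
          have h5 : (f0.map (Int.castRingHom K)).coeff N = 1 := by
            have := hmon.coeff_natDegree
            rwa [hdeg] at this
          have h6 : ((N - 1 : ℕ) : K) + 1 = N := by
            have : ((N - 1 : ℕ) : K) + 1 = ((N - 1 + 1 : ℕ) : K) := by push_cast; ring
            rw [this, show N - 1 + 1 = N by omega]
          rw [h5, one_mul, h6]
          exact hNK
        have hd2 : (derivative (derivative (f0.map (Int.castRingHom K)))).natDegree ≤ N - 2 := by
          refine (natDegree_derivative_le _).trans ?_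
          omega
        unfold res_Td
        have h7 := resultant_eq_prod_eval (derivative (f0.map (Int.castRingHom K)))
          (derivative (derivative (f0.map (Int.castRingHom K)))) (N - 2) hd2 (IsAlgClosed.splits _)
        rw [hd1] at h7
        rw [h7]
        refine mul_eq_zero_of_right _ (Multiset.prod_eq_zero ?_)
        rw [Multiset.mem_map]
        refine ⟨x, ?_, hr2⟩
        rw [mem_roots']
        refine ⟨?_, hr1⟩
        intro h8
        rw [h8, natDegree_zero] at hd1
        omega
      · refine mul_eq_zero_of_left ?_ _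
        have hr : ∀ z : K, φK.eval z = 0 → fK'.eval z = 0 ∧ (derivative fK').eval z = 0 := by
          intro z hz
          obtain ⟨h, hh⟩ := hdvdK
          constructor
          · rw [hh, eval_mul, eval_pow, hz]
            simp
          · rw [hh, derivative_mul, derivative_pow, eval_add, eval_mul, eval_mul, eval_mul, eval_mul,
              eval_pow, eval_pow, hz]
            simp
        obtain ⟨hx1, hx2⟩ := hr x hx
        obtain ⟨hy1, hy2⟩ := hr y (by rw [hψ, eval_mul, hy, mul_zero])
        refine (tc2 K N hN hNK _ hmon hdeg).1 ⟨x, y, hxy, ?_, ?_, ?_⟩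
        · rw [hder0] at hx2
          exact hx2
        · rw [hder0] at hy2
          exact hy2
        · rw [hK0, eval_add, eval_C] at hx1 hy1
          rw [eq_neg_of_add_eq_zero_left hx1, eq_neg_of_add_eq_zero_left hy1]
    rw [tc1, res_map_Td, ← map_mul] at hprod
    rw [← CharP.intCast_eq_zero_iff K p]
    have hgen : (gen_Td N).map (MvPolynomial.eval
        (fun i : Fin (N - 1) => c ⟨(i : ℕ) + 1, by omega⟩)) = f0 := by
      unfold gen_Td
      rw [sp3, hf0]
      congr 1
      funext i
      by_cases h : 0 < (i : ℕ)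
      · rw [dif_pos h, if_pos h, MvPolynomial.eval_X]
        congr 1
        apply Fin.ext
        change (i : ℕ) - 1 + 1 = i
        omega
      · rw [dif_neg h, if_neg h, map_zero]
    rw [map_mul, ← tc1, ← res_map_Td, hgen]
    exact hprod

end Pool.Agent.Helper3.EV
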