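import Pool.Agent.Helper3.EV.StU

set_option autoImplicit false

namespace Pool.Agent.Helper3.EV

theorem nu_lo_Un0 (g : ℕ) (m : Fin (g + 1) → ℕ) (i : Jx g) (h : i.1 ≤ g) (j : Fin (g + 1))
    (hj : (j : ℕ) = i.1) : nu g m i = -(m j : ℤ) := by
  unfold nu
  rw [dif_pos h]
  congr 3
  exact Fin.ext hj.symm

theorem nu_hi_Un0 (g : ℕ) (m : Fin (g + 1) → ℕ) (i : Jx g) (h : ¬ i.1 ≤ g) (j : Fin (g + 1))
    (hj : (j : ℕ) = 2 * g + 1 - i.1) : nu g m i = (m j : ℤ) := by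
  unfold nu
  rw [dif_neg h]
  congr 2
  exact Fin.ext hj.symm

theorem nu_rev_Un0 (g : ℕ) (m : Fin (g + 1) → ℕ) (i : Jx g) :
    nu g m (Fin.rev i) = -nu g m i := by
  have hi := i.2
  have hr : (Fin.rev i : Jx g).1 = 2 * g + 1 - i.1 := by
    rw [Fin.val_rev]; omega
  by_cases h : i.1 ≤ g
  · rw [nu_lo_Un0 g m i h ⟨i.1, by omega⟩ rfl,
      nu_hi_Un0 g m (Fin.rev i) (by omega) ⟨i.1, by omega⟩ (by simp only []; omega)]
    ring
  · rw [nu_hi_Un0 g m i h ⟨2 * g + 1 - i.1, by omega⟩ rfl,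
      nu_lo_Un0 g m (Fin.rev i) (by omega) ⟨2 * g + 1 - i.1, by omega⟩ (by simp only []; omega)]

theorem hUn0 : StUn0 := by
  intro g m
  refine ⟨nu_rev_Un0 g m, ?_, ?_⟩
  · have h1 : ∑ i : Jx g, nu g m (Fin.rev i) = ∑ i : Jx g, nu g m i :=
      Equiv.sum_comp (Fin.revPerm : Equiv.Perm (Jx g)) (nu g m)
    have h2 : ∑ i : Jx g, nu g m (Fin.rev i) = -∑ i : Jx g, nu g m i := by
      rw [← Finset.sum_neg_distrib]
      exact Finset.sum_congr rfl fun i _ => nu_rev_Un0 g m i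
    linarith
  · intro hm
    have h0 : ∀ j : Fin (g + 1), (m j : ℤ) ≤ m 0 := fun j => by
      exact_mod_cast hm (Fin.zero_le j)
    constructor
    · intro i j hij
      have hij' : i.1 ≤ j.1 := hij
      have hi := i.2
      have hj := j.2
      by_cases h1 : i.1 ≤ g
      · by_cases h2 : j.1 ≤ g
        · rw [nu_lo_Un0 g m i h1 ⟨i.1, by omega⟩ rfl, nu_lo_Un0 g m j h2 ⟨j.1, by omega⟩ rfl]
          have h3 : (m ⟨j.1, by omega⟩ : ℤ) ≤ (m ⟨i.1, by omega⟩ : ℤ) := by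
            have h4 : (⟨i.1, by omega⟩ : Fin (g + 1)) ≤ ⟨j.1, by omega⟩ := hij'
            exact_mod_cast hm h4
          linarith
        · rw [nu_lo_Un0 g m i h1 ⟨i.1, by omega⟩ rfl,
            nu_hi_Un0 g m j h2 ⟨2 * g + 1 - j.1, by omega⟩ rfl]
          have h3 : (0 : ℤ) ≤ (m ⟨i.1, by omega⟩ : ℤ) := Int.natCast_nonneg _
          have h4 : (0 : ℤ) ≤ (m ⟨2 * g + 1 - j.1, by omega⟩ : ℤ) := Int.natCast_nonneg _
          linarith
      · have h2 : ¬ j.1 ≤ g := by omega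
        rw [nu_hi_Un0 g m i h1 ⟨2 * g + 1 - i.1, by omega⟩ rfl,
          nu_hi_Un0 g m j h2 ⟨2 * g + 1 - j.1, by omega⟩ rfl]
        have h4 : (⟨2 * g + 1 - j.1, by omega⟩ : Fin (g + 1)) ≤ ⟨2 * g + 1 - i.1, by omega⟩ := by
          rw [Fin.mk_le_mk]; omega
        exact_mod_cast hm h4
    · intro i
      have hi := i.2
      by_cases h1 : i.1 ≤ g
      · rw [nu_lo_Un0 g m i h1 ⟨i.1, by omega⟩ rfl]
        have h3 : (0 : ℤ) ≤ (m ⟨i.1, by omega⟩ : ℤ) := Int.natCast_nonneg _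
        have h4 := h0 ⟨i.1, by omega⟩
        have h5 : (0 : ℤ) ≤ (m 0 : ℤ) := Int.natCast_nonneg _
        constructor <;> linarith
      · rw [nu_hi_Un0 g m i h1 ⟨2 * g + 1 - i.1, by omega⟩ rfl]
        have h3 : (0 : ℤ) ≤ (m ⟨2 * g + 1 - i.1, by omega⟩ : ℤ) := Int.natCast_nonneg _
        have h4 := h0 ⟨2 * g + 1 - i.1, by omega⟩
        have h5 : (0 : ℤ) ≤ (m 0 : ℤ) := Int.natCast_nonneg _
        constructor <;> linarith

end Pool.Agent.Helper3.EV
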