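import Pool.Agent.Helper3.EV.StU
import Pool.Agent.Helper3.EV.M_Un0

/-!
# EV: module Ua (many unipotent matrices)
-/

set_option autoImplicit false

namespace Pool.Agent.Helper3.EV

open Finset Matrix

namespace MUa

/-- Pairs `i < j`. -/
abbrev PP_Ua (g : ℕ) : Type := {p : Jx g × Jx g // p.1 < p.2}

/-- The exponent at a pair. -/
def ex_Ua (g : ℕ) (m : Fin (g + 1) → ℕ) (p : Jx g × Jx g) : ℕ := (nu g m p.2 - nu g m p.1).toNat

/-- The parameters. -/
abbrev Par_Ua (g : ℕ) (m : Fin (g + 1) → ℕ) : Type := ∀ p : PP_Ua g, Fin (2 ^ ex_Ua g m p.1)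

/-- The matrix. -/
def mat_Ua {g : ℕ} {m : Fin (g + 1) → ℕ} (x : Par_Ua g m) : Matrix (Jx g) (Jx g) ℤ :=
  fun i j => if h : i < j then ((x ⟨(i, j), h⟩ : ℕ) : ℤ) else if i = j then 1 else 0

lemma mat_inj_Ua {g : ℕ} {m : Fin (g + 1) → ℕ} :
    Function.Injective (mat_Ua (g := g) (m := m)) := by
  intro x y h
  funext p
  obtain ⟨⟨i, j⟩, hp⟩ := p
  have h1 := congrFun (congrFun h i) j
  have hp' : i < j := hp
  simp only [mat_Ua, dif_pos hp'] at h1
  exact Fin.ext (by exact_mod_cast h1)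

lemma mat_mem_Ua {g : ℕ} {m : Fin (g + 1) → ℕ} (hm : Antitone m) (x : Par_Ua g m) :
    mat_Ua x ∈ Uni g m := by
  refine ⟨fun i => ?_, fun i j hij => ?_⟩
  · simp [mat_Ua]
  · by_cases h : i < j
    · right
      refine ⟨h, ?_⟩
      simp only [mat_Ua, dif_pos h]
      have h1 : nu g m i ≤ nu g m j := ((hUn0 g m).2.2 hm).1 h.le
      have h2 : ((ex_Ua g m (i, j) : ℕ) : ℤ) = nu g m j - nu g m i := by
        simp only [ex_Ua]
        exact Int.toNat_of_nonneg (by linarith)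
      rw [← h2, zpow_natCast]
      have h3 : (x ⟨(i, j), h⟩ : ℕ) < 2 ^ ex_Ua g m (i, j) := (x ⟨(i, j), h⟩).2
      have h4 : ((x ⟨(i, j), h⟩ : ℕ) : ℝ) ≤ 2 ^ ex_Ua g m (i, j) := by exact_mod_cast h3.le
      rw [Int.cast_natCast, abs_of_nonneg (Nat.cast_nonneg _)]
      exact h4
    · left
      simp [mat_Ua, h, hij]

end MUa

open MUa in
theorem hUa : StUa := by
  classical
  intro g m hm
  refine ⟨Finset.univ.image (mat_Ua (g := g) (m := m)), ?_, ?_⟩
  · intro u hu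
    obtain ⟨x, -, rfl⟩ := Finset.mem_image.1 hu
    exact mat_mem_Ua hm x
  · rw [Finset.card_image_of_injective _ mat_inj_Ua, Finset.card_univ, Fintype.card_pi]
    simp only [Fintype.card_fin]
    rw [Finset.prod_pow_eq_pow_sum]
    refine le_of_eq ?_
    congr 1
    rw [ups, ← Finset.sum_filter]
    rw [Finset.sum_subtype (Finset.univ.filter fun p : Jx g × Jx g => p.1 < p.2)
      (p := fun p => p.1 < p.2) (by simp)]
    rfl

end Pool.Agent.Helper3.EV
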