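import Pool.Agent.Helper3.EV.StU

/-!
# EV, module Ub: exponents
-/

set_option autoImplicit false

namespace Pool.Agent.Helper3.EV

open Finset

private theorem nu_rev_Ub {g : ℕ} (m : Fin (g + 1) → ℕ) (i : Jx g) :
    nu g m (Fin.rev i) = -nu g m i := by
  unfold nu
  have hr : (Fin.rev i : ℕ) = 2 * g + 1 - i.1 := by
    rw [Fin.val_rev]; omega
  have hi := i.2
  by_cases h : i.1 ≤ g
  · have h1 : ¬ (Fin.rev i : ℕ) ≤ g := by omega
    rw [dif_neg h1, dif_pos h, neg_neg]
    congr 2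
    apply Fin.ext
    simp only [hr]
    omega
  · have h1 : (Fin.rev i : ℕ) ≤ g := by omega
    rw [dif_pos h1, dif_neg h]
    congr 3
    apply Fin.ext
    simp only [hr]

private theorem nu_mono_Ub {g : ℕ} {m : Fin (g + 1) → ℕ} (hm : Antitone m) {i j : Jx g}
    (hij : i ≤ j) : nu g m i ≤ nu g m j := by
  have hij' : i.1 ≤ j.1 := hij
  have hi := i.2
  have hj := j.2
  unfold nu
  by_cases h : i.1 ≤ g
  · rw [dif_pos h]
    by_cases h' : j.1 ≤ g
    · rw [dif_pos h']
      have := hm (show (⟨i.1, by omega⟩ : Fin (g + 1)) ≤ ⟨j.1, by omega⟩ from hij')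
      exact neg_le_neg (by exact_mod_cast this)
    · rw [dif_neg h']
      have h1 : (0 : ℤ) ≤ (m ⟨i.1, by omega⟩ : ℤ) := by positivity
      have h2 : (0 : ℤ) ≤ (m ⟨2 * g + 1 - j.1, by omega⟩ : ℤ) := by positivity
      linarith
  · rw [dif_neg h, dif_neg (by omega)]
    have := hm (show (⟨2 * g + 1 - j.1, by omega⟩ : Fin (g + 1)) ≤ ⟨2 * g + 1 - i.1, by omega⟩ from by
      change 2 * g + 1 - j.1 ≤ 2 * g + 1 - i.1
      omega)
    exact_mod_cast this

private theorem term_Ub {g : ℕ} {m : Fin (g + 1) → ℕ} (hm : Antitone m) (i j : Jx g) :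
    (((if i < j then (nu g m i + nu g m j).toNat else 0 : ℕ)) : ℤ) =
      (if Fin.rev j < i ∧ i < j then nu g m i else 0) +
        (if Fin.rev j < i ∧ i < j then nu g m j else 0) := by
  by_cases hij : i < j
  · rw [if_pos hij]
    by_cases hr : Fin.rev j < i
    · rw [if_pos ⟨hr, hij⟩, if_pos ⟨hr, hij⟩, Int.toNat_of_nonneg]
      have h1 : nu g m (Fin.rev j) ≤ nu g m i := nu_mono_Ub hm hr.le
      rw [nu_rev_Ub] at h1
      linarith
    · rw [if_neg (fun h => hr h.1), if_neg (fun h => hr h.1), add_zero]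
      have h1 : nu g m i ≤ nu g m (Fin.rev j) := nu_mono_Ub hm (not_lt.1 hr)
      rw [nu_rev_Ub] at h1
      rw [Int.toNat_of_nonpos (by linarith)]
      rfl
  · rw [if_neg hij, if_neg (fun h => hij h.2), if_neg (fun h => hij h.2)]
    rfl

private theorem sum_nu_Ub {g : ℕ} (m : Fin (g + 1) → ℕ) (j : Jx g) :
    (∑ i : Jx g, if Fin.rev j < i ∧ i < j then nu g m i else 0) = 0 := by
  have h1 : (∑ i : Jx g, if Fin.rev j < i ∧ i < j then nu g m i else 0) =
      -∑ i : Jx g, if Fin.rev j < i ∧ i < j then nu g m i else 0 := by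
    conv_lhs => rw [← Equiv.sum_comp Fin.revPerm]
    rw [← sum_neg_distrib]
    refine sum_congr rfl fun i _ => ?_
    rw [Fin.revPerm_apply]
    have h2 : (Fin.rev j < Fin.rev i ∧ Fin.rev i < j) ↔ (Fin.rev j < i ∧ i < j) := by
      rw [Fin.rev_lt_rev]
      have : Fin.rev i < j ↔ Fin.rev j < i := by
        conv_lhs => rw [← Fin.rev_rev j]
        rw [Fin.rev_lt_rev]
      rw [this]
      tauto
    by_cases h : Fin.rev j < i ∧ i < j
    · rw [if_pos h, if_pos (h2.2 h), nu_rev_Ub]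
    · rw [if_neg h, if_neg (fun h' => h (h2.1 h')), neg_zero]
  omega

private theorem card_int_Ub {g : ℕ} (j : Jx g) :
    (univ.filter fun i : Jx g => Fin.rev j < i ∧ i < j).card = 2 * j.1 - 2 * g - 2 := by
  have h1 : (univ.filter fun i : Jx g => Fin.rev j < i ∧ i < j) = Ioo (Fin.rev j) j := by
    ext i
    simp
  rw [h1, Fin.card_Ioo, Fin.val_rev]
  omega

private theorem sum_Ub {g : ℕ} (m : Fin (g + 1) → ℕ) (c : ℕ → ℤ) (hc : ∀ n, n ≤ g → c n = 0) :
    (∑ j : Jx g, c j.1 * nu g m j) = ∑ i : Fin (g + 1), c (2 * g + 1 - i.1) * (m i : ℤ) := by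
  set H : ℕ → ℤ := fun n => if h : n < g + 1 then c (2 * g + 1 - n) * (m ⟨n, h⟩ : ℤ) else 0 with hH
  have h1 : (∑ j : Jx g, c j.1 * nu g m j) = ∑ j : Jx g, H j.1 := by
    rw [← Equiv.sum_comp Fin.revPerm]
    refine sum_congr rfl fun j _ => ?_
    rw [Fin.revPerm_apply, nu_rev_Ub, Fin.val_rev]
    have hj := j.2
    have e1 : 2 * g + 2 - (j.1 + 1) = 2 * g + 1 - j.1 := by omega
    rw [e1]
    simp only [hH]
    by_cases h : j.1 < g + 1
    · rw [dif_pos h]
      unfold nu
      rw [dif_pos (by omega), neg_neg]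
    · rw [dif_neg h, hc _ (by omega), zero_mul]
  have h2 : (∑ i : Fin (g + 1), c (2 * g + 1 - i.1) * (m i : ℤ)) = ∑ i : Fin (g + 1), H i.1 := by
    refine sum_congr rfl fun i _ => ?_
    simp only [hH]
    rw [dif_pos i.2]
  rw [h1, h2, Fin.sum_univ_eq_sum_range (fun n => H n) (2 * g + 2),
    Fin.sum_univ_eq_sum_range (fun n => H n) (g + 1)]
  refine (sum_subset ?_ ?_).symm
  · intro x hx
    rw [mem_range] at hx ⊢
    omega
  · intro x _ hx
    rw [mem_range] at hx
    simp only [hH]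
    rw [dif_neg hx]

private theorem ups_Ub {g : ℕ} {m : Fin (g + 1) → ℕ} (hm : Antitone m) :
    ((ups g m : ℕ) : ℤ) = ∑ j : Jx g, ((j.1 : ℤ) * 2 - (2 * g + 1)) * nu g m j := by
  have h1 : ((ups g m : ℕ) : ℤ) =
      ∑ j : Jx g, ∑ i : Jx g, ((if i < j then nu g m j else 0) - (if i < j then nu g m i else 0)) := by
    unfold ups
    rw [Nat.cast_sum, Fintype.sum_prod_type_right]
    refine sum_congr rfl fun j _ => sum_congr rfl fun i _ => ?_
    simp only
    by_cases h : i < j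
    · rw [if_pos h, if_pos h, if_pos h, Int.toNat_of_nonneg]
      have := nu_mono_Ub hm h.le
      linarith
    · rw [if_neg h, if_neg h, if_neg h]
      rfl
  have h2 : (∑ j : Jx g, ∑ i : Jx g, (if i < j then nu g m j else 0)) =
      ∑ j : Jx g, (j.1 : ℤ) * nu g m j := by
    refine sum_congr rfl fun j _ => ?_
    rw [← sum_filter, sum_const, nsmul_eq_mul]
    congr 2
    have : (univ.filter fun i : Jx g => i < j) = Iio j := by
      ext i
      simp
    rw [this, Fin.card_Iio]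
  have h3 : (∑ j : Jx g, ∑ i : Jx g, (if i < j then nu g m i else 0)) =
      ∑ i : Jx g, (2 * (g : ℤ) + 1 - i.1) * nu g m i := by
    rw [sum_comm]
    refine sum_congr rfl fun i _ => ?_
    rw [← sum_filter, sum_const, nsmul_eq_mul]
    congr 1
    have : (univ.filter fun j : Jx g => i < j) = Ioi i := by
      ext i
      simp
    rw [this, Fin.card_Ioi]
    have hi := i.2
    push_cast
    omega
  rw [h1]
  simp only [sum_sub_distrib]
  rw [h2, h3, ← sum_sub_distrib]
  exact sum_congr rfl fun i _ => by ring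

theorem hUb : StUb := by
  intro g m hm
  have h1 := ups_Ub hm
  have h2 : (∑ j : Jx g, ((j.1 : ℤ) * 2 - (2 * g + 1)) * nu g m j) =
      2 * ∑ j : Jx g, ((2 * j.1 - (2 * g + 1) : ℕ) : ℤ) * nu g m j := by
    have e1 : (∑ j : Jx g, ((2 * g + 1 - 2 * j.1 : ℕ) : ℤ) * nu g m j) =
        -∑ j : Jx g, ((2 * j.1 - (2 * g + 1) : ℕ) : ℤ) * nu g m j := by
      rw [← Equiv.sum_comp Fin.revPerm, ← sum_neg_distrib]
      refine sum_congr rfl fun j _ => ?_
      rw [Fin.revPerm_apply, nu_rev_Ub, Fin.val_rev, mul_neg]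
      congr 3
      have hj := j.2
      omega
    have e2 : (∑ j : Jx g, ((j.1 : ℤ) * 2 - (2 * g + 1)) * nu g m j) =
        (∑ j : Jx g, ((2 * j.1 - (2 * g + 1) : ℕ) : ℤ) * nu g m j) -
          ∑ j : Jx g, ((2 * g + 1 - 2 * j.1 : ℕ) : ℤ) * nu g m j := by
      rw [← sum_sub_distrib]
      refine sum_congr rfl fun j _ => ?_
      rw [← sub_mul]
      congr 1
      omega
    rw [e2, e1]
    ring
  rw [h2, sum_Ub m (fun n => ((2 * n - (2 * g + 1) : ℕ) : ℤ)) (fun n hn => by
    have : 2 * n - (2 * g + 1) = 0 := by omega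
    rw [this]
    rfl)] at h1
  -- the off-diagonal part of sB
  have hoff : ((∑ p : Jx g × Jx g, if p.1 < p.2 then (nu g m p.1 + nu g m p.2).toNat else 0 : ℕ) : ℤ)
      = ∑ j : Jx g, ((2 * j.1 - 2 * g - 2 : ℕ) : ℤ) * nu g m j := by
    rw [Nat.cast_sum, Fintype.sum_prod_type_right]
    refine sum_congr rfl fun j _ => ?_
    rw [sum_congr rfl fun i _ => term_Ub hm i j, sum_add_distrib, sum_nu_Ub, zero_add,
      ← sum_filter, sum_const, card_int_Ub, nsmul_eq_mul]
  rw [sum_Ub m (fun n => ((2 * n - 2 * g - 2 : ℕ) : ℤ)) (fun n hn => by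
    have : 2 * n - 2 * g - 2 = 0 := by omega
    rw [this]
    rfl)] at hoff
  have h3 : ((sB g m : ℕ) : ℤ) =
      (∑ i : Fin (g + 1), ((2 * (2 * g + 1 - i.1) - 2 * g - 2 : ℕ) : ℤ) * (m i : ℤ)) +
        ∑ i : Jx g, ((2 * nu g m i).toNat : ℤ) := by
    have e1 : sB g m = (∑ p : Jx g × Jx g, if p.1 < p.2 then (nu g m p.1 + nu g m p.2).toNat else 0) +
        ∑ p : Jx g × Jx g, if p.1 = p.2 then (nu g m p.1 + nu g m p.2).toNat else 0 := by
      unfold sB
      rw [← sum_add_distrib]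
      refine sum_congr rfl fun p _ => ?_
      rcases lt_trichotomy p.1 p.2 with h | h | h
      · rw [if_pos h.le, if_pos h, if_neg h.ne, add_zero]
      · rw [if_pos h.le, if_neg (by rw [h]; exact lt_irrefl _), if_pos h, zero_add]
      · rw [if_neg (not_le.2 h), if_neg (not_lt.2 h.le), if_neg h.ne']
    rw [e1, Nat.cast_add, hoff]
    congr 1
    rw [Nat.cast_sum, Fintype.sum_prod_type]
    refine sum_congr rfl fun i _ => ?_
    simp only
    rw [← Nat.cast_sum, Finset.sum_ite_eq]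
    simp only [mem_univ, if_true]
    rw [two_mul]
  have h4 : (∑ i : Jx g, ((2 * nu g m i).toNat : ℤ)) =
      ∑ i : Jx g, (if g < i.1 then (2 : ℤ) else 0) * nu g m i := by
    refine sum_congr rfl fun i _ => ?_
    have hi := i.2
    unfold nu
    by_cases h : i.1 ≤ g
    · rw [dif_pos h, if_neg (by omega), zero_mul, Int.toNat_of_nonpos]
      · rfl
      · have : (0 : ℤ) ≤ (m ⟨i.1, by omega⟩ : ℤ) := by positivity
        linarith
    · rw [dif_neg h, if_pos (by omega), Int.toNat_of_nonneg (by positivity)]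
  rw [h4, sum_Ub m (fun n => if g < n then (2 : ℤ) else 0) (fun n hn => by
    rw [if_neg (by omega)])] at h3
  have h5 : ((rho2 g m : ℕ) : ℤ) =
      ∑ i : Fin (g + 1), ((2 * (g - (i : ℕ)) : ℕ) : ℤ) * (m i : ℤ) := by
    unfold rho2
    rw [Nat.cast_sum]
    exact sum_congr rfl fun i _ => by rw [Nat.cast_mul]
  have h6 : ((ups g m : ℕ) : ℤ) = ((sB g m + rho2 g m : ℕ) : ℤ) := by
    rw [Nat.cast_add, h1, h3, h5, mul_sum, ← sum_add_distrib, ← sum_add_distrib]
    refine sum_congr rfl fun i _ => ?_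
    have hi := i.2
    rw [if_pos (by omega), ← add_mul, ← add_mul, ← mul_assoc]
    congr 1
    omega
  exact_mod_cast h6

end Pool.Agent.Helper3.EV
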