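import Pool.Agent.Helper3.EV.StU

/-!
# EV module Ud (stability under the unipotent matrices)
-/

set_option autoImplicit false

namespace Pool.Agent.Helper3.EV

open Polynomial Finset Filter Topology Matrix IsDedekindDomain
open Pool.Agent.Helper3.HY (co tau)
open Pool.Agent.Helper54.HQ (Prm pz factPrm fK RR LL algRL th kp red Bf Smooth NearOne LocSq Weak Fam qS)

theorem det_Ud {g : ℕ} {m : Fin (g + 1) → ℕ} {u : Matrix (Jx g) (Jx g) ℤ} (hu : u ∈ Uni g m) :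
    u.det = 1 := by
  have h1 : u.BlockTriangular id := by
    intro i j hij
    change j < i at hij
    rcases hu.2 i j hij.ne' with h | h
    · exact h
    · exact absurd h.1 (not_lt.2 hij.le)
  rw [Matrix.det_of_isUpperTriangular h1]
  exact Finset.prod_eq_one fun i _ => hu.1 i

theorem tri_Ud {g : ℕ} {m : Fin (g + 1) → ℕ} {u : Matrix (Jx g) (Jx g) ℤ} (hu : u ∈ Uni g m)
    {k i : Jx g} (h : i < k) : u k i = 0 := by
  rcases hu.2 k i h.ne' with h' | h'
  · exact h'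
  · exact absurd h'.1 (not_lt.2 h.le)

theorem bound_Ud {g : ℕ} {m : Fin (g + 1) → ℕ} {u : Matrix (Jx g) (Jx g) ℤ} (hu : u ∈ Uni g m)
    (k i : Jx g) : |((u k i : ℤ) : ℝ)| ≤ (2 : ℝ) ^ (nu g m i - nu g m k) := by
  by_cases hki : k = i
  · subst hki
    rw [hu.1, sub_self, zpow_zero]
    norm_num
  · rcases hu.2 k i hki with h' | h'
    · rw [h', Int.cast_zero, abs_zero]
      positivity
    · exact h'.2

theorem entry_Ud {R : Type} [CommRing R] {n : ℕ} (u M : Matrix (Fin n) (Fin n) R) (i j : Fin n) :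
    (uᵀ * M * u) i j = ∑ k, ∑ l, u k i * M k l * u l j := by
  rw [Matrix.mul_apply]
  simp_rw [Matrix.mul_apply, Matrix.transpose_apply, Finset.sum_mul]
  exact Finset.sum_comm

theorem conj_bound_Ud {g : ℕ} {m : Fin (g + 1) → ℕ} {u : Matrix (Jx g) (Jx g) ℤ} (hu : u ∈ Uni g m)
    {M : Matrix (Jx g) (Jx g) ℤ} {c : ℝ} (hc : 0 ≤ c)
    (hM : ∀ i j, |((M i j : ℤ) : ℝ)| ≤ c * (2 : ℝ) ^ (nu g m i + nu g m j)) (i j : Jx g) :
    |(((uᵀ * M * u) i j : ℤ) : ℝ)| ≤ (2 * g + 2) ^ 2 * c * (2 : ℝ) ^ (nu g m i + nu g m j) := by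
  rw [entry_Ud]
  push_cast
  have h1 : ∀ k l : Jx g, |((u k i : ℤ) : ℝ) * ((M k l : ℤ) : ℝ) * ((u l j : ℤ) : ℝ)| ≤
      c * (2 : ℝ) ^ (nu g m i + nu g m j) := by
    intro k l
    rw [abs_mul, abs_mul]
    have h2 : |((u k i : ℤ) : ℝ)| * |((M k l : ℤ) : ℝ)| * |((u l j : ℤ) : ℝ)| ≤
        (2 : ℝ) ^ (nu g m i - nu g m k) * (c * (2 : ℝ) ^ (nu g m k + nu g m l)) *
          (2 : ℝ) ^ (nu g m j - nu g m l) := by
      gcongr
      · exact bound_Ud hu k i
      · exact hM k l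
      · exact bound_Ud hu l j
    refine h2.trans (le_of_eq ?_)
    have h3 : (2 : ℝ) ^ (nu g m i + nu g m j) = (2 : ℝ) ^ (nu g m i - nu g m k) *
        (2 : ℝ) ^ (nu g m k + nu g m l) * (2 : ℝ) ^ (nu g m j - nu g m l) := by
      rw [← zpow_add₀ (by norm_num : (2 : ℝ) ≠ 0), ← zpow_add₀ (by norm_num : (2 : ℝ) ≠ 0)]
      congr 1
      ring
    rw [h3]
    ring
  calc |∑ k, ∑ l, ((u k i : ℤ) : ℝ) * ((M k l : ℤ) : ℝ) * ((u l j : ℤ) : ℝ)|
      ≤ ∑ k : Jx g, |∑ l, ((u k i : ℤ) : ℝ) * ((M k l : ℤ) : ℝ) * ((u l j : ℤ) : ℝ)| :=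
        Finset.abs_sum_le_sum_abs _ _
    _ ≤ ∑ k : Jx g, ∑ l : Jx g, c * (2 : ℝ) ^ (nu g m i + nu g m j) :=
        Finset.sum_le_sum fun k _ => (Finset.abs_sum_le_sum_abs _ _).trans
          (Finset.sum_le_sum fun l _ => h1 k l)
    _ = (2 * g + 2) ^ 2 * c * (2 : ℝ) ^ (nu g m i + nu g m j) := by
        rw [Finset.sum_const, Finset.sum_const, Finset.card_univ, Fintype.card_fin, nsmul_eq_mul,
          nsmul_eq_mul]
        push_cast
        ring

theorem symm_Ud {n : ℕ} {M u : Matrix (Fin n) (Fin n) ℤ} (h : M.IsSymm) :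
    (uᵀ * M * u).IsSymm := by
  unfold Matrix.IsSymm at h ⊢
  rw [Matrix.transpose_mul, Matrix.transpose_mul, Matrix.transpose_transpose, h, Matrix.mul_assoc]

theorem tl_Ud {g a b : ℕ} {m : Fin (g + 1) → ℕ} {u : Matrix (Jx g) (Jx g) ℤ} (hu : u ∈ Uni g m)
    {M : Matrix (Jx g) (Jx g) ℤ} (hM : ∀ i j : Jx g, (i : ℕ) < a → (j : ℕ) < b → M i j = 0)
    (i j : Jx g) (hi : (i : ℕ) < a) (hj : (j : ℕ) < b) : (uᵀ * M * u) i j = 0 := by
  rw [entry_Ud]
  refine Finset.sum_eq_zero fun k _ => Finset.sum_eq_zero fun l _ => ?_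
  rcases lt_or_ge i k with h | h
  · rw [tri_Ud hu h, zero_mul, zero_mul]
  rcases lt_or_ge j l with h' | h'
  · rw [tri_Ud hu h', mul_zero]
  · rw [hM k l (lt_of_le_of_lt h hi) (lt_of_le_of_lt h' hj), mul_zero, zero_mul]

theorem loc_Ud {k : Type} [Field k] {g : ℕ} {S : Set k[X]}
    {B A U : Matrix (Jx g) (Jx g) k} (h : (B, A) ∈ LocPair k g S) :
    (Uᵀ * B * U, Uᵀ * A * U) ∈ LocPair k g S := by
  obtain ⟨q, hq, hm, hqd, c, w, hc, hw, hwb⟩ := h
  refine ⟨q, hq, hm, hqd, c, fun j => ∑ i, U i j • w i, hc, fun i j => ?_, fun i j => ?_⟩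
  · have h1 : c * tau hm ((∑ k, U k i • w k) * ∑ l, U l j • w l) =
        ∑ k, ∑ l, U k i * B k l * U l j := by
      rw [sum_mul_sum, map_sum, mul_sum]
      refine sum_congr rfl fun k _ => ?_
      rw [map_sum, mul_sum]
      refine sum_congr rfl fun l _ => ?_
      have hw' : c * tau hm (w k * w l) = B k l := hw k l
      rw [smul_mul_smul_comm, map_smul, ← hw', smul_eq_mul]
      ring
    rw [h1]
    exact (entry_Ud U B i j).symm
  · have h1 : c * tau hm (AdjoinRoot.root q * (∑ k, U k i • w k) * ∑ l, U l j • w l) =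
        ∑ k, ∑ l, U k i * A k l * U l j := by
      rw [mul_assoc, sum_mul_sum, mul_sum, map_sum, mul_sum]
      refine sum_congr rfl fun k _ => ?_
      rw [mul_sum, map_sum, mul_sum]
      refine sum_congr rfl fun l _ => ?_
      have hw' : c * tau hm (AdjoinRoot.root q * w k * w l) = A k l := hwb k l
      rw [smul_mul_smul_comm, mul_smul_comm, ← mul_assoc, map_smul, ← hw', smul_eq_mul]
      ring
    rw [h1]
    exact (entry_Ud U A i j).symm

theorem hUd : StUd := by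
  intro g C₀ H m hC hH T p u hu
  refine ⟨fun h => ⟨symm_Ud h.symB, symm_Ud h.symA, ?_, fun i j => ?_, fun i j => ?_⟩,
    fun h P hP => ?_, fun h => ⟨fun i j hi hj => ?_, fun i j hi hj => ?_⟩, fun f hf => ?_⟩
  · change IsUnit (uᵀ * p.1 * u).det
    rw [Matrix.det_mul, Matrix.det_mul, Matrix.det_transpose, det_Ud hu, one_mul, mul_one]
    exact h.det
  · exact conj_bound_Ud hu hC h.bB i j
  · have := conj_bound_Ud hu (mul_nonneg hC hH) h.bA i j
    rwa [← mul_assoc] at this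
  · have h1 := loc_Ud (U := u.map (red P)) (h P hP)
    have h2 : ∀ M : Matrix (Jx g) (Jx g) ℤ, (uᵀ * M * u).map (red P) =
        (u.map (red P))ᵀ * M.map (red P) * u.map (red P) := by
      intro M
      rw [Matrix.map_mul, Matrix.map_mul, Matrix.transpose_map]
    have h3 : redP P (act u p) = ((u.map (red P))ᵀ * p.1.map (red P) * u.map (red P),
        (u.map (red P))ᵀ * p.2.map (red P) * u.map (red P)) := by
      unfold redP act
      rw [h2, h2]
    rw [h3]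
    exact h1
  · exact tl_Ud (a := g + 1) (b := g + 1) hu
      (fun i j hi hj => h.1 i j (Nat.lt_succ_iff.1 hi) (Nat.lt_succ_iff.1 hj)) i j
      (Nat.lt_succ_iff.2 hi) (Nat.lt_succ_iff.2 hj)
  · exact tl_Ud (a := g) (b := g + 1) hu
      (fun i j hi hj => h.2 i j hi (Nat.lt_succ_iff.1 hj)) i j hi (Nat.lt_succ_iff.2 hj)
  · unfold IsChi at hf ⊢
    have h1 : (act u p).1.det = p.1.det := by
      change (uᵀ * p.1 * u).det = _
      rw [Matrix.det_mul, Matrix.det_mul, Matrix.det_transpose, det_Ud hu, one_mul, mul_one]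
    have hmap : ∀ M : Matrix (Jx g) (Jx g) ℤ, (uᵀ * M * u).map (C : ℤ → ℤ[X]) =
        (u.map (C : ℤ → ℤ[X]))ᵀ * M.map (C : ℤ → ℤ[X]) * u.map (C : ℤ → ℤ[X]) := by
      intro M
      have e := Matrix.map_mul (L := uᵀ * M) (M := u) (f := (C : ℤ →+* ℤ[X]))
      have e' := Matrix.map_mul (L := uᵀ) (M := M) (f := (C : ℤ →+* ℤ[X]))
      change (uᵀ * M * u).map (C : ℤ →+* ℤ[X]) = _
      rw [e, e', Matrix.transpose_map]
    have hdu : (u.map (C : ℤ → ℤ[X])).det = 1 := by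
      have e := (RingHom.map_det (C : ℤ →+* ℤ[X]) u).symm
      change (u.map (C : ℤ →+* ℤ[X])).det = 1
      rw [show u.map (C : ℤ →+* ℤ[X]) = (C : ℤ →+* ℤ[X]).mapMatrix u from rfl, e, det_Ud hu,
        map_one]
    have h2 : (X : ℤ[X]) • (act u p).1.map (C : ℤ → ℤ[X]) - (act u p).2.map (C : ℤ → ℤ[X]) =
        (u.map (C : ℤ → ℤ[X]))ᵀ * ((X : ℤ[X]) • p.1.map (C : ℤ → ℤ[X]) -
          p.2.map (C : ℤ → ℤ[X])) * u.map (C : ℤ → ℤ[X]) := by
      change (X : ℤ[X]) • (uᵀ * p.1 * u).map (C : ℤ → ℤ[X]) - (uᵀ * p.2 * u).map (C : ℤ → ℤ[X]) = _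
      rw [hmap, hmap, Matrix.mul_sub, Matrix.sub_mul, Matrix.mul_smul, Matrix.smul_mul]
    rw [h1, h2, Matrix.det_mul, Matrix.det_mul, Matrix.det_transpose, hdu, one_mul, mul_one]
    exact hf

end Pool.Agent.Helper3.EV
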