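import Pool.Agent.Helper3.EV.StU
import Pool.Agent.Helper3.EV.M_Uf
import Pool.Agent.Helper54.HQ.M_Ueq
import Pool.Agent.Helper54.HQ.M_Uh
import Pool.Agent.Helper54.HQ.Base

/-!
# EV, module Uh: the main region
-/

set_option autoImplicit false

namespace Pool.Agent.Helper3.EV

open Polynomial Finset Filter Topology Matrix IsDedekindDomain
open Pool.Agent.Helper3.HY (co tau)
open Pool.Agent.Helper54.HQ (Prm pz factPrm fK RR LL algRL th kp red Bf Smooth NearOne LocSq Weak Fam qS)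

lemma sum_nu_Uh {g : ℕ} (m : Fin (g + 1) → ℕ) :
    (∑ i : Up_Uf g, (nu g m i.1.1 + nu g m i.1.2)) = 0 := by
  have h1 : (∑ i : Up_Uf g, (nu g m i.1.1 + nu g m i.1.2)) =
      ∑ p : Jx g × Jx g, if p.1 ≤ p.2 then nu g m p.1 + nu g m p.2 else 0 := by
    rw [← sum_filter]
    exact (sum_subtype (univ.filter fun p : Jx g × Jx g => p.1 ≤ p.2) (by simp)
      (fun p : Jx g × Jx g => nu g m p.1 + nu g m p.2)).symm
  rw [h1, sum_nu_pairs_Uf]

lemma LocPair_symm_Uh {k : Type} [Field k] {g : ℕ} {S : Set k[X]}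
    {p : Matrix (Jx g) (Jx g) k × Matrix (Jx g) (Jx g) k} (hp : p ∈ LocPair k g S) :
    p.2.IsSymm := by
  obtain ⟨h, -, hm, -, c, w, -, -, h2⟩ := hp
  ext i j
  rw [transpose_apply, ← h2, ← h2]
  congr 2
  ring

/-- the number of the matrices `A` for a given `B` -/
lemma fib_Uh (hUi : StUi) (hUn0 : StUn0) (g : ℕ) (hg : 1 ≤ g) (C : ℝ) (H : ℕ) (m : Fin (g + 1) → ℕ)
    (hC : 0 ≤ C) (hm : Antitone m) (T : Finset Prm) (hT : ∀ P ∈ T, (P : ℕ) ≠ 2)
    (hMH : ∀ i : Fin (g + 1), (∏ P ∈ T, (P : ℕ)) * 2 ^ (2 * m i) ≤ H)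
    (B : Matrix (Jx g) (Jx g) ℤ) (hB : IsUnit B.det) :
    {p : Pr g | p ∈ PB g C H m T ∧ p.1 = B}.Finite ∧
    ({p : Pr g | p ∈ PB g C H m T ∧ p.1 = B}.ncard : ℝ) ≤
      (2 * C + 1) ^ ((g + 1) * (2 * g + 3)) * (H : ℝ) ^ ((g + 1) * (2 * g + 3)) *
        ((1 / 2) ^ T.card * ∏ P ∈ T, dens g P) := by
  classical
  have hM0 : 0 < ∏ P ∈ T, (P : ℕ) := Finset.prod_pos fun P _ => P.2.pos
  have hMr : (∏ P ∈ T, ((P : ℕ) : ℝ)) = ((∏ P ∈ T, (P : ℕ) : ℕ) : ℝ) := by push_cast; rfl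
  have hM0' : (0 : ℝ) < ∏ P ∈ T, ((P : ℕ) : ℝ) := by rw [hMr]; exact_mod_cast hM0
  set e : Up_Uf g → ℤ := fun i => nu g m i.1.1 + nu g m i.1.2 with he
  set X : Up_Uf g → ℝ := fun i => C * H * (2 : ℝ) ^ (e i) with hX
  set A : ∀ P : Prm, Set (Up_Uf g → kp P) := fun P =>
    up_Uf '' {A : Matrix (Jx g) (Jx g) (kp P) | (B.map (red P), A) ∈
      LocPair (kp P) g (TType (kp P) g)} with hA
  obtain ⟨h1, h2⟩ := Pool.Agent.Helper54.HQ.hUeq (Up_Uf g) T X A fun i => by positivity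
  set E : Set (Up_Uf g → ℤ) := {x : Up_Uf g → ℤ | (∀ i, |((x i : ℤ) : ℝ)| ≤ X i) ∧
    ∀ P ∈ T, (fun i => red P (x i)) ∈ A P} with hE
  have hmaps : ∀ p ∈ {p : Pr g | p ∈ PB g C H m T ∧ p.1 = B}, up_Uf p.2 ∈ E := by
    rintro p ⟨hp, hpB⟩
    refine ⟨fun i => hp.1.bA _ _, fun P hP => ?_⟩
    refine ⟨p.2.map (red P), ?_, rfl⟩
    have h3 := hp.2 P hP
    rw [redP, hpB] at h3
    exact h3
  have hinj : Set.InjOn (fun p : Pr g => up_Uf p.2) {p : Pr g | p ∈ PB g C H m T ∧ p.1 = B} := by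
    rintro p ⟨hp, hpB⟩ q ⟨hq, hqB⟩ hpq
    exact Prod.ext (hpB.trans hqB.symm) (up_inj_Uf hp.1.symA hq.1.symA hpq)
  refine ⟨Set.Finite.of_finite_image (h1.subset (by rintro _ ⟨p, hp, rfl⟩; exact hmaps p hp))
    hinj, ?_⟩
  have h3 : ({p : Pr g | p ∈ PB g C H m T ∧ p.1 = B}.ncard : ℝ) ≤ (E.ncard : ℝ) := by
    exact_mod_cast Set.ncard_le_ncard_of_injOn (fun p : Pr g => up_Uf p.2) hmaps hinj h1
  refine h3.trans (h2.trans ?_)
  -- the first factor
  have h4 : ∏ i, (2 * X i / ∏ P ∈ T, ((P : ℕ) : ℝ) + 1) ≤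
      ((2 * C + 1) * H / ∏ P ∈ T, ((P : ℕ) : ℝ)) ^ ((g + 1) * (2 * g + 3)) := by
    have h5 : ∀ i : Up_Uf g, 2 * X i / ∏ P ∈ T, ((P : ℕ) : ℝ) + 1 ≤
        ((2 * C + 1) * H / ∏ P ∈ T, ((P : ℕ) : ℝ)) * (2 : ℝ) ^ (e i) := by
      intro i
      have h6 : (∏ P ∈ T, ((P : ℕ) : ℝ)) ≤ H * (2 : ℝ) ^ (e i) := by
        have h7 := hMH 0
        have h8 : (∏ P ∈ T, ((P : ℕ) : ℝ)) * (2 : ℝ) ^ (2 * m 0) ≤ H := by
          rw [hMr]
          exact_mod_cast h7
        have h9 : -((2 * m 0 : ℕ) : ℤ) ≤ e i := by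
          have hnu := (hUn0 g m).2.2 hm
          have ha := (hnu.2 i.1.1).2
          have hb := (hnu.2 i.1.2).2
          simp only [he]
          push_cast
          linarith
        have h10 : (2 : ℝ) ^ (-((2 * m 0 : ℕ) : ℤ)) ≤ (2 : ℝ) ^ (e i) :=
          zpow_le_zpow_right₀ (by norm_num) h9
        rw [_root_.zpow_neg, zpow_natCast] at h10
        have h11 : (∏ P ∈ T, ((P : ℕ) : ℝ)) ≤ H * ((2 : ℝ) ^ (2 * m 0))⁻¹ := by
          rw [← div_eq_mul_inv, le_div_iff₀ (by positivity)]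
          exact h8
        exact h11.trans (mul_le_mul_of_nonneg_left h10 (Nat.cast_nonneg _))
      have h7 : 2 * X i / ∏ P ∈ T, ((P : ℕ) : ℝ) + 1 =
          (2 * X i + ∏ P ∈ T, ((P : ℕ) : ℝ)) / ∏ P ∈ T, ((P : ℕ) : ℝ) := by
        rw [add_div, div_self hM0'.ne']
      rw [h7, div_mul_eq_mul_div]
      refine div_le_div_of_nonneg_right ?_ hM0'.le
      simp only [hX]
      nlinarith
    calc ∏ i, (2 * X i / ∏ P ∈ T, ((P : ℕ) : ℝ) + 1) ≤
          ∏ i : Up_Uf g, (((2 * C + 1) * H / ∏ P ∈ T, ((P : ℕ) : ℝ)) * (2 : ℝ) ^ (e i)) :=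
          Finset.prod_le_prod (fun i _ => by positivity) fun i _ => h5 i
      _ = _ := by
          rw [Finset.prod_mul_distrib, Finset.prod_const, Finset.card_univ, card_Up_Uf,
            Pool.Agent.Helper54.HQ.prod_zpow_Uh, sum_nu_Uh, zpow_zero, mul_one]
  -- the second factor
  have h5 : ∏ P ∈ T, ((A P).ncard : ℝ) ≤
      ∏ P ∈ T, (((TType (kp P) g).ncard : ℝ) * ((P : ℕ) : ℝ) ^ ((g + 1) * (2 * g + 1)) / 2) := by
    refine Finset.prod_le_prod (fun P _ => Nat.cast_nonneg _) fun P hP => ?_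
    have hdet : (B.map (red P)).det ≠ 0 := by
      have h6 : (B.map (red P)).det = red P B.det := ((red P).map_det B).symm
      rw [h6]
      exact (hB.map (red P)).ne_zero
    have h7 := hUi (kp P) (Pool.Agent.Helper54.HQ.two_ne_zero_kp (hT P hP)) g hg (B.map (red P)) hdet
    have h8 : (A P).ncard = {A : Matrix (Jx g) (Jx g) (kp P) | (B.map (red P), A) ∈
        LocPair (kp P) g (TType (kp P) g)}.ncard := by
      simp only [hA]
      refine Set.InjOn.ncard_image ?_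
      intro a ha b hb hab
      exact up_inj_Uf (LocPair_symm_Uh ha) (LocPair_symm_Uh hb) hab
    rw [ZMod.card] at h7
    rw [h8, le_div_iff₀ (by norm_num), mul_comm]
    exact_mod_cast h7
  have hpos1 : 0 ≤ ∏ P ∈ T, ((A P).ncard : ℝ) := Finset.prod_nonneg fun P _ => Nat.cast_nonneg _
  calc (∏ i, (2 * X i / ∏ P ∈ T, ((P : ℕ) : ℝ) + 1)) * ∏ P ∈ T, ((A P).ncard : ℝ) ≤
      ((2 * C + 1) * H / ∏ P ∈ T, ((P : ℕ) : ℝ)) ^ ((g + 1) * (2 * g + 3)) *
        ∏ P ∈ T, (((TType (kp P) g).ncard : ℝ) * ((P : ℕ) : ℝ) ^ ((g + 1) * (2 * g + 1)) / 2) :=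
        mul_le_mul h4 h5 hpos1 (by positivity)
    _ = _ := by
        rw [div_pow, mul_pow, ← Finset.prod_pow, div_mul_eq_mul_div, mul_div_assoc,
          ← Finset.prod_div_distrib]
        congr 1
        rw [← Finset.prod_const, ← Finset.prod_mul_distrib]
        refine Finset.prod_congr rfl fun P _ => ?_
        have hP : ((P : ℕ) : ℝ) ≠ 0 := by exact_mod_cast P.2.ne_zero
        rw [dens, show (g + 1) * (2 * g + 3) = (g + 1) * (2 * g + 1) + (2 * g + 2) by ring, pow_add]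
        field_simp

/-- the main region -/
theorem hUh (hUf : StUf) (hUi : StUi) (hUn0 : StUn0) : StUh := by
  intro g hg C H m hC hm T hT hMH
  classical
  have hH : 1 ≤ H := by
    have h1 := hMH 0
    have h2 : 0 < ∏ P ∈ T, (P : ℕ) := Finset.prod_pos fun P _ => P.2.pos
    have h3 : 0 < (∏ P ∈ T, (P : ℕ)) * 2 ^ (2 * m 0) := by positivity
    omega
  have hS : (PB g C H m T).Finite := (hUf g C H m hC hH).1.subset fun p hp => hp.1
  set X : Up_Uf g → ℝ := fun i => C * (2 : ℝ) ^ (nu g m i.1.1 + nu g m i.1.2) with hX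
  obtain ⟨h1, h2⟩ := symbox_Uf X fun i => by positivity
  set 𝔅 := {b : Matrix (Jx g) (Jx g) ℤ | b.IsSymm ∧
    ∀ p : Up_Uf g, |((b p.1.1 p.1.2 : ℤ) : ℝ)| ≤ X p} with h𝔅
  set s := hS.toFinset with hs
  set t := h1.toFinset with ht
  set K : ℝ := (2 * C + 1) ^ ((g + 1) * (2 * g + 3)) * (H : ℝ) ^ ((g + 1) * (2 * g + 3)) *
        ((1 / 2) ^ T.card * ∏ P ∈ T, dens g P) with hK
  have hdens : ∀ P, 0 ≤ dens g P := fun P => by unfold dens; positivity
  have hK0 : 0 ≤ K := by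
    have : 0 ≤ ∏ P ∈ T, dens g P := Finset.prod_nonneg fun P _ => hdens P
    positivity
  have hfib : ∀ b ∈ t, ((s.filter fun p => p.1 = b).card : ℝ) ≤ K := by
    intro b _
    rcases (s.filter fun p => p.1 = b).eq_empty_or_nonempty with h0 | ⟨y, hy⟩
    · rw [h0]
      simpa using hK0
    · rw [Finset.mem_filter] at hy
      have hy1 := (hS.mem_toFinset).1 hy.1
      have hb : IsUnit b.det := by rw [← hy.2]; exact hy1.1.det
      obtain ⟨h3, h4⟩ := fib_Uh hUi hUn0 g hg C H m hC hm T hT hMH b hb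
      have h5 : ((s.filter fun p => p.1 = b) : Set (Pr g)) =
          {p : Pr g | p ∈ PB g C H m T ∧ p.1 = b} := by
        ext p
        simp only [Finset.coe_filter, hs, Set.Finite.mem_toFinset, Set.mem_ofPred_eq]
      rw [← Set.ncard_coe_finset, h5]
      exact h4
  have h3 : ((PB g C H m T).ncard : ℝ) = ∑ b ∈ t, ((s.filter fun p => p.1 = b).card : ℝ) := by
    rw [Set.ncard_eq_toFinset_card _ hS, ← Nat.cast_sum]
    exact_mod_cast Finset.card_eq_sum_card_fiberwise (f := fun p : Pr g => p.1) (s := s) (t := t)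
      (fun p hp => by
        have hp1 := (hS.mem_toFinset).1 hp
        simp only [ht, Set.Finite.coe_toFinset]
        exact ⟨hp1.1.symB, fun q => hp1.1.bB _ _⟩)
  have h4 : (t.card : ℝ) ≤ (2 * C + 1) ^ ((g + 1) * (2 * g + 3)) * 2 ^ sB g m := by
    rw [← Set.ncard_eq_toFinset_card _ h1]
    refine h2.trans ((prod_Uf C hC X (fun i => nu g m i.1.1 + nu g m i.1.2)
      (fun i => by positivity) (fun i => le_rfl)).trans (le_of_eq ?_))
    congr 2
    rw [sum_Uf fun p : Jx g × Jx g => (nu g m p.1 + nu g m p.2).toNat]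
    rfl
  rw [h3]
  calc ∑ b ∈ t, ((s.filter fun p => p.1 = b).card : ℝ) ≤ ∑ _b ∈ t, K := Finset.sum_le_sum hfib
    _ = t.card * K := by rw [Finset.sum_const, nsmul_eq_mul]
    _ ≤ ((2 * C + 1) ^ ((g + 1) * (2 * g + 3)) * 2 ^ sB g m) * K :=
        mul_le_mul_of_nonneg_right h4 hK0
    _ = _ := by
        rw [hK, two_mul ((g + 1) * (2 * g + 3)), pow_add]
        ring

end Pool.Agent.Helper3.EV
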