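import Pool.Agent.Helper3.EV.StU

/-! # EV: module Ui (the local count) -/

set_option autoImplicit false

namespace Pool.Agent.Helper3.EV

open Polynomial Finset Filter Topology Matrix IsDedekindDomain
open Pool.Agent.Helper3.HY (co tau)
open Pool.Agent.Helper54.HQ (Prm pz factPrm fK RR LL algRL th kp red Bf Smooth NearOne LocSq Weak Fam qS)

/-- the matrices which belong to one polynomial -/
def Am_Ui (k : Type) [Field k] (g : ℕ) (B : Matrix (Jx g) (Jx g) k) (h : k[X]) :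
    Set (Matrix (Jx g) (Jx g) k) :=
  {A | ∃ hm : h.Monic, h.natDegree = 2 * g + 2 ∧ ∃ (c : k) (w : Jx g → AdjoinRoot h), c ≠ 0 ∧
    (∀ i j, c * tau hm (w i * w j) = B i j) ∧
      ∀ i j, c * tau hm (AdjoinRoot.root h * w i * w j) = A i j}

/-- the matrices which belong to one polynomial and one constant -/
def Ac_Ui (k : Type) [Field k] (g : ℕ) (B : Matrix (Jx g) (Jx g) k) {h : k[X]} (hm : h.Monic)
    (c : k) : Set (Matrix (Jx g) (Jx g) k) :=
  {A | ∃ w : Jx g → AdjoinRoot h,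
    (∀ i j, c * tau hm (w i * w j) = B i j) ∧
      ∀ i j, c * tau hm (AdjoinRoot.root h * w i * w j) = A i j}

theorem finite_deg_Ui (k : Type) [Field k] [Fintype k] (n : ℕ) :
    {p : k[X] | p.natDegree ≤ n}.Finite := by
  refine Set.Finite.of_injOn (f := fun (p : k[X]) (i : Fin (n + 1)) => p.coeff i)
    (t := Set.univ) (fun _ _ => Set.mem_univ _) ?_ Set.finite_univ
  intro p hp q hq hpq
  ext i
  by_cases hi : i < n + 1
  · exact congrFun hpq ⟨i, hi⟩
  · have hp' : p.natDegree ≤ n := hp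
    have hq' : q.natDegree ≤ n := hq
    rw [coeff_eq_zero_of_natDegree_lt (by omega), coeff_eq_zero_of_natDegree_lt (by omega)]

theorem union_bound_Ui {k : Type} [Field k] [Fintype k] {g c N : ℕ}
    {B : Matrix (Jx g) (Jx g) k} {S : Set k[X]} (hS : S.Finite)
    (h : ∀ x ∈ S, c * (Am_Ui k g B x).ncard ≤ N) :
    c * {A : Matrix (Jx g) (Jx g) k | (B, A) ∈ LocPair k g S}.ncard ≤ S.ncard * N := by
  classical
  have h1 : {A : Matrix (Jx g) (Jx g) k | (B, A) ∈ LocPair k g S} ⊆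
      ⋃ x ∈ hS.toFinset, Am_Ui k g B x := by
    rintro b ⟨x, hx, hb⟩
    simp only [Set.mem_iUnion]
    exact ⟨x, hS.mem_toFinset.2 hx, hb⟩
  have h2 : {A : Matrix (Jx g) (Jx g) k | (B, A) ∈ LocPair k g S}.ncard ≤
      ∑ x ∈ hS.toFinset, (Am_Ui k g B x).ncard :=
    (Set.ncard_le_ncard h1 (Set.toFinite _)).trans (Finset.set_ncard_biUnion_le _ _)
  calc c * {A : Matrix (Jx g) (Jx g) k | (B, A) ∈ LocPair k g S}.ncard
      ≤ c * ∑ x ∈ hS.toFinset, (Am_Ui k g B x).ncard := Nat.mul_le_mul_left c h2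
    _ = ∑ x ∈ hS.toFinset, c * (Am_Ui k g B x).ncard := Finset.mul_sum _ _ _
    _ ≤ ∑ _x ∈ hS.toFinset, N := Finset.sum_le_sum fun x hx => h x (hS.mem_toFinset.1 hx)
    _ = S.ncard * N := by rw [Finset.sum_const, smul_eq_mul, Set.ncard_eq_toFinset_card S hS]

/-- every nonzero `c` is `δ s²` with `δ ∈ {1, ε}` -/
theorem nonsq_Ui {k : Type} [Field k] [Fintype k] (h2 : (2 : k) ≠ 0) {ε : k}
    (hε : ¬ IsSquare ε) {c : k} (hc : c ≠ 0) : ∃ s : k, c = 1 * s ^ 2 ∨ c = ε * s ^ 2 := by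
  classical
  have hε0 : ε ≠ 0 := by
    rintro rfl
    exact hε (IsSquare.zero)
  by_cases hcs : IsSquare c
  · obtain ⟨s, rfl⟩ := hcs
    exact ⟨s, Or.inl (by ring)⟩
  · have hF : ringChar k ≠ 2 := by
      intro h
      apply h2
      have := ringChar.Nat.cast_ringChar (R := k)
      rw [h] at this
      exact_mod_cast this
    have e1 := (quadraticChar_neg_one_iff_not_isSquare (F := k) (a := ε)).2 hε
    have e2 := (quadraticChar_neg_one_iff_not_isSquare (F := k) (a := c)).2 hcs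
    have e3 : quadraticChar k (ε * c) = 1 := by rw [map_mul, e1, e2]; norm_num
    obtain ⟨t, ht⟩ := (quadraticChar_one_iff_isSquare (mul_ne_zero hε0 hc)).1 e3
    refine ⟨t / ε, Or.inr ?_⟩
    field_simp
    rw [mul_comm, ht]
    ring

theorem sub_Ui {k : Type} [Field k] [Fintype k] (h2 : (2 : k) ≠ 0) {ε : k} (hε : ¬ IsSquare ε)
    (g : ℕ) (B : Matrix (Jx g) (Jx g) k) {h : k[X]} (hm : h.Monic) :
    Am_Ui k g B h ⊆ Ac_Ui k g B hm 1 ∪ Ac_Ui k g B hm ε := by
  rintro A ⟨hm', hd, c, w, hc, hB, hA⟩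
  obtain ⟨s, hs⟩ := nonsq_Ui h2 hε hc
  have key : ∀ δ : k, c = δ * s ^ 2 → A ∈ Ac_Ui k g B hm δ := by
    intro δ hδ
    refine ⟨fun i => s • w i, fun i j => ?_, fun i j => ?_⟩
    · rw [smul_mul_smul_comm, map_smul, ← hB i j, hδ, smul_eq_mul]
      ring
    · have e : AdjoinRoot.root h * s • w i * s • w j =
          (s * s) • (AdjoinRoot.root h * w i * w j) := by
        simp only [mul_smul_comm, smul_mul_assoc, smul_smul]
      change δ * tau hm (AdjoinRoot.root h * s • w i * s • w j) = A i j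
      rw [e, map_smul, ← hA i j, hδ, smul_eq_mul]
      ring
  rcases hs with hs | hs
  · exact Or.inl (key 1 hs)
  · exact Or.inr (key ε hs)

theorem hUi (hUi2 : StUi2) (hUi3 : StUi3) : StUi := by
  intro k _ _ h2 g hg B hB
  classical
  have hT : ∀ h ∈ TType k g, h.Monic ∧ h.natDegree = 2 * g + 2 := by
    rintro h ⟨a, b, p, hab, hp, hirr, hd, rfl⟩
    refine ⟨((monic_X_sub_C a).mul (monic_X_sub_C b)).mul hp, ?_⟩
    rw [((monic_X_sub_C a).mul (monic_X_sub_C b)).natDegree_mul hp,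
      (monic_X_sub_C a).natDegree_mul (monic_X_sub_C b), natDegree_X_sub_C, natDegree_X_sub_C, hd]
    ring
  have hfin : (TType k g).Finite :=
    (finite_deg_Ui k (2 * g + 2)).subset fun h hh => (hT h hh).2.le
  refine union_bound_Ui (c := 2) (N := Fintype.card k ^ ((g + 1) * (2 * g + 1))) hfin ?_
  intro q hq
  by_cases hsym : B.IsSymm
  · have hF : ringChar k ≠ 2 := by
      intro h
      apply h2
      have := ringChar.Nat.cast_ringChar (R := k)
      rw [h] at this
      exact_mod_cast this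
    obtain ⟨ε, hε⟩ := FiniteField.exists_nonsquare hF
    have hε0 : ε ≠ 0 := by
      rintro rfl
      exact hε (IsSquare.zero)
    obtain ⟨s, hs, hs1⟩ := hUi2 k h2 g hg q hq
    have hqm := (hT q hq).1
    have a1 : (Ac_Ui k g B hqm 1).ncard * s.card ≤ 2 * Fintype.card k ^ ((g + 1) * (2 * g + 1)) :=
      hUi3 k h2 g q hqm (hT q hq).2 s hs1 B hsym hB 1 one_ne_zero
    have a2 : (Ac_Ui k g B hqm ε).ncard * s.card ≤ 2 * Fintype.card k ^ ((g + 1) * (2 * g + 1)) :=
      hUi3 k h2 g q hqm (hT q hq).2 s hs1 B hsym hB ε hε0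
    have a3 : (Am_Ui k g B q).ncard ≤ (Ac_Ui k g B hqm 1).ncard + (Ac_Ui k g B hqm ε).ncard :=
      (Set.ncard_le_ncard (sub_Ui h2 hε g B hqm) (Set.toFinite _)).trans (Set.ncard_union_le _ _)
    rw [hs] at a1 a2
    omega
  · have h0 : Am_Ui k g B q = ∅ := by
      ext A
      simp only [Set.mem_empty_iff_false, iff_false]
      rintro ⟨hm', hd, c, w, hc, hB', hA⟩
      apply hsym
      ext i j
      rw [Matrix.transpose_apply, ← hB' j i, ← hB' i j, mul_comm (w j) (w i)]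
    rw [h0, Set.ncard_empty]
    omega

end Pool.Agent.Helper3.EV
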