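import Pool.Agent.Helper3.EV.StU

/-!
# EV module Ui2: square roots of one
-/

set_option autoImplicit false

namespace Pool.Agent.Helper3.EV

open Polynomial Finset

namespace Ui2

/-- The signs. -/
def sg {R : Type} [CommRing R] (b : Bool) : R := if b then 1 else -1

theorem sg_sq {R : Type} [CommRing R] (b : Bool) : (sg b : R) ^ 2 = 1 := by
  cases b <;> simp [sg]

theorem sg_inj {R : Type} [CommRing R] (h2 : IsUnit (2 : R)) {E : R} (hE : E ≠ 0) {b c : Bool}
    (h : (sg b : R) * E = sg c * E) : b = c := by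
  cases b <;> cases c
  · rfl
  · exfalso
    apply hE
    apply h2.mul_left_cancel
    simp only [sg, if_true, if_false, Bool.false_eq_true] at h
    linear_combination -h
  · exfalso
    apply hE
    apply h2.mul_left_cancel
    simp only [sg, if_true, if_false, Bool.false_eq_true] at h
    linear_combination h
  · rfl

theorem card8 {R : Type} [CommRing R] (h2 : IsUnit (2 : R)) (E1 E2 : R) (h11 : E1 ^ 2 = E1)
    (h22 : E2 ^ 2 = E2) (h12 : E1 * E2 = 0) (n1 : E1 ≠ 0) (n2 : E2 ≠ 0) (n3 : 1 - E1 - E2 ≠ 0) :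
    ∃ s : Finset R, s.card = 8 ∧ ∀ β ∈ s, β ^ 2 = 1 := by
  classical
  refine ⟨Finset.univ.image (fun s : Bool × Bool × Bool =>
    (sg s.1 : R) * E1 + sg s.2.1 * E2 + sg s.2.2 * (1 - E1 - E2)), ?_, ?_⟩
  · rw [Finset.card_image_of_injective]
    · rfl
    · rintro ⟨a, b, c⟩ ⟨a', b', c'⟩ h
      simp only at h
      have e1 : a = a' := by
        apply sg_inj h2 n1
        linear_combination E1 * h - (sg a - sg c - sg a' + sg c') * h11 -
          (sg b - sg c - sg b' + sg c') * h12
      have e2 : b = b' := by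
        apply sg_inj h2 n2
        linear_combination E2 * h - (sg b - sg c - sg b' + sg c') * h22 -
          (sg a - sg c - sg a' + sg c') * h12
      have e3 : c = c' := by
        apply sg_inj h2 n3
        linear_combination h - (congrArg (fun z => (sg z : R) * E1) e1) -
          (congrArg (fun z => (sg z : R) * E2) e2)
      rw [e1, e2, e3]
  · intro β hβ
    rw [Finset.mem_image] at hβ
    obtain ⟨⟨a, b, c⟩, -, rfl⟩ := hβ
    simp only
    have ha := sg_sq (R := R) a
    have hb := sg_sq (R := R) b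
    have hc := sg_sq (R := R) c
    generalize (sg a : R) = x at *
    generalize (sg b : R) = y at *
    generalize (sg c : R) = z at *
    linear_combination E1 * ha + E2 * hb + (1 - E1 - E2) * hc + (x ^ 2 + z ^ 2 - 2 * x * z) * h11 +
      (y ^ 2 + z ^ 2 - 2 * y * z) * h22 + (2 * x * y - 2 * x * z - 2 * y * z + 2 * z ^ 2) * h12

end Ui2

theorem hUi2 : StUi2 := by
  intro k _ h2 g hg h
  rintro ⟨a, b, p, hab, hm, hi, hd, rfl⟩
  have hXa : Irreducible (X - C a : k[X]) := irreducible_X_sub_C a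
  have hXb : Irreducible (X - C b : k[X]) := irreducible_X_sub_C b
  have hcop : ∀ c : k, IsCoprime (X - C c) p := by
    intro c
    have hX : Irreducible (X - C c : k[X]) := irreducible_X_sub_C c
    rw [hX.coprime_iff_not_dvd]
    rintro ⟨q, hq⟩
    rcases hi.isUnit_or_isUnit hq with h | h
    · exact hX.not_isUnit h
    · have h1 := congrArg natDegree hq
      rw [natDegree_mul hX.ne_zero h.ne_zero, natDegree_eq_zero_of_isUnit h,
        natDegree_X_sub_C] at h1
      omega
  have hc12 : IsCoprime (X - C a) (X - C b : k[X]) :=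
    pairwise_coprime_X_sub_C (K := k) (s := id) Function.injective_id hab
  obtain ⟨u1, v1, h1⟩ := hc12.mul_right (hcop a)
  obtain ⟨u2, v2, h2'⟩ := (hc12.symm).mul_right (hcop b)
  have h2u : IsUnit (2 : AdjoinRoot ((X - C a) * (X - C b) * p)) := by
    have := (isUnit_iff_ne_zero.2 h2).map (algebraMap k (AdjoinRoot ((X - C a) * (X - C b) * p)))
    rwa [map_ofNat] at this
  have hone : (1 : AdjoinRoot ((X - C a) * (X - C b) * p)) = AdjoinRoot.mk _ 1 := (map_one _).symm
  have hzero : (0 : AdjoinRoot ((X - C a) * (X - C b) * p)) = AdjoinRoot.mk _ 0 := (map_zero _).symm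
  refine Ui2.card8 h2u (AdjoinRoot.mk _ (v1 * ((X - C b) * p))) (AdjoinRoot.mk _ (v2 * ((X - C a) * p)))
    ?_ ?_ ?_ ?_ ?_ ?_
  · rw [← map_pow, AdjoinRoot.mk_eq_mk]
    refine ⟨-(u1 * v1), ?_⟩
    linear_combination v1 * ((X - C b) * p) * h1
  · rw [← map_pow, AdjoinRoot.mk_eq_mk]
    refine ⟨-(u2 * v2), ?_⟩
    linear_combination v2 * ((X - C a) * p) * h2'
  · rw [← map_mul, hzero, AdjoinRoot.mk_eq_mk]
    refine ⟨v1 * v2 * p, ?_⟩
    ring
  · rw [hzero, Ne, AdjoinRoot.mk_eq_mk]
    intro h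
    apply hXa.not_isUnit
    rw [isUnit_iff_dvd_one]
    obtain ⟨c, hc⟩ := h
    refine ⟨u1 + (X - C b) * p * c, ?_⟩
    linear_combination hc - h1
  · rw [hzero, Ne, AdjoinRoot.mk_eq_mk]
    intro h
    apply hXb.not_isUnit
    rw [isUnit_iff_dvd_one]
    obtain ⟨c, hc⟩ := h
    refine ⟨u2 + (X - C a) * p * c, ?_⟩
    linear_combination hc - h2'
  · rw [hone, hzero, ← map_sub, ← map_sub, Ne, AdjoinRoot.mk_eq_mk]
    intro h
    apply hi.not_isUnit
    rw [isUnit_iff_dvd_one]
    obtain ⟨c, hc⟩ := h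
    refine ⟨(X - C a) * (X - C b) * c + v1 * (X - C b) + v2 * (X - C a), ?_⟩
    linear_combination hc

end Pool.Agent.Helper3.EV
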