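import Pool.Agent.Helper3.EV.StU
import Pool.Agent.Helper3.HY.M_Ui1

/-!
# EV, module Ui3: matrices from a given polynomial
-/

set_option autoImplicit false

namespace Pool.Agent.Helper3.EV

open Polynomial Finset Filter Topology Matrix
open Pool.Agent.Helper3.HY (co tau)

/-- the span of `1, x, .., x^g` in `k[x]/h` -/
private noncomputable def XUi3 (k : Type) [Field k] (g : ℕ) (h : k[X]) :
    Submodule k (AdjoinRoot h) :=
  (Polynomial.degreeLT k (g + 1)).map (AdjoinRoot.mkₐ h : k[X] →ₐ[k] AdjoinRoot h).toLinearMap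

private theorem mem_XUi3 {k : Type} [Field k] {g : ℕ} {h : k[X]} {x : AdjoinRoot h}
    (hx : x ∈ XUi3 k g h) : ∃ p : k[X], p.degree < (g + 1 : ℕ) ∧ x = AdjoinRoot.mk h p := by
  rw [XUi3, Submodule.mem_map] at hx
  obtain ⟨p, hp, rfl⟩ := hx
  exact ⟨p, Polynomial.mem_degreeLT.1 hp, rfl⟩

private theorem finrank_XUi3 (k : Type) [Field k] (g : ℕ) (h : k[X])
    (hdeg : h.natDegree = 2 * g + 2) : Module.finrank k (XUi3 k g h) = g + 1 := by
  have hh0 : h ≠ 0 := by
    rintro rfl
    simp at hdeg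
  have hinj : Function.Injective ((AdjoinRoot.mkₐ h : k[X] →ₐ[k] AdjoinRoot h).toLinearMap.domRestrict
      (Polynomial.degreeLT k (g + 1))) := by
    rw [← LinearMap.ker_eq_bot, LinearMap.ker_eq_bot']
    rintro ⟨p, hp⟩ hz
    have h1 : AdjoinRoot.mk h p = 0 := hz
    rw [AdjoinRoot.mk_eq_zero] at h1
    have h2 : p.degree < (g + 1 : ℕ) := Polynomial.mem_degreeLT.1 hp
    have h3 : p.degree < h.degree := by
      rw [degree_eq_natDegree hh0, hdeg]
      refine h2.trans_le ?_
      exact_mod_cast (by omega : g + 1 ≤ 2 * g + 2)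
    have h4 := Polynomial.eq_zero_of_dvd_of_degree_lt h1 h3
    exact Subtype.ext h4
  have h1 : XUi3 k g h = LinearMap.range
      ((AdjoinRoot.mkₐ h : k[X] →ₐ[k] AdjoinRoot h).toLinearMap.domRestrict
        (Polynomial.degreeLT k (g + 1))) := by
    rw [LinearMap.range_domRestrict]
    rfl
  rw [h1, LinearMap.finrank_range_of_inj hinj, (Polynomial.degreeLTEquiv k (g + 1)).finrank_eq]
  simp

private theorem iso_XUi3 {k : Type} [Field k] {g : ℕ} {h : k[X]} (hm : h.Monic)
    (hdeg : h.natDegree = 2 * g + 2) {x y : AdjoinRoot h} (hx : x ∈ XUi3 k g h)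
    (hy : y ∈ XUi3 k g h) : tau hm (x * y) = 0 := by
  obtain ⟨p, hp, rfl⟩ := mem_XUi3 hx
  obtain ⟨q, hq, rfl⟩ := mem_XUi3 hy
  have h1 : (p * q).degree < (2 * g + 1 : ℕ) := by
    by_cases hp0 : p = 0
    · rw [hp0, zero_mul, degree_zero]
      exact WithBot.bot_lt_coe _
    by_cases hq0 : q = 0
    · rw [hq0, mul_zero, degree_zero]
      exact WithBot.bot_lt_coe _
    rw [degree_mul, degree_eq_natDegree hp0, degree_eq_natDegree hq0]
    rw [degree_eq_natDegree hp0] at hp
    rw [degree_eq_natDegree hq0] at hq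
    have h2 : p.natDegree < g + 1 := by exact_mod_cast hp
    have h3 : q.natDegree < g + 1 := by exact_mod_cast hq
    exact_mod_cast (by omega : p.natDegree + q.natDegree < 2 * g + 1)
  rw [← map_mul, tau, Pool.Agent.Helper3.HY.co_mk, (modByMonic_eq_self_iff hm).2]
  · rw [hdeg]
    refine coeff_eq_zero_of_degree_lt (h1.trans_le ?_)
    exact_mod_cast (by omega : 2 * g + 1 ≤ 2 * g + 2 - 1)
  · rw [degree_eq_natDegree hm.ne_zero, hdeg]
    refine h1.trans_le ?_
    exact_mod_cast (by omega : 2 * g + 1 ≤ 2 * g + 2)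

theorem hUi3 (hUw : StUw) : StUi3 := by
  intro k _ _ h2 g h hm hdeg s hs Bm hsymm hdet c hc
  have hfree : Module.Finite k (AdjoinRoot h) := hm.finite_adjoinRoot
  have hrank : Module.finrank k (AdjoinRoot h) = 2 * g + 2 := by
    exact (finrank_quotient_span_eq_natDegree' (f := h) hm).trans hdeg
  have hfin : Finite (AdjoinRoot h) := Module.finite_of_finite k
  let B : LinearMap.BilinForm k (AdjoinRoot h) :=
    c • (LinearMap.mul k (AdjoinRoot h)).compr₂ (tau hm)
  have hB : ∀ x y, B x y = c * tau hm (x * y) := fun x y => rfl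
  have hUw' := hUw k h2 g (AdjoinRoot h) B (fun x y => by rw [hB, hB, mul_comm x y])
    (fun x hx => Pool.Agent.Helper3.HY.hUi1 k h hm (by omega) x
      (fun y => by
        have h3 := hx y
        rw [hB] at h3
        exact (mul_eq_zero.1 h3).resolve_left hc)) hrank
    (XUi3 k g h) (finrank_XUi3 k g h hdeg)
    (fun x hx y hy => by rw [hB, iso_XUi3 hm hdeg hx hy, mul_zero]) Bm hsymm hdet
  set T : Set (Jx g → AdjoinRoot h) := {w | ∀ i j, B (w i) (w j) = Bm i j} with hT
  set S : Set (Matrix (Jx g) (Jx g) k) := {A | ∃ w : Jx g → AdjoinRoot h,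
      (∀ i j, c * tau hm (w i * w j) = Bm i j) ∧
      ∀ i j, c * tau hm (AdjoinRoot.root h * w i * w j) = A i j} with hS
  have hTfin : T.Finite := Set.toFinite T
  have hspan : ∀ w ∈ T, ∀ z : AdjoinRoot h, (∀ i, z * w i = 0) → z = 0 := by
    intro w hw z hz
    have hli : LinearIndependent k w := by
      rw [Fintype.linearIndependent_iff]
      intro e he
      have h4 : e ᵥ* Bm = 0 := by
        ext j
        have h3 : B (∑ i, e i • w i) (w j) = 0 := by rw [he, map_zero]; rfl
        rw [map_sum, LinearMap.sum_apply] at h3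
        rw [Matrix.vecMul, dotProduct, Pi.zero_apply, ← h3]
        refine Finset.sum_congr rfl fun i _ => ?_
        rw [map_smul, LinearMap.smul_apply, hw i j, smul_eq_mul]
      have h5 := Matrix.eq_zero_of_vecMul_eq_zero hdet h4
      intro j
      rw [h5]
      rfl
    have htop : ⊤ ≤ Submodule.span k (Set.range w) := by
      rw [hli.span_eq_top_of_card_eq_finrank' (by rw [hrank]; simp)]
    have h1 : ∀ y ∈ Submodule.span k (Set.range w), z * y = 0 := by
      intro y hy
      induction hy using Submodule.span_induction with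
      | mem x hx =>
        obtain ⟨i, rfl⟩ := hx
        exact hz i
      | zero => rw [mul_zero]
      | add x y _ _ hx hy => rw [mul_add, hx, hy, add_zero]
      | smul a x _ hx => rw [mul_smul_comm, hx, smul_zero]
    have h3 := h1 1 (htop trivial)
    rwa [mul_one] at h3
  have hSch : ∀ b ∈ S, ∃ w : Jx g → AdjoinRoot h, w ∈ T ∧
      ∀ i j, c * tau hm (AdjoinRoot.root h * w i * w j) = b i j := by
    rintro b ⟨w, hw, hb⟩
    exact ⟨w, hw, hb⟩
  choose! W hWT hWb using hSch
  refine le_trans ?_ hUw'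
  have h5 : S.ncard * s.card = (S ×ˢ (s : Set (AdjoinRoot h))).ncard := by
    rw [Set.ncard_prod, Set.ncard_coe_finset]
  rw [h5]
  refine Set.ncard_le_ncard_of_injOn (fun p : Matrix (Jx g) (Jx g) k × AdjoinRoot h =>
    fun i => p.2 * W p.1 i) ?_ ?_ hTfin
  · rintro ⟨b, β⟩ ⟨hb, hβ⟩
    intro i j
    rw [hB]
    have h6 : β * W b i * (β * W b j) = β ^ 2 * (W b i * W b j) := by ring
    change c * tau hm (β * W b i * (β * W b j)) = _
    rw [h6, hs β hβ, one_mul]
    exact hWT b hb i j
  · rintro ⟨b, β⟩ ⟨hb, hβ⟩ ⟨b', β'⟩ ⟨hb', hβ'⟩ heq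
    have heq' : ∀ i, β * W b i = β' * W b' i := fun i => congrFun heq i
    have h7 : ∀ (b : Matrix (Jx g) (Jx g) k) (β : AdjoinRoot h), b ∈ S → β ∈ s → ∀ i j,
        c * tau hm (AdjoinRoot.root h * (β * W b i) * (β * W b j)) = b i j := by
      intro b β hb hβ i j
      have h8 : AdjoinRoot.root h * (β * W b i) * (β * W b j) =
          β ^ 2 * (AdjoinRoot.root h * W b i * W b j) := by ring
      rw [h8, hs β hβ, one_mul]
      exact hWb b hb i j
    have hbb : b = b' := by
      ext i j
      rw [← h7 b β hb hβ i j, ← h7 b' β' hb' hβ' i j, heq' i, heq' j]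
    subst hbb
    have h9 : β - β' = 0 := by
      refine hspan (W b) (hWT b hb) _ fun i => ?_
      rw [sub_mul, heq' i, sub_self]
    rw [sub_eq_zero.1 h9]

end Pool.Agent.Helper3.EV
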