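import Pool.Agent.Helper3.EV.StU

/-!
# EV module Uj: orbit count
-/

set_option autoImplicit false

namespace Pool.Agent.Helper3.EV

open Polynomial Finset Filter Topology Matrix IsDedekindDomain
open Pool.Agent.Helper3.HY (co tau)
open Pool.Agent.Helper54.HQ (Prm pz factPrm fK RR LL algRL th kp red Bf Smooth NearOne LocSq Weak Fam qS)

theorem one_mem_Uni_Uj (g : ℕ) (m : Fin (g + 1) → ℕ) : (1 : Matrix (Jx g) (Jx g) ℤ) ∈ Uni g m :=
  ⟨fun i => Matrix.one_apply_eq i, fun _ _ h => Or.inl (Matrix.one_apply_ne h)⟩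

theorem act_one_Uj {g : ℕ} (p : Pr g) : act 1 p = p := by
  unfold act
  rw [Matrix.transpose_one, Matrix.one_mul, Matrix.mul_one, Matrix.one_mul, Matrix.mul_one]

theorem det_Uj {g : ℕ} {m : Fin (g + 1) → ℕ} {u : Matrix (Jx g) (Jx g) ℤ} (hu : u ∈ Uni g m) :
    u.det = 1 := by
  have h1 : u.BlockTriangular id := by
    intro i j hij
    change j < i at hij
    rcases hu.2 i j hij.ne' with h | h
    · exact h
    · exact absurd h.1 (not_lt.2 hij.le)
  rw [Matrix.det_of_isUpperTriangular h1]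
  exact Finset.prod_eq_one fun i _ => hu.1 i

theorem hUj (h1 : StUa) (h2 : StUd) (h3 : StUe) (h4 : StUq) : StUj := by
  intro g hg m hm W W' hW' hW hact
  have hWfin : W.Finite := hW'.subset fun p hp => by
    have := hact p hp 1 (one_mem_Uni_Uj g m)
    rwa [act_one_Uj] at this
  have hex : ∀ f : ℤ[X], f ∈ {f : ℤ[X] | Irreducible (fK f) ∧ ∃ p ∈ W, IsChi p f} →
      ∃ p : Pr g, p ∈ W ∧ IsChi p f := fun f hf => hf.2
  choose! b hb hbf using hex
  obtain ⟨s, hs, hcard⟩ := h1 g m hm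
  refine ⟨?_, ?_⟩
  · refine Set.Finite.of_injOn (f := b) (fun f hf => hb f hf) ?_ hWfin
    intro f hf f' hf' he
    exact h4 g (b f) f f' (hW _ (hb f hf)).2.2 (hbf f hf) (he ▸ hbf f' hf')
  · have hle : ({f : ℤ[X] | Irreducible (fK f) ∧ ∃ p ∈ W, IsChi p f} ×ˢ
        (s : Set (Matrix (Jx g) (Jx g) ℤ))).ncard ≤ W'.ncard := by
      refine Set.ncard_le_ncard_of_injOn (fun p => act p.2 (b p.1)) ?_ ?_ hW'
      · rintro ⟨f, u⟩ ⟨hf, hu⟩
        exact hact (b f) (hb f hf) u (hs u hu)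
      · rintro ⟨f, u⟩ ⟨hf, hu⟩ ⟨f', u'⟩ ⟨hf', hu'⟩ he
        simp only at hf hu hf' hu' he
        have e1 := (h2 g 0 0 m le_rfl le_rfl ∅ (b f) u (hs u hu)).2.2.2 f (hbf f hf)
        have e2 := (h2 g 0 0 m le_rfl le_rfl ∅ (b f') u' (hs u' hu')).2.2.2 f' (hbf f' hf')
        have e3 : f = f' := by
          refine h4 g (act u (b f)) f f' ?_ e1 (he ▸ e2)
          have hd := (hW _ (hb f hf)).2.2
          have hu2 : IsUnit (uᵀ * (b f).1 * u).det := by
            rw [Matrix.det_mul, Matrix.det_mul, Matrix.det_transpose, det_Uj (hs u hu), one_mul,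
              mul_one]
            exact hd
          exact hu2
        subst e3
        have e4 := h3 g hg m (b f) f u u' (hW _ (hb f hf)).1 (hW _ (hb f hf)).2.1
          (hW _ (hb f hf)).2.2 (hbf f hf) hf.1 (hs u hu) (hs u' hu') he
        rw [e4]
    rw [Set.ncard_prod, Set.ncard_coe_finset] at hle
    exact (Nat.mul_le_mul_left _ hcard).trans hle

end Pool.Agent.Helper3.EV
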