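import Pool.Agent.Helper3.EV.StU

/-!
# EV, module Uk: one type in the main region
-/

set_option autoImplicit false

namespace Pool.Agent.Helper3.EV

open Polynomial Finset Filter Topology Matrix IsDedekindDomain
open Pool.Agent.Helper3.HY (co tau)
open Pool.Agent.Helper54.HQ (Prm pz factPrm fK RR LL algRL th kp red Bf Smooth NearOne LocSq Weak Fam qS)

theorem hUk (hUj : StUj) (hUd : StUd) (hUf : StUf) (hUh : StUh) (hUb : StUb) : StUk := by
  intro g hg C hC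
  have hC' : (0 : ℝ) ≤ (2 * g + 2) ^ 2 * C := by positivity
  refine ⟨(2 * ((2 * g + 2) ^ 2 * C) + 1) ^ (2 * ((g + 1) * (2 * g + 3))), by positivity, ?_⟩
  intro H m hm T hT hH
  have hH1 : 1 ≤ H := by
    refine le_trans ?_ (hH ⟨0, by omega⟩)
    refine Nat.succ_le_of_lt (Nat.mul_pos (Finset.prod_pos fun P _ => P.2.pos) (by positivity))
  have hsub : BadM g C H m T ⊆
      {f : ℤ[X] | Irreducible (fK f) ∧ ∃ p ∈ PB g C (H : ℝ) m T, IsChi p f} := by
    rintro f ⟨-, -, hf, p, hp, hl, hχ⟩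
    exact ⟨hf, p, ⟨hp, hl⟩, hχ⟩
  have hfin : (PB g ((2 * g + 2) ^ 2 * C) (H : ℝ) m T).Finite :=
    (hUf g _ H m hC' hH1).1.subset fun p hp => hp.1
  obtain ⟨h6, h7⟩ := hUj g hg m hm (PB g C (H : ℝ) m T) (PB g ((2 * g + 2) ^ 2 * C) (H : ℝ) m T) hfin
    (fun p hp => ⟨hp.1.symB, hp.1.symA, hp.1.det⟩) (fun p hp u hu => by
      obtain ⟨k1, k2, -, -⟩ := hUd g C (H : ℝ) m hC (Nat.cast_nonneg H) T p u hu
      exact ⟨k1 hp.1, k2 hp.2⟩)
  refine ⟨h6.subset hsub, ?_⟩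
  have h8 := hUh g hg _ H m hC' hm T hT hH
  have h9 : ((BadM g C H m T).ncard : ℝ) * 2 ^ ups g m ≤
      ((PB g ((2 * g + 2) ^ 2 * C) (H : ℝ) m T).ncard : ℝ) := by
    have h10 : (BadM g C H m T).ncard * 2 ^ ups g m ≤
        (PB g ((2 * g + 2) ^ 2 * C) (H : ℝ) m T).ncard :=
      (Nat.mul_le_mul_right _ (Set.ncard_le_ncard hsub h6)).trans h7
    exact_mod_cast h10
  have h11 := h9.trans h8
  rw [hUb g m hm, pow_add] at h11
  have hpos : (0 : ℝ) < 2 ^ sB g m := by positivity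
  refine le_of_mul_le_mul_right ?_ hpos
  calc ((BadM g C H m T).ncard : ℝ) * 2 ^ rho2 g m * 2 ^ sB g m
      = ((BadM g C H m T).ncard : ℝ) * (2 ^ sB g m * 2 ^ rho2 g m) := by ring
    _ ≤ _ := h11
    _ = _ := by ring

end Pool.Agent.Helper3.EV
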