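import Pool.Agent.Helper3.EV.StU
import Pool.Agent.Helper3.HY.M_Um

/-!
# EV: Um, the bad set (summation over the types)
-/

set_option autoImplicit false

namespace Pool.Agent.Helper3.EV

open Polynomial Finset Filter Topology Matrix IsDedekindDomain
open Pool.Agent.Helper3.HY (co tau)
open Pool.Agent.Helper54.HQ (Prm pz factPrm fK RR LL algRL th kp red Bf Smooth NearOne LocSq Weak Fam qS)
open Pool.Agent.Helper3

/-- admissible types are bounded -/
private lemma adm_le_Um {g d : ℕ} {m : Fin (g + 1) → ℕ} (h : Adm g d m) (i : Fin (g + 1)) :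
    m i ≤ (g + 1) * d := by
  obtain ⟨⟨_, h2, h3⟩, _⟩ := h
  have key : ∀ k : ℕ, ∀ i : Fin (g + 1), (i : ℕ) + k = g → m i ≤ (k + 1) * d := by
    intro k
    induction k with
    | zero =>
      intro i hi
      have := h2 i (by omega)
      omega
    | succ k ih =>
      intro i hi
      have h4 := ih ⟨i + 1, by omega⟩ (by simp only; omega)
      have h5 := h3 i ⟨i + 1, by omega⟩ rfl
      calc m i ≤ m ⟨i + 1, by omega⟩ + d := h5
        _ ≤ (k + 1) * d + d := by omega
        _ = (k + 1 + 1) * d := by ring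
  have h4 := key (g - i) i (by omega)
  refine h4.trans (Nat.mul_le_mul_right _ (by omega))

private lemma rho2_ge_Um {g : ℕ} (hg : 1 ≤ g) (m : Fin (g + 1) → ℕ) (hm : Antitone m) :
    ∑ i, m i ≤ rho2 g m := by
  unfold rho2
  rw [Fin.sum_univ_castSucc, Fin.sum_univ_castSucc]
  have h1 : ∑ i : Fin g, (m (Fin.castSucc i) + m (Fin.castSucc i)) ≤
      ∑ i : Fin g, 2 * (g - ((Fin.castSucc i : Fin (g + 1)) : ℕ)) * m (Fin.castSucc i) := by
    apply Finset.sum_le_sum
    intro i _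
    have h2 : 2 ≤ 2 * (g - ((Fin.castSucc i : Fin (g + 1)) : ℕ)) := by
      simp only [Fin.val_castSucc]
      omega
    calc m (Fin.castSucc i) + m (Fin.castSucc i) = 2 * m (Fin.castSucc i) := by ring
      _ ≤ _ := Nat.mul_le_mul_right _ h2
  rw [Finset.sum_add_distrib] at h1
  have h3 : m (Fin.last g) ≤ ∑ i : Fin g, m (Fin.castSucc i) := by
    have h4 : m (Fin.castSucc (⟨0, by omega⟩ : Fin g)) ≤ ∑ i : Fin g, m (Fin.castSucc i) :=
      Finset.single_le_sum (f := fun i : Fin g => m (Fin.castSucc i))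
        (fun i _ => Nat.zero_le _) (Finset.mem_univ _)
    exact (hm (Fin.le_last _)).trans h4
  omega

theorem hUm (hUk : StUk) (hUl : StUl) : StU := by
  classical
  intro g hg C κ hC
  obtain ⟨K₁, hK₁, hUk⟩ := hUk g hg C hC
  obtain ⟨K₂, hK₂, hUl⟩ := hUl g hg C κ hC
  refine ⟨K₁ * 2 ^ (g + 1), by positivity, ?_⟩
  intro T hT ε hε
  set M : ℕ := ∏ P ∈ T, (P : ℕ) with hM
  set X : ℝ := (1 / 2) ^ T.card * ∏ P ∈ T, dens g P with hX
  have hX0 : 0 ≤ X := by
    rw [hX]
    apply mul_nonneg (by positivity)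
    apply Finset.prod_nonneg
    intro P _
    unfold dens
    positivity
  have hx0 : (0 : ℝ) ≤ 1 / 2 := by norm_num
  have hMs : M < 2 ^ M := Nat.lt_two_pow_self
  have hlog : Tendsto (fun H : ℕ => Nat.log 2 H + κ) atTop atTop := by
    rw [tendsto_atTop]
    intro b
    filter_upwards [eventually_ge_atTop (2 ^ b)] with H hH
    exact (Nat.le_log_of_pow_le (by norm_num) hH).trans (Nat.le_add_right _ _)
  have hlim := ((HY.UmAux.lim_aux hx0 le_rfl (g + 1) (M + κ) K₂ hK₂.le).comp hlog).eventually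
    (gt_mem_nhds hε)
  filter_upwards [hlim, eventually_ge_atTop 1] with H hd hH1
  simp only [Function.comp] at hd
  have hsub' : Nat.log 2 H + κ + 1 - (M + κ) = Nat.log 2 H + 1 - M := by omega
  rw [hsub'] at hd
  set d : ℕ := Nat.log 2 H + κ with hdd
  set W : ℝ := (H : ℝ) ^ ((g + 1) * (2 * g + 3)) with hW
  have hW0 : 0 < W := by
    have : (0 : ℝ) < H := by exact_mod_cast hH1
    positivity
  set A : Finset (Fin (g + 1) → ℕ) :=
    (Fintype.piFinset fun _ : Fin (g + 1) => Finset.range ((g + 1) * d + 1)).filter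
      (fun m => Adm g d m)
    with hA
  have hAmem : ∀ m, Adm g d m → m ∈ A := by
    intro m hm
    refine Finset.mem_filter.2 ⟨Fintype.mem_piFinset.2 fun i => ?_, hm⟩
    rw [Finset.mem_range]
    have := adm_le_Um hm i
    omega
  have hsub : BadSet g C κ H T ⊆ ⋃ m ∈ A, BadM g C H m T := by
    rintro f ⟨m, hm, hb⟩
    rw [Set.mem_iUnion₂]
    exact ⟨m, hAmem m hm, hb⟩
  have hfin : (⋃ m ∈ A, BadM g C H m T).Finite := by
    apply Set.Finite.biUnion A.finite_toSet
    intro m hm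
    exact (hUl H hH1 m (Finset.mem_filter.1 hm).2 T).1
  refine ⟨hfin.subset hsub, ?_⟩
  have hcard1 : ((BadSet g C κ H T).ncard : ℝ) ≤ ∑ m ∈ A, ((BadM g C H m T).ncard : ℝ) := by
    have h3 := (Set.ncard_le_ncard hsub hfin).trans
      (Finset.set_ncard_biUnion_le A fun m => BadM g C H m T)
    exact_mod_cast h3
  -- each type
  have heach : ∀ m ∈ A, ((BadM g C H m T).ncard : ℝ) ≤
      K₁ * W * X * (1 / 2) ^ (∑ i, m i) + K₂ * W * (1 / 2) ^ ((Nat.log 2 H + 1 - M) / 2) := by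
    intro m hm
    have hadm : Adm g d m := (Finset.mem_filter.1 hm).2
    have hanti : Antitone m := hadm.1.1
    by_cases hmain : ∀ i : Fin (g + 1), M * 2 ^ (2 * m i) ≤ H
    · have h3 := (hUk H m hanti T hT hmain).2
      rw [← hW, ← hX] at h3
      have h4 : ((BadM g C H m T).ncard : ℝ) * 2 ^ (∑ i, m i) ≤ K₁ * W * X := by
        refine le_trans ?_ h3
        apply mul_le_mul_of_nonneg_left _ (Nat.cast_nonneg _)
        exact pow_le_pow_right₀ (by norm_num) (rho2_ge_Um hg m hanti)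
      have h5 : ((BadM g C H m T).ncard : ℝ) ≤ K₁ * W * X * (1 / 2) ^ (∑ i, m i) := by
        rw [one_div, inv_pow, ← div_eq_mul_inv, le_div_iff₀ (by positivity)]
        exact h4
      have h6 : 0 ≤ K₂ * W * (1 / 2) ^ ((Nat.log 2 H + 1 - M) / 2) := by positivity
      linarith
    · push Not at hmain
      obtain ⟨i, hi⟩ := hmain
      have h3 := (hUl H hH1 m hadm T).2
      rw [← hW] at h3
      have h4 : m i ≤ m 0 := hanti (Fin.zero_le _)
      have h7 : Nat.log 2 H < M + 2 * m 0 := by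
        apply Nat.log_lt_of_lt_pow (by omega)
        calc H < M * 2 ^ (2 * m i) := hi
          _ ≤ 2 ^ M * 2 ^ (2 * m 0) := by
              apply Nat.mul_le_mul hMs.le
              exact Nat.pow_le_pow_right (by norm_num) (by omega)
          _ = 2 ^ (M + 2 * m 0) := by rw [pow_add]
      have h5 : (Nat.log 2 H + 1 - M) / 2 ≤ min ((Nat.log 2 H + κ + 1) / 2) (m 0) := by
        rw [le_min_iff]
        constructor <;> omega
      have h6 : ((BadM g C H m T).ncard : ℝ) * 2 ^ ((Nat.log 2 H + 1 - M) / 2) ≤ K₂ * W := by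
        refine le_trans ?_ h3
        apply mul_le_mul_of_nonneg_left _ (Nat.cast_nonneg _)
        exact pow_le_pow_right₀ (by norm_num) h5
      have h8 : ((BadM g C H m T).ncard : ℝ) ≤
          K₂ * W * (1 / 2) ^ ((Nat.log 2 H + 1 - M) / 2) := by
        rw [one_div, inv_pow, ← div_eq_mul_inv, le_div_iff₀ (by positivity)]
        exact h6
      have h9 : 0 ≤ K₁ * W * X * (1 / 2) ^ (∑ i, m i) := by positivity
      linarith
  -- the sum
  have hsum1 : ∑ m ∈ A, (1 / 2 : ℝ) ^ (∑ i, m i) ≤ 2 ^ (g + 1) := by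
    refine le_trans ?_ (HY.UmAux.sum_types_le hx0 le_rfl (g + 1) ((g + 1) * d + 1))
    apply Finset.sum_le_sum_of_subset_of_nonneg (Finset.filter_subset _ _)
    intro m _ _
    positivity
  have hAcard : (A.card : ℝ) ≤ (((g + 1) * d + 1 : ℕ) : ℝ) ^ (g + 1) := by
    have h3 : A.card ≤ ((g + 1) * d + 1) ^ (g + 1) := by
      refine (Finset.card_filter_le _ _).trans ?_
      rw [Fintype.card_piFinset]
      simp
    exact_mod_cast h3
  refine (hcard1.trans (Finset.sum_le_sum heach)).trans ?_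
  rw [Finset.sum_add_distrib, ← Finset.mul_sum, Finset.sum_const, nsmul_eq_mul]
  have h3 : K₁ * W * X * ∑ m ∈ A, (1 / 2 : ℝ) ^ (∑ i, m i) ≤ K₁ * W * X * 2 ^ (g + 1) :=
    mul_le_mul_of_nonneg_left hsum1 (by positivity)
  have h4 : (A.card : ℝ) * (K₂ * W * (1 / 2) ^ ((Nat.log 2 H + 1 - M) / 2)) ≤
      (((g + 1) * d + 1 : ℕ) : ℝ) ^ (g + 1) *
        (K₂ * W * (1 / 2) ^ ((Nat.log 2 H + 1 - M) / 2)) :=
    mul_le_mul_of_nonneg_right hAcard (by positivity)
  have h5 : (((g + 1) * d + 1 : ℕ) : ℝ) ^ (g + 1) *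
      (K₂ * W * (1 / 2) ^ ((Nat.log 2 H + 1 - M) / 2)) ≤ W * ε := by
    have h6 : (((g + 1) * d + 1 : ℕ) : ℝ) ^ (g + 1) *
        (K₂ * W * (1 / 2) ^ ((Nat.log 2 H + 1 - M) / 2)) =
        W * ((((g + 1) * d + 1 : ℕ) : ℝ) ^ (g + 1) * K₂ *
          (1 / 2) ^ ((Nat.log 2 H + 1 - M) / 2)) := by ring
    rw [h6]
    exact mul_le_mul_of_nonneg_left hd.le hW0.le
  have h6 : (K₁ * 2 ^ (g + 1) * X + ε) * W = K₁ * W * X * 2 ^ (g + 1) + W * ε := by ring
  rw [h6]
  linarith

end Pool.Agent.Helper3.EV
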