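import Pool.Agent.Helper3.EV.StU

/-!
# EV, module Un: the inequality in the deep cusp
-/

set_option autoImplicit false

namespace Pool.Agent.Helper3.EV

open Finset

/-- `m` extended by zero. -/
private def xx (g : ℕ) (m : Fin (g + 1) → ℕ) (i : ℕ) : ℤ :=
  if h : i ≤ g then (m ⟨i, by omega⟩ : ℤ) else 0

private lemma cnt1 (c : ℤ) (i g : ℕ) (h : i ≤ g) :
    ∑ k ∈ range g, (if i ≤ k then c else 0) = ((g : ℤ) - i) * c := by
  induction g, h using Nat.le_induction with
  | base =>
    rw [sum_eq_zero, sub_self, zero_mul]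
    intro k hk
    rw [if_neg (not_le.2 (mem_range.1 hk))]
  | succ n hn ih =>
    rw [sum_range_succ, ih, if_pos hn]
    push_cast
    ring

private lemma cnt2 (c : ℤ) (k g : ℕ) (h : k < g) :
    ∑ i ∈ range g, (if i ≤ k then c else 0) = ((k : ℤ) + 1) * c := by
  induction g, h using Nat.le_induction with
  | base =>
    rw [sum_congr rfl (g := fun _ => c), sum_const, card_range, nsmul_eq_mul]
    · push_cast; ring
    · intro i hi
      rw [if_pos (Nat.lt_succ_iff.1 (mem_range.1 hi))]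
  | succ n hn ih =>
    rw [sum_range_succ, ih, if_neg (by omega), add_zero]

private lemma sym_sum (n : ℕ) (x : ℕ → ℤ) (d : ℤ) :
    2 * ∑ a ∈ range n, ∑ b ∈ range n, (if b ≤ a then d + x a + x b else 0) =
      (n : ℤ) * (n + 1) * d + 2 * (n + 1) * ∑ a ∈ range n, x a := by
  have h1 : ∑ a ∈ range n, ∑ b ∈ range n, (if b ≤ a then d + x a + x b else 0) =
      ∑ a ∈ range n, ∑ b ∈ range n, (if a ≤ b then d + x a + x b else 0) := by
    rw [sum_comm]
    refine sum_congr rfl fun a _ => sum_congr rfl fun b _ => ?_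
    split_ifs <;> ring
  have h2 : 2 * ∑ a ∈ range n, ∑ b ∈ range n, (if b ≤ a then d + x a + x b else 0) =
      ∑ a ∈ range n, (∑ b ∈ range n, (d + x a + x b) + (d + 2 * x a)) := by
    rw [two_mul]
    nth_rewrite 2 [h1]
    rw [← sum_add_distrib]
    refine sum_congr rfl fun a ha => ?_
    rw [← sum_add_distrib]
    have h3 : ∀ b ∈ range n, ((if b ≤ a then d + x a + x b else 0) +
        (if a ≤ b then d + x a + x b else 0)) =
        (d + x a + x b) + (if a = b then d + x a + x b else 0) := by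
      intro b _
      rcases lt_trichotomy a b with h | h | h
      · rw [if_neg (by omega), if_pos h.le, if_neg (by omega)]; ring
      · rw [if_pos (by omega), if_pos (by omega), if_pos h]
      · rw [if_pos h.le, if_neg (by omega), if_neg (by omega)]
    rw [sum_congr rfl h3, sum_add_distrib, sum_ite_eq, if_pos ha]
    ring
  rw [h2, sum_add_distrib]
  simp only [sum_add_distrib, sum_const, card_range, nsmul_eq_mul, ← mul_sum]
  ring

/-- `ν` as a function on the natural numbers -/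
private def nn (g : ℕ) (m : Fin (g + 1) → ℕ) (i : ℕ) : ℤ :=
  if i ≤ g then -xx g m i else xx g m (2 * g + 1 - i)

private lemma nu_nn (g : ℕ) (m : Fin (g + 1) → ℕ) (i : Jx g) : nu g m i = nn g m i.1 := by
  unfold nu nn xx
  by_cases h : i.1 ≤ g
  · rw [dif_pos h, if_pos h, dif_pos h]
  · rw [dif_neg h, if_neg h, dif_pos (by omega)]

private lemma sD_eq (g d : ℕ) (m : Fin (g + 1) → ℕ) : ((sD g d m : ℕ) : ℤ) =
    ∑ i ∈ range (2 * g + 2), ∑ j ∈ range (2 * g + 2),
      if i ≤ j ∧ ¬ (i < g ∧ j ≤ g) then max 0 ((d : ℤ) + nn g m i + nn g m j) else 0 := by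
  rw [Finset.sum_range, sD, Nat.cast_sum, Fintype.sum_prod_type]
  refine sum_congr rfl fun i _ => ?_
  rw [Finset.sum_range]
  refine sum_congr rfl fun j _ => ?_
  rw [← nu_nn g m i, ← nu_nn g m j]
  by_cases hij : i ≤ j ∧ ¬ ((i : ℕ) < g ∧ (j : ℕ) ≤ g)
  · rw [if_pos hij, if_pos ⟨Fin.le_def.1 hij.1, hij.2⟩, Int.ofNat_toNat]
    dsimp only
    omega
  · rw [if_neg hij, if_neg (fun h => hij ⟨Fin.le_def.2 h.1, h.2⟩), Nat.cast_zero]

private lemma nn_up {g : ℕ} (m : Fin (g + 1) → ℕ) (t : ℕ) :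
    nn g m (g + 1 + t) = xx g m (g - t) := by
  unfold nn
  rw [if_neg (by omega)]
  congr 1
  omega

private lemma nn_lo {g : ℕ} (m : Fin (g + 1) → ℕ) (t : ℕ) (ht : t ≤ g) :
    nn g m t = -xx g m t := by
  unfold nn
  rw [if_pos ht]

/-- the rows `i < g` -/
private lemma row_lo {g : ℕ} (d : ℕ) (m : Fin (g + 1) → ℕ) (i : ℕ) (hi : i < g) :
    ∑ j ∈ range (2 * g + 2),
      (if i ≤ j ∧ ¬ (i < g ∧ j ≤ g) then max 0 ((d : ℤ) + nn g m i + nn g m j) else 0) =
    ∑ k ∈ range (g + 1), max 0 ((d : ℤ) - xx g m i + xx g m k) := by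
  have e1 : 2 * g + 2 = (g + 1) + (g + 1) := by omega
  rw [e1, sum_range_add]
  have h1 : ∑ x ∈ range (g + 1), (if i ≤ x ∧ ¬ (i < g ∧ x ≤ g) then
      max 0 ((d : ℤ) + nn g m i + nn g m x) else 0) = 0 := by
    refine sum_eq_zero fun x hx => ?_
    rw [if_neg]
    rintro ⟨_, h2⟩
    exact h2 ⟨hi, Nat.lt_succ_iff.1 (mem_range.1 hx)⟩
  rw [h1, zero_add, ← sum_range_reflect (fun k => max 0 ((d : ℤ) - xx g m i + xx g m k))]
  refine sum_congr rfl fun t ht => ?_
  have ht := mem_range.1 ht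
  rw [if_pos ⟨by omega, by omega⟩, nn_up m t, nn_lo m i hi.le]
  have h2 : g + 1 - 1 - t = g - t := by omega
  rw [h2]
  congr 1

/-- the row `g` -/
private lemma row_mid {g : ℕ} (d : ℕ) (m : Fin (g + 1) → ℕ) :
    ∑ j ∈ range (2 * g + 2),
      (if g ≤ j ∧ ¬ (g < g ∧ j ≤ g) then max 0 ((d : ℤ) + nn g m g + nn g m j) else 0) =
    max 0 ((d : ℤ) - 2 * xx g m g) +
      ∑ k ∈ range (g + 1), max 0 ((d : ℤ) - xx g m g + xx g m k) := by
  have e1 : 2 * g + 2 = (g + 1) + (g + 1) := by omega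
  rw [e1, sum_range_add, sum_range_succ]
  have h1 : ∑ x ∈ range g, (if g ≤ x ∧ ¬ (g < g ∧ x ≤ g) then
      max 0 ((d : ℤ) + nn g m g + nn g m x) else 0) = 0 := by
    refine sum_eq_zero fun x hx => ?_
    have := mem_range.1 hx
    rw [if_neg]
    rintro ⟨h2, _⟩
    omega
  rw [h1, zero_add, if_pos ⟨le_rfl, by omega⟩, nn_lo m g le_rfl,
    ← sum_range_reflect (fun k => max 0 ((d : ℤ) - xx g m g + xx g m k))]
  congr 1
  · congr 1
    ring
  · refine sum_congr rfl fun t ht => ?_
    have ht := mem_range.1 ht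
    rw [if_pos ⟨by omega, by omega⟩, nn_up m t]
    have h2 : g + 1 - 1 - t = g - t := by omega
    rw [h2]
    congr 1

/-- the rows `g + 1 + s` -/
private lemma row_hi {g : ℕ} (d : ℕ) (m : Fin (g + 1) → ℕ) (s : ℕ) (hs : s ≤ g) :
    ∑ j ∈ range (2 * g + 2),
      (if g + 1 + s ≤ j ∧ ¬ (g + 1 + s < g ∧ j ≤ g) then
        max 0 ((d : ℤ) + nn g m (g + 1 + s) + nn g m j) else 0) =
    ∑ b ∈ range (g + 1), (if b ≤ g - s then (d : ℤ) + xx g m (g - s) + xx g m b else 0) := by
  have hge : ∀ i, 0 ≤ xx g m i := by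
    intro i
    unfold xx
    split_ifs
    · exact Int.natCast_nonneg _
    · exact le_rfl
  have e1 : 2 * g + 2 = (g + 1) + (g + 1) := by omega
  rw [e1, sum_range_add]
  have h1 : ∑ x ∈ range (g + 1), (if g + 1 + s ≤ x ∧ ¬ (g + 1 + s < g ∧ x ≤ g) then
      max 0 ((d : ℤ) + nn g m (g + 1 + s) + nn g m x) else 0) = 0 := by
    refine sum_eq_zero fun x hx => ?_
    have := mem_range.1 hx
    rw [if_neg]
    rintro ⟨h2, _⟩
    omega
  rw [h1, zero_add, ← sum_range_reflect
    (fun b => if b ≤ g - s then (d : ℤ) + xx g m (g - s) + xx g m b else 0)]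
  refine sum_congr rfl fun t ht => ?_
  have ht := mem_range.1 ht
  have h2 : g + 1 - 1 - t = g - t := by omega
  rw [h2]
  by_cases hst : s ≤ t
  · rw [if_pos ⟨by omega, by omega⟩, if_pos (by omega), nn_up m t, nn_up m s]
    have h3 := hge (g - s)
    have h4 := hge (g - t)
    rw [max_eq_right (by omega)]
  · rw [if_neg (by omega), if_neg (by omega)]

theorem hUn : StUn := by
  intro g d hg m hadm
  obtain ⟨hanti, hlast, hstep⟩ := hadm
  set x : ℕ → ℤ := xx g m with hx
  have hxe : ∀ (i : ℕ) (h : i ≤ g), x i = m ⟨i, by omega⟩ := by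
    intro i h
    rw [hx]
    unfold xx
    rw [dif_pos h]
  have hxm : ∀ i : Fin (g + 1), x i = m i := fun i => hxe i (Nat.lt_succ_iff.1 i.2)
  have hx_anti : ∀ i j : ℕ, i ≤ j → j ≤ g → x j ≤ x i := by
    intro i j hij hj
    rw [hxe j hj, hxe i (hij.trans hj)]
    exact_mod_cast hanti (by rw [Fin.le_def]; exact hij)
  have hx_step : ∀ k : ℕ, k < g → x k ≤ x (k + 1) + d := by
    intro k hk
    rw [hxe k hk.le, hxe (k + 1) hk]
    exact_mod_cast hstep ⟨k, by omega⟩ ⟨k + 1, by omega⟩ rfl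
  have hxl : 2 * x g ≤ d := by
    rw [hxe g le_rfl]
    exact_mod_cast hlast ⟨g, by omega⟩ rfl
  -- the sums
  have hX : ∑ i : Fin (g + 1), (m i : ℤ) = ∑ i ∈ range g, x i + x g := by
    rw [← sum_range_succ, Finset.sum_range]
    exact sum_congr rfl fun i _ => (hxm i).symm
  have hR : ((rho2 g m : ℕ) : ℤ) = 2 * g * ∑ i ∈ range g, x i -
      2 * ∑ i ∈ range g, (i : ℤ) * x i := by
    have h1 : ((rho2 g m : ℕ) : ℤ) = ∑ i ∈ range (g + 1), 2 * ((g : ℤ) - i) * x i := by
      rw [rho2, Nat.cast_sum, Finset.sum_range]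
      refine sum_congr rfl fun i _ => ?_
      rw [hxm i, Nat.cast_mul, Nat.cast_mul, Nat.cast_sub (by have := i.2; omega)]
      push_cast
      ring
    rw [h1, sum_range_succ, sub_self, mul_zero, zero_mul, add_zero, mul_sum, mul_sum,
      ← sum_sub_distrib]
    refine sum_congr rfl fun i _ => ?_
    ring
  -- rows
  have hrow : ∀ i ∈ range g, ∑ k ∈ range (g + 1), max 0 ((d : ℤ) - x i + x k) ≤
      ∑ k ∈ range (g + 1), ((d : ℤ) - x i + x k) +
        ∑ k ∈ range g, (if i ≤ k then x i - x k else 0) := by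
    intro i hi
    have hi := mem_range.1 hi
    have h1 : ∑ k ∈ range (g + 1), (if i < k then x i - x (k - 1) else 0) =
        ∑ k ∈ range g, (if i ≤ k then x i - x k else 0) := by
      rw [sum_range_succ', if_neg (by omega), add_zero]
      refine sum_congr rfl fun k _ => ?_
      by_cases h : i ≤ k
      · rw [if_pos (by omega), if_pos h, Nat.add_sub_cancel]
      · rw [if_neg (by omega), if_neg h]
    rw [← h1, ← sum_add_distrib]
    refine sum_le_sum fun k hk => ?_
    have hk := mem_range.1 hk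
    by_cases h : i < k
    · rw [if_pos h]
      have h2 := hx_step (k - 1) (by omega)
      rw [show k - 1 + 1 = k by omega] at h2
      have h3 := hx_anti i (k - 1) (by omega) (by omega)
      have h4 := hx_anti (k - 1) k (by omega) (by omega)
      rcases le_total 0 ((d : ℤ) - x i + x k) with h5 | h5
      · rw [max_eq_right h5]; omega
      · rw [max_eq_left h5]; omega
    · rw [if_neg h, add_zero]
      have h3 := hx_anti k i (by omega) (by omega)
      rw [max_eq_right (by omega)]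
  have hmid : max 0 ((d : ℤ) - 2 * x g) + ∑ k ∈ range (g + 1), max 0 ((d : ℤ) - x g + x k) =
      (g + 2) * d - (g + 2) * x g + ∑ k ∈ range g, x k := by
    have h1 : ∀ k ∈ range (g + 1), max 0 ((d : ℤ) - x g + x k) = (d : ℤ) - x g + x k := by
      intro k hk
      have hk := mem_range.1 hk
      have h3 := hx_anti k g (by omega) le_rfl
      exact max_eq_right (by omega)
    rw [max_eq_right (by omega), sum_congr rfl h1]
    simp only [sum_add_distrib, sum_sub_distrib, sum_const, card_range, nsmul_eq_mul]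
    rw [sum_range_succ]
    push_cast
    ring
  have hD : ∑ i ∈ range g, ∑ k ∈ range g, (if i ≤ k then x i - x k else 0) =
      (g - 1) * ∑ i ∈ range g, x i - 2 * ∑ i ∈ range g, (i : ℤ) * x i := by
    have h1 : ∑ i ∈ range g, ∑ k ∈ range g, (if i ≤ k then x i - x k else 0) =
        ∑ i ∈ range g, ∑ k ∈ range g, (if i ≤ k then x i else 0) -
          ∑ i ∈ range g, ∑ k ∈ range g, (if i ≤ k then x k else 0) := by
      rw [← sum_sub_distrib]
      refine sum_congr rfl fun i _ => ?_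
      rw [← sum_sub_distrib]
      refine sum_congr rfl fun k _ => ?_
      split_ifs <;> ring
    have h2 : ∑ i ∈ range g, ∑ k ∈ range g, (if i ≤ k then x i else 0) =
        ∑ i ∈ range g, ((g : ℤ) - i) * x i :=
      sum_congr rfl fun i hi => cnt1 _ _ _ (mem_range.1 hi).le
    have h3 : ∑ i ∈ range g, ∑ k ∈ range g, (if i ≤ k then x k else 0) =
        ∑ k ∈ range g, ((k : ℤ) + 1) * x k := by
      rw [sum_comm]
      exact sum_congr rfl fun k hk => cnt2 _ _ _ (mem_range.1 hk)
    rw [h1, h2, h3, ← sum_sub_distrib, mul_sum, mul_sum, ← sum_sub_distrib]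
    refine sum_congr rfl fun i _ => ?_
    ring
  have hlow : ∑ i ∈ range g, ∑ k ∈ range (g + 1), ((d : ℤ) - x i + x k) =
      g * (g + 1) * d - ∑ i ∈ range g, x i + g * x g := by
    simp only [sum_add_distrib, sum_sub_distrib, sum_const, card_range, nsmul_eq_mul,
      ← mul_sum]
    rw [sum_range_succ]
    push_cast
    ring
  have hhigh : 2 * ∑ s ∈ range (g + 1), ∑ b ∈ range (g + 1),
      (if b ≤ g - s then (d : ℤ) + x (g - s) + x b else 0) =
      (g + 1) * (g + 2) * d + 2 * (g + 2) * (∑ i ∈ range g, x i + x g) := by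
    have h1 : ∑ s ∈ range (g + 1), ∑ b ∈ range (g + 1),
        (if b ≤ g - s then (d : ℤ) + x (g - s) + x b else 0) =
        ∑ a ∈ range (g + 1), ∑ b ∈ range (g + 1), (if b ≤ a then (d : ℤ) + x a + x b else 0) := by
      rw [← sum_range_reflect (fun a => ∑ b ∈ range (g + 1),
        (if b ≤ a then (d : ℤ) + x a + x b else 0))]
      refine sum_congr rfl fun s _ => ?_
      have h2 : g + 1 - 1 - s = g - s := by omega
      rw [h2]
    rw [h1, sym_sum, sum_range_succ]
    push_cast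
    ring
  have hsD : ((sD g d m : ℕ) : ℤ) = ∑ i ∈ range g, ∑ k ∈ range (g + 1),
      max 0 ((d : ℤ) - x i + x k) +
      (max 0 ((d : ℤ) - 2 * x g) + ∑ k ∈ range (g + 1), max 0 ((d : ℤ) - x g + x k)) +
      ∑ s ∈ range (g + 1), ∑ b ∈ range (g + 1),
      (if b ≤ g - s then (d : ℤ) + x (g - s) + x b else 0) := by
    rw [sD_eq]
    nth_rewrite 1 [show 2 * g + 2 = (g + 1) + (g + 1) by omega]
    rw [sum_range_add, sum_range_succ]
    congr 1
    · congr 1
      · exact sum_congr rfl fun i hi => row_lo d m i (mem_range.1 hi)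
      · exact row_mid d m
    · exact sum_congr rfl fun s hs => row_hi d m s (Nat.lt_succ_iff.1 (mem_range.1 hs))
  have hle := sum_le_sum hrow
  rw [sum_add_distrib, hlow, hD] at hle
  rw [hX, hR, hsD, hmid]
  have hgd : 0 ≤ ((g : ℤ) - 1) * (d - 2 * x g) := by
    apply mul_nonneg
    · have : (1 : ℤ) ≤ g := by exact_mod_cast hg
      linarith
    · linarith
  set X : ℤ := ∑ i ∈ range g, x i
  set Y : ℤ := ∑ i ∈ range g, (i : ℤ) * x i
  set S1 : ℤ := ∑ i ∈ range g, ∑ k ∈ range (g + 1), max 0 ((d : ℤ) - x i + x k)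
  set S2 : ℤ := ∑ s ∈ range (g + 1), ∑ b ∈ range (g + 1),
      (if b ≤ g - s then (d : ℤ) + x (g - s) + x b else 0)
  nlinarith [hle, hhigh, hgd]

end Pool.Agent.Helper3.EV
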