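import Pool.Agent.Helper3.EV.StU
import Pool.Agent.Helper54.HQ.M_Uf

/-!
# EV, module Uo: the number of pairs in the deep cusp
-/

set_option autoImplicit false

namespace Pool.Agent.Helper3.EV

open Polynomial Finset Filter Topology Matrix IsDedekindDomain
open Pool.Agent.Helper54.HQ (box_Uf)

/-- The upper triangle. -/
private abbrev Ut_Uo (g : ℕ) : Type := {p : Jx g × Jx g // p.1 ≤ p.2}

private lemma sum_Uo {g : ℕ} (e : Jx g × Jx g → ℕ) :
    (∑ i : Ut_Uo g, e i.1) = ∑ p : Jx g × Jx g, if p.1 ≤ p.2 then e p else 0 := by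
  rw [← sum_filter]
  exact (sum_subtype (univ.filter fun p : Jx g × Jx g => p.1 ≤ p.2) (by simp)
    (fun p : Jx g × Jx g => e p)).symm

private lemma card_Uo (g : ℕ) : Fintype.card (Ut_Uo g) = (g + 1) * (2 * g + 3) := by
  have h1 : Fintype.card (Ut_Uo g) = ∑ _i : Ut_Uo g, 1 := by simp
  rw [h1, sum_Uo (fun _ => 1), Fintype.sum_prod_type]
  have h2 : ∀ i : Jx g, (∑ j : Jx g, if i ≤ j then 1 else 0) = 2 * g + 2 - (i : ℕ) := by
    intro i
    rw [← sum_filter, sum_const, smul_eq_mul, mul_one]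
    have h3 : (univ.filter fun j : Jx g => i ≤ j) = Finset.Ici i := by
      ext j
      simp
    rw [h3, Fin.card_Ici]
  rw [sum_congr rfl fun i _ => h2 i]
  have h4 : (∑ i : Jx g, (2 * g + 2 - (i : ℕ))) = ∑ i ∈ range (2 * g + 2), (2 * g + 2 - i) :=
    Fin.sum_univ_eq_sum_range (fun i => 2 * g + 2 - i) (2 * g + 2)
  rw [h4]
  have h5 : ∀ n : ℕ, 2 * ∑ i ∈ range n, (n - i) = n * (n + 1) := by
    intro n
    induction n with
    | zero => simp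
    | succ n ih =>
      rw [sum_range_succ', sum_congr rfl (g := fun i => n - i) (by
        intro i _
        omega)]
      rw [mul_add, ih]
      simp only [Nat.sub_zero]
      ring
  have h6 := h5 (2 * g + 2)
  have h7 : (2 * g + 2) * (2 * g + 2 + 1) = 2 * ((g + 1) * (2 * g + 3)) := by ring
  rw [h7] at h6
  exact Nat.eq_of_mul_eq_mul_left (by norm_num) h6

/-- The number of symmetric integral matrices in a box. -/
private lemma symbox_Uo {g : ℕ} (X : Ut_Uo g → ℝ) (hX : ∀ i, 0 ≤ X i) :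
    {b : Matrix (Jx g) (Jx g) ℤ | b.IsSymm ∧ ∀ p : Ut_Uo g, |((b p.1.1 p.1.2 : ℤ) : ℝ)| ≤ X p}.Finite ∧
      ({b : Matrix (Jx g) (Jx g) ℤ | b.IsSymm ∧
        ∀ p : Ut_Uo g, |((b p.1.1 p.1.2 : ℤ) : ℝ)| ≤ X p}.ncard : ℝ) ≤ ∏ i, (2 * X i + 1) := by
  set S := {b : Matrix (Jx g) (Jx g) ℤ | b.IsSymm ∧
    ∀ p : Ut_Uo g, |((b p.1.1 p.1.2 : ℤ) : ℝ)| ≤ X p} with hS
  set up : Matrix (Jx g) (Jx g) ℤ → (Ut_Uo g → ℤ) := fun b p => b p.1.1 p.1.2 with hup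
  obtain ⟨h1, h2⟩ := box_Uf X hX
  have hinj : Set.InjOn up S := by
    intro b hb c hc h
    ext i j
    rcases le_total i j with hij | hij
    · exact congrFun h ⟨(i, j), hij⟩
    · have h3 := congrFun h ⟨(j, i), hij⟩
      simp only [hup] at h3
      rw [← hb.1.apply i j, ← hc.1.apply i j]
      exact h3
  have hsub : up '' S ⊆ {x : Ut_Uo g → ℤ | ∀ i, |((x i : ℤ) : ℝ)| ≤ X i} := by
    rintro _ ⟨b, hb, rfl⟩
    exact hb.2
  refine ⟨Set.Finite.of_finite_image (h1.subset hsub) hinj, ?_⟩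
  rw [← hinj.ncard_image]
  refine le_trans ?_ h2
  exact_mod_cast Set.ncard_le_ncard hsub h1

/-- A product over the upper triangle. -/
private lemma prod_Uo {g : ℕ} (C : ℝ) (hC : 0 ≤ C) (X : Ut_Uo g → ℝ) (e : Ut_Uo g → ℤ)
    (hX : ∀ i, 0 ≤ X i) (h : ∀ i, X i ≤ C * (2 : ℝ) ^ (e i)) :
    ∏ i, (2 * X i + 1) ≤ (2 * C + 1) ^ ((g + 1) * (2 * g + 3)) * 2 ^ (∑ i, (e i).toNat) := by
  have h1 : ∀ i, 2 * X i + 1 ≤ (2 * C + 1) * 2 ^ (e i).toNat := by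
    intro i
    have h2 : (2 : ℝ) ^ (e i) ≤ 2 ^ (e i).toNat := by
      rw [← zpow_natCast]
      exact zpow_le_zpow_right₀ (by norm_num) (Int.self_le_toNat _)
    have h3 : (1 : ℝ) ≤ 2 ^ (e i).toNat := one_le_pow₀ (by norm_num)
    have h4 := h i
    have h5 : C * (2 : ℝ) ^ (e i) ≤ C * 2 ^ (e i).toNat := mul_le_mul_of_nonneg_left h2 hC
    linarith
  calc ∏ i, (2 * X i + 1) ≤ ∏ i, ((2 * C + 1) * 2 ^ (e i).toNat) :=
        Finset.prod_le_prod (fun i _ => by have := hX i; linarith) fun i _ => h1 i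
    _ = _ := by
        rw [Finset.prod_mul_distrib, Finset.prod_const, Finset.card_univ, card_Uo,
          Finset.prod_pow_eq_pow_sum]

/-- The number of pairs of symmetric integral matrices in a box. -/
private lemma pair_Uo {g : ℕ} (C : ℝ) (hC : 0 ≤ C) (X Y : Ut_Uo g → ℝ) (e f : Ut_Uo g → ℤ)
    (hX : ∀ i, 0 ≤ X i) (hY : ∀ i, 0 ≤ Y i)
    (hXe : ∀ i, X i ≤ C * (2 : ℝ) ^ (e i)) (hYf : ∀ i, Y i ≤ C * (2 : ℝ) ^ (f i))
    (S : Set (Pr g)) (hS : ∀ p ∈ S, (p.1.IsSymm ∧ ∀ q : Ut_Uo g, |((p.1 q.1.1 q.1.2 : ℤ) : ℝ)| ≤ X q) ∧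
      (p.2.IsSymm ∧ ∀ q : Ut_Uo g, |((p.2 q.1.1 q.1.2 : ℤ) : ℝ)| ≤ Y q)) :
    S.Finite ∧ (S.ncard : ℝ) ≤ (2 * C + 1) ^ (2 * ((g + 1) * (2 * g + 3))) *
      2 ^ ((∑ i, (e i).toNat) + ∑ i, (f i).toNat) := by
  obtain ⟨h1, h2⟩ := symbox_Uo X hX
  obtain ⟨h3, h4⟩ := symbox_Uo Y hY
  set A := {b : Matrix (Jx g) (Jx g) ℤ | b.IsSymm ∧
    ∀ p : Ut_Uo g, |((b p.1.1 p.1.2 : ℤ) : ℝ)| ≤ X p} with hA
  set B := {b : Matrix (Jx g) (Jx g) ℤ | b.IsSymm ∧
    ∀ p : Ut_Uo g, |((b p.1.1 p.1.2 : ℤ) : ℝ)| ≤ Y p} with hB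
  have hsub : S ⊆ A ×ˢ B := fun p hp => ⟨(hS p hp).1, (hS p hp).2⟩
  have hfin : (A ×ˢ B).Finite := h1.prod h3
  refine ⟨hfin.subset hsub, ?_⟩
  have h5 : (S.ncard : ℝ) ≤ (A.ncard : ℝ) * B.ncard := by
    have h6 := Set.ncard_le_ncard hsub hfin
    rw [Set.ncard_prod] at h6
    exact_mod_cast h6
  refine h5.trans ?_
  have h6 := h2.trans (prod_Uo C hC X e hX hXe)
  have h7 := h4.trans (prod_Uo C hC Y f hY hYf)
  calc (A.ncard : ℝ) * B.ncard ≤ ((2 * C + 1) ^ ((g + 1) * (2 * g + 3)) * 2 ^ (∑ i, (e i).toNat)) *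
        ((2 * C + 1) ^ ((g + 1) * (2 * g + 3)) * 2 ^ (∑ i, (f i).toNat)) :=
        mul_le_mul h6 h7 (Nat.cast_nonneg _) (by positivity)
    _ = _ := by
        rw [pow_add, two_mul ((g + 1) * (2 * g + 3)), pow_add]
        ring

theorem hUo (_hUf : StUf) : StUo := by
  intro g C H κ m hC hH hκ
  classical
  set d := Nat.log 2 H + κ with hd
  have hH2 : (H : ℝ) ≤ (2 : ℝ) ^ (d : ℤ) := by
    have h1 : H < 2 ^ (Nat.log 2 H).succ := Nat.lt_pow_succ_log_self (by norm_num) H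
    have h2 : (2 : ℕ) ^ (Nat.log 2 H).succ ≤ 2 ^ d :=
      Nat.pow_le_pow_right (by norm_num) (by omega)
    have h3 : (H : ℝ) ≤ ((2 ^ d : ℕ) : ℝ) := by exact_mod_cast (h1.le.trans h2)
    rw [zpow_natCast]
    push_cast at h3
    exact h3
  set f : Ut_Uo g → ℤ := fun i => if (i.1.1 : ℕ) < g ∧ (i.1.2 : ℕ) ≤ g then 0 else
    (d : ℤ) + nu g m i.1.1 + nu g m i.1.2 with hf
  have hsD : (∑ i : Ut_Uo g, (f i).toNat) = sD g d m := by
    have h1 : ∀ i : Ut_Uo g, (f i).toNat = (fun p : Jx g × Jx g =>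
        if (p.1 : ℕ) < g ∧ (p.2 : ℕ) ≤ g then 0 else
          ((d : ℤ) + nu g m p.1 + nu g m p.2).toNat) i.1 := by
      intro i
      simp only [hf]
      split_ifs <;> simp
    rw [sum_congr rfl fun i _ => h1 i, sum_Uo fun p : Jx g × Jx g =>
      if (p.1 : ℕ) < g ∧ (p.2 : ℕ) ≤ g then 0 else ((d : ℤ) + nu g m p.1 + nu g m p.2).toNat]
    unfold sD
    refine sum_congr rfl fun p _ => ?_
    by_cases h2 : p.1 ≤ p.2
    · by_cases h3 : (p.1 : ℕ) < g ∧ (p.2 : ℕ) ≤ g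
      · rw [if_pos h2, if_pos h3, if_neg (fun h => h.2 h3)]
      · rw [if_pos h2, if_neg h3, if_pos ⟨h2, h3⟩]
    · rw [if_neg h2, if_neg (fun h => h2 h.1)]
  have hsB : (∑ i : Ut_Uo g, (nu g m i.1.1 + nu g m i.1.2).toNat) = sB g m := by
    rw [sum_Uo fun p : Jx g × Jx g => (nu g m p.1 + nu g m p.2).toNat]
    rfl
  have key := pair_Uo (g := g) C hC (fun i => C * (2 : ℝ) ^ (nu g m i.1.1 + nu g m i.1.2))
    (fun i => if (i.1.1 : ℕ) < g ∧ (i.1.2 : ℕ) ≤ g then 0 else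
      C * H * (2 : ℝ) ^ (nu g m i.1.1 + nu g m i.1.2))
    (fun i => nu g m i.1.1 + nu g m i.1.2) f
    (fun i => by positivity)
    (fun i => by
      split_ifs
      · exact le_rfl
      · positivity)
    (fun i => le_rfl)
    (fun i => by
      simp only [hf]
      split_ifs with h
      · rw [zpow_zero, mul_one]
        exact hC
      · have h1 : (2 : ℝ) ^ ((d : ℤ) + nu g m i.1.1 + nu g m i.1.2) =
            (2 : ℝ) ^ (d : ℤ) * (2 : ℝ) ^ (nu g m i.1.1 + nu g m i.1.2) := by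
          rw [← zpow_add₀ (by norm_num)]
          congr 1
          ring
        rw [h1, mul_assoc]
        refine mul_le_mul_of_nonneg_left ?_ hC
        exact mul_le_mul_of_nonneg_right hH2 (by positivity))
    (PD g C H m)
    (fun p hp => ⟨⟨hp.1.symB, fun q => hp.1.bB _ _⟩, ⟨hp.1.symA, fun q => by
      split_ifs with h
      · rw [hp.2.2 _ _ h.1 h.2]
        simp
      · exact hp.1.bA _ _⟩⟩)
  refine key.2.trans (le_of_eq ?_)
  rw [hsB, hsD]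

end Pool.Agent.Helper3.EV
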