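import Pool.Agent.Helper3.EV.StU

/-! # EV: uniqueness of the characteristic polynomial -/

set_option autoImplicit false

namespace Pool.Agent.Helper3.EV

open Polynomial

theorem hUq : StUq := by
  intro g p f f' hB hf hf'
  have h : C p.1.det * f = C p.1.det * f' := hf.trans hf'.symm
  have hne : (C p.1.det : ℤ[X]) ≠ 0 := C_ne_zero.mpr hB.ne_zero
  exact mul_left_cancel₀ hne h

end Pool.Agent.Helper3.EV
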