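import Pool.Agent.Helper3.EV.StU

/-!
# EV, module Uv: the number of vectors of a given norm
-/

set_option autoImplicit false

namespace Pool.Agent.Helper3.EV

open Module

/-- a nonzero linear functional on a space of dimension `g + 1` has a kernel with `Q ^ g` elements -/
private theorem card_ker_Uv (k : Type) [Field k] [Fintype k] (g : ℕ) (V : Type) [AddCommGroup V]
    [Module k V] [FiniteDimensional k V] (hV : finrank k V = g + 1) (φ : V →ₗ[k] k) (hφ : φ ≠ 0) :
    Nat.card (LinearMap.ker φ) = Fintype.card k ^ g := by
  have h1 := LinearMap.finrank_range_add_finrank_ker φ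
  have h2 : finrank k (LinearMap.range φ) = 1 := by
    rw [LinearMap.range_eq_top.2 (LinearMap.surjective hφ), finrank_top, finrank_self]
  have h3 : finrank k (LinearMap.ker φ) = g := by omega
  rw [Module.natCard_eq_pow_finrank (K := k), h3, Nat.card_eq_fintype_card]

theorem hUv : StUv := by
  classical
  intro k _ _ h2 g W _ _ _ b hsymm hnd hW X hX hiso β hβ
  haveI : Finite W := Module.finite_of_finite k
  haveI : Fintype W := Fintype.ofFinite W
  haveI : Fintype (W ⧸ X) := Fintype.ofFinite _
  set Q := Fintype.card k with hQ
  -- the orthogonal of `X` is `X`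
  have hnon : b.Nondegenerate := by
    refine ⟨fun x hx => hnd x hx, fun y hy => hnd y fun x => ?_⟩
    rw [hsymm y x]
    exact hy x
  have horth : X = b.orthogonal X := by
    apply Submodule.eq_of_le_of_finrank_eq
    · intro x hx y hy
      exact hiso y hy x hx
    · rw [LinearMap.BilinForm.finrank_orthogonal hnon, hX, hW]
      omega
  have hquot : Fintype.card (W ⧸ X) = Q ^ (g + 1) := by
    have h1 := Submodule.finrank_quotient_add_finrank X
    have h3 : finrank k (W ⧸ X) = g + 1 := by omega
    rw [← Nat.card_eq_fintype_card, Module.natCard_eq_pow_finrank (K := k), h3, hQ,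
      Nat.card_eq_fintype_card]
  set S : Finset W := Finset.univ.filter fun w => b w w = β with hS
  have hSc : {w : W | b w w = β} = (S : Set W) := by
    ext w
    simp [hS]
  rw [hSc, Set.ncard_coe_finset]
  have hfib : ∀ a ∈ S.image (Submodule.Quotient.mk (p := X)),
      (S.filter fun w => Submodule.Quotient.mk (p := X) w = a).card ≤ Q ^ g := by
    intro a ha
    obtain ⟨y, hy, rfl⟩ := Finset.mem_image.1 ha
    have hyβ : b y y = β := (Finset.mem_filter.1 hy).2
    set φ : X →ₗ[k] k := (b y).comp X.subtype with hφ
    have hφ0 : φ ≠ 0 := by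
      intro h0
      apply hβ
      rw [← hyβ]
      have hy' : y ∈ b.orthogonal X := by
        intro x hx
        show b x y = 0
        rw [hsymm x y]
        exact LinearMap.congr_fun h0 ⟨x, hx⟩
      rw [← horth] at hy'
      exact hiso y hy' y hy'
    rw [← card_ker_Uv k g X hX φ hφ0, Nat.card_eq_fintype_card, ← Finset.card_univ]
    refine Finset.card_le_card_of_surjOn (fun x => y + ((x : X) : W)) ?_
    intro w hw
    have hw1 := Finset.mem_filter.1 (Finset.mem_coe.1 hw)
    have hwβ : b w w = β := (Finset.mem_filter.1 hw1.1).2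
    have hwy : w - y ∈ X := (Submodule.Quotient.eq X).1 hw1.2
    have hker : (⟨w - y, hwy⟩ : X) ∈ LinearMap.ker φ := by
      rw [LinearMap.mem_ker]
      show b y (w - y) = 0
      have e1 : b w w = b y y + 2 * b y (w - y) + b (w - y) (w - y) := by
        have : w = y + (w - y) := by abel
        conv_lhs => rw [this]
        simp only [map_add, LinearMap.add_apply]
        rw [hsymm (w - y) y]
        ring
      rw [hwβ, hyβ, hiso _ hwy _ hwy, add_zero] at e1
      have e2 : 2 * b y (w - y) = 0 := by
        have := e1
        linear_combination -this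
      exact (mul_eq_zero.1 e2).resolve_left h2
    refine ⟨⟨⟨w - y, hwy⟩, hker⟩, Finset.mem_coe.2 (Finset.mem_univ _), ?_⟩
    show y + (w - y) = w
    abel
  calc S.card ≤ Q ^ g * (S.image (Submodule.Quotient.mk (p := X))).card :=
        Finset.card_le_mul_card_image S _ hfib
    _ ≤ Q ^ g * Q ^ (g + 1) := by
        apply Nat.mul_le_mul_left
        rw [← hquot]
        exact Finset.card_le_univ _
    _ = Q ^ (2 * g + 1) := by rw [← pow_add]; congr 1; ring

end Pool.Agent.Helper3.EV
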