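import Pool.Agent.Helper3.EV.StU
import Pool.Agent.Helper54.HQ.M_Uw

/-!
# EV, module Uw: the number of tuples with a given Gram matrix
-/

set_option autoImplicit false

namespace Pool.Agent.Helper3.EV

open Polynomial Finset Filter Topology Matrix IsDedekindDomain
open Pool.Agent.Helper3.HY (Ix)
open Pool.Agent.Helper54

/-- a nonsingular symmetric matrix represents a nonzero number -/
private theorem exists_Uw (k : Type) [Field k] (h2 : (2 : k) ≠ 0) (n : ℕ)
    (B : Matrix (Fin (n + 1)) (Fin (n + 1)) k) (hs : B.IsSymm) (hB : B.det ≠ 0) :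
    ∃ v : Fin (n + 1) → k, v ⬝ᵥ B *ᵥ v ≠ 0 := by
  by_contra hcon
  push Not at hcon
  have hsym : ∀ u v : Fin (n + 1) → k, u ⬝ᵥ B *ᵥ v = v ⬝ᵥ B *ᵥ u := by
    intro u v
    rw [Matrix.dotProduct_mulVec, ← Matrix.mulVec_transpose, hs, dotProduct_comm]
  have h1 : ∀ u v : Fin (n + 1) → k, u ⬝ᵥ B *ᵥ v = 0 := by
    intro u v
    have h := hcon (u + v)
    rw [Matrix.mulVec_add, add_dotProduct, dotProduct_add, dotProduct_add, hcon u, hcon v,
      hsym v u, zero_add, add_zero, ← two_mul] at h
    exact (mul_eq_zero.1 h).resolve_left h2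
  have h3 : B *ᵥ (Pi.single 0 1) = 0 := by
    funext i
    have h := h1 (Pi.single i 1) (Pi.single 0 1)
    rw [single_dotProduct, one_mul] at h
    exact h
  have h4 := Matrix.eq_zero_of_mulVec_eq_zero hB h3
  have h5 := congrFun h4 0
  rw [Pi.single_eq_same, Pi.zero_apply] at h5
  exact one_ne_zero h5

/-- the Schur complement is nonsingular -/
private theorem schur_Uw (k : Type) [Field k] (n : ℕ)
    (B : Matrix (Fin (n + 1)) (Fin (n + 1)) k) (hs : B.IsSymm) (hB : B.det ≠ 0)
    (v : Fin (n + 1) → k) (β : k) (hβ : β ≠ 0) (hv : v ⬝ᵥ B *ᵥ v = β) (i₀ : Fin (n + 1))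
    (hi₀ : v i₀ ≠ 0) :
    (Matrix.of fun i j : Fin n => B (i₀.succAbove i) (i₀.succAbove j) -
      (B *ᵥ v) (i₀.succAbove i) * (B *ᵥ v) (i₀.succAbove j) / β).det ≠ 0 := by
  intro hdet
  obtain ⟨y, hy0, hy⟩ := Matrix.exists_mulVec_eq_zero_iff.2 hdet
  apply hy0
  set Y : Fin (n + 1) → k := i₀.insertNth (0 : k) y with hY
  have hY0 : Y i₀ = 0 := by
    rw [hY]
    exact Fin.insertNth_apply_same (α := fun _ => k) i₀ (0 : k) y
  have hY1 : ∀ i, Y (i₀.succAbove i) = y i := by
    intro i
    rw [hY]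
    exact Fin.insertNth_apply_succAbove (α := fun _ => k) i₀ (0 : k) y i
  set a : Fin (n + 1) → k := B *ᵥ v with ha
  set c : k := (a ⬝ᵥ Y) / β with hc
  set Z : Fin (n + 1) → k := Y - c • v with hZ
  have hBZ : ∀ i, (B *ᵥ Z) i = (B *ᵥ Y) i - c * a i := by
    intro i
    rw [hZ, Matrix.mulVec_sub, Matrix.mulVec_smul]
    rfl
  have hz1 : ∀ i, (B *ᵥ Z) (i₀.succAbove i) = 0 := by
    intro i
    have h : ∑ j, (B (i₀.succAbove i) (i₀.succAbove j) -
      a (i₀.succAbove i) * a (i₀.succAbove j) / β) * y j = 0 := congrFun hy i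
    rw [hBZ]
    have e1 : (B *ᵥ Y) (i₀.succAbove i) = ∑ j, B (i₀.succAbove i) (i₀.succAbove j) * y j := by
      show ∑ j, B (i₀.succAbove i) j * Y j = _
      rw [Fin.sum_univ_succAbove _ i₀, hY0, mul_zero, zero_add]
      exact Finset.sum_congr rfl fun j _ => by rw [hY1]
    have e2 : a ⬝ᵥ Y = ∑ j, a (i₀.succAbove j) * y j := by
      show ∑ j, a j * Y j = _
      rw [Fin.sum_univ_succAbove _ i₀, hY0, mul_zero, zero_add]
      exact Finset.sum_congr rfl fun j _ => by rw [hY1]
    rw [e1, hc, e2, ← h]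
    rw [Finset.sum_div, Finset.sum_mul, ← Finset.sum_sub_distrib]
    refine Finset.sum_congr rfl fun j _ => ?_
    ring
  have hav : a ⬝ᵥ v = β := by
    rw [dotProduct_comm]
    exact hv
  have hz2 : v ⬝ᵥ (B *ᵥ Z) = 0 := by
    rw [Matrix.dotProduct_mulVec, ← Matrix.mulVec_transpose, hs, ← ha, hZ, dotProduct_sub,
      dotProduct_smul, hav, hc, smul_eq_mul, div_mul_cancel₀ _ hβ, sub_self]
  have hz3 : (B *ᵥ Z) i₀ = 0 := by
    have h : v ⬝ᵥ (B *ᵥ Z) = v i₀ * (B *ᵥ Z) i₀ := by
      show ∑ j, v j * (B *ᵥ Z) j = _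
      rw [Fin.sum_univ_succAbove _ i₀]
      have : ∑ i, v (i₀.succAbove i) * (B *ᵥ Z) (i₀.succAbove i) = 0 :=
        Finset.sum_eq_zero fun i _ => by rw [hz1, mul_zero]
      rw [this, add_zero]
    rw [hz2] at h
    exact (mul_eq_zero.1 h.symm).resolve_left hi₀
  have hz4 : B *ᵥ Z = 0 := by
    funext i
    rcases Fin.eq_self_or_eq_succAbove i₀ i with h | ⟨j, h⟩
    · rw [h]; exact hz3
    · rw [h]; exact hz1 j
  have hz5 : Z = 0 := Matrix.eq_zero_of_mulVec_eq_zero hB hz4
  have hYc : Y = c • v := sub_eq_zero.1 hz5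
  have hc0 : c = 0 := by
    have h := congrFun hYc i₀
    rw [hY0, Pi.smul_apply, smul_eq_mul] at h
    exact (mul_eq_zero.1 h.symm).resolve_right hi₀
  funext i
  rw [← hY1 i, hYc, hc0, zero_smul]
  rfl

theorem hUw (hUv : StUv) : StUw := by
  classical
  intro k _ _ h2 g W _ _ _ b hs hnd hf X hX hXX B hBs hB
  have hfinW : Finite W := Module.finite_of_finite k
  obtain ⟨v, hv⟩ := exists_Uw k h2 (2 * g + 1) B hBs hB
  set β : k := v ⬝ᵥ B *ᵥ v with hβ
  set a : Jx g → k := B *ᵥ v with ha
  have hex : ∃ i₀, v i₀ ≠ 0 := by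
    by_contra hcon
    push Not at hcon
    apply hv
    have : v = 0 := funext hcon
    rw [hβ, this, zero_dotProduct]
  obtain ⟨i₀, hi₀⟩ := hex
  have hdet := schur_Uw k (2 * g + 1) B hBs hB v β hv rfl i₀ hi₀
  set B' : Matrix (Ix g) (Ix g) k := Matrix.of fun i j : Fin (2 * g + 1) =>
    B (i₀.succAbove i) (i₀.succAbove j) -
      (B *ᵥ v) (i₀.succAbove i) * (B *ᵥ v) (i₀.succAbove j) / β with hB'
  set Sw : Set (Jx g → W) := {w | ∀ i j, b (w i) (w j) = B i j} with hSw
  have hfinS : Sw.Finite := Set.toFinite _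
  set f : (Jx g → W) → W := fun w => ∑ i, v i • w i with hfdef
  -- products with `f w`
  have hfb : ∀ w ∈ Sw, ∀ i, b (f w) (w i) = a i := by
    intro w hw i
    have hw' : ∀ i j, b (w i) (w j) = B i j := hw
    have e1 : b (f w) (w i) = b (w i) (f w) := hs _ _
    have e2 : b (w i) (f w) = ∑ j, b (w i) (v j • w j) := map_sum _ _ _
    rw [e1, e2]
    show _ = ∑ j, B i j * v j
    refine Finset.sum_congr rfl fun j _ => ?_
    rw [map_smul, smul_eq_mul, hw', mul_comm]
  have hff : ∀ w ∈ Sw, b (f w) (f w) = β := by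
    intro w hw
    have e2 : b (f w) (f w) = ∑ j, b (f w) (v j • w j) := map_sum _ _ _
    rw [e2, hβ]
    show _ = ∑ j, v j * a j
    refine Finset.sum_congr rfl fun j _ => ?_
    rw [map_smul, smul_eq_mul, hfb w hw]
  -- the fibres
  have hfib : ∀ x : W, b x x = β → {w ∈ Sw | f w = x}.ncard ≤
      2 * Fintype.card k ^ (g * (2 * g + 1)) := by
    intro x hx
    have hbx : b x ≠ 0 := by
      intro h
      apply hv
      rw [← hx, h, LinearMap.zero_apply]
    set W' : Submodule k W := LinearMap.ker (b x) with hW'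
    have hfW : Module.finrank k W' = 2 * g + 1 := by
      have := Module.Dual.finrank_ker_add_one_of_ne_zero (f := b x) hbx
      have h' : Module.finrank k W' + 1 = Module.finrank k W := this
      omega
    have hmem : ∀ z : W, z ∈ W' ↔ b x z = 0 := fun z => LinearMap.mem_ker
    have hnd' : ∀ y : W', (∀ z : W', (b.restrict W') y z = 0) → y = 0 := by
      intro y hy
      apply Subtype.ext
      apply hnd
      intro z
      have hz : z - (b x z / β) • x ∈ W' := by
        rw [hmem, map_sub, map_smul, hx, smul_eq_mul, div_mul_cancel₀ _ hv, sub_self]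
      have h1 : b (y : W) (z - (b x z / β) • x) = 0 := hy ⟨_, hz⟩
      have h3 : b (y : W) x = 0 := by
        rw [hs]
        exact (hmem _).1 y.2
      rw [map_sub, map_smul, h3, smul_zero, sub_zero] at h1
      exact h1
    have hcount := HQ.hUw k h2 g W' (b.restrict W') (fun y z => hs _ _) hnd' hfW B' hdet
    refine le_trans ?_ hcount
    have hfin' : Finite W' := inferInstance
    refine le_trans ?_ (Set.ncard_image_le (f := fun (u : Ix g → W') (i : Ix g) => (u i : W))
      (Set.toFinite _))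
    refine Set.ncard_le_ncard_of_injOn
      (fun w (i : Ix g) => w (i₀.succAbove i) - (a (i₀.succAbove i) / β) • x) ?_ ?_
      (Set.toFinite _)
    · rintro w ⟨hw, hwx⟩
      have hbi : ∀ i, b x (w i) = a i := by
        intro i
        rw [← hwx]
        exact hfb w hw i
      have hbi' : ∀ i, b (w i) x = a i := by
        intro i
        rw [hs]
        exact hbi i
      refine ⟨fun i => ⟨w (i₀.succAbove i) - (a (i₀.succAbove i) / β) • x, ?_⟩, ?_, rfl⟩
      · rw [hmem, map_sub, map_smul, hx, smul_eq_mul, div_mul_cancel₀ _ hv, hbi, sub_self]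
      · intro i j
        show b (w (i₀.succAbove i) - (a (i₀.succAbove i) / β) • x)
          (w (i₀.succAbove j) - (a (i₀.succAbove j) / β) • x) =
          B (i₀.succAbove i) (i₀.succAbove j) - a (i₀.succAbove i) * a (i₀.succAbove j) / β
        have hw' : ∀ i j, b (w i) (w j) = B i j := hw
        rw [map_sub, map_smul, map_sub, map_smul, LinearMap.sub_apply, LinearMap.sub_apply,
          LinearMap.smul_apply, LinearMap.smul_apply, hw', hbi, hbi', hx, smul_eq_mul,
          smul_eq_mul, smul_eq_mul, div_mul_cancel₀ _ hv, sub_self, mul_zero,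
          sub_zero, div_mul_eq_mul_div]
    · rintro w ⟨hw, hwx⟩ w' ⟨hw', hwx'⟩ h
      have h1 : ∀ i, w (i₀.succAbove i) = w' (i₀.succAbove i) := by
        intro i
        have := congrFun h i
        exact sub_left_injective this
      have h3 : w i₀ = w' i₀ := by
        have e : ∀ w : Jx g → W, f w = v i₀ • w i₀ + ∑ i : Fin (2 * g + 1),
            v (i₀.succAbove i) • w (i₀.succAbove i) := by
          intro w
          exact Fin.sum_univ_succAbove _ i₀
        have h4 : f w = f w' := hwx.trans hwx'.symm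
        rw [e w, e w'] at h4
        have h5 : ∑ i : Fin (2 * g + 1), v (i₀.succAbove i) • w (i₀.succAbove i) =
            ∑ i : Fin (2 * g + 1), v (i₀.succAbove i) • w' (i₀.succAbove i) :=
          Finset.sum_congr rfl fun i _ => by rw [h1]
        rw [h5] at h4
        exact smul_right_injective W hi₀ (add_right_cancel h4)
      funext i
      rcases Fin.eq_self_or_eq_succAbove i₀ i with h | ⟨j, h⟩
      · rw [h]; exact h3
      · rw [h]; exact h1 j
  -- the count
  have hS : Sw.ncard = hfinS.toFinset.card := Set.ncard_eq_toFinset_card _ hfinS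
  rw [hS]
  have hV := hUv k h2 g W b hs hnd hf X hX hXX β hv
  have himg : (hfinS.toFinset.image f).card ≤ Fintype.card k ^ (2 * g + 1) := by
    refine le_trans ?_ hV
    rw [← Set.ncard_coe_finset]
    refine Set.ncard_le_ncard ?_ (Set.toFinite _)
    intro x hx
    rw [Finset.coe_image] at hx
    obtain ⟨w, hw, rfl⟩ := hx
    exact hff w (by simpa using hw)
  have hcard : hfinS.toFinset.card ≤ (2 * Fintype.card k ^ (g * (2 * g + 1))) *
      (hfinS.toFinset.image f).card := by
    refine Finset.card_le_mul_card_image _ _ ?_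
    intro x hx
    obtain ⟨w, hw, rfl⟩ := Finset.mem_image.1 hx
    have hx' : b (f w) (f w) = β := hff w (by simpa using hw)
    refine le_trans (le_of_eq ?_) (hfib (f w) hx')
    rw [← Set.ncard_coe_finset]
    congr 1
    ext w'
    simp
  calc hfinS.toFinset.card ≤ (2 * Fintype.card k ^ (g * (2 * g + 1))) *
      (hfinS.toFinset.image f).card := hcard
    _ ≤ (2 * Fintype.card k ^ (g * (2 * g + 1))) * Fintype.card k ^ (2 * g + 1) :=
        Nat.mul_le_mul_left _ himg
    _ = 2 * Fintype.card k ^ ((g + 1) * (2 * g + 1)) := by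
        rw [mul_assoc, ← pow_add]
        congr 2
        ring

end Pool.Agent.Helper3.EV
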