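import Pool.Agent.Helper3.EV.StC
import Pool.Agent.Helper54.HQ.Base

/-!
# EV module Wa: the lattice of a weakly divisible polynomial
-/

set_option autoImplicit false

namespace Pool.Agent.Helper3.EV

open Polynomial Finset Filter Topology Matrix IsDedekindDomain
open Pool.Agent.Helper3.HY (co tau co_mk sum_co)
open Pool.Agent.Helper54.HQ (Prm pz factPrm fK RR LL algRL th kp red Bf Bf_apply InR algebraMap_root
  co_algebraMap)

namespace WaAux

variable {f : ℤ[X]}

/-- the image of `R` -/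
noncomputable def SR (f : ℤ[X]) : Subring (LL f) := (algebraMap (RR f) (LL f)).range

theorem inR_iff {z : LL f} : InR z ↔ z ∈ SR f := by
  unfold InR SR
  rw [RingHom.mem_range]
  exact ⟨fun ⟨r, h⟩ => ⟨r, h.symm⟩, fun ⟨r, h⟩ => ⟨r, h.symm⟩⟩

theorem th_mem : th f ∈ SR f := ⟨AdjoinRoot.root f, algebraMap_root⟩

theorem tau_int (hm : f.Monic) {z : LL f} (hz : z ∈ SR f) :
    ∃ a : ℤ, tau (hm.map (Int.castRingHom ℚ)) z = a := by
  obtain ⟨r, rfl⟩ := hz
  exact ⟨_, co_algebraMap hm _ r⟩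

/-- `x = θ - r` -/
noncomputable def xx (f : ℤ[X]) (r : ℤ) : LL f := th f - (r : LL f)

theorem xx_mem (r : ℤ) : xx f r ∈ SR f := sub_mem th_mem (intCast_mem _ r)

theorem co_xx (hm : f.Monic) {g : ℕ} (hdeg : f.natDegree = 2 * g + 2) (r : ℤ) {j : ℕ}
    (hj : j ≤ 2 * g + 1) (i : ℕ) (hi : j ≤ i) :
    co (hm.map (Int.castRingHom ℚ)) i (xx f r ^ j) = if i = j then 1 else 0 := by
  have hd : (fK f).natDegree = 2 * g + 2 := by rw [hm.natDegree_map, hdeg]
  have h1 : xx f r ^ j = AdjoinRoot.mk (fK f) ((X - C (r : ℚ)) ^ j) := by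
    rw [map_pow, map_sub, AdjoinRoot.mk_X, AdjoinRoot.mk_C, map_intCast]
    rfl
  have hmon : ((X - C (r : ℚ)) ^ j).Monic := (monic_X_sub_C _).pow j
  have hnd : ((X - C (r : ℚ)) ^ j).natDegree = j := by
    rw [natDegree_pow, natDegree_X_sub_C, mul_one]
  rw [h1, co_mk, (modByMonic_eq_self_iff (hm.map _)).2]
  · split_ifs with h
    · subst h
      have := hmon.coeff_natDegree
      rwa [hnd] at this
    · exact coeff_eq_zero_of_natDegree_lt (by rw [hnd]; omega)
  · rw [degree_eq_natDegree hmon.ne_zero, hnd, degree_eq_natDegree (hm.map _).ne_zero, hd]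
    exact_mod_cast Nat.lt_succ_of_le hj

theorem tau_xx (hm : f.Monic) {g : ℕ} (hdeg : f.natDegree = 2 * g + 2) (r : ℤ) {j : ℕ}
    (hj : j ≤ 2 * g + 1) :
    tau (hm.map (Int.castRingHom ℚ)) (xx f r ^ j) = if j = 2 * g + 1 then 1 else 0 := by
  have hd : (fK f).natDegree = 2 * g + 2 := by rw [hm.natDegree_map, hdeg]
  rw [tau, hd, (show 2 * g + 2 - 1 = 2 * g + 1 from rfl), co_xx hm hdeg r hj _ hj]
  simp only [eq_comm]

/-- the Taylor coefficients -/
noncomputable def bb (f : ℤ[X]) (r : ℤ) (j : ℕ) : ℤ := (taylor r f).coeff j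

theorem bb_top (hm : f.Monic) {g : ℕ} (hdeg : f.natDegree = 2 * g + 2) (r : ℤ) :
    bb f r (2 * g + 2) = 1 := by
  rw [bb, ← hdeg, coeff_taylor_natDegree, hm.leadingCoeff]

theorem sum_bb {g : ℕ} (hdeg : f.natDegree = 2 * g + 2) (r : ℤ) :
    ∑ j ∈ range (2 * g + 3), ((bb f r j : ℤ) : LL f) * xx f r ^ j = 0 := by
  have h1 : (taylor r f).eval₂ (Int.castRingHom (LL f)) (xx f r) = 0 := by
    rw [taylor_apply, eval₂_comp]
    have h2 : eval₂ (Int.castRingHom (LL f)) (xx f r) (X + C r) = th f := by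
      rw [eval₂_add, eval₂_X, eval₂_C, xx, eq_intCast]; ring
    rw [h2]
    have h3 : eval₂ (Int.castRingHom (LL f)) (th f) f =
        eval₂ (AdjoinRoot.of (fK f)) (AdjoinRoot.root (fK f)) (fK f) := by
      rw [eval₂_map]
      congr 1
    rw [h3]
    exact AdjoinRoot.eval₂_root _
  rw [eval₂_eq_sum_range, natDegree_taylor, hdeg] at h1
  simpa [bb] using h1

/-- `v = ∑ b_(j+1) x^j` -/
noncomputable def vv (f : ℤ[X]) (g : ℕ) (r : ℤ) : LL f :=
  ∑ j ∈ range (2 * g + 2), ((bb f r (j + 1) : ℤ) : LL f) * xx f r ^ j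

theorem xx_mul_vv {g : ℕ} (hdeg : f.natDegree = 2 * g + 2) (r : ℤ) :
    xx f r * vv f g r = -((bb f r 0 : ℤ) : LL f) := by
  have h := sum_bb hdeg r
  rw [sum_range_succ'] at h
  rw [vv, mul_sum]
  rw [pow_zero, mul_one] at h
  rw [← eq_neg_iff_add_eq_zero.2 h]
  refine sum_congr rfl fun j _ => ?_
  rw [pow_succ]; ring

theorem vv_mem (g : ℕ) (r : ℤ) : vv f g r ∈ SR f :=
  sum_mem fun j _ => mul_mem (intCast_mem _ _) (pow_mem (xx_mem r) j)

theorem tau_smul_int (hm : f.Monic) (a : ℤ) (z : LL f) :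
    tau (hm.map (Int.castRingHom ℚ)) ((a : LL f) * z) =
      a * tau (hm.map (Int.castRingHom ℚ)) z := by
  have : (a : LL f) * z = (a : ℚ) • z := by
    rw [Algebra.smul_def, map_intCast]
  rw [this, map_smul, smul_eq_mul]

theorem co_smul_int (hm : f.Monic) (i : ℕ) (a : ℤ) (z : LL f) :
    co (hm.map (Int.castRingHom ℚ)) i ((a : LL f) * z) =
      a * co (hm.map (Int.castRingHom ℚ)) i z := by
  have : (a : LL f) * z = (a : ℚ) • z := by
    rw [Algebra.smul_def, map_intCast]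
  rw [this, map_smul, smul_eq_mul]

theorem co_vv (hm : f.Monic) {g : ℕ} (hdeg : f.natDegree = 2 * g + 2) (r : ℤ) :
    co (hm.map (Int.castRingHom ℚ)) (2 * g + 1) (vv f g r) = 1 := by
  rw [vv, map_sum, sum_eq_single (2 * g + 1)]
  · rw [co_smul_int hm, co_xx hm hdeg r le_rfl _ le_rfl, if_pos rfl, bb_top hm hdeg]
    simp
  · intro j hj hne
    have hj' := mem_range.1 hj
    rw [co_smul_int hm, co_xx hm hdeg r (by omega) _ (by omega), if_neg (by omega), mul_zero]
  · intro h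
    exact absurd (mem_range.2 (by omega)) h

theorem tau_eq_co (hm : f.Monic) {g : ℕ} (hdeg : f.natDegree = 2 * g + 2) (z : LL f) :
    tau (hm.map (Int.castRingHom ℚ)) z = co (hm.map (Int.castRingHom ℚ)) (2 * g + 1) z := by
  have hd : (fK f).natDegree = 2 * g + 2 := by rw [hm.natDegree_map, hdeg]
  rw [tau, hd, (show 2 * g + 2 - 1 = 2 * g + 1 from rfl)]

/-- `τ(v²) = b_1` -/
theorem tau_vv_sq (hm : f.Monic) {g : ℕ} (hdeg : f.natDegree = 2 * g + 2) (r : ℤ) :
    tau (hm.map (Int.castRingHom ℚ)) (vv f g r * vv f g r) = bb f r 1 := by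
  have h1 : vv f g r * vv f g r = ((bb f r 1 : ℤ) : LL f) * vv f g r +
      ((-(bb f r 0) : ℤ) : LL f) *
        ∑ j ∈ range (2 * g + 1), ((bb f r (j + 2) : ℤ) : LL f) * xx f r ^ j := by
    conv_lhs => rw [show vv f g r * vv f g r = (∑ j ∈ range (2 * g + 2),
      ((bb f r (j + 1) : ℤ) : LL f) * xx f r ^ j) * vv f g r from rfl]
    rw [sum_range_succ', add_mul, zero_add, pow_zero, mul_one, add_comm]
    congr 1
    rw [Int.cast_neg, ← xx_mul_vv hdeg, sum_mul, mul_sum]
    refine sum_congr rfl fun j _ => ?_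
    rw [pow_succ, add_assoc, one_add_one_eq_two]
    ring
  rw [h1, map_add, tau_smul_int hm, tau_smul_int hm, tau_eq_co hm hdeg (vv f g r), co_vv hm hdeg]
  have h2 : tau (hm.map (Int.castRingHom ℚ))
      (∑ j ∈ range (2 * g + 1), ((bb f r (j + 2) : ℤ) : LL f) * xx f r ^ j) = 0 := by
    rw [map_sum]
    refine sum_eq_zero fun j hj => ?_
    have hj' := mem_range.1 hj
    rw [tau_smul_int hm, tau_xx hm hdeg r (by omega), if_neg (by omega), mul_zero]
  rw [h2]; ring

/-- the new basis -/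
noncomputable def ee (f : ℤ[X]) (g p : ℕ) (r k : ℤ) (i : Jx g) : LL f :=
  if (i : ℕ) = 0 then (p : LL f)
  else if (i : ℕ) = 2 * g + 1 then ((p : ℚ)⁻¹) • (vv f g r + ((p * k : ℤ) : LL f))
  else xx f r ^ (i : ℕ)

theorem smul_p {p : ℕ} (hp : p ≠ 0) (z : LL f) : (p : LL f) * ((p : ℚ)⁻¹ • z) = z := by
  have h0 : (p : ℚ) ≠ 0 := by exact_mod_cast hp
  rw [mul_smul_comm, ← nsmul_eq_mul, ← Nat.cast_smul_eq_nsmul ℚ, smul_smul, inv_mul_cancel₀ h0,
    one_smul]

/-- multiplication by `x` of the last vector -/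
theorem xx_mul_last {g : ℕ} (hdeg : f.natDegree = 2 * g + 2) (r k : ℤ) {p : ℕ} (hp : p ≠ 0)
    {c0 : ℤ} (h0 : bb f r 0 = p ^ 2 * c0) :
    xx f r * ((p : ℚ)⁻¹ • (vv f g r + ((p * k : ℤ) : LL f))) =
      ((-c0 : ℤ) : LL f) * (p : LL f) + (k : LL f) * xx f r := by
  have h1 : (p : LL f) * ((p : ℚ)⁻¹ • (xx f r * (vv f g r + ((p * k : ℤ) : LL f)))) =
      xx f r * (vv f g r + ((p * k : ℤ) : LL f)) := smul_p hp _
  have h2 : xx f r * (vv f g r + ((p * k : ℤ) : LL f)) =
      (p : LL f) * (((-c0 : ℤ) : LL f) * (p : LL f) + (k : LL f) * xx f r) := by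
    rw [mul_add, xx_mul_vv hdeg, h0]
    push_cast
    ring
  rw [mul_smul_comm, h2, ← mul_smul_comm]
  exact smul_p hp _

theorem ee_mem_S {g : ℕ} (r k : ℤ) {p : ℕ} (hp : p ≠ 0) (i : Jx g) :
    (p : LL f) * ee f g p r k i ∈ SR f := by
  unfold ee
  split_ifs
  · exact mul_mem (natCast_mem _ _) (natCast_mem _ _)
  · rw [smul_p hp]
    exact add_mem (vv_mem g r) (intCast_mem _ _)
  · exact mul_mem (natCast_mem _ _) (pow_mem (xx_mem r) _)

/-- the Gram entries are integers -/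
theorem gram_int (hm : f.Monic) {g : ℕ} (hg : 1 ≤ g) (hdeg : f.natDegree = 2 * g + 2) (r k : ℤ)
    {p : ℕ} (hp : p ≠ 0) {c0 c1 : ℤ} (h0 : bb f r 0 = p ^ 2 * c0)
    (h1 : bb f r 1 + 2 * p * k = p ^ 2 * c1) (i j : Jx g) :
    ∃ a : ℤ, tau (hm.map (Int.castRingHom ℚ)) (ee f g p r k i * ee f g p r k j) = a := by
  -- the product with the last vector
  have key : ∀ i : Jx g, ∃ a : ℤ, tau (hm.map (Int.castRingHom ℚ)) (ee f g p r k i *
      ((p : ℚ)⁻¹ • (vv f g r + ((p * k : ℤ) : LL f)))) = a := by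
    intro i
    unfold ee
    split_ifs with h2 h3
    · rw [smul_p hp]
      exact tau_int hm (add_mem (vv_mem g r) (intCast_mem _ _))
    · refine ⟨c1 + k ^ 2 * 0, ?_⟩
      have hp' : (p : ℚ) ≠ 0 := by exact_mod_cast hp
      have h4 : ((p : ℚ)⁻¹ • (vv f g r + ((p * k : ℤ) : LL f))) *
          ((p : ℚ)⁻¹ • (vv f g r + ((p * k : ℤ) : LL f))) =
          ((p : ℚ)⁻¹ * (p : ℚ)⁻¹) • (vv f g r * vv f g r +
            (((2 * p * k : ℤ) : LL f) * vv f g r + ((p ^ 2 * k ^ 2 : ℤ) : LL f) * xx f r ^ 0)) := by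
        rw [smul_mul_smul_comm]
        congr 1
        push_cast
        ring
      rw [h4, map_smul, map_add, map_add, tau_vv_sq hm hdeg, tau_smul_int hm, tau_smul_int hm,
        tau_eq_co hm hdeg (vv f g r), co_vv hm hdeg, tau_xx hm hdeg r (Nat.zero_le _),
        if_neg (by omega)]
      have h5 : ((bb f r 1 : ℤ) : ℚ) + 2 * p * k = p ^ 2 * c1 := by exact_mod_cast h1
      push_cast
      rw [smul_eq_mul, mul_zero, mul_zero, mul_one, add_zero, add_zero, h5]
      field_simp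
    · obtain ⟨n, hn⟩ : ∃ n, (i : ℕ) = n + 1 := ⟨i - 1, by omega⟩
      rw [hn, pow_succ, mul_assoc, xx_mul_last hdeg r k hp h0]
      exact tau_int hm (mul_mem (pow_mem (xx_mem r) _) (add_mem (mul_mem (intCast_mem _ _)
        (natCast_mem _ _)) (mul_mem (intCast_mem _ _) (xx_mem r))))
  by_cases hj : (j : ℕ) = 2 * g + 1
  · have : ee f g p r k j = ((p : ℚ)⁻¹ • (vv f g r + ((p * k : ℤ) : LL f))) := by
      unfold ee; rw [if_neg (by omega), if_pos hj]
    rw [this]; exact key i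
  by_cases hi : (i : ℕ) = 2 * g + 1
  · have : ee f g p r k i = ((p : ℚ)⁻¹ • (vv f g r + ((p * k : ℤ) : LL f))) := by
      unfold ee; rw [if_neg (by omega), if_pos hi]
    rw [this, mul_comm]; exact key j
  · have hS : ∀ l : Jx g, (l : ℕ) ≠ 2 * g + 1 → ee f g p r k l ∈ SR f := by
      intro l hl
      unfold ee
      rw [if_neg hl]
      split_ifs
      · exact natCast_mem _ _
      · exact pow_mem (xx_mem r) _
    exact tau_int hm (mul_mem (hS i hi) (hS j hj))

/-- stability -/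
theorem mat_int (hm : f.Monic) {g : ℕ} (hg : 1 ≤ g) (hdeg : f.natDegree = 2 * g + 2) (r k : ℤ)
    {p : ℕ} (hp : p ≠ 0) {c0 d1 : ℤ} (h0 : bb f r 0 = p ^ 2 * c0) (h1 : bb f r 1 = p * d1)
    (j : Jx g) :
    ∃ t : Jx g → ℤ, th f * ee f g p r k j = ∑ i, ((t i : ℤ) : ℚ) • ee f g p r k i := by
  -- it is enough to treat `x`
  have hred : (∃ t : Jx g → ℤ, xx f r * ee f g p r k j =
      ∑ i, ((t i : ℤ) : ℚ) • ee f g p r k i) →
      ∃ t : Jx g → ℤ, th f * ee f g p r k j = ∑ i, ((t i : ℤ) : ℚ) • ee f g p r k i := by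
    rintro ⟨t, ht⟩
    refine ⟨fun i => t i + if i = j then r else 0, ?_⟩
    have h2 : th f * ee f g p r k j = xx f r * ee f g p r k j + (r : LL f) * ee f g p r k j := by
      rw [xx]; ring
    rw [h2, ht]
    push_cast
    simp only [add_smul, sum_add_distrib, ite_smul, zero_smul, sum_ite_eq', mem_univ, if_true]
    congr 1
    rw [Algebra.smul_def, map_intCast]
  refine hred ?_
  have one : ∀ l : ℕ, (hl : l < 2 * g + 2) → ∀ a : ℤ, ∃ t : Jx g → ℤ,
      (a : LL f) * ee f g p r k ⟨l, hl⟩ = ∑ i, ((t i : ℤ) : ℚ) • ee f g p r k i := by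
    intro l hl a
    refine ⟨fun i => if i = ⟨l, hl⟩ then a else 0, ?_⟩
    push_cast
    simp only [ite_smul, zero_smul, sum_ite_eq', mem_univ, if_true]
    rw [Algebra.smul_def, map_intCast]
  have add : ∀ y z : LL f, (∃ t : Jx g → ℤ, y = ∑ i, ((t i : ℤ) : ℚ) • ee f g p r k i) →
      (∃ t : Jx g → ℤ, z = ∑ i, ((t i : ℤ) : ℚ) • ee f g p r k i) →
      ∃ t : Jx g → ℤ, y + z = ∑ i, ((t i : ℤ) : ℚ) • ee f g p r k i := by
    rintro y z ⟨s, hs⟩ ⟨t, ht⟩
    refine ⟨fun i => s i + t i, ?_⟩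
    rw [hs, ht, ← sum_add_distrib]
    refine sum_congr rfl fun i _ => ?_
    push_cast
    rw [add_smul]
  have ssum : ∀ (s : Finset ℕ) (y : ℕ → LL f), (∀ l ∈ s, ∃ t : Jx g → ℤ,
      y l = ∑ i, ((t i : ℤ) : ℚ) • ee f g p r k i) → ∃ t : Jx g → ℤ,
      ∑ l ∈ s, y l = ∑ i, ((t i : ℤ) : ℚ) • ee f g p r k i := by
    intro s y
    induction s using Finset.induction_on with
    | empty => intro _; exact ⟨0, by simp⟩
    | insert a s ha ih =>
      intro h
      rw [sum_insert ha]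
      exact add _ _ (h a (mem_insert_self a s)) (ih fun l hl => h l (mem_insert_of_mem hl))
  have e0 : ee f g p r k ⟨0, by omega⟩ = (p : LL f) := by unfold ee; simp
  have emid : ∀ l : ℕ, (hl : l < 2 * g + 1) → 1 ≤ l → ee f g p r k ⟨l, by omega⟩ = xx f r ^ l := by
    intro l hl hl1
    unfold ee
    rw [if_neg (by simp; omega), if_neg (by simp; omega)]
  have elast : ee f g p r k ⟨2 * g + 1, by omega⟩ =
      ((p : ℚ)⁻¹ • (vv f g r + ((p * k : ℤ) : LL f))) := by
    unfold ee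
    rw [if_neg (by simp), if_pos rfl]
  obtain ⟨j, hj⟩ := j
  by_cases hj0 : j = 0
  · subst hj0
    have h2 : xx f r * ee f g p r k ⟨0, hj⟩ = ((p : ℤ) : LL f) * ee f g p r k ⟨1, by omega⟩ := by
      rw [e0, emid 1 (by omega) le_rfl, pow_one]; push_cast; ring
    rw [h2]; exact one _ _ _
  by_cases hjl : j = 2 * g + 1
  · subst hjl
    rw [elast, xx_mul_last hdeg r k hp h0, ← e0]
    refine add _ _ (one _ _ _) ?_
    have h2 : (k : LL f) * xx f r = (k : LL f) * ee f g p r k ⟨1, by omega⟩ := by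
      rw [emid 1 (by omega) le_rfl, pow_one]
    rw [h2]; exact one _ _ _
  by_cases hj1 : j + 1 < 2 * g + 1
  · have h2 : xx f r * ee f g p r k ⟨j, hj⟩ = ((1 : ℤ) : LL f) * ee f g p r k ⟨j + 1, by omega⟩ := by
      rw [emid j (by omega) (by omega), emid (j + 1) hj1 (by omega)]; push_cast; ring
    rw [h2]; exact one _ _ _
  · have hj2 : j + 1 = 2 * g + 1 := by omega
    have h2 : xx f r * ee f g p r k ⟨j, hj⟩ = xx f r ^ (2 * g + 1) := by
      rw [emid j (by omega) (by omega), ← pow_succ', hj2]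
    -- `x ^ (2 g) = v - ...`
    have h3 : vv f g r = xx f r ^ (2 * g + 1) + (∑ l ∈ Ico 1 (2 * g + 1),
        ((bb f r (l + 1) : ℤ) : LL f) * xx f r ^ l + ((bb f r 1 : ℤ) : LL f)) := by
      rw [vv, sum_range_succ, bb_top hm hdeg, ← Nat.Ico_zero_eq_range,
        sum_eq_sum_Ico_succ_bot (by omega : 0 < 2 * g + 1)]
      push_cast
      ring
    have h4 : xx f r ^ (2 * g + 1) = ((p : ℤ) : LL f) * ee f g p r k ⟨2 * g + 1, by omega⟩ +
        ((∑ l ∈ Ico 1 (2 * g + 1), ((-(bb f r (l + 1)) : ℤ) : LL f) * xx f r ^ l) +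
          ((-(d1 + k) : ℤ) : LL f) * ee f g p r k ⟨0, by omega⟩) := by
      have h5 : ((p : ℤ) : LL f) * ee f g p r k ⟨2 * g + 1, by omega⟩ =
          vv f g r + ((p * k : ℤ) : LL f) := by
        rw [elast, Int.cast_natCast]
        exact smul_p hp _
      have h6 : ∑ l ∈ Ico 1 (2 * g + 1), ((-(bb f r (l + 1)) : ℤ) : LL f) * xx f r ^ l =
          -∑ l ∈ Ico 1 (2 * g + 1), ((bb f r (l + 1) : ℤ) : LL f) * xx f r ^ l := by
        rw [← sum_neg_distrib]
        refine sum_congr rfl fun l _ => ?_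
        push_cast; ring
      rw [h5, h6, e0, h3, h1]
      push_cast
      ring
    rw [h2, h4]
    refine add _ _ (one _ _ _) (add _ _ (ssum _ _ fun l hl => ?_) (one _ _ _))
    obtain ⟨hl1, hl2⟩ := mem_Ico.1 hl
    rw [← emid l hl2 hl1]
    exact one _ _ _

end WaAux

open WaAux in
theorem hWa (hCg : StCg) : StWa := by
  intro g hg f hm hdeg p r hp hp2 hf0 hf1
  have hp0 : p ≠ 0 := hp.ne_zero
  have hpQ : (p : ℚ) ≠ 0 := by exact_mod_cast hp0
  obtain ⟨c0, hc0⟩ := hf0
  obtain ⟨d1, hd1⟩ := hf1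
  have h0 : bb f r 0 = p ^ 2 * c0 := by rw [bb, taylor_coeff_zero, hc0]
  have h1 : bb f r 1 = p * d1 := by rw [bb, taylor_coeff_one, hd1]
  -- the choice of `k`
  obtain ⟨k, c1, hk⟩ : ∃ k c1 : ℤ, bb f r 1 + 2 * p * k = p ^ 2 * c1 := by
    have hcop : IsCoprime (2 : ℤ) (p : ℤ) := by
      rw [Int.isCoprime_iff_gcd_eq_one]
      have : Nat.Coprime 2 p := (Nat.coprime_primes Nat.prime_two hp).2 (Ne.symm hp2)
      exact_mod_cast this
    obtain ⟨u, w, huw⟩ := hcop
    refine ⟨-(d1 * u), d1 * w, ?_⟩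
    rw [h1]
    linear_combination (-(p : ℤ) * d1) * huw
  obtain ⟨b, hb, hdet⟩ := hCg g f hm hdeg 1
  have hmK := hm.map (Int.castRingHom ℚ)
  have hdK : (fK f).natDegree = 2 * g + 2 := by rw [hm.natDegree_map, hdeg]
  -- coordinates
  have hrepr : ∀ (z : LL f) (i : Jx g), b.repr z i = co hmK i z := by
    intro z i
    have h2 : z = ∑ i : Jx g, co hmK i z • b i := by
      conv_lhs => rw [sum_co hmK z, hdK]
      rw [← Fin.sum_univ_eq_sum_range (fun i => co hmK i z • AdjoinRoot.root (fK f) ^ i)]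
      refine sum_congr rfl fun i _ => ?_
      rw [hb]
    conv_lhs => rw [h2]
    rw [b.repr_sum_self]
  set e₀ : Jx g → LL f := ee f g p r k with he₀
  -- the matrix of the new basis
  have hP : ∀ i j : Jx g, j ≤ i → b.toMatrix e₀ i j =
      if i = j then (if (j : ℕ) = 0 then (p : ℚ) else if (j : ℕ) = 2 * g + 1 then (p : ℚ)⁻¹ else 1)
      else 0 := by
    intro i j hji
    have hji' : (j : ℕ) ≤ i := hji
    have hi2 := i.2
    have hc1 : ∀ a : ℤ, co hmK (i : ℕ) (a : LL f) = if (i : ℕ) = 0 then (a : ℚ) else 0 := by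
      intro a
      have := co_smul_int hm (i : ℕ) a (xx f r ^ 0)
      rw [pow_zero, mul_one] at this
      rw [this]
      have h3 := co_xx hm hdeg r (Nat.zero_le (2 * g + 1)) (i : ℕ) (Nat.zero_le _)
      rw [pow_zero] at h3
      rw [h3]
      split_ifs <;> simp
    rw [Module.Basis.toMatrix_apply, hrepr, he₀]
    unfold ee
    by_cases hij : i = j
    · subst hij
      rw [if_pos rfl]
      split_ifs with h2 h3
      · have := hc1 (p : ℤ)
        rw [if_pos h2] at this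
        exact_mod_cast this
      · rw [map_smul, map_add, hc1, if_neg h2, h3, co_vv hm hdeg]
        simp
      · rw [co_xx hm hdeg r (by omega) _ le_rfl, if_pos rfl]
    · rw [if_neg hij]
      have hlt : (j : ℕ) < i := lt_of_le_of_ne hji' fun h => hij (Fin.ext h.symm)
      split_ifs with h2 h3
      · have := hc1 (p : ℤ)
        rw [if_neg (by omega)] at this
        exact_mod_cast this
      · omega
      · rw [co_xx hm hdeg r (by omega) _ hlt.le, if_neg (by omega)]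
  have hPdet : (b.toMatrix e₀).det = 1 := by
    rw [Matrix.det_of_isUpperTriangular]
    · rw [Finset.prod_eq_mul (⟨0, by omega⟩ : Jx g) (⟨2 * g + 1, by omega⟩ : Jx g)]
      · rw [hP _ _ le_rfl, hP _ _ le_rfl, if_pos rfl, if_pos rfl, if_pos rfl,
          if_neg (by simp), if_pos rfl, mul_inv_cancel₀ hpQ]
      · intro h
        have := congrArg Fin.val h
        simp at this
      · rintro c - ⟨h2, h3⟩
        rw [hP _ _ le_rfl, if_pos rfl, if_neg fun h => h2 (Fin.ext h),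
          if_neg fun h => h3 (Fin.ext h)]
      · intro h; exact absurd (mem_univ _) h
      · intro h; exact absurd (mem_univ _) h
    · intro i j hij
      have hij' : j < i := hij
      rw [hP i j hij'.le, if_neg hij'.ne']
  have hunit : IsUnit (b.det e₀) := by
    rw [Module.Basis.det_apply, hPdet]; exact isUnit_one
  obtain ⟨hli, hsp⟩ := (Module.Basis.is_basis_iff_det b).2 hunit
  set e : Module.Basis (Jx g) ℚ (LL f) := Module.Basis.mk hli hsp.ge with he
  have hee : ∀ i, e i = e₀ i := fun i => Module.Basis.mk_apply hli hsp.ge i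
  -- the Gram matrix
  have hgram : ∀ i j : Jx g, ∃ a : ℤ, Bf hm 1 (e i) (e j) = a := by
    intro i j
    rw [Bf_apply, one_mul, hee, hee]
    exact gram_int hm hg hdeg r k hp0 h0 hk i j
  choose B hB using hgram
  have hmat : ∀ j : Jx g, ∃ t : Jx g → ℤ, th f * e j = ∑ i, ((t i : ℤ) : ℚ) • e i := by
    intro j
    simp only [hee]
    exact mat_int hm hg hdeg r k hp0 h0 h1 j
  choose T hT using hmat
  refine ⟨e, Matrix.of B, Matrix.of fun i j => T j i, ⟨?_, ?_, ?_⟩, ?_, ?_⟩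
  · intro i j
    rw [hB]; rfl
  · -- the determinant
    have hG1 : LinearMap.BilinForm.toMatrix e (Bf hm 1) = (Matrix.of B).map (Int.castRingHom ℚ) := by
      ext i j
      rw [LinearMap.BilinForm.toMatrix_apply, hB]; rfl
    have hG2 : LinearMap.BilinForm.toMatrix b (Bf hm 1) =
        Matrix.of fun i j => Bf hm 1 (b i) (b j) := by
      ext i j
      rw [LinearMap.BilinForm.toMatrix_apply]; rfl
    have h2 := LinearMap.BilinForm.toMatrix_mul_basis_toMatrix (b := b) e (Bf hm 1)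
    have h3 := congrArg Matrix.det h2
    rw [Matrix.det_mul, Matrix.det_mul, Matrix.det_transpose] at h3
    have h4 : b.toMatrix e = b.toMatrix e₀ := by
      congr 1
      exact funext hee
    rw [h4, hPdet, hG1, hG2, hdet, map_one, one_mul, mul_one, mul_one, ← RingHom.mapMatrix_apply,
      ← RingHom.map_det] at h3
    have h5 : (Matrix.of B).det = (-1) ^ (g + 1) := by
      have h6 : (((-1 : ℤ) ^ (g + 1) : ℤ) : ℚ) = (-1) ^ (g + 1) := by push_cast; rfl
      rw [eq_intCast] at h3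
      exact Int.cast_injective (α := ℚ) (h3.symm.trans h6.symm)
    rw [h5]
    exact (isUnit_neg_one).pow (g + 1)
  · intro j
    rw [hT]; rfl
  · intro i
    rw [inR_iff, hee]
    exact ee_mem_S r k hp0 i
  · intro i hi
    rw [hee, he₀]
    unfold ee
    split_ifs with h2 h3
    · rw [h2, pow_zero, mul_one]
    · omega
    · rw [one_mul]; rfl

end Pool.Agent.Helper3.EV
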