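import Pool.Agent.Helper3.EV.StC
import Pool.Agent.Helper54.HQ.M_Mc
import Pool.Agent.Helper54.HQ.Base

/-!
# EV, module Wb: roots and derivative in the region
-/

set_option autoImplicit false

namespace Pool.Agent.Helper3.EV

open Polynomial Finset Filter Topology Matrix IsDedekindDomain
open Pool.Agent.Helper3.HY (co tau)
open Pool.Agent.Helper54.HQ (Prm pz factPrm fK RR LL algRL th kp red Bf Smooth NearOne LocSq Weak Fam qS
  toR IsRed rts evc met InR IsIdl EvenAt)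

private lemma geom_Wb (n : ℕ) : (∑ i ∈ range n, (2 : ℝ) ^ i) ≤ 2 ^ n := by
  induction n with
  | zero => simp
  | succ n ih => rw [sum_range_succ, pow_succ]; linarith

theorem hWb : StWb := by
  have h := Pool.Agent.Helper54.HQ.hMc
  intro g H hg f hf
  obtain ⟨hm, hdeg, hc, hc1, hc2⟩ := hf
  have hFam : f ∈ Fam (2 * g + 2) H := by
    refine ⟨hm, hdeg, fun i hi => ?_⟩
    have hHn : (0 : ℤ) ≤ (H : ℤ) ^ (2 * g + 2 - i) := by positivity
    rcases Nat.eq_zero_or_pos i with h0 | h0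
    · subst h0
      have h5 : (0 : ℤ) ≤ (H : ℤ) ^ (2 * g + 2) := by positivity
      have e : (H : ℤ) ^ (2 * g + 2 - 0) = (H : ℤ) ^ (2 * g + 2) := by simp
      rw [abs_le, e]
      constructor <;> linarith
    rcases Nat.lt_or_ge (2 * g + 1) i with h1 | h1
    · have e : i = 2 * g + 2 := by omega
      subst e
      have e2 : f.coeff (2 * g + 2) = 1 := by
        rw [← hdeg]; exact hm.coeff_natDegree
      rw [e2]; simp
    · have h2 := hc i h0 h1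
      have h3 : (1 : ℤ) ≤ 2 ^ (2 * g + 6) := one_le_pow₀ (by norm_num)
      nlinarith [abs_nonneg (f.coeff i)]
  refine ⟨hFam, fun ρ hρ => ?_⟩
  have hr := h (2 * g + 2) H f hFam ρ hρ
  rcases Nat.eq_zero_or_pos H with h0 | hH
  · subst h0
    have e : ((0 : ℕ) : ℝ) ^ (2 * g + 1) = 0 := by
      rw [Nat.cast_zero]; exact zero_pow (by omega)
    rw [e]; simp
  have hHR : (1 : ℝ) ≤ (H : ℝ) := by exact_mod_cast hH
  have hH0 : (0 : ℝ) < (H : ℝ) := by linarith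
  -- coefficients
  have hcoef : ∀ i, 1 ≤ i → i ≤ 2 * g + 1 →
      2 ^ (2 * g + 6) * |((f.coeff i : ℤ) : ℝ)| ≤ (H : ℝ) ^ (2 * g + 2 - i) := by
    intro i h1 h2
    have := hc i h1 h2
    exact_mod_cast this
  have hroot : aeval ρ f = 0 := by
    unfold rts at hρ
    rw [Multiset.mem_toFinset, Polynomial.mem_roots'] at hρ
    have := hρ.2
    rw [Polynomial.IsRoot.def, Polynomial.eval_map] at this
    rw [Polynomial.aeval_def]
    exact this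
  have hlead : f.coeff (2 * g + 2) = 1 := by rw [← hdeg]; exact hm.coeff_natDegree
  have hexp : ρ ^ (2 * g + 2) = -((f.coeff 0 : ℤ) : ℂ) -
      ∑ i ∈ range (2 * g + 1), ((f.coeff (i + 1) : ℤ) : ℂ) * ρ ^ (i + 1) := by
    rw [Polynomial.aeval_eq_sum_range, hdeg, sum_range_succ, sum_range_succ', hlead] at hroot
    simp only [zsmul_eq_mul, pow_zero, mul_one, Int.cast_one, one_mul] at hroot
    linear_combination hroot
  have hsum1 : ‖∑ i ∈ range (2 * g + 1), ((f.coeff (i + 1) : ℤ) : ℂ) * ρ ^ (i + 1)‖ ≤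
      (H : ℝ) ^ (2 * g + 2) / 16 := by
    have hb : ∀ i ∈ range (2 * g + 1), ‖((f.coeff (i + 1) : ℤ) : ℂ) * ρ ^ (i + 1)‖ ≤
        ((H : ℝ) ^ (2 * g + 2) / 2 ^ (2 * g + 6) * 2) * 2 ^ i := by
      intro i hi
      rw [mem_range] at hi
      have h1 := hcoef (i + 1) (by omega) (by omega)
      rw [norm_mul, norm_pow, Complex.norm_intCast]
      have h2 : |((f.coeff (i + 1) : ℤ) : ℝ)| ≤ (H : ℝ) ^ (2 * g + 2 - (i + 1)) / 2 ^ (2 * g + 6) := by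
        rw [le_div_iff₀ (by positivity)]; linarith
      have h3 : ‖ρ‖ ^ (i + 1) ≤ (2 * (H : ℝ)) ^ (i + 1) := pow_le_pow_left₀ (norm_nonneg _) hr _
      have h4 : (H : ℝ) ^ (2 * g + 2) = (H : ℝ) ^ (2 * g + 2 - (i + 1)) * (H : ℝ) ^ (i + 1) := by
        rw [← pow_add]; congr 1; omega
      calc |((f.coeff (i + 1) : ℤ) : ℝ)| * ‖ρ‖ ^ (i + 1)
          ≤ ((H : ℝ) ^ (2 * g + 2 - (i + 1)) / 2 ^ (2 * g + 6)) * (2 * (H : ℝ)) ^ (i + 1) :=
            mul_le_mul h2 h3 (by positivity) (by positivity)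
        _ = _ := by rw [h4, mul_pow, pow_succ (2 : ℝ) i]; ring
    refine (norm_sum_le _ _).trans ((sum_le_sum hb).trans ?_)
    rw [← mul_sum]
    have hg2 := geom_Wb (2 * g + 1)
    calc (H : ℝ) ^ (2 * g + 2) / 2 ^ (2 * g + 6) * 2 * ∑ i ∈ range (2 * g + 1), (2 : ℝ) ^ i
        ≤ (H : ℝ) ^ (2 * g + 2) / 2 ^ (2 * g + 6) * 2 * 2 ^ (2 * g + 1) :=
          mul_le_mul_of_nonneg_left hg2 (by positivity)
      _ = (H : ℝ) ^ (2 * g + 2) / 16 := by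
          rw [pow_add (2 : ℝ) (2 * g + 1) 5]
          field_simp
          norm_num
  have hc0 : (H : ℝ) ^ (2 * g + 2) / 2 ≤ ‖-((f.coeff 0 : ℤ) : ℂ)‖ := by
    rw [norm_neg, Complex.norm_intCast]
    have h1 : (H : ℝ) ^ (2 * g + 2) ≤ 2 * ((f.coeff 0 : ℤ) : ℝ) := by exact_mod_cast hc1
    have h2 := le_abs_self ((f.coeff 0 : ℤ) : ℝ)
    linarith
  have hlow : 7 * (H : ℝ) ^ (2 * g + 2) / 16 ≤ ‖ρ‖ ^ (2 * g + 2) := by
    rw [← norm_pow, hexp]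
    have h1 := norm_sub_norm_le (-((f.coeff 0 : ℤ) : ℂ))
      (∑ i ∈ range (2 * g + 1), ((f.coeff (i + 1) : ℤ) : ℂ) * ρ ^ (i + 1))
    linarith
  have hlow2 : 7 * (H : ℝ) ^ (2 * g + 1) / 32 ≤ ‖ρ‖ ^ (2 * g + 1) := by
    have h1 : ‖ρ‖ ^ (2 * g + 2) ≤ ‖ρ‖ ^ (2 * g + 1) * (2 * H) := by
      rw [pow_succ]; exact mul_le_mul_of_nonneg_left hr (by positivity)
    have h2 : (H : ℝ) ^ (2 * g + 2) = (H : ℝ) ^ (2 * g + 1) * H := pow_succ _ _
    rw [h2] at hlow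
    have h3 : (7 * (H : ℝ) ^ (2 * g + 1) / 32) * (2 * H) ≤ ‖ρ‖ ^ (2 * g + 1) * (2 * H) := by
      refine le_trans (le_of_eq ?_) (hlow.trans h1)
      ring
    exact le_of_mul_le_mul_right h3 (by positivity)
  -- the derivative
  have hder : aeval ρ (derivative f) = ((2 * g + 2 : ℕ) : ℂ) * ρ ^ (2 * g + 1) +
      ∑ i ∈ range (2 * g + 1), ((f.coeff (i + 1) : ℤ) : ℂ) * ((i : ℂ) + 1) * ρ ^ i := by
    rw [Polynomial.aeval_eq_sum_range' (n := 2 * g + 2), sum_range_succ]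
    · simp only [Polynomial.coeff_derivative, zsmul_eq_mul, hlead]
      push_cast
      ring
    · have := Polynomial.natDegree_derivative_lt (p := f) (by omega)
      omega
  have hsum2 : ‖∑ i ∈ range (2 * g + 1), ((f.coeff (i + 1) : ℤ) : ℂ) * ((i : ℂ) + 1) * ρ ^ i‖ ≤
      (2 * g + 2) * (H : ℝ) ^ (2 * g + 1) / 32 := by
    have hb : ∀ i ∈ range (2 * g + 1), ‖((f.coeff (i + 1) : ℤ) : ℂ) * ((i : ℂ) + 1) * ρ ^ i‖ ≤
        ((2 * g + 2) * (H : ℝ) ^ (2 * g + 1) / 2 ^ (2 * g + 6)) * 2 ^ i := by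
      intro i hi
      rw [mem_range] at hi
      have h1 := hcoef (i + 1) (by omega) (by omega)
      rw [norm_mul, norm_mul, norm_pow, Complex.norm_intCast]
      have h2 : |((f.coeff (i + 1) : ℤ) : ℝ)| ≤ (H : ℝ) ^ (2 * g + 2 - (i + 1)) / 2 ^ (2 * g + 6) := by
        rw [le_div_iff₀ (by positivity)]; linarith
      have h3 : ‖ρ‖ ^ i ≤ (2 * (H : ℝ)) ^ i := pow_le_pow_left₀ (norm_nonneg _) hr _
      have h4 : (H : ℝ) ^ (2 * g + 1) = (H : ℝ) ^ (2 * g + 2 - (i + 1)) * (H : ℝ) ^ i := by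
        rw [← pow_add]; congr 1; omega
      have h5 : ‖(i : ℂ) + 1‖ ≤ 2 * g + 2 := by
        have e : ((i : ℂ) + 1) = ((i + 1 : ℕ) : ℂ) := by push_cast; ring
        rw [e, Complex.norm_natCast]
        have : i + 1 ≤ 2 * g + 2 := by omega
        exact_mod_cast this
      calc |((f.coeff (i + 1) : ℤ) : ℝ)| * ‖(i : ℂ) + 1‖ * ‖ρ‖ ^ i
          ≤ ((H : ℝ) ^ (2 * g + 2 - (i + 1)) / 2 ^ (2 * g + 6)) * (2 * g + 2) *
            (2 * (H : ℝ)) ^ i :=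
            mul_le_mul (mul_le_mul h2 h5 (norm_nonneg _) (by positivity)) h3 (by positivity)
              (by positivity)
        _ = _ := by rw [h4, mul_pow]; ring
    refine (norm_sum_le _ _).trans ((sum_le_sum hb).trans ?_)
    rw [← mul_sum]
    have hg2 := geom_Wb (2 * g + 1)
    calc (2 * g + 2) * (H : ℝ) ^ (2 * g + 1) / 2 ^ (2 * g + 6) * ∑ i ∈ range (2 * g + 1), (2 : ℝ) ^ i
        ≤ (2 * g + 2) * (H : ℝ) ^ (2 * g + 1) / 2 ^ (2 * g + 6) * 2 ^ (2 * g + 1) :=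
          mul_le_mul_of_nonneg_left hg2 (by positivity)
      _ = (2 * g + 2) * (H : ℝ) ^ (2 * g + 1) / 32 := by
          rw [pow_add (2 : ℝ) (2 * g + 1) 5]
          field_simp
          norm_num
  have hmain : ‖((2 * g + 2 : ℕ) : ℂ) * ρ ^ (2 * g + 1)‖ -
      ‖∑ i ∈ range (2 * g + 1), ((f.coeff (i + 1) : ℤ) : ℂ) * ((i : ℂ) + 1) * ρ ^ i‖ ≤
      ‖aeval ρ (derivative f)‖ := by
    rw [hder]
    have := norm_sub_norm_le (((2 * g + 2 : ℕ) : ℂ) * ρ ^ (2 * g + 1))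
      (-∑ i ∈ range (2 * g + 1), ((f.coeff (i + 1) : ℤ) : ℂ) * ((i : ℂ) + 1) * ρ ^ i)
    rw [norm_neg, sub_neg_eq_add] at this
    exact this
  have hN : ‖((2 * g + 2 : ℕ) : ℂ) * ρ ^ (2 * g + 1)‖ = (2 * g + 2) * ‖ρ‖ ^ (2 * g + 1) := by
    rw [norm_mul, Complex.norm_natCast, norm_pow]
    push_cast; ring
  rw [hN] at hmain
  have hk : (2 * (g : ℝ) + 2) * (7 * (H : ℝ) ^ (2 * g + 1) / 32) ≤ (2 * g + 2) * ‖ρ‖ ^ (2 * g + 1) :=
    mul_le_mul_of_nonneg_left hlow2 (by positivity)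
  have hP : 0 ≤ (H : ℝ) ^ (2 * g + 1) := by positivity
  have hgg : 0 ≤ (g : ℝ) * (H : ℝ) ^ (2 * g + 1) := by positivity
  have e1 : (2 * (g : ℝ) + 2) * (7 * (H : ℝ) ^ (2 * g + 1) / 32) =
    14 / 32 * ((g : ℝ) * (H : ℝ) ^ (2 * g + 1)) + 14 / 32 * (H : ℝ) ^ (2 * g + 1) := by ring
  have e2 : (2 * (g : ℝ) + 2) * (H : ℝ) ^ (2 * g + 1) / 32 =
    2 / 32 * ((g : ℝ) * (H : ℝ) ^ (2 * g + 1)) + 2 / 32 * (H : ℝ) ^ (2 * g + 1) := by ring
  linarith

end Pool.Agent.Helper3.EV
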