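import Pool.Agent.Helper3.EV.StC
import Pool.Agent.Helper54.HQ.M_Ma
import Pool.Agent.Helper54.HQ.M_Mc

/-!
# EV, module Wc: size of the powers of `θ`
-/

set_option autoImplicit false

namespace Pool.Agent.Helper3.EV

open Polynomial Finset Filter Topology Matrix IsDedekindDomain
open Pool.Agent.Helper3.HY (co tau)
open Pool.Agent.Helper54.HQ (Prm pz factPrm fK RR LL algRL th kp red Bf Smooth NearOne LocSq Weak Fam qS
  toR IsRed rts evc met InR IsIdl EvenAt)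

theorem hWc (h4 : StWb) : StWc := by
  intro g H hg hH f hf hm k _
  obtain ⟨hfam, hder⟩ := h4 g H hg f hf
  have hdeg : f.natDegree = 2 * g + 2 := hf.2.1
  obtain ⟨-, hmul, hth, -, -⟩ := Pool.Agent.Helper54.HQ.hMa f hm (by omega)
  have hH0 : (0 : ℝ) < H := by exact_mod_cast hH
  have hpow : ∀ ρ ∈ rts f, ∀ k : ℕ, evc hm ρ (th f ^ k) = ρ ^ k := by
    intro ρ hρ k
    induction k with
    | zero => rw [pow_zero, pow_zero]; exact (hth ρ hρ).2
    | succ k ih => rw [pow_succ, hmul ρ hρ, ih, (hth ρ hρ).1, pow_succ]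
  have hterm : ∀ ρ ∈ rts f, ‖evc hm ρ 1‖ * ‖evc hm ρ (th f ^ k)‖ ^ 2 /
      ‖aeval ρ (derivative f)‖ ≤ 16 * (2 * (H : ℝ)) ^ (2 * k) / (H : ℝ) ^ (2 * g + 1) := by
    intro ρ hρ
    have e1 := hder ρ hρ
    have e2 := Pool.Agent.Helper54.HQ.hMc (2 * g + 2) H f hfam ρ hρ
    have e3 : 0 < (H : ℝ) ^ (2 * g + 1) := by positivity
    have e4 : 0 < ‖aeval ρ (derivative f)‖ := lt_of_lt_of_le (by positivity) e1
    rw [(hth ρ hρ).2, hpow ρ hρ k, norm_one, one_mul, norm_pow, ← pow_mul, mul_comm k 2,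
      div_le_div_iff₀ e4 e3]
    have e5 : ‖ρ‖ ^ (2 * k) ≤ (2 * (H : ℝ)) ^ (2 * k) :=
      pow_le_pow_left₀ (norm_nonneg _) e2 _
    have e6 : 0 ≤ (2 * (H : ℝ)) ^ (2 * k) := by positivity
    have e7 : (H : ℝ) ^ (2 * g + 1) ≤ 16 * ‖aeval ρ (derivative f)‖ := by linarith
    calc ‖ρ‖ ^ (2 * k) * (H : ℝ) ^ (2 * g + 1)
        ≤ (2 * (H : ℝ)) ^ (2 * k) * (16 * ‖aeval ρ (derivative f)‖) :=
          mul_le_mul e5 e7 e3.le e6
      _ = 16 * (2 * (H : ℝ)) ^ (2 * k) * ‖aeval ρ (derivative f)‖ := by ring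
  have hcard : ((rts f).card : ℝ) ≤ 2 * g + 2 := by
    have e1 : (rts f).card ≤ 2 * g + 2 := by
      refine (Multiset.toFinset_card_le _).trans ?_
      refine (Polynomial.card_roots' _).trans ?_
      refine natDegree_map_le.trans ?_
      rw [hdeg]
    exact_mod_cast e1
  have e3 : 0 < (H : ℝ) ^ (2 * g + 1) := by positivity
  have hsum : met hm 1 (th f ^ k) ≤
      (2 * g + 2) * (16 * (2 * (H : ℝ)) ^ (2 * k) / (H : ℝ) ^ (2 * g + 1)) := by
    refine (Finset.sum_le_sum hterm).trans ?_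
    rw [Finset.sum_const, nsmul_eq_mul]
    exact mul_le_mul_of_nonneg_right hcard (by positivity)
  calc met hm 1 (th f ^ k) * (H : ℝ) ^ (2 * g + 1)
      ≤ (2 * g + 2) * (16 * (2 * (H : ℝ)) ^ (2 * k) / (H : ℝ) ^ (2 * g + 1)) *
        (H : ℝ) ^ (2 * g + 1) := mul_le_mul_of_nonneg_right hsum e3.le
    _ = 16 * (2 * g + 2) * (2 * (H : ℝ)) ^ (2 * k) := by
        field_simp

end Pool.Agent.Helper3.EV
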