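import Pool.Agent.Helper3.EV.StR
import Pool.Agent.Helper54.HQ.Base

/-!
# EV: Mf, algebra of integral structures
-/

set_option autoImplicit false

namespace Pool.Agent.Helper3.EV

open Polynomial Finset Filter Topology Matrix IsDedekindDomain
open Pool.Agent.Helper3.HY (co tau)
open Pool.Agent.Helper54.HQ (Prm pz factPrm fK RR LL algRL th kp red Bf Smooth NearOne LocSq Weak Fam qS Bf_apply)
open Pool.Agent.Helper3

theorem hMf : StMf := by
  classical
  intro g f hm hdeg hirr z e B T hI
  obtain ⟨hgram, hunit, hmat⟩ := hI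
  have hmK : (fK f).Monic := hm.map _
  have hsym : ∀ i j, B i j = B j i := by
    intro i j
    have h1 : ((B i j : ℤ) : ℚ) = ((B j i : ℤ) : ℚ) := by
      rw [← hgram, ← hgram, Bf_apply, Bf_apply, mul_right_comm]
    exact_mod_cast h1
  have hBsymm : B.IsSymm := by
    ext i j
    exact hsym j i
  have hBT : ∀ i j, Bf hm z (th f * e i) (e j) = (((B * T) i j : ℤ) : ℚ) := by
    intro i j
    have h1 : Bf hm z (th f * e i) (e j) = Bf hm z (e i) (th f * e j) := by
      rw [Bf_apply, Bf_apply]
      congr 1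
      ring
    rw [h1, hmat, map_sum, Matrix.mul_apply]
    push_cast
    apply Finset.sum_congr rfl
    intro k _
    rw [map_smul, hgram, smul_eq_mul]
    ring
  have hBTsymm : (B * T).IsSymm := by
    ext i j
    have h1 : (((B * T) j i : ℤ) : ℚ) = (((B * T) i j : ℤ) : ℚ) := by
      rw [← hBT, ← hBT, Bf_apply, Bf_apply]
      congr 1
      ring
    exact_mod_cast h1
  -- the characteristic polynomial
  have hTmat : T.map (Int.castRingHom ℚ) =
      LinearMap.toMatrix e e (LinearMap.mulLeft ℚ (th f)) := by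
    ext i j
    rw [LinearMap.toMatrix_apply, LinearMap.mulLeft_apply, hmat, map_sum, Finsupp.finsetSum_apply]
    simp [Finsupp.single_apply]
  have hchar : T.charpoly = f := by
    apply Polynomial.map_injective (Int.castRingHom ℚ) Int.cast_injective
    have hfin : Module.Finite ℚ (AdjoinRoot (fK f)) := Module.Finite.of_basis e
    rw [← Matrix.charpoly_map, hTmat, LinearMap.charpoly_toMatrix]
    set pb := AdjoinRoot.powerBasis hirr.ne_zero with hpb
    have h1 := charpoly_leftMulMatrix pb
    rw [hpb, AdjoinRoot.powerBasis_gen] at h1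
    rw [AdjoinRoot.minpoly_root hirr.ne_zero, hmK.leadingCoeff, inv_one, C_1, mul_one] at h1
    rw [Algebra.leftMulMatrix_apply, LinearMap.charpoly_toMatrix] at h1
    exact h1
  refine ⟨hBsymm, hBTsymm, hchar, ?_, hBT⟩
  rw [IsChi]
  have h1 : ((X : ℤ[X]) • (B, B * T).1.map (C : ℤ → ℤ[X]) - (B, B * T).2.map (C : ℤ → ℤ[X])) =
      B.map (C : ℤ → ℤ[X]) * T.charmatrix := by
    rw [Matrix.charmatrix, mul_sub, Matrix.map_mul]
    congr 1
    rw [Matrix.scalar_apply, ← Matrix.smul_one_eq_diagonal, Matrix.mul_smul, mul_one]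
  rw [h1, Matrix.det_mul, ← Matrix.charpoly, hchar]
  congr 1
  exact (RingHom.map_det (C : ℤ →+* ℤ[X]) B)

end Pool.Agent.Helper3.EV
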