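import Pool.Agent.Helper3.EV.StC
import Pool.Agent.Helper3.EV.M_Mf
import Pool.Agent.Helper54.HQ.Base

/-!
# EV module Wd: distinguished lattices, the determinant of the pairing
-/

set_option autoImplicit false

namespace Pool.Agent.Helper3.EV

open Polynomial Finset Filter Topology Matrix IsDedekindDomain
open Pool.Agent.Helper3.HY (co tau co_mk)
open Pool.Agent.Helper54.HQ (Prm pz factPrm fK RR LL algRL th kp red Bf Smooth NearOne LocSq Weak Fam qS
  toR IsRed rts evc met InR IsIdl EvenAt Bf_apply natDegree_fK)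
open Pool.Agent.Helper3

private theorem span_zero_Wd {V : Type*} [AddCommGroup V] [Module ℚ V] (B : V →ₗ[ℚ] V →ₗ[ℚ] ℚ)
    (s t : Set V) (h : ∀ x ∈ s, ∀ y ∈ t, B x y = 0) :
    ∀ x ∈ Submodule.span ℚ s, ∀ y ∈ Submodule.span ℚ t, B x y = 0 := by
  intro x hx y hy
  induction hx using Submodule.span_induction with
  | mem x hx =>
    induction hy using Submodule.span_induction with
    | mem y hy => exact h x hx y hy
    | zero => rw [map_zero]
    | add y z _ _ h1 h2 => rw [map_add, h1, h2, add_zero]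
    | smul c y _ h1 => rw [map_smul, h1, smul_zero]
  | zero => rw [map_zero, LinearMap.zero_apply]
  | add x z _ _ h1 h2 => rw [map_add, LinearMap.add_apply, h1, h2, add_zero]
  | smul c x _ h1 => rw [map_smul, LinearMap.smul_apply, h1, smul_zero]

private theorem tau_mk_Wd {g : ℕ} {f : ℤ[X]} (hm : f.Monic) (hN : f.natDegree = 2 * g + 2) (q : ℚ[X])
    (hq : q.natDegree ≤ 2 * g + 1) :
    tau (hm.map (Int.castRingHom ℚ)) (AdjoinRoot.mk (fK f) q) = q.coeff (2 * g + 1) := by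
  have h1 : (fK f).natDegree = 2 * g + 2 := by rw [natDegree_fK hm, hN]
  have h2 : q %ₘ fK f = q := by
    rw [modByMonic_eq_self_iff (hm.map _)]
    have h3 : q.natDegree < (fK f).natDegree := by rw [h1]; omega
    exact degree_lt_degree h3
  unfold tau
  rw [co_mk, h2, h1]
  rfl

/-- the first `g + 1` indices -/
private def emb_Wd (g : ℕ) : Fin (g + 1) ≃ {i : Jx g // (i : ℕ) ≤ g} where
  toFun i := ⟨⟨i, by omega⟩, Nat.lt_succ_iff.1 i.2⟩
  invFun i := ⟨i.1, Nat.lt_succ_iff.2 i.2⟩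
  left_inv i := rfl
  right_inv i := rfl

theorem hWd (hCh1 : StCh1) : StWd := by
  intro g hg f hm hN hfact hrat p r e he U e' B' T' hU he' hint hTL
  have hirr : Irreducible (fK f) := Fact.out
  have hlt : ∀ i : Fin (g + 1), (i : ℕ) < 2 * g + 2 := fun i => by omega
  have hle : ∀ i : Fin (g + 1), (i : ℕ) ≤ g := fun i => by omega
  obtain ⟨hBs, hBTs, hchar, hchi, hth⟩ := hMf g f hm hN hirr 1 e' B' T' hint
  -- the spaces `X`, `Y`
  set ι : Fin (g + 1) → Jx g := fun i => ⟨i, hlt i⟩ with hι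
  have hιinj : Function.Injective ι := by
    intro i j hij
    rw [Fin.ext_iff] at hij ⊢
    exact hij
  have hcinj : Function.Injective (Fin.castSucc : Fin g → Fin (g + 1)) := Fin.castSucc_injective g
  set X : Submodule ℚ (LL f) :=
    Submodule.span ℚ (Set.range fun i : Fin g => e' (ι i.castSucc)) with hX
  set Z : Submodule ℚ (LL f) := Submodule.span ℚ (Set.range fun i : Fin (g + 1) => e' (ι i)) with hZ
  have hXr : Module.finrank ℚ X = g := by
    have h3 := finrank_span_eq_card (R := ℚ)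
      (e'.linearIndependent.comp (ι ∘ Fin.castSucc) (hιinj.comp hcinj))
    rw [Fintype.card_fin] at h3
    exact h3
  have hZr : Module.finrank ℚ Z = g + 1 := by
    have h3 := finrank_span_eq_card (R := ℚ) (e'.linearIndependent.comp ι hιinj)
    rw [Fintype.card_fin] at h3
    exact h3
  have hXZ : X ≤ Z := by
    rw [hX, hZ]
    apply Submodule.span_mono
    rintro _ ⟨i, rfl⟩
    exact ⟨i.castSucc, rfl⟩
  have hB0 : ∀ x ∈ Z, ∀ y ∈ Z, Bf hm 1 x y = 0 := by
    refine span_zero_Wd (Bf hm 1) _ _ ?_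
    rintro _ ⟨i, rfl⟩ _ ⟨j, rfl⟩
    have h3 : B' (ι i) (ι j) = 0 := hTL.1 (ι i) (ι j) (hle i) (hle j)
    rw [hint.gram, h3, Int.cast_zero]
  have hBT0 : ∀ x ∈ X, ∀ y ∈ Z, Bf hm 1 (th f * x) y = 0 := by
    refine span_zero_Wd ((Bf hm 1) ∘ₗ LinearMap.mulLeft ℚ (th f)) _ _ ?_
    rintro _ ⟨i, rfl⟩ _ ⟨j, rfl⟩
    have h3 : (B' * T') (ι i.castSucc) (ι j) = 0 := hTL.2 (ι i.castSucc) (ι j) i.2 (hle j)
    rw [LinearMap.comp_apply, LinearMap.mulLeft_apply, hth, h3, Int.cast_zero]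
  obtain ⟨v, c, hv0, hc0, hvc, -, hZv⟩ := hCh1 g hg f hm hN 1 one_ne_zero X Z hXZ hXr hZr hB0 hBT0
  rw [one_mul] at hvc
  obtain ⟨s', hs'⟩ := hrat v c hvc
  -- the span of the first `g + 1` vectors of `e`
  set Y : Submodule ℚ (LL f) := Submodule.span ℚ (e '' {i | (i : ℕ) ≤ g}) with hY
  have hp0 : p ≠ 0 := by
    intro hp0
    have h3 := he ⟨0, by omega⟩ (by simp)
    rw [if_pos rfl, hp0, Nat.cast_zero, zero_mul] at h3
    exact e.ne_zero _ h3
  have hYr : ∀ k : ℕ, k ≤ g → (th f - (r : LL f)) ^ k ∈ Y := by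
    intro k hk
    have h3 := he ⟨k, by omega⟩ hk
    have h4 : e ⟨k, by omega⟩ ∈ Y := Submodule.subset_span ⟨_, hk, rfl⟩
    by_cases hk0 : k = 0
    · subst hk0
      rw [if_pos rfl, pow_zero, mul_one] at h3
      rw [h3] at h4
      have h5 := Y.smul_mem ((p : ℚ)⁻¹) h4
      have h6 : ((p : ℚ)⁻¹) • (p : LL f) = 1 := by
        have h7 : (p : LL f) = (p : ℚ) • (1 : LL f) := by
          rw [Algebra.smul_def, mul_one, map_natCast]
        rw [h7, smul_smul, inv_mul_cancel₀ (by exact_mod_cast hp0), one_smul]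
      rw [h6] at h5
      rw [pow_zero]
      exact h5
    · rw [if_neg hk0, one_mul] at h3
      rw [← h3]
      exact h4
  have hYth : ∀ k : ℕ, k ≤ g → th f ^ k ∈ Y := by
    intro k hk
    have h3 : th f = (th f - (r : LL f)) + (r : LL f) := by ring
    rw [h3, add_pow]
    refine Submodule.sum_mem _ fun l hl => ?_
    rw [Finset.mem_range] at hl
    have h4 : (th f - (r : LL f)) ^ l * (r : LL f) ^ (k - l) * ((k.choose l : ℕ) : LL f) =
        ((r : ℚ) ^ (k - l) * (k.choose l : ℚ)) • (th f - (r : LL f)) ^ l := by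
      rw [Algebra.smul_def, map_mul, map_pow, map_intCast, map_natCast]
      ring
    rw [h4]
    exact Y.smul_mem _ (hYr l (by omega))
  have hXY : Z ≤ Y := by
    rw [hZv, Submodule.span_le]
    rintro _ ⟨i, rfl⟩
    have h3 : th f ^ (i : ℕ) * v = s' • th f ^ (i : ℕ) := by
      rw [hs', mul_comm]
      exact (Algebra.smul_def _ _).symm
    simp only [SetLike.mem_coe]
    rw [h3]
    exact Y.smul_mem _ (hYth i (hle i))
  have hU0 : ∀ i j : Jx g, ¬ (i : ℕ) ≤ g → (j : ℕ) ≤ g → U i j = 0 := by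
    intro i j hi hj
    have h3 : e' j ∈ Y := hXY (Submodule.subset_span ⟨⟨j, Nat.lt_succ_iff.2 hj⟩, rfl⟩)
    rw [hY, Module.Basis.mem_span_image] at h3
    by_contra h4
    refine hi (h3 ?_)
    rw [Finset.mem_coe, Finsupp.mem_support_iff, he' j, Module.Basis.repr_sum_self]
    exact_mod_cast h4
  -- the block
  set U₁ : Matrix (Fin (g + 1)) (Fin (g + 1)) ℤ := Matrix.of fun i j => U (ι i) (ι j) with hU₁
  have hU₁u : IsUnit U₁.det := by
    have h3 := Matrix.twoBlockTriangular_det U (fun i : Jx g => (i : ℕ) ≤ g)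
      fun i hi j hj => hU0 i j hi hj
    have h4 : U₁.det = (toSquareBlockProp U (fun i : Jx g => (i : ℕ) ≤ g)).det := by
      rw [← Matrix.det_submatrix_equiv_self (emb_Wd g)]
      rfl
    rw [h3, ← h4] at hU
    exact isUnit_of_mul_isUnit_left hU
  -- the pairing for `e`
  set P0 : Matrix (Fin (g + 1)) (Fin (g + 1)) ℚ :=
    Matrix.of fun i j => Bf hm 1 (e (ι i)) (th f ^ (2 * g + 1 - (j : ℕ))) with hP0
  have hek : ∀ k : Fin (g + 1), e (ι k) = (if (k : ℕ) = 0 then (p : ℚ) else 1) •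
      AdjoinRoot.mk (fK f) ((Polynomial.X - C (r : ℚ)) ^ (k : ℕ)) := by
    intro k
    rw [he (ι k) (hle k), map_pow, map_sub, AdjoinRoot.mk_X, AdjoinRoot.mk_C, map_intCast]
    by_cases hk : (k : ℕ) = 0
    · rw [if_pos hk, if_pos hk, Algebra.smul_def, map_natCast]
    · rw [if_neg hk, if_neg hk, one_mul, one_smul]
  have hP0e : ∀ i j : Fin (g + 1), P0 i j = (if (i : ℕ) = 0 then (p : ℚ) else 1) *
      tau (hm.map (Int.castRingHom ℚ)) (AdjoinRoot.mk (fK f)
        ((Polynomial.X - C (r : ℚ)) ^ (i : ℕ) * Polynomial.X ^ (2 * g + 1 - (j : ℕ)))) := by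
    intro i j
    rw [hP0, Matrix.of_apply, Bf_apply, one_mul, hek, smul_mul_assoc, map_smul, smul_eq_mul,
      map_mul (AdjoinRoot.mk (fK f)), map_pow (AdjoinRoot.mk (fK f)) Polynomial.X, AdjoinRoot.mk_X]
  have hmon : ∀ i j : Fin (g + 1),
      ((Polynomial.X - C (r : ℚ)) ^ (i : ℕ) * Polynomial.X ^ (2 * g + 1 - (j : ℕ))).Monic :=
    fun i j => ((monic_X_sub_C _).pow _).mul (monic_X_pow _)
  have hdeg : ∀ i j : Fin (g + 1),
      ((Polynomial.X - C (r : ℚ)) ^ (i : ℕ) * Polynomial.X ^ (2 * g + 1 - (j : ℕ))).natDegree =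
        i + (2 * g + 1 - j) := by
    intro i j
    rw [((monic_X_sub_C _).pow _).natDegree_mul (monic_X_pow _), (monic_X_sub_C _).natDegree_pow,
      natDegree_X_sub_C, natDegree_X_pow, mul_one]
  have hP0det : P0.det = p := by
    have h3 : P0.BlockTriangular OrderDual.toDual := by
      intro i j hij
      have hij' : i < j := hij
      rw [hP0e, tau_mk_Wd hm hN _ (by rw [hdeg]; have := Fin.lt_def.1 hij'; omega),
        coeff_eq_zero_of_natDegree_lt (by rw [hdeg]; have := Fin.lt_def.1 hij'; omega), mul_zero]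
    rw [Matrix.det_of_isLowerTriangular _ h3]
    have h4 : ∀ i : Fin (g + 1), P0 i i = if (i : ℕ) = 0 then (p : ℚ) else 1 := by
      intro i
      have h5 : (i : ℕ) + (2 * g + 1 - i) = 2 * g + 1 := by omega
      rw [hP0e, tau_mk_Wd hm hN _ (by rw [hdeg, h5])]
      have h6 := (hmon i i).coeff_natDegree
      rw [hdeg, h5] at h6
      rw [h6, mul_one]
    simp only [h4]
    rw [Finset.prod_eq_single (⟨0, by omega⟩ : Fin (g + 1))]
    · rw [if_pos rfl]
    · intro i _ hi
      rw [if_neg]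
      intro h5
      exact hi (Fin.ext h5)
    · intro h5
      exact absurd (Finset.mem_univ _) h5
  have hP : (Matrix.of fun i j : Fin (g + 1) =>
      Bf hm 1 (e' (ι i)) (th f ^ (2 * g + 1 - (j : ℕ)))) =
      (U₁.map (Int.castRingHom ℚ))ᵀ * P0 := by
    ext i j
    rw [Matrix.of_apply, Matrix.mul_apply, he' (ι i), map_sum, LinearMap.sum_apply]
    have h3 : ∀ k : Jx g, (Bf hm 1 (((U k (ι i) : ℤ) : ℚ) • e k)) (th f ^ (2 * g + 1 - (j : ℕ))) =
        ((U k (ι i) : ℤ) : ℚ) * Bf hm 1 (e k) (th f ^ (2 * g + 1 - (j : ℕ))) := by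
      intro k
      rw [map_smul, LinearMap.smul_apply, smul_eq_mul]
    rw [Finset.sum_congr rfl fun k _ => h3 k,
      ← Fintype.sum_subtype_add_sum_subtype (fun k : Jx g => (k : ℕ) ≤ g)]
    rw [Finset.sum_eq_zero (s := (univ : Finset {x : Jx g // ¬ (x : ℕ) ≤ g})) fun k _ => by
      rw [hU0 k (ι i) k.2 (hle i), Int.cast_zero, zero_mul], add_zero,
      ← (emb_Wd g).sum_comp]
    rfl
  have hgoal : |(Matrix.of fun i j : Fin (g + 1) =>
      Bf hm 1 (e' (ι i)) (th f ^ (2 * g + 1 - (j : ℕ)))).det| = p := by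
    rw [hP, Matrix.det_mul, hP0det, Matrix.det_transpose, abs_mul]
    have h3 : (U₁.map (Int.castRingHom ℚ)).det = (U₁.det : ℚ) :=
      ((Int.castRingHom ℚ).map_det U₁).symm
    rw [h3, Nat.abs_cast]
    rcases Int.isUnit_iff.1 hU₁u with h4 | h4 <;> rw [h4] <;> simp
  exact hgoal

end Pool.Agent.Helper3.EV
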