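import Pool.Agent.Helper3.EV.StC
import Pool.Agent.Helper3.EV.M_Wb
import Pool.Agent.Helper54.HQ.M_Ma
import Pool.Agent.Helper54.HQ.M_Mb
import Pool.Agent.Helper54.HQ.M_Mc
import Pool.Agent.Helper54.HQ.M_Md
import Pool.Agent.Helper54.HQ.Base

/-!
# EV, module We: the inequality in the deep cusp
-/

set_option autoImplicit false

namespace Pool.Agent.Helper3.EV

open Polynomial Finset Filter Topology Matrix IsDedekindDomain
open Pool.Agent.Helper3.HY (co tau)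
open Pool.Agent.Helper54.HQ (Prm pz factPrm fK RR LL algRL th kp red Bf Smooth NearOne LocSq Weak Fam qS
  toR IsRed rts evc met InR IsIdl EvenAt)

private theorem det_le_We {g : ℕ} (A : Matrix (Fin g) (Fin g) ℝ) (a b : Fin g → ℝ)
    (h : ∀ i j, |A i j| ≤ a i * b j) :
    |A.det| ≤ (g.factorial : ℝ) * ((∏ i, a i) * ∏ j, b j) := by
  rw [Matrix.det_apply]
  refine (Finset.abs_sum_le_sum_abs _ _).trans ?_
  have h1 : ∀ σ : Equiv.Perm (Fin g), |Equiv.Perm.sign σ • ∏ i, A (σ i) i| ≤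
      (∏ i, a i) * ∏ j, b j := by
    intro σ
    have e1 : |Equiv.Perm.sign σ • ∏ i, A (σ i) i| = ∏ i, |A (σ i) i| := by
      rw [← Finset.abs_prod]
      rcases Int.units_eq_one_or (Equiv.Perm.sign σ) with h2 | h2
      · rw [h2, one_smul]
      · rw [h2, Units.neg_smul, one_smul, abs_neg]
    rw [e1]
    have e2 : ∏ i, |A (σ i) i| ≤ ∏ i, (a (σ i) * b i) :=
      Finset.prod_le_prod (fun i _ => abs_nonneg _) fun i _ => h (σ i) i
    refine e2.trans (le_of_eq ?_)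
    rw [Finset.prod_mul_distrib]
    congr 1
    exact Equiv.prod_comp σ a
  refine (Finset.sum_le_sum fun σ _ => h1 σ).trans (le_of_eq ?_)
  rw [Finset.sum_const, Finset.card_univ, Fintype.card_perm, Fintype.card_fin, nsmul_eq_mul]

private theorem sum_We (g : ℕ) : ∑ j : Fin (g + 1), (2 * g + 1 - 2 * (j : ℕ)) = (g + 1) ^ 2 := by
  have h : ∀ n : ℕ, ∑ j : Fin n, (2 * n - 1 - 2 * (j : ℕ)) = n ^ 2 := by
    intro n
    induction n with
    | zero => simp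
    | succ n ih =>
      rw [Fin.sum_univ_succ]
      have e1 : ∀ j : Fin n, 2 * (n + 1) - 1 - 2 * ((Fin.succ j : Fin (n + 1)) : ℕ) =
          2 * n - 1 - 2 * (j : ℕ) := by
        intro j
        rw [Fin.val_succ]
        omega
      simp only [e1, Fin.val_zero]
      rw [ih]
      have e2 : 2 * (n + 1) - 1 - 2 * 0 = 2 * n + 1 := by omega
      rw [e2]
      ring
  exact h (g + 1)

theorem hWe (h3 : StWc) : StWe := by
  intro g hg C hC
  have h1 := Pool.Agent.Helper54.HQ.hMd Pool.Agent.Helper54.HQ.hMa Pool.Agent.Helper54.HQ.hMb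
    Pool.Agent.Helper54.HQ.hMc
  have h2 := hWb
  set K : ℝ := 4 * (2 * g + 2) * 2 ^ (2 * g + 1) with hK
  have hK1 : 1 ≤ K := by
    have e1 : (1 : ℝ) ≤ 2 ^ (2 * g + 1) := one_le_pow₀ (by norm_num)
    have e2 : (1 : ℝ) ≤ 4 * (2 * g + 2) := by
      have : (0 : ℝ) ≤ g := Nat.cast_nonneg g
      linarith
    rw [hK]
    calc (1 : ℝ) = 1 * 1 := by ring
      _ ≤ 4 * (2 * g + 2) * 2 ^ (2 * g + 1) := mul_le_mul e2 e1 (by norm_num) (by linarith)
  have hf1 : (1 : ℝ) ≤ ((g + 1).factorial : ℝ) := by exact_mod_cast Nat.factorial_pos (g + 1)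
  have hC0 : 0 ≤ C := by linarith
  have hK0 : 0 ≤ K := by linarith
  refine ⟨(((g + 1).factorial : ℝ) * (C ^ (g + 1) * K ^ (g + 1))) ^ 2, ?_, ?_⟩
  · have e1 : (1 : ℝ) ≤ C ^ (g + 1) := one_le_pow₀ hC
    have e2 : (1 : ℝ) ≤ K ^ (g + 1) := one_le_pow₀ hK1
    have e3 : (1 : ℝ) ≤ C ^ (g + 1) * K ^ (g + 1) := by
      calc (1 : ℝ) = 1 * 1 := by ring
        _ ≤ C ^ (g + 1) * K ^ (g + 1) := mul_le_mul e1 e2 (by norm_num) (by linarith)
    refine one_le_pow₀ ?_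
    calc (1 : ℝ) = 1 * 1 := by ring
      _ ≤ _ := mul_le_mul hf1 e3 (by norm_num) (by linarith)
  intro H hH f hfR hm hirr e' m hmet p hdet
  have hfF := (h2 g H hg f hfR).1
  have hsep : (fK f).Separable := hirr.separable
  obtain ⟨hcs, -⟩ := h1 (2 * g + 2) H (by omega) f hfF hm hsep 1
  have hHR : (1 : ℝ) ≤ H := by exact_mod_cast hH
  have hH0 : (0 : ℝ) < H := by linarith
  have hmet0 : ∀ x : LL f, 0 ≤ met hm 1 x := by
    intro x
    unfold met
    exact Finset.sum_nonneg fun ρ _ => by positivity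
  -- the bound for the powers of theta
  have hb : ∀ j : Fin (g + 1), met hm 1 (th f ^ (2 * g + 1 - (j : ℕ))) ≤
      (K * √((H : ℝ) ^ (2 * g + 1 - 2 * (j : ℕ)))) ^ 2 := by
    intro j
    have hj := j.2
    have e1 := h3 g H hg hH f hfR hm (2 * g + 1 - (j : ℕ)) (by omega)
    have hp : (0 : ℝ) < (H : ℝ) ^ (2 * g + 1) := by positivity
    refine le_of_mul_le_mul_right (e1.trans ?_) hp
    have hs : √((H : ℝ) ^ (2 * g + 1 - 2 * (j : ℕ))) ^ 2 = (H : ℝ) ^ (2 * g + 1 - 2 * (j : ℕ)) :=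
      Real.sq_sqrt (by positivity)
    have e2 : (2 * (H : ℝ)) ^ (2 * (2 * g + 1 - (j : ℕ))) =
        2 ^ (2 * (2 * g + 1 - (j : ℕ))) * (H : ℝ) ^ (2 * g + 1 - 2 * (j : ℕ)) *
          (H : ℝ) ^ (2 * g + 1) := by
      rw [mul_pow, mul_assoc, ← pow_add]
      congr 2
      omega
    rw [e2, mul_pow, hs, hK]
    have e3 : (2 : ℝ) ^ (2 * (2 * g + 1 - (j : ℕ))) ≤ (2 ^ (2 * g + 1)) ^ 2 := by
      rw [← pow_mul]
      exact pow_le_pow_right₀ (by norm_num) (by omega)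
    have e4 : (16 : ℝ) * (2 * g + 2) ≤ (4 * (2 * g + 2)) ^ 2 := by
      have : (0 : ℝ) ≤ g := Nat.cast_nonneg g
      nlinarith
    have e5 : (16 : ℝ) * (2 * g + 2) * 2 ^ (2 * (2 * g + 1 - (j : ℕ))) ≤
        (4 * (2 * g + 2) * 2 ^ (2 * g + 1)) ^ 2 := by
      rw [mul_pow]
      exact mul_le_mul e4 e3 (by positivity) (by positivity)
    calc (16 : ℝ) * (2 * g + 2) * (2 ^ (2 * (2 * g + 1 - (j : ℕ))) *
          (H : ℝ) ^ (2 * g + 1 - 2 * (j : ℕ)) * (H : ℝ) ^ (2 * g + 1))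
        = 16 * (2 * g + 2) * 2 ^ (2 * (2 * g + 1 - (j : ℕ))) *
          ((H : ℝ) ^ (2 * g + 1 - 2 * (j : ℕ)) * (H : ℝ) ^ (2 * g + 1)) := by ring
      _ ≤ (4 * (2 * g + 2) * 2 ^ (2 * g + 1)) ^ 2 *
          ((H : ℝ) ^ (2 * g + 1 - 2 * (j : ℕ)) * (H : ℝ) ^ (2 * g + 1)) :=
          mul_le_mul_of_nonneg_right e5 (by positivity)
      _ = _ := by ring
  -- the entries
  set a : Fin (g + 1) → ℝ := fun i => C * (2 : ℝ) ^ (-(m i : ℤ)) with ha
  set b : Fin (g + 1) → ℝ := fun j => K * √((H : ℝ) ^ (2 * g + 1 - 2 * (j : ℕ))) with hbd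
  have ha0 : ∀ i, 0 ≤ a i := fun i => by
    rw [ha]
    positivity
  have hb0 : ∀ i, 0 ≤ b i := fun i => by
    rw [hbd]
    positivity
  set P : Matrix (Fin (g + 1)) (Fin (g + 1)) ℚ :=
    Matrix.of fun i j : Fin (g + 1) =>
      Bf hm 1 (e' ⟨i, by omega⟩) (th f ^ (2 * g + 1 - (j : ℕ))) with hP
  have hent : ∀ i j, |(P.map (Rat.castHom ℝ)) i j| ≤ a i * b j := by
    intro i j
    have e1 := hcs (e' ⟨i, by omega⟩) (th f ^ (2 * g + 1 - (j : ℕ)))
    have e2 := hmet ⟨i, by omega⟩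
    have e3 : nu g m ⟨i, by omega⟩ = -(m i : ℤ) := by
      unfold nu
      rw [dif_pos (show ((⟨(i : ℕ), by omega⟩ : Jx g) : ℕ) ≤ g by
        have := i.2
        simp only
        omega)]
    rw [e3] at e2
    have e4 := mul_le_mul e2 (hb j) (hmet0 _) (by positivity)
    have e5 : ((P i j : ℚ) : ℝ) ^ 2 ≤ (a i * b j) ^ 2 := by
      refine e1.trans (e4.trans (le_of_eq ?_))
      exact (mul_pow (a i) (b j) 2).symm
    have e6 : (P.map (Rat.castHom ℝ)) i j = ((P i j : ℚ) : ℝ) := rfl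
    rw [e6]
    exact abs_le_of_sq_le_sq e5 (mul_nonneg (ha0 i) (hb0 j))
  have hD := det_le_We (P.map (Rat.castHom ℝ)) a b hent
  have e1 : |(P.map (Rat.castHom ℝ)).det| = p := by
    have e2 : (P.map (Rat.castHom ℝ)).det = ((P.det : ℚ) : ℝ) :=
      ((Rat.castHom ℝ).map_det P).symm
    rw [e2, ← Rat.cast_abs, hdet]
    exact Rat.cast_natCast p
  rw [e1] at hD
  have e2 : ∏ i, a i = C ^ (g + 1) * ((2 : ℝ) ^ (∑ i, m i))⁻¹ := by
    rw [ha]
    simp only [Finset.prod_mul_distrib, Finset.prod_const, Finset.card_univ, Fintype.card_fin,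
      _root_.zpow_neg, zpow_natCast, Finset.prod_inv_distrib, Finset.prod_pow_eq_pow_sum]
  have e3 : (∏ j, b j) ^ 2 = (K ^ (g + 1)) ^ 2 * (H : ℝ) ^ ((g + 1) ^ 2) := by
    rw [← sum_We g, ← Finset.prod_pow_eq_pow_sum, ← Finset.prod_pow]
    have e4 : ∀ j : Fin (g + 1), b j ^ 2 = K ^ 2 * (H : ℝ) ^ (2 * g + 1 - 2 * (j : ℕ)) := by
      intro j
      rw [hbd]
      simp only
      rw [mul_pow, Real.sq_sqrt (by positivity)]
    rw [Finset.prod_congr rfl fun j _ => e4 j, Finset.prod_mul_distrib, Finset.prod_const,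
      Finset.card_univ, Fintype.card_fin, ← pow_mul, ← pow_mul, mul_comm 2 (g + 1)]
  rw [e2] at hD
  have hp2 : (0 : ℝ) < 2 ^ (∑ i, m i) := by positivity
  have e4 : (p : ℝ) * 2 ^ (∑ i, m i) ≤
      ((g + 1).factorial : ℝ) * (C ^ (g + 1) * ∏ j, b j) := by
    have := mul_le_mul_of_nonneg_right hD hp2.le
    refine this.trans (le_of_eq ?_)
    field_simp
  have e5 : ((p : ℝ) * 2 ^ (∑ i, m i)) ^ 2 ≤
      (((g + 1).factorial : ℝ) * (C ^ (g + 1) * ∏ j, b j)) ^ 2 :=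
    pow_le_pow_left₀ (by positivity) e4 2
  have e6 : ((4 : ℝ) ^ (∑ i, m i)) = (2 ^ (∑ i, m i)) ^ 2 := by
    rw [← pow_mul, mul_comm, pow_mul]
    norm_num
  rw [e6, ← mul_pow]
  refine e5.trans (le_of_eq ?_)
  rw [mul_pow, mul_pow, e3, mul_pow, mul_pow]
  ring

end Pool.Agent.Helper3.EV
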