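import Pool.Agent.Helper3.EV.StC
import Pool.Agent.Helper54.HQ.Base

/-!
# EV, module Wf: weakly divisible polynomials (assembly)
-/

set_option autoImplicit false

namespace Pool.Agent.Helper3.EV

open Polynomial Finset Filter Topology Matrix IsDedekindDomain
open Pool.Agent.Helper3.HY (co tau)
open Pool.Agent.Helper54.HQ (Prm pz factPrm fK RR LL algRL th kp red Bf Smooth NearOne LocSq Weak Fam qS
  toR IsRed rts evc met InR IsIdl EvenAt pz_prime red_eq_zero algebraMap_intCast)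

private theorem inBox_mono_Wf {g : ℕ} {C C' H : ℝ} {m : Fin (g + 1) → ℕ} {p : Pr g} (hC : C ≤ C')
    (hH : 0 ≤ H) (h : InBox g C H m p) : InBox g C' H m p := by
  refine ⟨h.symB, h.symA, h.det, fun i j => (h.bB i j).trans ?_, fun i j => (h.bA i j).trans ?_⟩
  · exact mul_le_mul_of_nonneg_right hC (by positivity)
  · exact mul_le_mul_of_nonneg_right (mul_le_mul_of_nonneg_right hC hH) (by positivity)

private theorem inR_comb_Wf {g : ℕ} {f : ℤ[X]} (c : LL f) (e : Jx g → LL f)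
    (h : ∀ i, InR (c * e i)) (u : Jx g → ℤ) : InR (c * ∑ i, ((u i : ℤ) : ℚ) • e i) := by
  choose r hr using h
  refine ⟨∑ i, (u i : RR f) * r i, ?_⟩
  rw [Finset.mul_sum, map_sum]
  refine Finset.sum_congr rfl fun i _ => ?_
  rw [map_mul, ← hr i, algebraMap_intCast, Algebra.smul_def, map_intCast]
  ring

private theorem ndvd_one_Wf (P : Prm) : ¬ pz P ∣ 1 :=
  fun h => (pz_prime P).not_isUnit (isUnit_of_dvd_one h)

private theorem nearOne_Wf (P : Prm) {f : ℤ[X]} :
    NearOne P (((1 : ℤ) : LL f) * (1 : LL f) * 1 ^ 2) := by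
  refine ⟨0, 1, ndvd_one_Wf P, ?_⟩
  rw [map_zero, Int.cast_one]
  ring

private theorem ndvd_Wf {g : ℕ} (hg : 1 ≤ g) {f : ℤ[X]} {P : Prm} {p : ℕ} (hp : p.Prime)
    (hw : Weak p f) (hT : f.map (red P) ∈ TType (kp P) g) : ¬ pz P ∣ (p : ℤ) := by
  intro hd
  have hPp : (P : ℕ) = p := by
    have h1 : (P : ℕ) ∣ p := by exact_mod_cast hd
    exact (Nat.prime_dvd_prime_iff_eq P.2 hp).1 h1
  obtain ⟨r, hr1, hr2⟩ := hw
  obtain ⟨a, b, q, hab, hqm, hqi, hqd, hf⟩ := hT
  have e1 : (f.map (red P)).eval (red P r) = 0 := by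
    rw [Polynomial.eval_map_apply, red_eq_zero]
    have : (p : ℤ) ∣ f.eval r := (Dvd.intro_left _ (by rw [pow_two])).trans hr1
    rw [← hPp] at this
    exact this
  have e2 : (f.map (red P)).derivative.eval (red P r) = 0 := by
    rw [Polynomial.derivative_map, Polynomial.eval_map_apply, red_eq_zero]
    rw [← hPp] at hr2
    exact hr2
  have hq0 : q.eval (red P r) ≠ 0 := by
    intro h0
    have h1 : q.natDegree = 1 := Polynomial.natDegree_eq_of_degree_eq_some
      (Polynomial.degree_eq_one_of_irreducible_of_root hqi h0)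
    omega
  rw [hf] at e1 e2
  rw [Polynomial.eval_mul, Polynomial.eval_mul, eval_sub, eval_sub, eval_X, eval_C, eval_C] at e1
  have ha : (red P r - a) * (red P r - b) = 0 := (mul_eq_zero.1 e1).resolve_right hq0
  rw [derivative_mul, derivative_mul, eval_add, eval_mul, eval_mul, eval_mul, eval_add, eval_mul,
    eval_mul, eval_sub, eval_sub, eval_X, eval_C, eval_C, ha, zero_mul, add_zero, derivative_sub,
    derivative_sub, derivative_X, derivative_C, derivative_C, sub_zero, eval_one, one_mul,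
    mul_one] at e2
  have e3 : red P r - b + (red P r - a) = 0 := (mul_eq_zero.1 e2).resolve_right hq0
  rcases mul_eq_zero.1 ha with h | h
  · rw [h, add_zero] at e3
    exact hab ((sub_eq_zero.1 h).symm.trans (sub_eq_zero.1 e3))
  · rw [h, zero_add] at e3
    exact hab ((sub_eq_zero.1 e3).symm.trans (sub_eq_zero.1 h))

private theorem mono_W {C C' : ℝ} {g H M p : ℕ} (m : Fin (g + 1) → ℕ) (hMp : M < p)
    (hC : C ≤ C') (h : (p : ℝ) ^ 2 * 4 ^ (∑ i, m i) ≤ C * (H : ℝ) ^ ((g + 1) ^ 2)) :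
    (M : ℝ) ^ 2 * 4 ^ (∑ i, m i) ≤ C' * (H : ℝ) ^ ((g + 1) ^ 2) := by
  have h10 : (M : ℝ) ^ 2 ≤ (p : ℝ) ^ 2 :=
    pow_le_pow_left₀ (Nat.cast_nonneg _) (by exact_mod_cast hMp.le) 2
  exact ((mul_le_mul_of_nonneg_right h10 (by positivity)).trans h).trans
    (mul_le_mul_of_nonneg_right hC (by positivity))

theorem hWf (hWa : StWa) (hWb : StWb) (hWd : StWd) (hWe : StWe) (hNq : StNq) (hMh : StMh)
    (hMf : StMf) (hCj2 : StCj2) (_hWg : StWg) : StWf := by
  intro g hg
  obtain ⟨C0, κ, hC0, hMh⟩ := hMh g hg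
  obtain ⟨C', hC', hWe⟩ := hWe g hg C0 hC0
  refine ⟨max C0 C', κ, hC0.trans (le_max_left _ _), ?_⟩
  intro H hH f hf hirr hA T hT M p hp hp2 hMp hw
  have : Fact (Irreducible (fK f)) := ⟨hirr⟩
  have hm : f.Monic := hf.1
  have hdeg : f.natDegree = 2 * g + 2 := hf.2.1
  obtain ⟨r, hr1, hr2⟩ := id hw
  obtain ⟨e, B, T0, hInt, hInR, hform⟩ := hWa g hg f hm hdeg p r hp hp2 hr1 hr2
  obtain ⟨U, e', B', T', m, hU, he', hInt', hDA, hBox, hmet, hor⟩ :=
    hMh H hH f (hWb g H hg f hf).1 hm hirr 1 one_ne_zero e B T0 hInt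
  have hBox' : InBox g (max C0 C') H m (B', B' * T') :=
    inBox_mono_Wf (le_max_left _ _) (Nat.cast_nonneg _) hBox
  have hchi : IsChi (B', B' * T') f := (hMf g f hm hdeg hirr 1 e' B' T' hInt').2.2.2.1
  rcases hor with hAdm | hTL
  · left
    refine ⟨m, hAdm, hm, hdeg, hirr, (B', B' * T'), hBox', ?_, hchi⟩
    intro P hP
    refine hCj2 g hg f hm hdeg P 1 1 1 (ndvd_one_Wf P) one_ne_zero (nearOne_Wf P) e' B' T' hInt'
      ?_ _ (hT P hP)
    intro i
    refine ⟨(p : ℤ), ndvd_Wf hg hp hw (hT P hP), ?_⟩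
    have h8 : ((p : ℤ) : LL f) * e' i * (1 : LL f)⁻¹ =
        (p : LL f) * ∑ j, ((U j i : ℤ) : ℚ) • e j := by
      rw [inv_one, mul_one, he' i, Int.cast_natCast]
    rw [h8]
    exact inR_comb_Wf _ _ hInR _
  · right
    refine ⟨m, hDA, ?_, hm, hdeg, hirr, (B', B' * T'), hBox', hTL, hchi⟩
    exact mono_W m hMp (le_max_right _ _) (hWe H hH f hf hm hirr e' m hmet p
      (hWd g hg f hm hdeg (hNq g hg f hm hdeg hA) p r e hform U e' B' T' hU he' hInt' hTL))

end Pool.Agent.Helper3.EV
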