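import Pool.Agent.Helper3.EV.StC

/-!
# EV module Wg (monotonicity in the constants)
-/

set_option autoImplicit false

namespace Pool.Agent.Helper3.EV

open Polynomial Finset Filter Topology Matrix IsDedekindDomain
open Pool.Agent.Helper54.HQ (Prm pz factPrm fK RR LL algRL th kp red Bf Smooth NearOne LocSq Weak Fam qS)

private theorem box_Wg {g : ℕ} {C C' H : ℝ} (hC' : C ≤ C') (hH : 0 ≤ H)
    {m : Fin (g + 1) → ℕ} {p : Pr g} (h : InBox g C H m p) : InBox g C' H m p where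
  symB := h.symB
  symA := h.symA
  det := h.det
  bB i j := (h.bB i j).trans (by gcongr)
  bA i j := (h.bA i j).trans (by gcongr)

private theorem dadm_Wg {g d d' : ℕ} (hd : d ≤ d') {m : Fin (g + 1) → ℕ} (h : DAdm g d m) :
    DAdm g d' m :=
  ⟨h.1, fun i hi => (h.2.1 i hi).trans hd, fun i j hij => (h.2.2 i j hij).trans (by omega)⟩

theorem hWg : StWg := by
  intro g C C' κ κ' H M T hC hC' hκ
  have hH : (0 : ℝ) ≤ (H : ℝ) := H.cast_nonneg
  have hd : Nat.log 2 H + κ ≤ Nat.log 2 H + κ' := by omega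
  constructor
  · rintro f ⟨m, hm, h1, h2, h3, p, hp, hT, hχ⟩
    exact ⟨m, ⟨dadm_Wg hd hm.1, fun i j hij hj => (hm.2 i j hij hj).trans hd⟩, h1, h2, h3, p,
      box_Wg hC' hH hp, hT, hχ⟩
  · rintro f ⟨m, hm, hM, h1, h2, h3, p, hp, hTL, hχ⟩
    exact ⟨m, dadm_Wg hd hm, hM.trans (by gcongr), h1, h2, h3, p, box_Wg hC' hH hp, hTL, hχ⟩

end Pool.Agent.Helper3.EV
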