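import Pool.Agent.Helper3.EV.M_Cf
import Pool.Agent.Helper3.EV.M_Cg
import Pool.Agent.Helper3.EV.M_Ch1
import Pool.Agent.Helper3.EV.M_Cj2
import Pool.Agent.Helper3.EV.M_Ck
import Pool.Agent.Helper3.EV.M_Dbl
import Pool.Agent.Helper3.EV.M_De1
import Pool.Agent.Helper3.EV.M_Dn
import Pool.Agent.Helper3.EV.M_Fe
import Pool.Agent.Helper3.EV.M_Good
import Pool.Agent.Helper3.EV.M_Me
import Pool.Agent.Helper3.EV.M_Mf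
import Pool.Agent.Helper3.EV.M_Mg
import Pool.Agent.Helper3.EV.M_Mh
import Pool.Agent.Helper3.EV.M_Nq
import Pool.Agent.Helper3.EV.M_Pol
import Pool.Agent.Helper3.EV.M_Pos
import Pool.Agent.Helper3.EV.M_PosB
import Pool.Agent.Helper3.EV.M_Rg
import Pool.Agent.Helper3.EV.M_Rh
import Pool.Agent.Helper3.EV.M_Sd
import Pool.Agent.Helper3.EV.M_Sieve
import Pool.Agent.Helper3.EV.M_Sl
import Pool.Agent.Helper3.EV.M_Sn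
import Pool.Agent.Helper3.EV.M_Sq
import Pool.Agent.Helper3.EV.M_Ss
import Pool.Agent.Helper3.EV.M_St
import Pool.Agent.Helper3.EV.M_Sx
import Pool.Agent.Helper3.EV.M_Ta
import Pool.Agent.Helper3.EV.M_Tb
import Pool.Agent.Helper3.EV.M_Td
import Pool.Agent.Helper3.EV.M_Tf
import Pool.Agent.Helper3.EV.M_Ua
import Pool.Agent.Helper3.EV.M_Ub
import Pool.Agent.Helper3.EV.M_Uc
import Pool.Agent.Helper3.EV.M_Ud
import Pool.Agent.Helper3.EV.M_Ue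
import Pool.Agent.Helper3.EV.M_Uf
import Pool.Agent.Helper3.EV.M_Uh
import Pool.Agent.Helper3.EV.M_Ui
import Pool.Agent.Helper3.EV.M_Ui2
import Pool.Agent.Helper3.EV.M_Ui3
import Pool.Agent.Helper3.EV.M_Uj
import Pool.Agent.Helper3.EV.M_Uk
import Pool.Agent.Helper3.EV.M_Ul
import Pool.Agent.Helper3.EV.M_Um
import Pool.Agent.Helper3.EV.M_Un
import Pool.Agent.Helper3.EV.M_Un0
import Pool.Agent.Helper3.EV.M_Uo
import Pool.Agent.Helper3.EV.M_Up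
import Pool.Agent.Helper3.EV.M_Uq
import Pool.Agent.Helper3.EV.M_Uv
import Pool.Agent.Helper3.EV.M_Uw
import Pool.Agent.Helper3.EV.M_Wa
import Pool.Agent.Helper3.EV.M_Wb
import Pool.Agent.Helper3.EV.M_Wc
import Pool.Agent.Helper3.EV.M_Wd
import Pool.Agent.Helper3.EV.M_We
import Pool.Agent.Helper3.EV.M_Wf
import Pool.Agent.Helper3.EV.M_Wg
import Pool.Agent.Helper54.EVL.M_Eat
import Pool.Agent.Helper54.EVL.M_Ebig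
import Pool.Agent.Helper54.EVL.M_Eco
import Pool.Agent.Helper54.EVL.M_Ecz
import Pool.Agent.Helper54.EVL.M_Eev
import Pool.Agent.Helper54.EVL.M_Efa
import Pool.Agent.Helper54.EVL.M_Ehom
import Pool.Agent.Helper54.EVL.M_Ei
import Pool.Agent.Helper54.EVL.M_Eit
import Pool.Agent.Helper54.EVL.M_Ela
import Pool.Agent.Helper54.EVL.M_Elb
import Pool.Agent.Helper54.EVL.M_Elb2
import Pool.Agent.Helper54.EVL.M_Elc
import Pool.Agent.Helper54.EVL.M_Eli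
import Pool.Agent.Helper54.EVL.M_Elp
import Pool.Agent.Helper54.EVL.M_Els
import Pool.Agent.Helper54.EVL.M_En3
import Pool.Agent.Helper54.EVL.M_Enz
import Pool.Agent.Helper54.EVL.M_Eom
import Pool.Agent.Helper54.EVL.M_Eqp
import Pool.Agent.Helper54.EVL.M_Etri
import Pool.Agent.Helper54.EVL.M_F2
import Pool.Agent.Helper54.EVL.M_Fb
import Pool.Agent.Helper54.EVL.M_Fcg
import Pool.Agent.Helper54.EVL.M_Fg
import Pool.Agent.Helper54.EVL.M_Fh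
import Pool.Agent.Helper54.EVL.M_Fh1
import Pool.Agent.Helper54.EVL.M_Fh3
import Pool.Agent.Helper54.EVL.M_Fi
import Pool.Agent.Helper54.EVL.M_Fi1
import Pool.Agent.Helper54.EVL.M_Fi2
import Pool.Agent.Helper54.EVL.M_Fj
import Pool.Agent.Helper54.EVL.M_Fl
import Pool.Agent.Helper54.EVL.M_Fm
import Pool.Agent.Helper54.EVL.M_Fo
import Pool.Agent.Helper54.EVL.M_Ft
import Pool.Agent.Helper54.HQ.All

/-!
# EV: all modules together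
-/

set_option autoImplicit false

namespace Pool.Agent.Helper3.EVA

open Pool.Agent.Helper3 Pool.Agent.Helper54

theorem v_De1 : EV.StDe1 := EV.hDe1

theorem v_Cf : EV.StCf := EV.hCf

theorem v_Mf : EV.StMf := EV.hMf

theorem v_Me : EV.StMe := EV.hMe

theorem v_Mg : EV.StMg := EV.hMg v_Mf

theorem v_Rg : EV.StRg := EV.hRg

theorem v_Rh : EV.StRh := EV.hRh HQ.a_Rc HQ.a_Rd HQ.a_Re HQ.a_Rf v_Rg

theorem v_Mh : EV.StMh := EV.hMh HQ.a_Md v_Me v_Mf v_Mg v_Rh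

theorem v_Cg : EV.StCg := EV.hCg

theorem v_Ch1 : EV.StCh1 := EV.hCh1 v_Cg

theorem v_Cj2 : EV.StCj2 := EV.hCj2

theorem v_Ck : EV.StCk := EV.hCk v_Cf v_Mf v_Mh v_Ch1 v_Cj2

theorem v_Wb : EV.StWb := EV.hWb

theorem l_Eqp : EVL.StEqp := EVL.hEqp

theorem l_Etri : EVL.StEtri := EVL.hEtri l_Eqp HQ.a_UQ

theorem l_Efa : EVL.StEfa := EVL.hEfa HL.hFA

theorem l_En3 : EVL.StEn3 := EVL.hEn3 HL.hRA HL.aRB HQ.a_CV HQ.a_LD HL.aNB HL.aNM l_Efa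

theorem l_Eom : EVL.StEom := EVL.hEom

theorem l_Ehom : EVL.StEhom := EVL.hEhom HL.hRA HQ.a_CM HQ.a_LD l_Efa HQ.a_CV HL.hFS l_Eom

theorem l_Ei1 : EVL.StEi1 := EVL.hEi1 l_Etri l_En3 l_Ehom l_Eom

theorem l_Eco : EVL.StEco := EVL.hEco

theorem l_Ebig : EVL.StEbig := EVL.hEbig HL.aNG

theorem l_Eev : EVL.StEev := EVL.hEev HQ.a_LD HQ.a_IN HQ.a_EI HQ.a_NV HL.aNG l_Ebig

theorem l_Ecz : EVL.StEcz := EVL.hEcz

theorem l_Ei2 : EVL.StEi2 := EVL.hEi2 l_Eco l_Eev l_Ecz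

theorem l_Ei3 : EVL.StEi3 := EVL.hEi3 l_Etri l_Ehom l_Eom

theorem l_Ela : EVL.StEla := EVL.hEla HL.hRA HL.aOP

theorem l_Elb : EVL.StElb := EVL.hElb HL.hRA HL.aRB HL.aOP HL.hOS HL.hFS

theorem l_Elbp : EVL.StElb' := EVL.hElb' l_Elb

theorem l_Elc : EVL.StElc := EVL.hElc HL.hRA HL.aRB HL.aOP HL.hOS HL.hFS HL.hNR HL.aNM HL.aNS

theorem l_Elp : EVL.StElp := EVL.hElp l_Ela l_Elb l_Elbp l_Elc HL.hFS

theorem l_Eli : EVL.StEli := EVL.hEli HQ.a_LD HQ.a_IN l_Elp HQ.a_CM HQ.a_CV HQ.a_NV HQ.a_DE HL.aNG l_Ehom l_Efa HL.hRA l_Eom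

theorem l_Ei4 : EVL.StEi4 := EVL.hEi4 l_Eco l_Eli l_Etri l_Ehom l_Eom

theorem l_Eat : EVL.StEat := EVL.hEat HL.hRA HL.aRB HQ.a_CV HQ.a_LD HL.aNB HL.aNM HL.hFA

theorem l_Eit : EVL.StEit := EVL.hEit HL.hRA HQ.a_CV HQ.a_LD

theorem l_Enz : EVL.StEnz := EVL.hEnz HQ.a_Over

theorem l_Els : EVL.StEls := EVL.hEls HL.hRA HL.aRB HQ.a_CV HQ.a_CM HQ.a_LD HL.aNB HL.aNM HL.hFS HQ.a_NO l_Efa l_Etri

theorem l_Fb : EVL.StFb := EVL.hFb HQ.a_Ha1 HQ.a_Ha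

theorem l_Fcg : EVL.StFcg := EVL.hFcg

theorem l_Fg : EVL.StFg := EVL.hFg HQ.a_LD HQ.a_Hg0 HQ.a_Hg1 l_Fcg

theorem l_Fh1 : EVL.StFh1 := EVL.hFh1

theorem l_Fh3 : EVL.StFh3 := EVL.hFh3 HQ.a_Hc0

theorem l_Fh : EVL.StFh := EVL.hFh HQ.a_LD l_Efa HQ.a_CM HQ.a_CV HL.aNM HL.aRB HL.hFS HL.hRA l_Etri l_Fh1 HQ.a_Hh2 l_Fh3 l_Fcg HQ.a_Hc0

theorem l_Fi1 : EVL.StFi1 := EVL.hFi1

theorem l_Fi2 : EVL.StFi2 := EVL.hFi2

theorem l_Fi : EVL.StFi := EVL.hFi l_Fi1 l_Fi2 HQ.a_Hi3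

theorem l_Fj : EVL.StFj := EVL.hFj

theorem l_Fl : EVL.StFl := EVL.hFl l_Fcg

theorem l_Fm : EVL.StFm := EVL.hFm HQ.a_Ha1 HQ.a_Ha l_Fb HQ.a_Hc HQ.a_Hd HQ.a_He HQ.a_Hf l_Fg l_Fh l_Fi l_Fj HQ.a_Hk l_Fl

theorem l_Ei5 : EVL.StEi5 := EVL.hEi5 l_Etri l_Ehom l_Eom

theorem l_Fo : EVL.StFo := EVL.hFo l_Fm l_Ei5

theorem l_F2 : EVL.StF2 := EVL.hF2 l_Eco HQ.a_Two

theorem l_Ft : EVL.StFt := EVL.hFt HQ.a_Over l_Etri l_Ei1 l_Ei2 l_Ei3 l_Ei4 l_Eat l_Eit l_Enz l_Els l_Fo l_F2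

theorem v_Pol : EV.StPol := EV.hPol v_De1 HQ.a_De2 HQ.a_De3 HQ.a_De4 v_Ck v_Wb l_Ft

theorem v_Ss : EV.StSs := EV.hSs

theorem v_Sl : EV.StSl := EV.hSl HQ.a_Sw v_Ss

theorem v_Sq : EV.StSq := EV.hSq

theorem v_Sx : EV.StSx := EV.hSx

theorem v_Sn : EV.StSn := EV.hSn

theorem v_Sd : EV.StSd := (EV.hSd HQ.a_Sp v_Sq v_Sx v_Sn).1

theorem v_S0 : EV.StS0 := (EV.hSd HQ.a_Sp v_Sq v_Sx v_Sn).2

theorem v_St : EV.StSt := EV.hSt HQ.a_Sp v_Sq v_Sx v_Sn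

theorem v_Sieve : EV.StSieve := EV.hSieve HQ.a_Sp HQ.a_Sa v_Sl ⟨v_Sd, v_S0⟩ HQ.a_Se v_St

theorem v_Ua : EV.StUa := EV.hUa

theorem v_Ud : EV.StUd := EV.hUd

theorem v_Ue : EV.StUe := EV.hUe

theorem v_Uq : EV.StUq := EV.hUq

theorem v_Uj : EV.StUj := EV.hUj v_Ua v_Ud v_Ue v_Uq

theorem v_Uf : EV.StUf := EV.hUf

theorem v_Ui2 : EV.StUi2 := EV.hUi2

theorem v_Uv : EV.StUv := EV.hUv

theorem v_Uw : EV.StUw := EV.hUw v_Uv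

theorem v_Ui3 : EV.StUi3 := EV.hUi3 v_Uw

theorem v_Ui : EV.StUi := EV.hUi v_Ui2 v_Ui3

theorem v_Un0 : EV.StUn0 := EV.hUn0

theorem v_Uh : EV.StUh := EV.hUh v_Uf v_Ui v_Un0

theorem v_Ub : EV.StUb := EV.hUb

theorem v_Uk : EV.StUk := EV.hUk v_Uj v_Ud v_Uf v_Uh v_Ub

theorem v_Uc : EV.StUc := EV.hUc

theorem v_Ul : EV.StUl := EV.hUl v_Uj v_Ud v_Uf v_Ub v_Uc

theorem v_U : EV.StU := EV.hUm v_Uk v_Ul

theorem v_Uo : EV.StUo := EV.hUo v_Uf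

theorem v_Un : EV.StUn := EV.hUn

theorem v_Deep : EV.StDeep := EV.hUp v_Uj v_Ud v_Uf v_Uo v_Ub v_Un

theorem v_Ta : EV.StTa := EV.hTa HQ.a_Sp v_Ss

theorem v_Td : EV.StTd := EV.hTd HQ.a_Sp HQ.a_Tc

theorem v_Tf : EV.StTf := EV.hTf HQ.a_Sp

theorem v_Tb : EV.StTb := EV.hTb HQ.a_Sp v_Td HQ.a_Te v_Tf HQ.a_Tg

theorem v_Dbl : EV.StDbl := EV.hDbl v_Ta v_Tb

theorem v_Wa : EV.StWa := EV.hWa v_Cg

theorem v_Wd : EV.StWd := EV.hWd v_Ch1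

theorem v_Wc : EV.StWc := EV.hWc v_Wb

theorem v_We : EV.StWe := EV.hWe v_Wc

theorem v_Nq : EV.StNq := EV.hNq

theorem v_Wg : EV.StWg := EV.hWg

theorem v_Wf : EV.StWf := EV.hWf v_Wa v_Wb v_Wd v_We v_Nq v_Mh v_Mf v_Cj2 v_Wg

theorem v_Dn : EV.StDn := EV.hDn v_Sn

theorem v_Good : EV.StGood := EV.hGood v_Sieve v_U v_Deep v_Dbl v_Wf v_Wg v_Dn v_De1 v_Wb v_Ta

theorem v_Fe : EV.StFe := EV.hFe

theorem v_PosB : EV.StPosB := EV.hPosB v_Pol v_Good v_Fe v_Wb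

end Pool.Agent.Helper3.EVA
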