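import Pool.Agent.Helper54.HQ.DefsU
import Pool.Agent.Helper3.HY.StUU

/-!
# EV: even degree hyperelliptic Jacobians over `ℚ`, internal definitions

`f` is a monic polynomial over `ℤ` of degree `N = 2 g + 2`, `R = ℤ[θ]`, `L = ℚ[θ]`.  The objects
attached to an arbitrary `f : ℤ[X]` (`fK`, `RR`, `LL`, `th`, `Bf`, `NearOne`, `LocSq`, `EvenAt`, `om`, `ep`,
`Over`, `IsQ`, `LD`, `Fam`, `Weak`, `qS`) are those of `Pool/Agent/Helper54/HQ/{Defs,DefsU}.lean`.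
-/

set_option autoImplicit false

namespace Pool.Agent.Helper3.EV

open Polynomial Finset Filter Topology Matrix IsDedekindDomain
open Pool.Agent.Helper3.HY (co tau)
open Pool.Agent.Helper54.HQ (Prm pz factPrm fK RR LL algRL th kp red Bf Smooth NearOne LocSq Weak Fam qS)

/-- The index set. -/
abbrev Jx (g : ℕ) : Type := Fin (2 * g + 2)

/-- The exponents of the standard basis: `-m_0 ≤ ... ≤ -m_g ≤ m_g ≤ ... ≤ m_0`. -/
def nu (g : ℕ) (m : Fin (g + 1) → ℕ) (i : Jx g) : ℤ :=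
  if h : i.1 ≤ g then -(m ⟨i.1, by omega⟩ : ℤ) else (m ⟨2 * g + 1 - i.1, by omega⟩ : ℤ)

/-- `⟨2ρ, m⟩` (type `D`). -/
def rho2 (g : ℕ) (m : Fin (g + 1) → ℕ) : ℕ := ∑ i : Fin (g + 1), 2 * (g - (i : ℕ)) * m i

/-- The excess in the cusp. -/
def exc (g d : ℕ) (m : Fin (g + 1) → ℕ) : ℕ :=
  ∑ p : Jx g × Jx g, if p.1 ≤ p.2 then (-(d + 1 : ℤ) - nu g m p.1 - nu g m p.2).toNat else 0

/-- The conditions which hold for all types. -/
def DAdm (g d : ℕ) (m : Fin (g + 1) → ℕ) : Prop :=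
  Antitone m ∧ (∀ i : Fin (g + 1), (i : ℕ) = g → 2 * m i ≤ d) ∧
    ∀ i j : Fin (g + 1), (i : ℕ) + 1 = j → m i ≤ m j + d

/-- The admissible types. -/
def Adm (g d : ℕ) (m : Fin (g + 1) → ℕ) : Prop :=
  DAdm g d m ∧ ∀ i j : Fin (g + 1), (i : ℕ) + 1 = j → (j : ℕ) = g → m i + m j ≤ d

/-- Pairs of integral matrices. -/
abbrev Pr (g : ℕ) : Type := Matrix (Jx g) (Jx g) ℤ × Matrix (Jx g) (Jx g) ℤ

/-- The pairs `(B, A)` of symmetric integral matrices, `det B = ± 1`, `|b_ij| ≤ C 2^(ν_i+ν_j)`,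
`|a_ij| ≤ C H 2^(ν_i+ν_j)`. -/
structure InBox (g : ℕ) (C H : ℝ) (m : Fin (g + 1) → ℕ) (p : Pr g) : Prop where
  symB : p.1.IsSymm
  symA : p.2.IsSymm
  det : IsUnit p.1.det
  bB : ∀ i j, |((p.1 i j : ℤ) : ℝ)| ≤ C * (2 : ℝ) ^ (nu g m i + nu g m j)
  bA : ∀ i j, |((p.2 i j : ℤ) : ℝ)| ≤ C * H * (2 : ℝ) ^ (nu g m i + nu g m j)

/-- `f` is the characteristic polynomial of `B⁻¹ A`: `det B * f = det (x B - A)`. -/
def IsChi {g : ℕ} (p : Pr g) (f : ℤ[X]) : Prop :=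
  C p.1.det * f = ((X : ℤ[X]) • p.1.map (C : ℤ → ℤ[X]) - p.2.map (C : ℤ → ℤ[X])).det

/-- The vanishing in the deep cusp: `B` vanishes on the first `g + 1` basis vectors, `A` on pairs of the
first `g` and the first `g + 1` basis vectors. -/
def TL {g : ℕ} (p : Pr g) : Prop :=
  (∀ i j : Jx g, (i : ℕ) ≤ g → (j : ℕ) ≤ g → p.1 i j = 0) ∧
    ∀ i j : Jx g, (i : ℕ) < g → (j : ℕ) ≤ g → p.2 i j = 0

/-- The polynomials `(x - a) (x - b) p(x)`, `a ≠ b`, with `p` irreducible of degree `2 g`. -/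
def TType (k : Type) [Field k] (g : ℕ) : Set k[X] :=
  {h | ∃ (a b : k) (p : k[X]), a ≠ b ∧ p.Monic ∧ Irreducible p ∧ p.natDegree = 2 * g ∧
    h = (X - C a) * (X - C b) * p}

/-- The polynomials `(x - a) p(x)` with `p` irreducible of degree `2 g + 1`. -/
def AType (k : Type) [Field k] (g : ℕ) : Set k[X] :=
  {h | ∃ (a : k) (p : k[X]), p.Monic ∧ Irreducible p ∧ p.natDegree = 2 * g + 1 ∧ h = (X - C a) * p}

/-- The irreducible monic polynomials of degree `2 g + 2`. -/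
def IType (k : Type) [Field k] (g : ℕ) : Set k[X] :=
  {h | h.Monic ∧ Irreducible h ∧ h.natDegree = 2 * g + 2}

/-- The pairs over a field `k` which are proportional to a pair from the distinguished orbit of a
polynomial in `S`. -/
def LocPair (k : Type) [Field k] (g : ℕ) (S : Set k[X]) :
    Set (Matrix (Jx g) (Jx g) k × Matrix (Jx g) (Jx g) k) :=
  {p | ∃ h ∈ S, ∃ hm : h.Monic, h.natDegree = 2 * g + 2 ∧
    ∃ (c : k) (w : Jx g → AdjoinRoot h), c ≠ 0 ∧ (∀ i j, c * tau hm (w i * w j) = p.1 i j) ∧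
      ∀ i j, c * tau hm (AdjoinRoot.root h * w i * w j) = p.2 i j}

/-- Reduction of a pair. -/
def redP {g : ℕ} (P : Prm) (p : Pr g) : Matrix (Jx g) (Jx g) (kp P) × Matrix (Jx g) (Jx g) (kp P) :=
  (p.1.map (red P), p.2.map (red P))

/-- The local condition at the primes of `T`. -/
def LocT {g : ℕ} (T : Finset Prm) (p : Pr g) : Prop :=
  ∀ P ∈ T, redP P p ∈ LocPair (kp P) g (TType (kp P) g)

/-- The polynomials which come from a pair of the type `m` which is good at `T`. -/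
def BadM (g : ℕ) (C H : ℝ) (m : Fin (g + 1) → ℕ) (T : Finset Prm) : Set ℤ[X] :=
  {f | f.Monic ∧ f.natDegree = 2 * g + 2 ∧ Irreducible (fK f) ∧
    ∃ p : Pr g, InBox g C H m p ∧ LocT T p ∧ IsChi p f}

/-- The polynomials which come from a pair of an admissible type. -/
def BadSet (g : ℕ) (C : ℝ) (κ H : ℕ) (T : Finset Prm) : Set ℤ[X] :=
  {f | ∃ m : Fin (g + 1) → ℕ, Adm g (Nat.log 2 H + κ) m ∧ f ∈ BadM g C H m T}

/-- The polynomials which come from a pair of the type `m` in the deep cusp. -/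
def DeepM (g : ℕ) (C H : ℝ) (m : Fin (g + 1) → ℕ) : Set ℤ[X] :=
  {f | f.Monic ∧ f.natDegree = 2 * g + 2 ∧ Irreducible (fK f) ∧
    ∃ p : Pr g, InBox g C H m p ∧ TL p ∧ IsChi p f}

/-- The deep cusp: `M^2 4^(∑ m_i) ≤ C H^((g+1)^2)`. -/
def DeepSet (g : ℕ) (C : ℝ) (κ H M : ℕ) : Set ℤ[X] :=
  {f | ∃ m : Fin (g + 1) → ℕ, DAdm g (Nat.log 2 H + κ) m ∧
    (M : ℝ) ^ 2 * 4 ^ (∑ i, m i) ≤ C * (H : ℝ) ^ ((g + 1) ^ 2) ∧ f ∈ DeepM g C H m}

/-- The region: `|c_i| ≤ H ^ i / 2 ^ (N + 4)` for `0 < i < N` and `H ^ N / 2 ≤ c_N ≤ H ^ N`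
(`N = 2 g + 2`, `c_i` the coefficient of `x ^ (N - i)`). -/
def Reg (g H : ℕ) : Set ℤ[X] :=
  {f | f.Monic ∧ f.natDegree = 2 * g + 2 ∧
    (∀ i, 1 ≤ i → i ≤ 2 * g + 1 → 2 ^ (2 * g + 6) * |f.coeff i| ≤ (H : ℤ) ^ (2 * g + 2 - i)) ∧
    (H : ℤ) ^ (2 * g + 2) ≤ 2 * f.coeff 0 ∧ f.coeff 0 ≤ (H : ℤ) ^ (2 * g + 2)}

/-- `f mod p` is divisible by the square of a monic polynomial of degree at least 2. -/
def Dbl (p : ℕ) (f : ℤ[X]) : Prop :=
  ∃ φ : (ZMod p)[X], φ.Monic ∧ 2 ≤ φ.natDegree ∧ φ ^ 2 ∣ f.map (Int.castRingHom (ZMod p))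

/-- The density of the local condition. -/
noncomputable def dens (g : ℕ) (P : Prm) : ℝ :=
  ((TType (kp P) g).ncard : ℝ) / ((P : ℕ) : ℝ) ^ (2 * g + 2)

/-- The conditions at the small primes, at `P₀` and at `T`. -/
def SvMain (g H : ℕ) (P₀ : Prm) (T : Finset Prm) (M : ℕ) : Set ℤ[X] :=
  {f | f ∈ Reg g H ∧ f.map (Int.castRingHom (ZMod 2)) ∈ AType (ZMod 2) g ∧
    f.map (red P₀) ∈ IType (kp P₀) g ∧
    (∀ P ∈ T, f.map (red P) ∈ TType (kp P) g) ∧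
    ∀ p : ℕ, p.Prime → p ≤ M → ¬ Weak p f ∧ ¬ Dbl p f}

/-- The good polynomials. -/
def Good (g H : ℕ) (P₀ : Prm) (T : Finset Prm) : Set ℤ[X] :=
  {f | f ∈ Reg g H ∧ f.map (Int.castRingHom (ZMod 2)) ∈ AType (ZMod 2) g ∧
    f.map (red P₀) ∈ IType (kp P₀) g ∧
    (∀ P ∈ T, f.map (red P) ∈ TType (kp P) g) ∧
    ∀ p : ℕ, p.Prime → ¬ Weak p f ∧ ¬ Dbl p f}

end Pool.Agent.Helper3.EV
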