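import Pool.Agent.Helper3.EV.StC
import Pool.Agent.Helper54.HQ.M_Cf
import Pool.Agent.Helper54.HQ.M_Cd

/-!
# EV, module Cf: the integral structure of an ideal
-/

set_option autoImplicit false

namespace Pool.Agent.Helper3.EV

open Polynomial Finset Filter Topology Matrix IsDedekindDomain
open Pool.Agent.Helper3.HY (co tau)
open Pool.Agent.Helper54.HQ (Prm pz factPrm fK RR LL algRL th kp red Bf Smooth NearOne LocSq Weak Fam qS
  toR IsRed rts evc met InR IsIdl EvenAt smul_mem_Cf fg_Cf natDegree_fK Bf_apply)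

theorem hCf : StCf := by
  intro g f hm hdeg _ α hα I hI
  obtain ⟨d1, d2⟩ := Pool.Agent.Helper54.HQ.hCd f hm (by omega)
  -- the lattice
  have hlat : Submodule.IsLattice ℚ I := by
    refine ⟨fg_Cf hm hα hI, ?_⟩
    rw [eq_top_iff]
    intro z _
    obtain ⟨a, ha, haz⟩ := hI.span z
    have ha' : (a : ℚ) ≠ 0 := by exact_mod_cast ha
    have h1 : z = (a : ℚ)⁻¹ • (a • z) := by
      rw [← Int.cast_smul_eq_zsmul ℚ a z, smul_smul, inv_mul_cancel₀ ha', one_smul]
    rw [h1]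
    exact Submodule.smul_mem _ _ (Submodule.subset_span haz)
  have hfin : Module.finrank ℚ (LL f) = 2 * g + 2 := by
    have h0 : fK f ≠ 0 := (hm.map _).ne_zero
    rw [(AdjoinRoot.powerBasis h0).finrank, AdjoinRoot.powerBasis_dim, natDegree_fK hm, hdeg]
  have hfd : FiniteDimensional ℚ (LL f) := Module.finite_of_finrank_pos (by omega)
  let b0 := Module.Free.chooseBasis ℤ I
  have hcard : Fintype.card (Module.Free.ChooseBasisIndex ℤ I) = Fintype.card (Jx g) := by
    rw [← Module.finrank_eq_card_basis (b0.extendOfIsLattice ℚ), hfin, Fintype.card_fin]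
  obtain ⟨b, -⟩ : ∃ b : Module.Basis (Jx g) ℤ I, True :=
    ⟨b0.reindex (Fintype.equivOfCardEq hcard), trivial⟩
  obtain ⟨e, he⟩ : ∃ e : Module.Basis (Jx g) ℚ (LL f), ∀ i, e i = (b i : LL f) :=
    ⟨b.extendOfIsLattice ℚ, fun i => Module.Basis.extendOfIsLattice_apply ℚ b i⟩
  have heI : ∀ i, e i ∈ I := fun i => by rw [he i]; exact (b i).2
  -- coordinates of the elements of `I`
  have hco : ∀ x ∈ I, ∃ c : Jx g → ℤ, x = ∑ i, ((c i : ℤ) : ℚ) • e i := by
    intro x hx
    refine ⟨fun i => b.repr ⟨x, hx⟩ i, ?_⟩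
    have h1 := congrArg (Subtype.val : I → LL f) (b.sum_repr ⟨x, hx⟩)
    simp only [AddSubmonoidClass.coe_finsetSum, Submodule.coe_smul] at h1
    refine h1.symm.trans (Finset.sum_congr rfl fun i _ => ?_)
    rw [he i, Int.cast_smul_eq_zsmul]
  have hcr : ∀ v : Jx g → ℚ, (∑ i, v i • e i) ∈ I → ∀ i, ∃ a : ℤ, v i = a := by
    intro v hv i
    obtain ⟨c, hc⟩ := hco _ hv
    refine ⟨c i, ?_⟩
    have h1 := congrArg (fun z => e.repr z i) hc
    simp only [Module.Basis.repr_sum_self] at h1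
    exact h1
  -- the dual criterion
  have hdual : ∀ z : LL f, (∀ j, ∃ a : ℤ, tau (hm.map (Int.castRingHom ℚ)) (α * z * e j) = a) →
      z ∈ I := by
    intro z hz
    have hx : ∀ x ∈ I, ∃ a : ℤ, tau (hm.map (Int.castRingHom ℚ)) (α * z * x) = a := by
      intro x hx
      obtain ⟨c, hc⟩ := hco x hx
      choose a ha using hz
      refine ⟨∑ i, c i * a i, ?_⟩
      rw [hc, Finset.mul_sum, map_sum]
      push_cast
      refine Finset.sum_congr rfl fun i _ => ?_
      rw [mul_smul_comm, map_smul, ha i, smul_eq_mul]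
    refine hI.dual z fun x hxI => d2 _ fun r => ?_
    obtain ⟨a, ha⟩ := hx _ (smul_mem_Cf hI r hxI)
    refine ⟨a, ?_⟩
    rw [← ha]
    congr 1
    ring
  choose B hB using fun i j => d1 _ (hI.int (e i) (heI i) (e j) (heI j))
  choose T hT using fun j => hco _ (hI.th _ (heI j))
  have htau : ∀ (v : Jx g → ℚ) (j : Jx g),
      tau (hm.map (Int.castRingHom ℚ)) (α * (∑ i, v i • e i) * e j) = ∑ i, v i * (B i j : ℚ) := by
    intro v j
    rw [Finset.mul_sum, Finset.sum_mul, map_sum]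
    refine Finset.sum_congr rfl fun i _ => ?_
    rw [mul_smul_comm, smul_mul_assoc, map_smul, hB, smul_eq_mul]
  let Bq : Matrix (Jx g) (Jx g) ℚ := (Matrix.of B).map (Int.cast : ℤ → ℚ)
  have hvB : ∀ (v : Jx g → ℚ) (j : Jx g), (v ᵥ* Bq) j = ∑ i, v i * (B i j : ℚ) := fun v j => rfl
  have hdet : Bq.det ≠ 0 := by
    intro h0
    obtain ⟨v, hv, hv0⟩ := Matrix.exists_vecMul_eq_zero_iff.2 h0
    obtain ⟨i₀, hi₀⟩ := Function.ne_iff.1 hv
    have hi₀' : v i₀ ≠ 0 := hi₀
    have h1 : (∑ i, (v i / (2 * v i₀)) • e i) ∈ I := by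
      refine hdual _ fun j => ⟨0, ?_⟩
      rw [htau]
      have h2 := congrFun hv0 j
      rw [hvB] at h2
      have h3 : ∑ i, v i / (2 * v i₀) * (B i j : ℚ) =
          (∑ i, v i * (B i j : ℚ)) / (2 * v i₀) := by
        rw [Finset.sum_div]
        exact Finset.sum_congr rfl fun i _ => by ring
      rw [h3, h2]
      simp
    obtain ⟨a, ha⟩ := hcr _ h1 i₀
    have h4 : (2 * a : ℚ) = 1 := by
      rw [← ha]
      field_simp
    have h5 : 2 * a = 1 := by exact_mod_cast h4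
    omega
  have hinv : Bq⁻¹ * Bq = 1 := Matrix.nonsing_inv_mul _ (isUnit_iff_ne_zero.2 hdet)
  have hNex : ∀ k i, ∃ a : ℤ, Bq⁻¹ k i = a := by
    intro k
    refine hcr (Bq⁻¹ k) (hdual _ fun j => ?_)
    rw [htau, ← hvB]
    have h1 : (Bq⁻¹ k ᵥ* Bq) j = (Bq⁻¹ * Bq) k j := rfl
    rw [h1, hinv, Matrix.one_apply]
    split_ifs
    · exact ⟨1, by norm_num⟩
    · exact ⟨0, by norm_num⟩
  choose N hN using hNex
  have hNB : Matrix.of N * Matrix.of B = 1 := by
    ext i j
    have h1 := congrFun (congrFun hinv i) j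
    rw [Matrix.mul_apply] at h1
    rw [Matrix.mul_apply]
    have h2 : ∑ l, Bq⁻¹ i l * Bq l j = ((∑ l, N i l * B l j : ℤ) : ℚ) := by
      push_cast
      exact Finset.sum_congr rfl fun l _ => by rw [hN]; rfl
    rw [h2, Matrix.one_apply] at h1
    have h3 : (((if i = j then 1 else 0 : ℤ)) : ℚ) = if i = j then 1 else 0 := by
      split_ifs <;> norm_num
    rw [← h3] at h1
    rw [Matrix.one_apply]
    exact_mod_cast h1
  refine ⟨e, Matrix.of B, Matrix.of fun i j => T j i, ⟨?_, ?_, ?_⟩, heI⟩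
  · intro i j
    rw [Bf_apply, hB]
    rfl
  · exact Matrix.isUnit_det_of_left_inverse hNB
  · intro j
    rw [hT j]
    rfl

end Pool.Agent.Helper3.EV
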