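import Pool.Agent.Helper65.EV.St

/-!
# Project EV, module RT: just after a fixed time the types up to a given level do not change
-/

set_option autoImplicit false

open MeasureTheory ProbabilityTheory Set Filter
open scoped ENNReal Topology

namespace Pool.Agent.Helper3.EV

open Pool.Agent.Helper65.EV Pool.Agent.Helper84.Eve

theorem hRT : Pool.Agent.Helper65.EV.hRT := by
  intro A x hD hA t ht k
  have hF : (rel A (t + 1) k).Finite := (hA (t + 1) k).1
  have h1 : ∀ᶠ q in 𝓝[>] t, ∀ e ∈ rel A (t + 1) k, t < e.1 → q < e.1 := by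
    rw [Filter.eventually_all_finite hF]
    intro e _
    by_cases h : t < e.1
    · have h2 : ∀ᶠ q in 𝓝 t, q < e.1 := eventually_lt_nhds h
      exact (h2.filter_mono nhdsWithin_le_nhds).mono fun q hq _ => hq
    · exact Filter.Eventually.of_forall fun q hq => absurd hq h
  have h3 : ∀ᶠ q in 𝓝[>] t, q < t + 1 := by
    have h2 : ∀ᶠ q in 𝓝 t, q < t + 1 := eventually_lt_nhds (by linarith)
    exact h2.filter_mono nhdsWithin_le_nhds
  obtain ⟨u, hu, hsub⟩ := mem_nhdsGT_iff_exists_Ioo_subset.1 (h1.and h3)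
  obtain ⟨q, hq1, hq2⟩ := exists_rat_btwn (show t < u from hu)
  obtain ⟨h4, h5⟩ := hsub ⟨hq1, hq2⟩
  refine ⟨q, hq1, fun i hi => ?_⟩
  apply hD.rest i t q ht hq1.le
  intro e he h6 h7
  by_contra h8
  have h9 : 2 ≤ numPart e k := le_trans (by omega) (numPart_mono e hi)
  exact absurd (h4 e ⟨he, lt_of_le_of_lt ht h6, by linarith, h9⟩ h6) (not_lt.2 h7)

end Pool.Agent.Helper3.EV
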