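import Pool.Agent.Helper3.EV.StS
import Pool.Agent.Helper3.HY.M_Ui
import Pool.Agent.Helper3.HY.M_Pn

/-!
# EV, module Sn: the types are finite and not empty
-/

set_option autoImplicit false

namespace Pool.Agent.Helper3.EV

open Polynomial Finset Filter Topology Matrix
open Pool.Agent.Helper54.HQ (Prm pz factPrm kp red Weak Fam mkP critD StSp StSa StSw StSe StTc StTe StTg)

theorem hSn : StSn := by
  intro g hg p hp
  refine ⟨⟨?_, ?_⟩, ?_, ?_⟩
  · refine (Pool.Agent.Helper3.HY.MUi.finite_deg (ZMod p) (2 * g + 2)).subset ?_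
    rintro h ⟨a, b, q, -, hq, hirr, hd, rfl⟩
    change ((X - C a) * (X - C b) * q).natDegree ≤ 2 * g + 2
    rw [((monic_X_sub_C a).mul (monic_X_sub_C b)).natDegree_mul hq,
      (monic_X_sub_C a).natDegree_mul (monic_X_sub_C b), natDegree_X_sub_C, natDegree_X_sub_C, hd]
    omega
  · obtain ⟨q, h1, h2, h3⟩ := Pool.Agent.Helper3.HY.Pn.exists_irr (ZMod p) (2 * g) (by omega)
    exact ⟨(X - C 0) * (X - C 1) * q, 0, 1, q, zero_ne_one, h1, h2, h3, rfl⟩
  · obtain ⟨q, h1, h2, h3⟩ := Pool.Agent.Helper3.HY.Pn.exists_irr (ZMod p) (2 * g + 1) (by omega)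
    exact ⟨(X - C 0) * q, 0, q, h1, h2, h3, rfl⟩
  · obtain ⟨q, h1, h2, h3⟩ := Pool.Agent.Helper3.HY.Pn.exists_irr (ZMod p) (2 * g + 2) (by omega)
    exact ⟨q, h1, h2, h3⟩

end Pool.Agent.Helper3.EV
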