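import Pool.Agent.Helper3.EV.StU
import Pool.Agent.Helper3.HY.M_Ue1

/-!
# EV module Ue (free orbits)
-/

set_option autoImplicit false

namespace Pool.Agent.Helper3.EV

open Polynomial Finset Filter Topology Matrix IsDedekindDomain
open Pool.Agent.Helper3.HY (co tau)
open Pool.Agent.Helper54.HQ (Prm pz factPrm fK RR LL algRL th kp red Bf Smooth NearOne LocSq Weak Fam qS)
open Pool.Agent.Helper3

/-- over a field, an isometry of `B` and `A` is `1` or `-1` -/
private theorem pm_one_Ue {K : Type} [Field K] {g : ℕ} {B A h : Matrix (Jx g) (Jx g) K}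
    (hB : Bᵀ = B) (hA : Aᵀ = A) (hdet : IsUnit B.det) (hirr : Irreducible (B⁻¹ * A).charpoly)
    (hBh : hᵀ * B * h = B) (hAh : hᵀ * A * h = A) : h = 1 ∨ h = -1 := by
  have hiB : B⁻¹ * B = 1 := Matrix.nonsing_inv_mul B hdet
  have hBi : B * B⁻¹ = 1 := Matrix.mul_nonsing_inv B hdet
  have hinv : (B⁻¹ * hᵀ * B) * h = 1 := by
    calc (B⁻¹ * hᵀ * B) * h = B⁻¹ * (hᵀ * B * h) := by simp only [Matrix.mul_assoc]
      _ = 1 := by rw [hBh, hiB]
  have hinv' : h * (B⁻¹ * hᵀ * B) = 1 := mul_eq_one_comm.1 hinv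
  set X := B⁻¹ * A with hX
  have hXh : X * h = h * X := by
    calc X * h = (h * (B⁻¹ * hᵀ * B)) * (B⁻¹ * A * h) := by rw [hinv', Matrix.one_mul]
      _ = h * (B⁻¹ * (hᵀ * (B * B⁻¹) * A * h)) := by simp only [Matrix.mul_assoc]
      _ = h * (B⁻¹ * (hᵀ * A * h)) := by rw [hBi, Matrix.mul_one]
      _ = h * X := by rw [hAh]
  obtain ⟨p, hp⟩ := HY.hUe1 K (2 * g + 2) X h hirr hXh
  have hXB : Xᵀ * B = B * X := by
    rw [hX, Matrix.transpose_mul, hA, Matrix.transpose_nonsing_inv, hB, Matrix.mul_assoc, hiB,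
      Matrix.mul_one, ← Matrix.mul_assoc, hBi, Matrix.one_mul]
  have hpow : ∀ k : ℕ, (X ^ k)ᵀ * B = B * X ^ k := by
    intro k
    induction k with
    | zero => rw [pow_zero, Matrix.transpose_one, Matrix.one_mul, Matrix.mul_one]
    | succ k ih =>
      rw [pow_succ, Matrix.transpose_mul, Matrix.mul_assoc, ih, ← Matrix.mul_assoc, hXB,
        Matrix.mul_assoc, ← pow_succ', ← pow_succ]
  have hae : ∀ r : K[X], (aeval X r)ᵀ * B = B * aeval X r := by
    intro r
    induction r using Polynomial.induction_on' with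
    | add p q hp hq => rw [map_add, Matrix.transpose_add, add_mul, mul_add, hp, hq]
    | monomial k a =>
      rw [aeval_monomial, Algebra.algebraMap_eq_smul_one, smul_mul_assoc, one_mul,
        Matrix.transpose_smul, Matrix.smul_mul, hpow, Matrix.mul_smul]
  have hhB : hᵀ * B = B * h := by rw [hp]; exact hae p
  have hsq : h * h = 1 := by
    have h1 : B * h * h = B := by rw [← hhB]; exact hBh
    calc h * h = B⁻¹ * (B * h * h) := by
          rw [← Matrix.mul_assoc, ← Matrix.mul_assoc, hiB, Matrix.one_mul]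
      _ = 1 := by rw [h1, hiB]
  have hmin : minpoly K X = X.charpoly := by
    have h1 : minpoly K X ∣ X.charpoly := Matrix.minpoly_dvd_charpoly X
    have hint : IsIntegral K X := Matrix.isIntegral X
    refine eq_of_monic_of_associated (minpoly.monic hint) (Matrix.charpoly_monic X) ?_
    exact ((hirr.dvd_iff.1 h1).resolve_left (minpoly.not_isUnit K X)).symm
  have hprime : Prime (minpoly K X) := by
    rw [hmin]
    exact hirr.prime
  have hdvd : minpoly K X ∣ (p - 1) * (p + 1) := by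
    apply minpoly.dvd
    rw [map_mul, map_sub, map_add, map_one, ← hp]
    rw [sub_mul, mul_add, one_mul, hsq, mul_one]
    abel
  rcases hprime.dvd_or_dvd hdvd with h1 | h1
  · left
    have h2 := (minpoly.dvd_iff).1 h1
    rw [map_sub, map_one, ← hp] at h2
    exact sub_eq_zero.1 h2
  · right
    have h2 := (minpoly.dvd_iff).1 h1
    rw [map_add, map_one, ← hp] at h2
    exact eq_neg_of_add_eq_zero_left h2

/-- the characteristic polynomial over `ℚ` -/
private theorem chi_Ue {g : ℕ} {p : Pr g} {f : ℤ[X]} (hdet : IsUnit p.1.det) (h : IsChi p f) :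
    ((p.1.map (Int.castRingHom ℚ))⁻¹ * p.2.map (Int.castRingHom ℚ)).charpoly = fK f := by
  set B := p.1.map (Int.castRingHom ℚ) with hB
  set A := p.2.map (Int.castRingHom ℚ) with hA
  have hd : B.det = Int.castRingHom ℚ p.1.det := by
    rw [hB, ← RingHom.mapMatrix_apply, ← RingHom.map_det]
  have hu : IsUnit B.det := by
    rw [hd]
    exact hdet.map _
  have hBi : B * B⁻¹ = 1 := Matrix.mul_nonsing_inv B hu
  have h1 := congrArg (Polynomial.map (Int.castRingHom ℚ)) h
  rw [Polynomial.map_mul, map_C] at h1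
  have h2 : Polynomial.map (Int.castRingHom ℚ)
      ((X : ℤ[X]) • p.1.map (C : ℤ → ℤ[X]) - p.2.map (C : ℤ → ℤ[X])).det =
      ((X : ℚ[X]) • B.map (C : ℚ → ℚ[X]) - A.map (C : ℚ → ℚ[X])).det := by
    rw [← Polynomial.coe_mapRingHom, RingHom.map_det]
    congr 1
    ext i j
    simp [hB, hA, Matrix.map_apply, Matrix.sub_apply, Matrix.smul_apply]
  rw [h2] at h1
  have h3 : (X : ℚ[X]) • B.map (C : ℚ → ℚ[X]) - A.map (C : ℚ → ℚ[X]) =
      B.map (C : ℚ → ℚ[X]) * (B⁻¹ * A).charmatrix := by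
    have e1 : A.map (C : ℚ → ℚ[X]) = B.map (C : ℚ → ℚ[X]) * (B⁻¹ * A).map (C : ℚ → ℚ[X]) := by
      have e2 : (B * (B⁻¹ * A)).map (C : ℚ →+* ℚ[X]) =
          B.map (C : ℚ →+* ℚ[X]) * (B⁻¹ * A).map (C : ℚ →+* ℚ[X]) := Matrix.map_mul
      rw [← e2, ← Matrix.mul_assoc, hBi, Matrix.one_mul]
    unfold Matrix.charmatrix
    rw [Matrix.mul_sub]
    congr 1
    rw [Matrix.scalar_apply, ← Matrix.smul_eq_mul_diagonal]
  rw [h3, Matrix.det_mul] at h1
  have h4 : (B.map (C : ℚ → ℚ[X])).det = C (Int.castRingHom ℚ p.1.det) := by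
    have e1 : (B.map (C : ℚ → ℚ[X])).det = C B.det := by
      have := RingHom.map_det (C : ℚ →+* ℚ[X]) B
      rw [this]
      rfl
    rw [e1, hd]
  rw [h4] at h1
  have h5 : (C (Int.castRingHom ℚ p.1.det) : ℚ[X]) ≠ 0 := by
    rw [← hd]
    exact C_ne_zero.2 hu.ne_zero
  exact (mul_left_cancel₀ h5 h1).symm

private theorem det_Ue {g : ℕ} {m : Fin (g + 1) → ℕ} {u : Matrix (Jx g) (Jx g) ℤ} (hu : u ∈ Uni g m) :
    u.det = 1 := by
  rw [Matrix.det_of_isUpperTriangular]
  · exact Finset.prod_eq_one fun i _ => hu.1 i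
  · intro i j hij
    have hij' : j < i := hij
    rcases hu.2 i j hij'.ne' with h | h
    · exact h
    · exact absurd h.1 hij'.asymm

theorem hUe : StUe := by
  intro g hg m p f u₁ u₂ hsB hsA hdet hchi hirr hu₁ hu₂ heq
  have hd2 : IsUnit u₂.det := by rw [det_Ue hu₂]; exact isUnit_one
  have hB : u₁ᵀ * p.1 * u₁ = u₂ᵀ * p.1 * u₂ := congrArg Prod.fst heq
  have hA : u₁ᵀ * p.2 * u₁ = u₂ᵀ * p.2 * u₂ := congrArg Prod.snd heq
  set k := u₂⁻¹ with hk
  have hi : k * u₂ = 1 := Matrix.nonsing_inv_mul u₂ hd2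
  have hi' : u₂ * k = 1 := Matrix.mul_nonsing_inv u₂ hd2
  have hkt : kᵀ * u₂ᵀ = 1 := by rw [← Matrix.transpose_mul, hi', Matrix.transpose_one]
  set h := u₁ * k with hh
  have key : ∀ M : Matrix (Jx g) (Jx g) ℤ, u₁ᵀ * M * u₁ = u₂ᵀ * M * u₂ → hᵀ * M * h = M := by
    intro M hM
    calc hᵀ * M * h = kᵀ * (u₁ᵀ * M * u₁) * k := by
          rw [hh, Matrix.transpose_mul]; simp only [Matrix.mul_assoc]
      _ = kᵀ * (u₂ᵀ * M * u₂) * k := by rw [hM]
      _ = (kᵀ * u₂ᵀ) * M * (u₂ * k) := by simp only [Matrix.mul_assoc]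
      _ = M := by rw [hkt, hi', Matrix.one_mul, Matrix.mul_one]
  set φ : ℤ →+* ℚ := Int.castRingHom ℚ with hφ
  have hinj : Function.Injective φ := Int.cast_injective
  have hmapK : ∀ M : Matrix (Jx g) (Jx g) ℤ, hᵀ * M * h = M →
      (h.map φ)ᵀ * M.map φ * h.map φ = M.map φ := by
    intro M hM
    have h1 := congrArg (fun M : Matrix (Jx g) (Jx g) ℤ => M.map φ) hM
    simp only [Matrix.map_mul] at h1
    exact h1
  have hdetK : IsUnit (p.1.map φ).det := by
    rw [← RingHom.mapMatrix_apply, ← RingHom.map_det]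
    exact hdet.map _
  have hBt : (p.1.map φ)ᵀ = p.1.map φ := by
    rw [← Matrix.transpose_map, hsB.eq]
  have hAt : (p.2.map φ)ᵀ = p.2.map φ := by
    rw [← Matrix.transpose_map, hsA.eq]
  rcases pm_one_Ue hBt hAt hdetK (by rw [chi_Ue hdet hchi]; exact hirr) (hmapK _ (key _ hB))
    (hmapK _ (key _ hA)) with h1 | h1
  · have h3 : h = 1 := by
      apply Matrix.map_injective hinj
      change h.map φ = (1 : Matrix (Jx g) (Jx g) ℤ).map φ
      rw [h1, Matrix.map_one φ (map_zero φ) (map_one φ)]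
    calc u₁ = u₁ * (k * u₂) := by rw [hi, Matrix.mul_one]
      _ = h * u₂ := by rw [hh, Matrix.mul_assoc u₁ k u₂]
      _ = u₂ := by rw [h3, Matrix.one_mul]
  · exfalso
    have h3 : h = -1 := by
      apply Matrix.map_injective hinj
      change h.map φ = (-1 : Matrix (Jx g) (Jx g) ℤ).map φ
      rw [h1]
      ext i j
      simp [Matrix.one_apply, Matrix.map_apply]
    have h4 : u₁ = -u₂ := by
      calc u₁ = u₁ * (k * u₂) := by rw [hi, Matrix.mul_one]
        _ = h * u₂ := by rw [hh, Matrix.mul_assoc u₁ k u₂]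
        _ = -u₂ := by rw [h3, Matrix.neg_mul, Matrix.one_mul]
    have h5 := congrFun (congrFun h4 0) 0
    rw [Matrix.neg_apply, hu₁.1 0, hu₂.1 0] at h5
    omega

end Pool.Agent.Helper3.EV
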