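import Pool.Agent.Helper3.EV.StU

/-!
# EV: the deep cusp, summation (module Up)
-/

set_option autoImplicit false

namespace Pool.Agent.Helper3.EV

open Polynomial Finset Filter Topology Matrix IsDedekindDomain
open Pool.Agent.Helper3.HY (co tau)
open Pool.Agent.Helper54.HQ (Prm pz factPrm fK RR LL algRL th kp red Bf Smooth NearOne LocSq Weak Fam qS)

private theorem DAdm_mono_Up {g d d' : ℕ} {m : Fin (g + 1) → ℕ} (h : DAdm g d m) (hd : d ≤ d') :
    DAdm g d' m :=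
  ⟨h.1, fun i hi => (h.2.1 i hi).trans hd, fun i j hij => (h.2.2 i j hij).trans (by omega)⟩

private theorem DAdm_le_Up {g d : ℕ} {m : Fin (g + 1) → ℕ} (h : DAdm g d m) :
    ∀ (k : ℕ) (i : Fin (g + 1)), (i : ℕ) + k = g → 2 * m i ≤ (2 * (g - i) + 1) * d
  | 0, i, hi => by
      have h1 := h.2.1 i (by omega)
      have h2 : g - (i : ℕ) = 0 := by omega
      rw [h2, mul_zero, zero_add, one_mul]
      exact h1
  | k + 1, i, hi => by
      have hj : (i : ℕ) + 1 < g + 1 := by omega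
      have h1 := h.2.2 i ⟨i + 1, hj⟩ rfl
      have h2 := DAdm_le_Up h k ⟨i + 1, hj⟩ (by simp only; omega)
      simp only at h2
      have h3 : 2 * (g - (i : ℕ)) + 1 = (2 * (g - (i + 1)) + 1) + 2 := by omega
      rw [h3, add_mul]
      omega

private theorem sum_Up (g : ℕ) : ∑ i : Fin (g + 1), (2 * (g - (i : ℕ)) + 1) = (g + 1) ^ 2 := by
  rw [Fin.sum_univ_eq_sum_range (fun i => 2 * (g - i) + 1) (g + 1)]
  induction g with
  | zero => simp
  | succ g ih =>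
    rw [Finset.sum_range_succ']
    have h1 : ∑ k ∈ range (g + 1), (2 * (g + 1 - (k + 1)) + 1) =
        ∑ k ∈ range (g + 1), (2 * (g - k) + 1) := by
      apply Finset.sum_congr rfl
      intro k _
      omega
    rw [h1, ih]
    simp only [tsub_zero]
    ring

private theorem one_Up (h1 : StUj) (h2 : StUd) (h3 : StUb) (h4 : StUn) (h5 : StUo) (h6 : StUf)
    (g : ℕ) (hg : 1 ≤ g) (C : ℝ) (hC : 0 ≤ C) (κ H : ℕ) (hκ : 1 ≤ κ) (hH : 1 ≤ H)
    (m : Fin (g + 1) → ℕ)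
    (hm : DAdm g (Nat.log 2 H + κ) m) (μ : ℕ)
    (hμ : μ + 2 * ∑ i, m i = (Nat.log 2 H + κ) * (g + 1) ^ 2) :
    (DeepM g C H m).Finite ∧ ((DeepM g C H m).ncard : ℝ) ^ 2 * 2 ^ μ ≤
      ((2 * ((2 * g + 2) ^ 2 * C) + 1) ^ (2 * ((g + 1) * (2 * g + 3))) *
        2 ^ ((Nat.log 2 H + κ) * ((g + 1) * (2 * g + 3)))) ^ 2 := by
  have hC' : 0 ≤ (2 * (g : ℝ) + 2) ^ 2 * C := by positivity
  have hfin : (PD g ((2 * (g : ℝ) + 2) ^ 2 * C) H m).Finite :=
    (h6 g _ H m hC' hH).1.subset fun p hp => hp.1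
  obtain ⟨h7, h8⟩ := h1 g hg m hm.1 (PD g C H m) (PD g ((2 * (g : ℝ) + 2) ^ 2 * C) H m) hfin
    (fun p hp => ⟨hp.1.symB, hp.1.symA, hp.1.det⟩) (fun p hp u hu => by
      have h9 := h2 g C H m hC (by positivity) ∅ p u hu
      exact ⟨h9.1 hp.1, h9.2.2.1 hp.2⟩)
  have hsub : DeepM g C H m ⊆ {f : ℤ[X] | Irreducible (fK f) ∧ ∃ p ∈ PD g C H m, IsChi p f} := by
    rintro f ⟨_, _, hf3, p, hp1, hp2, hp3⟩
    exact ⟨hf3, p, ⟨hp1, hp2⟩, hp3⟩
  refine ⟨h7.subset hsub, ?_⟩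
  have h10 := Set.ncard_le_ncard hsub h7
  have h11 := h5 g ((2 * (g : ℝ) + 2) ^ 2 * C) H κ m hC' hH hκ
  have h12 := h4 g (Nat.log 2 H + κ) hg m hm
  have h13 := h3 g m hm.1
  have h14 : 2 * sD g (Nat.log 2 H + κ) m + μ ≤
      2 * ((Nat.log 2 H + κ) * ((g + 1) * (2 * g + 3))) + 2 * rho2 g m := by
    zify at hμ ⊢
    push_cast at h12
    linarith
  have h15 : ((DeepM g C H m).ncard : ℝ) * 2 ^ ups g m ≤
      (2 * ((2 * g + 2) ^ 2 * C) + 1) ^ (2 * ((g + 1) * (2 * g + 3))) *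
        2 ^ (sB g m + sD g (Nat.log 2 H + κ) m) := by
    refine le_trans ?_ h11
    have h16 : (DeepM g C H m).ncard * 2 ^ ups g m ≤
        (PD g ((2 * (g : ℝ) + 2) ^ 2 * C) H m).ncard :=
      (Nat.mul_le_mul_right _ h10).trans h8
    exact_mod_cast h16
  rw [h13, pow_add, pow_add, ← mul_assoc] at h15
  have hB : (0 : ℝ) < 2 ^ sB g m := by positivity
  have hR : (0 : ℝ) < (2 ^ rho2 g m) ^ 2 := by positivity
  set K : ℝ := (2 * ((2 * g + 2) ^ 2 * C) + 1) ^ (2 * ((g + 1) * (2 * g + 3))) with hK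
  have hK0 : 0 ≤ K := by rw [hK]; positivity
  have h17 : ((DeepM g C H m).ncard : ℝ) * 2 ^ rho2 g m ≤
      K * 2 ^ sD g (Nat.log 2 H + κ) m := by
    have : (((DeepM g C H m).ncard : ℝ) * 2 ^ rho2 g m) * 2 ^ sB g m ≤
        (K * 2 ^ sD g (Nat.log 2 H + κ) m) * 2 ^ sB g m := by nlinarith [h15]
    exact le_of_mul_le_mul_right this hB
  have h18 : (((DeepM g C H m).ncard : ℝ) ^ 2 * 2 ^ μ) * (2 ^ rho2 g m) ^ 2 ≤
      (K * 2 ^ ((Nat.log 2 H + κ) * ((g + 1) * (2 * g + 3)))) ^ 2 * (2 ^ rho2 g m) ^ 2 := by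
    calc (((DeepM g C H m).ncard : ℝ) ^ 2 * 2 ^ μ) * (2 ^ rho2 g m) ^ 2
        = (((DeepM g C H m).ncard : ℝ) * 2 ^ rho2 g m) ^ 2 * 2 ^ μ := by ring
      _ ≤ (K * 2 ^ sD g (Nat.log 2 H + κ) m) ^ 2 * 2 ^ μ := by gcongr
      _ = K ^ 2 * 2 ^ (2 * sD g (Nat.log 2 H + κ) m + μ) := by
          rw [pow_add, mul_pow, ← pow_mul, mul_comm 2 (sD g (Nat.log 2 H + κ) m)]; ring
      _ ≤ K ^ 2 * 2 ^ (2 * ((Nat.log 2 H + κ) * ((g + 1) * (2 * g + 3))) + 2 * rho2 g m) := by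
          gcongr
          norm_num
      _ = (K * 2 ^ ((Nat.log 2 H + κ) * ((g + 1) * (2 * g + 3)))) ^ 2 * (2 ^ rho2 g m) ^ 2 := by
          rw [pow_add, mul_pow, ← pow_mul, ← pow_mul, mul_comm 2 (rho2 g m),
            mul_comm 2 ((Nat.log 2 H + κ) * ((g + 1) * (2 * g + 3)))]
          ring
  exact le_of_mul_le_mul_right h18 hR

/-- Up (the deep cusp). -/
theorem hUp (h1 : StUj) (h2 : StUd) (h6 : StUf) (h5 : StUo) (h3 : StUb) (h4 : StUn) :
    StDeep := by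
  classical
  intro g hg C κ hC
  set r : ℝ := 1 / √(√2) with hr
  have h2pos : (0 : ℝ) < √(√2) := by positivity
  have hr0 : 0 < r := by rw [hr]; positivity
  have hrr : r ^ 4 = 1 / 2 := by
    have e1 : (√(√2 : ℝ)) ^ 4 = 2 := by
      have e2 : (√(√2 : ℝ)) ^ 4 = ((√(√2 : ℝ)) ^ 2) ^ 2 := by ring
      rw [e2, Real.sq_sqrt (by positivity), Real.sq_sqrt (by norm_num)]
    rw [hr, div_pow, e1, one_pow]
  have hr1 : r < 1 := by
    by_contra hcon
    push Not at hcon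
    have e3 : (1 : ℝ) ≤ r ^ 4 := one_le_pow₀ hcon
    rw [hrr] at e3
    norm_num at e3
  set K : ℝ := (2 * ((2 * g + 2) ^ 2 * C) + 1) ^ (2 * ((g + 1) * (2 * g + 3))) with hK
  have hK0 : 0 ≤ K := by rw [hK]; positivity
  refine ⟨K * (2 ^ (κ + 1)) ^ ((g + 1) * (2 * g + 3)) * (√(√C) * (1 / (1 - r)) ^ (g + 1)) + 1,
    ?_, ?_⟩
  · have : 0 ≤ 1 / (1 - r) := by
      apply div_nonneg zero_le_one
      linarith
    positivity
  intro M hM H hH
  set d : ℕ := Nat.log 2 H + (κ + 1) with hd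
  set L : Fin (g + 1) → ℕ := fun i => (2 * (g - (i : ℕ)) + 1) * d with hL
  set S : Finset (Fin (g + 1) → ℕ) :=
    (Fintype.piFinset fun i => (range (L i + 1)).filter fun k => 2 * k ≤ L i).filter fun m =>
    DAdm g d m ∧ (M : ℝ) ^ 2 * 4 ^ (∑ i, m i) ≤ C * (H : ℝ) ^ ((g + 1) ^ 2) with hS
  have hle : ∀ m, DAdm g d m → ∀ i, 2 * m i ≤ L i := by
    intro m hm i
    exact DAdm_le_Up hm (g - i) i (by have := i.2; omega)
  have hLs : ∑ i, L i = d * (g + 1) ^ 2 := by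
    rw [hL, ← Finset.sum_mul, sum_Up, mul_comm]
  have hsub : DeepSet g C κ H M ⊆ ⋃ m ∈ S, DeepM g C H m := by
    rintro f ⟨m, hm1, hm2, hm3⟩
    have hm1' : DAdm g d m := DAdm_mono_Up hm1 (by omega)
    rw [Set.mem_iUnion₂]
    refine ⟨m, ?_, hm3⟩
    rw [hS, Finset.mem_filter, Fintype.mem_piFinset]
    refine ⟨fun i => ?_, hm1', hm2⟩
    rw [Finset.mem_filter, Finset.mem_range]
    have := hle m hm1' i
    exact ⟨by omega, this⟩
  -- one type
  have hone : ∀ m ∈ S, (DeepM g C H m).Finite ∧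
      √(M : ℝ) * ((DeepM g C H m).ncard : ℝ) ≤
        K * 2 ^ (d * ((g + 1) * (2 * g + 3))) * √(√C) * ∏ i, r ^ (L i - 2 * m i) := by
    intro m hm
    rw [hS, Finset.mem_filter, Fintype.mem_piFinset] at hm
    obtain ⟨hm0, hm1, hm2⟩ := hm
    have hmL := hle m hm1
    set μ : ℕ := ∑ i, (L i - 2 * m i) with hμ
    have hμs : μ + 2 * ∑ i, m i = d * (g + 1) ^ 2 := by
      rw [← hLs, hμ, Finset.mul_sum, ← Finset.sum_add_distrib]
      apply Finset.sum_congr rfl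
      intro i _
      have := hmL i
      omega
    obtain ⟨h7, h8⟩ := one_Up h1 h2 h3 h4 h5 h6 g hg C hC (κ + 1) H (by omega) hH m hm1 μ hμs
    refine ⟨h7, ?_⟩
    rw [Finset.prod_pow_eq_pow_sum, ← hμ]
    -- `M ^ 2 ≤ C 2 ^ μ`
    have hHd : (H : ℝ) ≤ 2 ^ d := by
      have h9 : H < 2 ^ (Nat.log 2 H + 1) := Nat.lt_pow_succ_log_self (by norm_num) H
      have h10 : 2 ^ (Nat.log 2 H + 1) ≤ 2 ^ d := Nat.pow_le_pow_right (by norm_num) (by omega)
      exact_mod_cast (h9.le.trans h10)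
    have hMC : (M : ℝ) ^ 2 ≤ C * 2 ^ μ := by
      have h11 : (M : ℝ) ^ 2 * 4 ^ (∑ i, m i) ≤ (C * 2 ^ μ) * 4 ^ (∑ i, m i) := by
        calc (M : ℝ) ^ 2 * 4 ^ (∑ i, m i) ≤ C * (H : ℝ) ^ ((g + 1) ^ 2) := hm2
          _ ≤ C * (2 ^ d) ^ ((g + 1) ^ 2) := by gcongr
          _ = (C * 2 ^ μ) * 4 ^ (∑ i, m i) := by
              have e4 : (4 : ℝ) ^ (∑ i, m i) = 2 ^ (2 * ∑ i, m i) := by
                rw [pow_mul]
                norm_num
              rw [e4, mul_assoc, ← pow_add, hμs, pow_mul]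
      exact le_of_mul_le_mul_right h11 (by positivity)
    have h2r : (2 : ℝ) ^ μ * (r ^ μ) ^ 4 = 1 := by
      rw [← pow_mul, mul_comm μ 4, pow_mul, hrr, ← mul_pow]
      norm_num
    have hs : √(M : ℝ) * r ^ μ ≤ √(√C) := by
      have h12 : (√(M : ℝ) * r ^ μ) ^ 4 ≤ (√(√C)) ^ 4 := by
        have e5 : (√(√C)) ^ 4 = C := by
          have e2 : (√(√C)) ^ 4 = ((√(√C)) ^ 2) ^ 2 := by ring
          rw [e2, Real.sq_sqrt (by positivity), Real.sq_sqrt hC]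
        have e6 : (√(M : ℝ)) ^ 4 = (M : ℝ) ^ 2 := by
          have e2 : (√(M : ℝ)) ^ 4 = ((√(M : ℝ)) ^ 2) ^ 2 := by ring
          rw [e2, Real.sq_sqrt (by positivity)]
        rw [e5, mul_pow, e6]
        calc (M : ℝ) ^ 2 * (r ^ μ) ^ 4 ≤ (C * 2 ^ μ) * (r ^ μ) ^ 4 := by gcongr
          _ = C * (2 ^ μ * (r ^ μ) ^ 4) := by ring
          _ = C := by rw [h2r, mul_one]
      exact le_of_pow_le_pow_left₀ (by norm_num) (by positivity) h12
    have h16 : ((DeepM g C H m).ncard : ℝ) ≤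
        K * 2 ^ (d * ((g + 1) * (2 * g + 3))) * (r ^ μ * r ^ μ) := by
      have h19 : ((DeepM g C H m).ncard : ℝ) ^ 2 ≤
          (K * 2 ^ (d * ((g + 1) * (2 * g + 3))) * (r ^ μ * r ^ μ)) ^ 2 := by
        calc ((DeepM g C H m).ncard : ℝ) ^ 2
            = (((DeepM g C H m).ncard : ℝ) ^ 2 * 2 ^ μ) * (r ^ μ) ^ 4 := by
              rw [mul_assoc, h2r, mul_one]
          _ ≤ (K * 2 ^ (d * ((g + 1) * (2 * g + 3)))) ^ 2 * (r ^ μ) ^ 4 := by gcongr
          _ = (K * 2 ^ (d * ((g + 1) * (2 * g + 3))) * (r ^ μ * r ^ μ)) ^ 2 := by ring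
      exact le_of_sq_le_sq h19 (by positivity)
    calc √(M : ℝ) * ((DeepM g C H m).ncard : ℝ)
        ≤ √(M : ℝ) * (K * 2 ^ (d * ((g + 1) * (2 * g + 3))) * (r ^ μ * r ^ μ)) := by gcongr
      _ = (K * 2 ^ (d * ((g + 1) * (2 * g + 3)))) * (√(M : ℝ) * r ^ μ) * r ^ μ := by ring
      _ ≤ (K * 2 ^ (d * ((g + 1) * (2 * g + 3)))) * √(√C) * r ^ μ := by gcongr
  have hfin : (⋃ m ∈ S, DeepM g C H m).Finite :=
    Set.Finite.biUnion S.finite_toSet fun m hm => (hone m hm).1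
  refine ⟨hfin.subset hsub, ?_⟩
  have hcard : ((DeepSet g C κ H M).ncard : ℝ) ≤ ∑ m ∈ S, ((DeepM g C H m).ncard : ℝ) := by
    have h17 := Set.ncard_le_ncard hsub hfin
    have h18 := Finset.set_ncard_biUnion_le S fun m => DeepM g C H m
    exact_mod_cast h17.trans h18
  have hgeo : ∀ n : ℕ, ∑ k ∈ (range (n + 1)).filter (fun k => 2 * k ≤ n), r ^ (n - 2 * k) ≤
      1 / (1 - r) := by
    intro n
    have h19 : ∑ k ∈ (range (n + 1)).filter (fun k => 2 * k ≤ n), r ^ (n - 2 * k) ≤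
        ∑ k ∈ range (n + 1), r ^ k := by
      rw [← Finset.sum_image (s := (range (n + 1)).filter (fun k => 2 * k ≤ n))
        (g := fun k => n - 2 * k) (f := fun k => r ^ k)]
      · apply Finset.sum_le_sum_of_subset_of_nonneg
        · intro k hk
          rw [Finset.mem_image] at hk
          obtain ⟨a, _, rfl⟩ := hk
          rw [Finset.mem_range]
          omega
        · intro i _ _
          positivity
      · intro a ha b hb hab
        have ha' := (Finset.mem_filter.1 ha).2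
        have hb' := (Finset.mem_filter.1 hb).2
        simp only at hab
        omega
    refine h19.trans ?_
    rw [le_div_iff₀ (by linarith), geom_sum_mul_neg]
    have : 0 ≤ r ^ (n + 1) := by positivity
    linarith
  have hprod : ∑ m ∈ S, ∏ i, r ^ (L i - 2 * m i) ≤ (1 / (1 - r)) ^ (g + 1) := by
    calc ∑ m ∈ S, ∏ i, r ^ (L i - 2 * m i)
        ≤ ∑ m ∈ Fintype.piFinset fun i => (range (L i + 1)).filter fun k => 2 * k ≤ L i,
            ∏ i, r ^ (L i - 2 * m i) := by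
          apply Finset.sum_le_sum_of_subset_of_nonneg (Finset.filter_subset _ _)
          intro m _ _
          positivity
      _ = ∏ i, ∑ k ∈ (range (L i + 1)).filter (fun k => 2 * k ≤ L i), r ^ (L i - 2 * k) :=
          (Finset.prod_univ_sum (fun i => (range (L i + 1)).filter (fun k => 2 * k ≤ L i))
            (fun i k => r ^ (L i - 2 * k))).symm
      _ ≤ ∏ _i : Fin (g + 1), (1 / (1 - r)) := by
          apply Finset.prod_le_prod
          · intro i _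
            positivity
          · intro i _
            exact hgeo (L i)
      _ = (1 / (1 - r)) ^ (g + 1) := by simp
  have hMpos : 0 < √(M : ℝ) := by
    rw [Real.sqrt_pos]
    exact_mod_cast hM
  have h2d : (2 : ℝ) ^ (d * ((g + 1) * (2 * g + 3))) ≤
      (2 ^ (κ + 1)) ^ ((g + 1) * (2 * g + 3)) * (H : ℝ) ^ ((g + 1) * (2 * g + 3)) := by
    rw [pow_mul, ← mul_pow]
    apply pow_le_pow_left₀ (by positivity)
    rw [hd, pow_add, mul_comm]
    have h20 : (2 : ℝ) ^ Nat.log 2 H ≤ H := by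
      exact_mod_cast Nat.pow_log_le_self 2 (by omega)
    gcongr
  have hr2 : 0 ≤ 1 / (1 - r) := by
    apply div_nonneg zero_le_one
    linarith
  have hmain : √(M : ℝ) * ((DeepSet g C κ H M).ncard : ℝ) ≤
      K * (2 ^ (κ + 1)) ^ ((g + 1) * (2 * g + 3)) * (√(√C) * (1 / (1 - r)) ^ (g + 1)) *
        (H : ℝ) ^ ((g + 1) * (2 * g + 3)) := by
    calc √(M : ℝ) * ((DeepSet g C κ H M).ncard : ℝ)
        ≤ √(M : ℝ) * ∑ m ∈ S, ((DeepM g C H m).ncard : ℝ) := by gcongr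
      _ = ∑ m ∈ S, √(M : ℝ) * ((DeepM g C H m).ncard : ℝ) := by rw [Finset.mul_sum]
      _ ≤ ∑ m ∈ S, K * 2 ^ (d * ((g + 1) * (2 * g + 3))) * √(√C) *
            ∏ i, r ^ (L i - 2 * m i) :=
          Finset.sum_le_sum fun m hm => (hone m hm).2
      _ = K * 2 ^ (d * ((g + 1) * (2 * g + 3))) * √(√C) *
            ∑ m ∈ S, ∏ i, r ^ (L i - 2 * m i) := by
          rw [Finset.mul_sum]
      _ ≤ K * 2 ^ (d * ((g + 1) * (2 * g + 3))) * √(√C) * (1 / (1 - r)) ^ (g + 1) := by gcongr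
      _ ≤ K * ((2 ^ (κ + 1)) ^ ((g + 1) * (2 * g + 3)) * (H : ℝ) ^ ((g + 1) * (2 * g + 3))) *
            √(√C) * (1 / (1 - r)) ^ (g + 1) := by
          gcongr
      _ = _ := by ring
  rw [div_mul_eq_mul_div, le_div_iff₀ hMpos, mul_comm]
  refine hmain.trans ?_
  have : 0 ≤ (H : ℝ) ^ ((g + 1) * (2 * g + 3)) := by positivity
  nlinarith

end Pool.Agent.Helper3.EV
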