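import Pool.Agent.Helper3.EV.StR
import Pool.Agent.Helper54.HQ.StC

/-!
# EV: from classes and from non-maximal orders to pairs of matrices (statements)

`N = 2 g + 2`.  Reused from `Pool/Agent/Helper54/HQ/StC.lean` (all `f`, proved): `InR`, `IsIdl`, `HQ.StCd`,
`HQ.StCe`, `HQ.StCj1`, `HQ.StDe2`, `HQ.StDe3`, `HQ.StDe4`.
-/

set_option autoImplicit false

namespace Pool.Agent.Helper3.EV

open Polynomial Finset Filter Topology Matrix IsDedekindDomain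
open Pool.Agent.Helper3.HY (co tau)
open Pool.Agent.Helper54.HQ (Prm pz factPrm fK RR LL algRL th kp red Bf Smooth NearOne LocSq Weak Fam qS
  toR IsRed rts evc met InR IsIdl EvenAt)

/-- `z` is locally at `P` a constant times a square. -/
def LocT1 (P : Prm) {f : ℤ[X]} (z : LL f) : Prop :=
  ∃ c : ℤ, ¬ pz P ∣ c ∧ LocSq P ((c : LL f) * z)

/-- `z` is a rational number times a square. -/
def IsTriv {f : ℤ[X]} (z : LL f) : Prop := ∃ (c : ℚ) (w : LL f), z = algebraMap ℚ (LL f) c * w ^ 2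

/-- Cf (the integral structure).  See the docstring of `HQ.StCf`; adapt `HQ/M_Cf.lean` (the parity of `N`
plays no role). -/
def StCf : Prop :=
  ∀ (g : ℕ) (f : ℤ[X]) (hm : f.Monic), f.natDegree = 2 * g + 2 → ∀ [Fact (Irreducible (fK f))]
    (α : LL f), α ≠ 0 → ∀ I : Submodule ℤ (LL f), IsIdl α I →
    ∃ (e : Module.Basis (Jx g) ℚ (LL f)) (B T : Matrix (Jx g) (Jx g) ℤ), IsInt hm α e B T ∧
      ∀ i, e i ∈ I

/-- Cg (discriminant).  The Gram matrix of the powers of `θ` is (matrix of multiplication by `α`) times the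
Hankel matrix `tau (θ^(i+j))`, which is `0` for `i + j < N - 1` and `1` for `i + j = N - 1`, so its determinant is
`(-1)^(N(N-1)/2) = (-1)^((g+1)(2g+1)) = (-1)^(g+1)`.  Adapt `HQ/M_Cg.lean`. -/
def StCg : Prop :=
  ∀ (g : ℕ) (f : ℤ[X]) (hm : f.Monic), f.natDegree = 2 * g + 2 →
    ∀ α : LL f, ∃ b : Module.Basis (Jx g) ℚ (LL f), (∀ i, b i = th f ^ (i : ℕ)) ∧
      (Matrix.of fun i j => Bf hm α (b i) (b j)).det = (-1) ^ (g + 1) * Algebra.norm ℚ α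

/-- Ch1 (distinguished orbit).  `X ⊆ Y` of dimensions `g`, `g + 1` with `B(Y, Y) = 0`, `B(θ X, Y) = 0`.  The
form `B = Bf hm α` is nondegenerate on `L` (dimension `2 g + 2`), so `Y^⊥ = Y` and `θ X ⊆ Y`.  Put `X_1 = X`,
`X_(j+1) = {x ∈ X_j : θ x ∈ X_j}`: `dim X_(j+1) ≥ dim X_j - 1` (map `X_j → X_(j-1)/X_j`, resp. `X → Y/X`, of dimension
`≤ 1`; by induction `θ X_j ⊆ X_(j-1)`), so `X_g ≠ 0`; `v ∈ X_g` nonzero: `v, θv, .., θ^(g-1) v ∈ X` are independent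
(the degree of `θ` is `N > g`), hence a basis of `X`, and `θ^g v ∈ θ X ⊆ Y`, so `v, .., θ^g v` is a basis of `Y`.
`B(Y, Y) = 0` gives `tau (α v² θ^k) = 0` for `0 ≤ k ≤ 2 g = N - 2`, i.e. `α v² ∈ ℚ`.  Adapt `HQ/M_Ch1.lean`. -/
def StCh1 : Prop :=
  ∀ (g : ℕ), 1 ≤ g → ∀ (f : ℤ[X]) (hm : f.Monic), f.natDegree = 2 * g + 2 →
    ∀ [Fact (Irreducible (fK f))] (α : LL f), α ≠ 0 →
    ∀ X Y : Submodule ℚ (LL f), X ≤ Y → Module.finrank ℚ X = g → Module.finrank ℚ Y = g + 1 →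
      (∀ x ∈ Y, ∀ y ∈ Y, Bf hm α x y = 0) → (∀ x ∈ X, ∀ y ∈ Y, Bf hm α (th f * x) y = 0) →
      ∃ (v : LL f) (c : ℚ), v ≠ 0 ∧ c ≠ 0 ∧ α * v ^ 2 = algebraMap ℚ (LL f) c ∧
        X = Submodule.span ℚ (Set.range fun i : Fin g => th f ^ (i : ℕ) * v) ∧
        Y = Submodule.span ℚ (Set.range fun i : Fin (g + 1) => th f ^ (i : ℕ) * v)

/-- Cj2 (local goodness).  `c` is an integer prime to `P` with `c α β² ≡ 1`.  `w_i = c_i⁻¹ (c_i e_i / β) mod P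
∈ k_P[x]/f̄`; since `c α β² ≡ 1`, the element `w_i w_j` is the reduction of `c α e_i e_j` (in the localisation at
`P`), so `tau (w_i w_j)` is the reduction of `c b_ij`, and similarly with `θ`: `LocPair` with the constant
`c̄⁻¹`.  Adapt `HQ/M_Cj2.lean` (or apply its lemmas to `c α`). -/
def StCj2 : Prop :=
  ∀ (g : ℕ), 1 ≤ g → ∀ (f : ℤ[X]) (hm : f.Monic), f.natDegree = 2 * g + 2 →
    ∀ [Fact (Irreducible (fK f))] (P : Prm) (α β : LL f) (c : ℤ), ¬ pz P ∣ c → β ≠ 0 →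
    NearOne P ((c : LL f) * α * β ^ 2) →
    ∀ (e : Module.Basis (Jx g) ℚ (LL f)) (B T : Matrix (Jx g) (Jx g) ℤ), IsInt hm α e B T →
    (∀ i, ∃ c : ℤ, ¬ pz P ∣ c ∧ InR ((c : LL f) * e i * β⁻¹)) →
    ∀ S : Set (kp P)[X], f.map (red P) ∈ S → redP P (B, B * T) ∈ LocPair (kp P) g S

/-- Ck (a class gives a pair).  `HQ.StCe`, Cf, Mh (`StMh`).  If `TL` holds then `X = span(e'_0, .., e'_(g-1))`,
`Y = span(e'_0, .., e'_g)` satisfy the hypotheses of Ch1 (`Bf` by `gram`, `Bf (θ ..)` by Mf), so `α v² = c` and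
`α = c (v⁻¹)²`: excluded; hence `Adm`.  Local goodness: `e'_i ∈ I` (integral combinations of the `e_i`),
`InR (α e'_i²)`, so `InR (c α e'_i²)`; `LocT1` gives `c`, `β`; `HQ.StCj1` for `c α`, Cj2.  `IsChi`: Mf.  Adapt
`HQ/M_Ck.lean`. -/
def StCk : Prop :=
  ∀ g : ℕ, 1 ≤ g → ∃ (C : ℝ) (κ : ℕ), 1 ≤ C ∧ ∀ H : ℕ, 1 ≤ H → ∀ f ∈ Fam (2 * g + 2) H,
    ∀ [Fact (Irreducible (fK f))] [IsDedekindDomain (RR f)] [IsFractionRing (RR f) (LL f)]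
      (T : Finset Prm), (∀ P ∈ T, f.map (red P) ∈ TType (kp P) g) →
    ∀ α : LL f, α ≠ 0 → (∀ v, EvenAt v α) →
      (∀ P ∈ T, LocT1 P α) → ¬ IsTriv α → f ∈ BadSet g C κ H T

/-! ### Non-maximal orders -/

/-- Wa (the lattice of a weakly divisible polynomial; `p` an odd prime).  See the docstring of `HQ.StWa` (the
formulas there are written for general `N`); adapt `HQ/M_Wa.lean` to `N = 2 g + 2`.  The last conclusion now
includes the index `g`. -/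
def StWa : Prop :=
  ∀ (g : ℕ), 1 ≤ g → ∀ (f : ℤ[X]) (hm : f.Monic), f.natDegree = 2 * g + 2 →
    ∀ (p : ℕ) (r : ℤ), p.Prime → p ≠ 2 → (p : ℤ) ^ 2 ∣ f.eval r →
      (p : ℤ) ∣ f.derivative.eval r →
    ∃ (e : Module.Basis (Jx g) ℚ (LL f)) (B T : Matrix (Jx g) (Jx g) ℤ), IsInt hm 1 e B T ∧
      (∀ i, InR ((p : LL f) * e i)) ∧
      ∀ i : Jx g, (i : ℕ) ≤ g → e i = (if (i : ℕ) = 0 then (p : LL f) else 1) *
        (th f - (r : LL f)) ^ (i : ℕ)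

/-- Wb (the region).  For `f` in the region and a root `ρ`: `ρ^N = - c_N - ∑_(0<i<N) c_i ρ^(N-i)`,
`|ρ| ≤ 2H` (`HQ.StMc`), `|∑| ≤ H^N 2^N / 2^(N+4) = H^N / 16`, so `|ρ|^N ≥ 7 H^N / 16 ≥ H^N / 4` and
`|ρ|^(N-1) ≥ H^(N-1) / 8`; `|f'(ρ)| ≥ N |ρ|^(N-1) - ∑ (N-i) |c_i| |ρ|^(N-i-1) ≥ N H^(N-1) (1/8 - 1/32)`.  Adapt
`HQ/M_Wb.lean`. -/
def StWb : Prop :=
  ∀ (g H : ℕ), 1 ≤ g → ∀ f ∈ Reg g H, f ∈ Fam (2 * g + 2) H ∧
    ∀ ρ ∈ rts f, (H : ℝ) ^ (2 * g + 1) / 16 ≤ ‖aeval ρ (derivative f)‖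

/-- Wc (size of the powers of `θ`).  `met 1 (θ^k) = ∑ |ρ|^(2k) / |f'(ρ)| ≤ N (2H)^(2k) 16 / H^(2g+1)`.  Adapt
`HQ/M_Wc.lean`. -/
def StWc : Prop :=
  ∀ (g H : ℕ), 1 ≤ g → 1 ≤ H → ∀ f ∈ Reg g H, ∀ (hm : f.Monic) (k : ℕ), k ≤ 2 * g + 1 →
    met hm 1 (th f ^ k) * (H : ℝ) ^ (2 * g + 1) ≤ 16 * (2 * g + 2) * (2 * (H : ℝ)) ^ (2 * k)

/-- Nq (no quadratic subfield).  `f mod 2 = (x - a) p`, `p` irreducible of degree `2 g + 1`.  Let `v ∈ L`,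
`v² = c ∈ ℚ` and suppose `v ∉ ℚ`: the minimal polynomial of `v` is `x² - c`, so the trace of `v` is `0`
(`Algebra.trace_eq_finrank_mul_minpoly_nextCoeff`).  By Hensel's lemma (`HL.StFA`-type, or
`Polynomial`/`HenselianLocalRing` for the simple root `a`) `f = (x - θ₀) g₂` over `ℤ_2`, `g₂` monic with
reduction `p`, so `g₂` is irreducible over `ℚ_2` (irreducible modulo 2, Gauss) and
`ℚ_2[x]/f ≅ ℚ_2 × M` with the field `M = ℚ_2[x]/g₂` of degree `2 g + 1`.  The image `(v₁, v₂)` of `v` satisfies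
`v₁² = c = v₂²`, so `v₂ = ± v₁` and the trace is `v₁ (1 ± (2 g + 1)) ≠ 0` unless `v₁ = 0`, i.e. `c = 0`, `v = 0`.
(The trace of an element of `ℚ_2[x]/((x-θ₀) g₂)` is the sum of the traces of the two components.) -/
def StNq : Prop :=
  ∀ (g : ℕ), 1 ≤ g → ∀ (f : ℤ[X]), f.Monic → f.natDegree = 2 * g + 2 →
    ∀ [Fact (Irreducible (fK f))], f.map (Int.castRingHom (ZMod 2)) ∈ AType (ZMod 2) g →
    ∀ (v : LL f) (c : ℚ), v ^ 2 = algebraMap ℚ (LL f) c → ∃ a : ℚ, v = algebraMap ℚ (LL f) a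

/-- Wd (distinguished lattices).  `e` from Wa, `e'_j = ∑_i U_ij e_i` with `det U = ± 1` and `TL`.  By Ch1
(`α = 1`) the space `Y = span(e'_0, .., e'_g)` is `span(v, θ v, .., θ^g v)` with `v² = c ∈ ℚ`, so `v ∈ ℚ`
(hypothesis, from Nq) and `Y = span(1, θ, .., θ^g) = span(e_0, .., e_g)`.  Hence `U_ij = 0` for `i > g ≥ j`, and
`det U = ± 1` is the product of the determinants of the blocks, so the block `U₁` (`i, j ≤ g`) has determinant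
`± 1`.  The matrix `P_ij = τ(e'_i θ^(2g+1-j))` (`i, j ≤ g`) is `U₁ᵀ P⁰`, `P⁰_ij = τ(e_i θ^(2g+1-j))`, lower
triangular with diagonal `(p, 1, .., 1)` (`(θ - r)^i θ^(2g+1-j)` has degree `2g + 1 + i - j`).  So `det P = ± p`.
Adapt `HQ/M_Wd.lean`. -/
def StWd : Prop :=
  ∀ (g : ℕ) (hg : 1 ≤ g) (f : ℤ[X]) (hm : f.Monic), f.natDegree = 2 * g + 2 →
    ∀ [Fact (Irreducible (fK f))],
    (∀ (v : LL f) (c : ℚ), v ^ 2 = algebraMap ℚ (LL f) c → ∃ a : ℚ, v = algebraMap ℚ (LL f) a) →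
    ∀ (p : ℕ) (r : ℤ) (e : Module.Basis (Jx g) ℚ (LL f)),
    (∀ i : Jx g, (i : ℕ) ≤ g → e i = (if (i : ℕ) = 0 then (p : LL f) else 1) *
        (th f - (r : LL f)) ^ (i : ℕ)) →
    ∀ (U : Matrix (Jx g) (Jx g) ℤ) (e' : Module.Basis (Jx g) ℚ (LL f))
      (B' T' : Matrix (Jx g) (Jx g) ℤ), IsUnit U.det →
      (∀ j, e' j = ∑ i, ((U i j : ℤ) : ℚ) • e i) → IsInt hm 1 e' B' T' → TL (B', B' * T') →
      |(Matrix.of fun i j : Fin (g + 1) =>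
        Bf hm 1 (e' ⟨i, by omega⟩) (th f ^ (2 * g + 1 - (j : ℕ)))).det| = p

/-- We (the inequality in the deep cusp).  `p = |det P| ≤ (g+1)! ∏_i (C 2^(ν_i)) ∏_j (K √(H^(2g+1-2j)))` with
`|P_ij| ≤ √(met (e'_i) met (θ^(2g+1-j)))` (`HQ.StMd`), Wc; `∑_(i≤g) ν_i = - ∑ m_i`,
`∑_(j≤g) (2 g + 1 - 2 j) = (g+1)²`; square the inequality.  Adapt `HQ/M_We.lean`. -/
def StWe : Prop :=
  ∀ (g : ℕ), 1 ≤ g → ∀ C : ℝ, 1 ≤ C → ∃ C' : ℝ, 1 ≤ C' ∧ ∀ H : ℕ, 1 ≤ H → ∀ f ∈ Reg g H,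
    ∀ (hm : f.Monic), Irreducible (fK f) → ∀ (e' : Jx g → LL f) (m : Fin (g + 1) → ℕ),
      (∀ j, met hm 1 (e' j) ≤ (C * (2 : ℝ) ^ nu g m j) ^ 2) → ∀ p : ℕ,
      |(Matrix.of fun i j : Fin (g + 1) =>
        Bf hm 1 (e' ⟨i, by omega⟩) (th f ^ (2 * g + 1 - (j : ℕ)))).det| = p →
      (p : ℝ) ^ 2 * 4 ^ (∑ i, m i) ≤ C' * (H : ℝ) ^ ((g + 1) ^ 2)

/-- Wf (weakly divisible polynomials).  Wa, Mh with `z = 1`.  If `TL`: Wd (with Nq), We give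
`f ∈ DeepSet` (`M < p`, enlarge the constants).  Otherwise `Adm`, and `LocT`: for `P ∈ T` we have `P ≠ p`
(otherwise `f mod P`, which is squarefree, would have a double root), so Cj2 with `α = β = 1`, `c = 1` and
`c_i = p` (`e'_i` is an integral combination of the `e_i`).  Adapt `HQ/M_Wf.lean`. -/
def StWf : Prop :=
  ∀ g : ℕ, 1 ≤ g → ∃ (C : ℝ) (κ : ℕ), 1 ≤ C ∧ ∀ H : ℕ, 1 ≤ H → ∀ f ∈ Reg g H,
    Irreducible (fK f) → f.map (Int.castRingHom (ZMod 2)) ∈ AType (ZMod 2) g →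
    ∀ (T : Finset Prm), (∀ P ∈ T, f.map (red P) ∈ TType (kp P) g) →
    ∀ (M p : ℕ), p.Prime → p ≠ 2 → M < p → Weak p f →
      f ∈ BadSet g C κ H T ∪ DeepSet g C κ H M

/-- Wg (the constants).  `BadSet` and `DeepSet` are monotone in `C` and in `κ`. -/
def StWg : Prop :=
  ∀ (g : ℕ) (C C' : ℝ) (κ κ' H M : ℕ) (T : Finset Prm), 0 ≤ C → C ≤ C' → κ ≤ κ' →
    BadSet g C κ H T ⊆ BadSet g C' κ' H T ∧ DeepSet g C κ H M ⊆ DeepSet g C' κ' H M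

/-- De1 (irreducibility): `f mod P₀` is irreducible and `f` is monic
(`Monic.irreducible_of_irreducible_map`, Gauss); separable in characteristic 0.  Adapt `HQ/M_De1.lean`. -/
def StDe1 : Prop :=
  ∀ (f : ℤ[X]), f.Monic → ∀ P₀ : Prm, Irreducible (f.map (red P₀)) →
    Irreducible (fK f) ∧ (fK f).Separable

end Pool.Agent.Helper3.EV
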