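import Pool.Agent.Helper3.EV.StG
import Pool.Agent.Helper54.EVL.StI

/-!
# EV: final counting (statements)

`N = 2 g + 2`.
-/

set_option autoImplicit false

namespace Pool.Agent.Helper3.EV

open Polynomial Finset Filter Topology Matrix IsDedekindDomain
open Pool.Agent.Helper54.HQ (Prm pz factPrm fK RR LL algRL th kp red Weak Fam LocSq EvenAt StDe2 StDe3 StDe4)
open Pool.Agent.Helper54.EVL (TwAtE LocSqC StFt)

/-- The fake 2-Selmer set of `D y² = f(x)` is trivial (only the finite places are used). -/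
def TrivF (f : ℤ[X]) (D : ℤ) : Prop :=
  ∀ z : (LL f)ˣ, IsSquare (Algebra.norm ℚ (z : LL f)) →
    (∀ (p : ℕ) [Fact p.Prime], TwAtE f D p z) →
    ∃ (c : ℤ) (β : LL f), (z : LL f) = (c : LL f) * β ^ 2

/-- The leading coefficient. -/
noncomputable def DD (P₀ : Prm) (R : Finset Prm) : ℤ := pz P₀ * ∏ P ∈ R, pz P

/-- Pol (one polynomial), as `HQ/M_Pol.lean`.  `f ∈ Good`: De1 (irreducible over `ℚ`), `HQ.StDe2`, `HQ.StDe4`
(`Smooth`: `Dbl` contains `Strong`), `HQ.StDe3`: the instances.  If `α` has even valuations and is `LocSqC` at `T`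
(which is `LocT1`) and is not a rational number times a square then `f ∈ BadSet` by Ck (`Reg ⊆ Fam` by Wb); so
the hypothesis of `StFt` holds (`α = (a/b) w² = (a b) (w/b)²`). -/
def StPol : Prop :=
  ∀ g : ℕ, 1 ≤ g → ∃ (C : ℝ) (κ : ℕ), 1 ≤ C ∧ ∀ H : ℕ, 1 ≤ H →
    ∀ P₀ : Prm, (P₀ : ℕ) % 8 = 1 → ∀ T : Finset Prm, (∀ P ∈ T, (P : ℕ) % 8 = 1) →
    ∀ f ∈ Good g H P₀ T, f ∉ BadSet g C κ H T →
      Irreducible (fK f) ∧ ∃ R ⊆ T, TrivF f (DD P₀ R)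

/-- The polynomials of degree `2 g + 2` over `ℤ` with leading coefficient in `[1, B]` and the coefficient
of `x ^ (N - i)` bounded by `H ^ i` for `i ≥ 1`. -/
def FamE (g B H : ℕ) : Set ℤ[X] :=
  {F | F.natDegree = 2 * g + 2 ∧ 1 ≤ F.leadingCoeff ∧ F.leadingCoeff ≤ B ∧
    ∀ i, i ≤ 2 * g + 1 → |F.coeff i| ≤ (H : ℤ) ^ (2 * g + 2 - i)}

/-- The good polynomials `F = D f`. -/
def GoodF (g : ℕ) (P₀ : Prm) (T : Finset Prm) (F : ℤ[X]) : Prop :=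
  ∃ (H₁ : ℕ) (f : ℤ[X]) (R : Finset Prm), 1 ≤ H₁ ∧ f ∈ Good g H₁ P₀ T ∧ R ⊆ T ∧
    F = C (DD P₀ R) * f ∧ Irreducible (fK f) ∧ TrivF f (DD P₀ R)

/-- Fe (upper bound for the family).  The coefficients: `2 H^k + 1 ≤ 3 H^k` (`H ≥ 1`) for `1 ≤ k ≤ N`, `B` leading
coefficients, `∑_(k=1)^N k = N (N+1)/2 = (g+1)(2g+3)`.  The map `F ↦ (F.coeff i)_(i ≤ N)` is injective on polynomials
of degree `N`. -/
def StFe : Prop :=
  ∀ (g B H : ℕ), 1 ≤ H → (FamE g B H).Finite ∧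
    ((FamE g B H).ncard : ℝ) ≤ B * 3 ^ (2 * g + 2) * (H : ℝ) ^ ((g + 1) * (2 * g + 3))

/-- Pos (positive proportion).  `C, κ` from Pol, `P₀`, `T`, `δ₀` from Good.  `B = P₀ ∏_(P ∈ T) P`.  For large
`H` put `H₁ = ⌊H / B⌋ ≥ H / (2 B)`.  For every good `f` at height `H₁` choose `R_f ⊆ T`; `D_f = DD P₀ R_f ∈ [1, B]`.
`f ↦ C D_f * f` is injective (the leading coefficient is `D_f`), with values in `FamE g B H`:
`|D_f c_i| ≤ B H₁^(N-i) ≤ (B H₁)^(N-i) ≤ H^(N-i)` for `i < N` (`Reg ⊆ Fam`, Wb).  So there are at least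
`δ₀ H₁^(n₂) ≥ δ₀ (2 B)^(-n₂) H^(n₂)` good `F`, and Fe. -/
def StPos : Prop :=
  ∀ g : ℕ, 1 ≤ g → ∃ (P₀ : Prm) (T : Finset Prm) (B : ℕ) (δ : ℝ),
    (P₀ : ℕ) % 8 = 1 ∧ P₀ ∉ T ∧ (∀ P ∈ T, (P : ℕ) % 8 = 1) ∧ 1 ≤ B ∧ 0 < δ ∧
    ∀ᶠ H : ℕ in atTop, (FamE g B H).Finite ∧
      δ * ((FamE g B H).ncard : ℝ) ≤ ({F | F ∈ FamE g B H ∧ GoodF g P₀ T F}.ncard : ℝ)

end Pool.Agent.Helper3.EV
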