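import Pool.Agent.Helper3.EV.Defs
import Pool.Agent.Helper54.HQ.StS

/-!
# EV: the sieve over `ℤ` (statements)

`N = 2 g + 2`.  Lower bound for the number of polynomials in the region with local conditions at finitely
many primes, and upper bound for the number of polynomials which satisfy `Dbl p` for some large `p`
(Ekedahl sieve, with the discriminant of the polynomial of critical values and the resultant of `f'` and
`f''`).  `mkP`, `StSp`, `StSa`, `StSw`, `StSe`, `critP`, `critD`, `StTc`, `StTe`, `StTg` are those of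
`HQ/StS.lean` (proved in `HQ/M_Sp.lean` .. `HQ/M_Tg.lean`; every module below may import them and the other
modules of HQ).  `Dbl p f`: `f mod p` is divisible by the square of a monic polynomial of degree at least 2
(not necessarily irreducible).
-/

set_option autoImplicit false

namespace Pool.Agent.Helper3.EV

open Polynomial Finset Filter Topology Matrix
open Pool.Agent.Helper54.HQ (Prm pz factPrm kp red Weak Fam mkP critD StSp StSa StSw StSe StTc StTe StTg)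

/-- Ss (Dbl, local count).  As `HQ/M_Ss.lean` (irreducibility of `φ` is not used there):
`f̄ = φ² h`, `φ` monic of degree `d ≥ 2`, `h` monic of degree `N - 2 d`: at most `p^d p^(N-2d) = p^(N-d)`
polynomials; `∑_(d≥2) p^(N-d) ≤ 2 p^(N-2)`. -/
def StSs : Prop :=
  ∀ (N p : ℕ), 2 ≤ N → p.Prime → ∃ W : Finset (Fin N → ZMod p), W.card ≤ 2 * p ^ (N - 2) ∧
    ∀ c : Fin N → ℤ, Dbl p (mkP c) → (fun j => (c j : ZMod p)) ∈ W

/-- Sl (good classes modulo `p²`), as `HQ/M_Sl.lean`, from `HQ.StSw` and `StSs`. -/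
def StSl : Prop :=
  ∀ (N p : ℕ), 2 ≤ N → p.Prime → ∃ A : Finset (Fin N → ZMod (p ^ 2)),
    (1 - 3 / (p : ℝ) ^ 2) * ((p : ℝ) ^ 2) ^ N ≤ A.card ∧
    ∀ c : Fin N → ℤ, (fun j => (c j : ZMod (p ^ 2))) ∈ A → ¬ Weak p (mkP c) ∧ ¬ Dbl p (mkP c)

/-- Sq (squarefree reductions).  If `f mod p` is squarefree and is separable, then neither `Weak` nor `Dbl`:
`Weak p f` gives `r` with `f̄(r) = 0 = f̄'(r)`, so `(x - r)² ∣ f̄`; `φ² ∣ f̄`, `deg φ ≥ 2` contradicts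
`Squarefree f̄` (`φ` is not a unit). -/
def StSq : Prop :=
  ∀ (p : ℕ), p.Prime → ∀ f : ℤ[X], Squarefree (f.map (Int.castRingHom (ZMod p))) →
    ¬ Weak p f ∧ ¬ Dbl p f

/-- Sx (squarefree types).  The polynomials of the three types over a finite prime field are squarefree,
monic of degree `2 g + 2` (`g ≥ 1`): the factors are irreducible, monic and pairwise different
(degrees `1, 1, 2 g`; `1, 2 g + 1`; `2 g + 2`). -/
def StSx : Prop :=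
  ∀ (g : ℕ), 1 ≤ g → ∀ (k : Type) [Field k] (h : k[X]),
    (h ∈ TType k g ∨ h ∈ AType k g ∨ h ∈ IType k g) → h.Monic ∧ h.natDegree = 2 * g + 2 ∧ Squarefree h

/-- Sn (the types are not empty, finite).  Irreducible monic polynomials of every degree `≥ 1` exist over
`ZMod p` (see `irr_Sd` in `HQ/M_Sd.lean` and `HQ/M_Dn.lean`); monic polynomials of fixed degree over a finite field form a
finite set. -/
def StSn : Prop :=
  ∀ (g : ℕ), 1 ≤ g → ∀ (p : ℕ) [Fact p.Prime], ((TType (ZMod p) g).Finite ∧ (TType (ZMod p) g).Nonempty) ∧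
    (AType (ZMod p) g).Nonempty ∧ (IType (ZMod p) g).Nonempty

/-- Sd (the prime 2).  From Sp, Sq, Sx, Sn. -/
def StSd : Prop :=
  ∀ g : ℕ, 1 ≤ g → ∃ a : Fin (2 * g + 2) → ZMod 2, ∀ c : Fin (2 * g + 2) → ℤ,
    (fun j => (c j : ZMod 2)) = a →
    (mkP c).map (Int.castRingHom (ZMod 2)) ∈ AType (ZMod 2) g ∧ ¬ Weak 2 (mkP c) ∧ ¬ Dbl 2 (mkP c)

/-- S0 (the prime `P₀`).  From Sp, Sq, Sx, Sn. -/
def StS0 : Prop :=
  ∀ g : ℕ, 1 ≤ g → ∀ P : Prm, ∃ a : Fin (2 * g + 2) → kp P, ∀ c : Fin (2 * g + 2) → ℤ,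
    (fun j => (c j : kp P)) = a →
    (mkP c).map (red P) ∈ IType (kp P) g ∧ ¬ Weak (P : ℕ) (mkP c) ∧ ¬ Dbl (P : ℕ) (mkP c)

/-- St (the primes of `T`).  `A` is the set of the tuples whose polynomial lies in `TType`
(`HQ/M_St.lean`).  From Sp, Sq, Sx, Sn. -/
def StSt : Prop :=
  ∀ (g : ℕ), 1 ≤ g → ∀ (P : Prm), ∃ A : Finset (Fin (2 * g + 2) → kp P),
    A.card = (TType (kp P) g).ncard ∧ ∀ c : Fin (2 * g + 2) → ℤ, (fun j => (c j : kp P)) ∈ A →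
      (mkP c).map (red P) ∈ TType (kp P) g ∧ ¬ Weak (P : ℕ) (mkP c) ∧ ¬ Dbl (P : ℕ) (mkP c)

/-- The main lower bound, as `HQ/M_Sieve.lean`.  Sa with the moduli `2` (Sd), `P₀` (S0), `P` for `P ∈ T`
(St), `p²` for the other odd primes `p ≤ M` (Sl): for every modulus `q_i` a set `A_i` of at least
`δ_i q_i^N` classes, with `δ = 2^(-N)` at 2, `P₀^(-N)` at `P₀`, `dens g P` at `P ∈ T`, `1 - 3/p²` at the
others.  The box of `Reg`: for `1 ≤ i ≤ 2g+1` the interval `|c_i| ≤ H^(N-i) / 2^(2g+6)`, for `i = 0` the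
interval `[⌈H^N/2⌉, H^N]`; with `Q = ∏ q_i` and `H` large it contains at least `n_i Q` integers with
`n_i Q ≥ H^(N-i) / 2^(2g+7)`.  So the number is at least
`∏ δ_i ∏ (Q n_i) ≥ (2 P₀)^(-N) (1/3) ∏ dens · 2^(-N(2g+7)) H^(N(N+1)/2)` (Se), and
`N (N + 1) / 2 = (g + 1) (2 g + 3)`. -/
def StSieve : Prop :=
  ∀ g : ℕ, 1 ≤ g → ∀ P₀ : Prm, 2 * g + 2 < (P₀ : ℕ) → ∃ c₀ : ℝ, 0 < c₀ ∧
    ∀ T : Finset Prm, P₀ ∉ T → (∀ P ∈ T, 2 * g + 2 < (P : ℕ)) →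
    ∀ M : ℕ, ∀ᶠ H : ℕ in atTop, (SvMain g H P₀ T M).Finite ∧
      c₀ * (∏ P ∈ T, dens g P) * (H : ℝ) ^ ((g + 1) * (2 * g + 3)) ≤
        ((SvMain g H P₀ T M).ncard : ℝ)

/-! ### Dbl for large primes -/

/-- Ta (`p ≤ H`), as `HQ/M_Ta.lean` with Ss of this file. -/
def StTa : Prop :=
  ∀ (N H : ℕ), 2 ≤ N → (Fam N H).Finite ∧ ∀ p : ℕ, p.Prime → p ≤ H →
    ({f | f ∈ Fam N H ∧ Dbl p f}.ncard : ℝ) ≤
      2 * 4 ^ N * (H : ℝ) ^ (N * (N + 1) / 2) / (p : ℝ) ^ 2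

/-- Td (elimination of the constant coefficient), as `HQ/M_Td.lean` with one more factor.
`D = critD N F * resultant F' F'' (N - 1) (N - 2)`, `F = x^N + ∑_i X_i x^(i+1)` over
`ℤ[X_0, .., X_(N-2)]`.  If `Dbl p f`, `p > N`: over the algebraic closure `K` of `𝔽_p` either `φ` has two
different roots `ξ, ξ'`, double roots of `f̄`: so `f̄'(ξ) = f̄'(ξ') = 0`, `f̄(ξ) = f̄(ξ') = 0`, also for
`f - c_0 = F(c)`: `critD = 0` in `K` by Tc; or `φ = (x - ξ)^d` with `d ≥ 2`, then `(x - ξ)^4 ∣ f̄`, so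
`f̄'(ξ) = f̄''(ξ) = 0` and `resultant f̄' f̄'' = 0` (`f̄'` has degree `N - 1` as `p > N`, `f̄''` degree
at most `N - 2`; compatibility with ring homomorphisms: `resultant_map_map`).  `D ≠ 0`: evaluate at
`f_0 = x^N - N x` over `ℂ` as in `HQ/M_Td.lean`: `critD ≠ 0`, and `f_0' = N (x^(N-1) - 1)`,
`f_0'' = N (N-1) x^(N-2)` have no common root, their degrees are `N - 1`, `N - 2`, so the resultant
is not 0. -/
def StTd : Prop :=
  ∀ N : ℕ, 3 ≤ N → ∃ D : MvPolynomial (Fin (N - 1)) ℤ, D ≠ 0 ∧ ∀ p : ℕ, p.Prime → N < p →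
    ∀ c : Fin N → ℤ, Dbl p (mkP c) →
    (p : ℤ) ∣ MvPolynomial.eval (fun i : Fin (N - 1) => c ⟨(i : ℕ) + 1, by omega⟩) D

/-- Tf (few residues of the constant coefficient), as `HQ/M_Tf.lean` (one root of `φ` is enough there). -/
def StTf : Prop :=
  ∀ (N p : ℕ), 3 ≤ N → p.Prime → N < p → ∀ c' : Fin N → ℤ, ∃ E : Finset (ZMod p),
    E.card ≤ N - 1 ∧ ∀ c : Fin N → ℤ, (∀ i : Fin N, (i : ℕ) ≠ 0 → c i = c' i) →
      Dbl p (mkP c) → ∀ i₀ : Fin N, (i₀ : ℕ) = 0 → (c i₀ : ZMod p) ∈ E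

/-- Tb (large primes), as `HQ/M_Tb.lean`, with Td and Tf of this file, `HQ.StTe` and `HQ.StTg`. -/
def StTb : Prop :=
  ∀ N : ℕ, 3 ≤ N → ∃ K : ℝ, 0 < K ∧ ∀ H : ℕ, 2 ≤ H →
    ({f | f ∈ Fam N H ∧ ∃ p : ℕ, p.Prime ∧ H < p ∧ N < p ∧ Dbl p f}.ncard : ℝ) * H ≤
      K * (H : ℝ) ^ (N * (N + 1) / 2)

/-- The tail, as `HQ/M_Strong.lean`: Ta for `M < p ≤ H` and Tb for `p > H`.
`N (N + 1) / 2 = (g + 1) (2 g + 3)`. -/
def StDbl : Prop :=
  ∀ g : ℕ, 1 ≤ g → ∃ C₂ : ℝ, 0 < C₂ ∧ ∀ M H : ℕ, 1 ≤ M → M ≤ H → 2 * g + 2 ≤ H →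
    ({f | f ∈ Fam (2 * g + 2) H ∧ ∃ p : ℕ, p.Prime ∧ M < p ∧ Dbl p f}.ncard : ℝ) ≤
      C₂ / M * (H : ℝ) ^ ((g + 1) * (2 * g + 3))

/-- Dn (the primes), from Sn and as `HQ/M_Dn.lean` (there are infinitely many primes `≡ 1 mod 8`,
`Nat.exists_prime_gt_modEq_one`; choose `n` of them which are larger than `2 g + 2` and `P₀`). -/
def StDn : Prop :=
  ∀ g : ℕ, 1 ≤ g → (∀ P : Prm, 0 < dens g P) ∧
    ∀ (P₀ : Prm) (n : ℕ), ∃ T : Finset Prm, T.card = n ∧ P₀ ∉ T ∧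
      ∀ P ∈ T, (P : ℕ) % 8 = 1 ∧ 2 * g + 2 < (P : ℕ)

end Pool.Agent.Helper3.EV
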