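import Pool.Agent.Helper3.EV.StU
import Pool.Agent.Helper3.EV.StC
import Pool.Agent.Helper3.EV.StS

/-!
# EV: many good polynomials (statement)
-/

set_option autoImplicit false

namespace Pool.Agent.Helper3.EV

open Polynomial Finset Filter Topology Matrix IsDedekindDomain
open Pool.Agent.Helper54.HQ (Prm pz factPrm fK RR LL algRL th kp red Weak Fam)

/-- Good (many good polynomials).  Let `P₀` be a prime `≡ 1 mod 8`, `> 2 g + 2` (Dn with `n = 1`), `C', κ'`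
the constants of Wf, `C'' = max C C'`, `κ'' = max κ κ'`.  Let `f ∈ SvMain g H P₀ T M`, `M ≥ 2`,
`f ∉ Good`: then `Weak p f` or `Dbl p f` for a prime `p > M`.  In the first case (`f` is irreducible by De1
at `P₀`) Wf gives `f ∈ BadSet g C' κ' H T ∪ DeepSet g C' κ' H M`, in the second `f` is in the set of `StDbl`
(`Reg ⊆ Fam`, Wb).  So (Wg)
`SvMain ⊆ {good} ∪ BadSet g C'' κ'' H T ∪ DeepSet g C'' κ'' H M ∪ {Dbl for some p > M}`.  With the constants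
`c₀` (StSieve), `C₀` (StU), `C₁` (StDeep), `C₂` (StDbl): choose `n` with `C₀ 2^(-n) ≤ c₀ / 4`, `T` with
`#T = n` (Dn), `d = ∏ dens > 0`, `ε = c₀ d / 8`, `M ≥ 2` with `C₁ / √M + C₂ / M ≤ c₀ d / 8`: `δ = c₀ d / 2`.
Adapt `HQ/M_Good.lean`. -/
def StGood : Prop :=
  ∀ g : ℕ, 1 ≤ g → ∀ (C : ℝ) (κ : ℕ), 1 ≤ C → ∃ (P₀ : Prm) (T : Finset Prm) (δ : ℝ),
    (P₀ : ℕ) % 8 = 1 ∧ P₀ ∉ T ∧ (∀ P ∈ T, (P : ℕ) % 8 = 1) ∧ 0 < δ ∧ ∀ᶠ H : ℕ in atTop,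
      {f | f ∈ Good g H P₀ T ∧ f ∉ BadSet g C κ H T}.Finite ∧
      δ * (H : ℝ) ^ ((g + 1) * (2 * g + 3)) ≤
        ({f | f ∈ Good g H P₀ T ∧ f ∉ BadSet g C κ H T}.ncard : ℝ)

end Pool.Agent.Helper3.EV
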