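import Pool.Agent.Helper3.EV.Defs
import Pool.Agent.Helper54.HQ.StR

/-!
# EV: reduction theory and the canonical metric (statements)

`N = 2 g + 2`.  The general statements `HQ.StRa`, .., `HQ.StRf` (all `n`), `HQ.StMa`, .., `HQ.StMd` (all `f`) of
`Pool/Agent/Helper54/HQ/StR.lean` and the definitions `toR`, `IsRed`, `rts`, `evc`, `met` are reused (proved:
`HQ.hRa`, `HQ.hRc`, .. in `HQ/M_*.lean`).
-/

set_option autoImplicit false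

namespace Pool.Agent.Helper3.EV

open Polynomial Finset Filter Topology Matrix IsDedekindDomain
open Pool.Agent.Helper3.HY (co tau)
open Pool.Agent.Helper54.HQ (Prm pz factPrm fK RR LL algRL th kp red Bf Smooth NearOne LocSq Weak Fam qS
  toR IsRed rts evc met)

/-- Rg (the type).  For `i ≤ g` put `s_i = min(1, a_i, a_(i+1), .., a_g)` (increasing in `i`, `≤ 1`) and let
`m_i` be the natural number with `2^(-m_i-1) < s_i ≤ 2^(-m_i)`; `m` is antitone.  `s_i ≤ a_i`; and `a_i ≤ K s_i`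
because `a_i² ≤ 2^n a_j²` for `i ≤ j` and `a_i² ≤ 2^n a_(rev i)²`, `a_i² a_(rev i)² ≤ c₂` bound `a_i`
(`i ≤ g < rev i = 2 g + 1 - i`).  So `a_i` and `2^(ν_i)` agree up to a constant for `i ≤ g`; for `i > g` use the
product `a_i a_(rev i)` and `ν_(rev i) = - ν_i`.  Adapt `HQ/M_Rg.lean` (there is no middle index now). -/
def StRg : Prop :=
  ∀ (g : ℕ) (c₁ c₂ : ℝ), 0 < c₁ → ∃ K : ℝ, 1 ≤ K ∧ ∀ a : Jx g → ℝ, (∀ i, 0 < a i) →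
    (∀ i j, i ≤ j → a i ^ 2 ≤ 2 ^ (2 * g + 2) * a j ^ 2) →
    (∀ i, c₁ ≤ a i ^ 2 * a (Fin.rev i) ^ 2 ∧ a i ^ 2 * a (Fin.rev i) ^ 2 ≤ c₂) →
    ∃ m : Fin (g + 1) → ℕ, Antitone m ∧ ∀ i, (2 : ℝ) ^ nu g m i ≤ K * a i ∧
      a i ≤ K * (2 : ℝ) ^ nu g m i

/-- Rh (the pair of a reduced basis), `n = 2 g + 2`.  `HQ.StRc`, `HQ.StRd`, `HQ.StRe`, `HQ.StRf`, Rg.
`B' = Uᵀ B U`, `A' = Uᵀ (B T) U` symmetric; `|B'_ij| ≤ √(S(U e_i) S(U e_j)) ≤ 2^n a_i a_j ≤ 2^n K² 2^(ν_i+ν_j)`;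
`A'_ij = (U e_i)ᵀ B (T U e_j)`, `|A'_ij| ≤ 2 H 2^n a_i a_j`.  Steps (`DAdm`): `2^(ν_(i+1)-ν_i) ≤ K² a_(i+1)/a_i ≤
K² 2^(2n+1) H ≤ 2^(log₂ H + κ₁)` (`H < 2^(log₂ H + 1)`); the step from the index `g` to `g + 1` gives
`2 m_g ≤ log₂ H + κ₁` (`ν_g = - m_g`, `ν_(g+1) = m_g`).  So `DAdm g (log₂ H + κ₁) m`, and this holds for every
larger `κ`.  Dichotomy: suppose `m_(g-1) + m_g > log₂ H + κ`, where `κ ≥ κ₁ + κ₀`, `2^(κ₀) > C`.  For `i, j ≤ g` not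
both equal to `g` we have `ν_i + ν_j = -(m_i + m_j) ≤ -(m_(g-1) + m_g) ≤ -(log₂ H + κ + 1)`, so `|B'_ij| < 1` and
`|A'_ij| ≤ C H 2^(ν_i+ν_j) < 1`: these entries vanish.  Finally `m_(g-1) ≤ m_g + log₂ H + κ₁` gives
`2 m_g > κ - κ₁ ≥ κ₀`, so `|B'_gg| ≤ C 2^(-2 m_g) < 1` and `B'_gg = 0`.  Adapt `HQ/M_Rh.lean`. -/
def StRh : Prop :=
  ∀ g : ℕ, 1 ≤ g → ∃ (C : ℝ) (κ : ℕ), 1 ≤ C ∧ ∀ H : ℕ, 1 ≤ H →
    ∀ (S : Matrix (Jx g) (Jx g) ℝ) (B T : Matrix (Jx g) (Jx g) ℤ), S.PosDef → S.det = 1 →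
    B.IsSymm → IsUnit B.det → (B * T).IsSymm →
    Irreducible (T.charpoly.map (Int.castRingHom ℚ)) →
    (∀ x y : Jx g → ℤ, (((x ⬝ᵥ B *ᵥ y : ℤ)) : ℝ) ^ 2 ≤ qS S x * qS S y) →
    (∀ x : Jx g → ℤ, qS S (T *ᵥ x) ≤ (2 * (H : ℝ)) ^ 2 * qS S x) →
    ∃ (U : Matrix (Jx g) (Jx g) ℤ) (m : Fin (g + 1) → ℕ), IsUnit U.det ∧
      DAdm g (Nat.log 2 H + κ) m ∧ InBox g C H m (Uᵀ * B * U, Uᵀ * (B * T) * U) ∧
      (∀ j, qS S (fun i => U i j) ≤ (C * (2 : ℝ) ^ nu g m j) ^ 2) ∧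
      (Adm g (Nat.log 2 H + κ) m ∨ TL (Uᵀ * B * U, Uᵀ * (B * T) * U))

/-! ### The canonical metric -/

/-- Me (the matrix of the metric).  See the docstring of `HQ.StMe`; adapt `HQ/M_Me.lean` (the proof does not
use the parity of `N`). -/
def StMe : Prop :=
  ∀ (g : ℕ), ∀ (f : ℤ[X]) (hm : f.Monic), f.natDegree = 2 * g + 2 → Irreducible (fK f) →
    ∀ z : LL f, z ≠ 0 → ∀ e : Module.Basis (Jx g) ℚ (LL f),
    |(Matrix.of fun i j => Bf hm z (e i) (e j)).det| = 1 →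
    ∃ S : Matrix (Jx g) (Jx g) ℝ, S.PosDef ∧ S.det = 1 ∧
      ∀ x : Jx g → ℤ, qS S x = met hm z (∑ i, (x i : ℚ) • e i)

/-- An integral structure: a basis `e` of `L` with unimodular integral Gram matrix `B` for `τ(z x y)`
whose `ℤ`-span is stable under `θ` (with matrix `T`). -/
structure IsInt {g : ℕ} {f : ℤ[X]} (hm : f.Monic) (z : LL f) (e : Module.Basis (Jx g) ℚ (LL f))
    (B T : Matrix (Jx g) (Jx g) ℤ) : Prop where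
  gram : ∀ i j, Bf hm z (e i) (e j) = (B i j : ℚ)
  unit : IsUnit B.det
  mat : ∀ j, th f * e j = ∑ i, ((T i j : ℤ) : ℚ) • e i

/-- Mf (algebra of integral structures).  See the docstring of `HQ.StMf`; adapt `HQ/M_Mf.lean`. -/
def StMf : Prop :=
  ∀ (g : ℕ) (f : ℤ[X]) (hm : f.Monic), f.natDegree = 2 * g + 2 → Irreducible (fK f) →
    ∀ (z : LL f) (e : Module.Basis (Jx g) ℚ (LL f)) (B T : Matrix (Jx g) (Jx g) ℤ),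
    IsInt hm z e B T → B.IsSymm ∧ (B * T).IsSymm ∧ T.charpoly = f ∧ IsChi (B, B * T) f ∧
      ∀ i j, Bf hm z (th f * e i) (e j) = (((B * T) i j : ℤ) : ℚ)

/-- Mg (change of basis).  `e'_j = ∑_i U_ij e_i`, `det U = ± 1`: `B' = Uᵀ B U`, `T' = U⁻¹ T U`,
`B' T' = Uᵀ (B T) U`.  Adapt `HQ/M_Mg.lean`. -/
def StMg : Prop :=
  ∀ (g : ℕ) (f : ℤ[X]) (hm : f.Monic), f.natDegree = 2 * g + 2 → Irreducible (fK f) →
    ∀ (z : LL f) (e : Module.Basis (Jx g) ℚ (LL f)) (B T U : Matrix (Jx g) (Jx g) ℤ),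
    IsInt hm z e B T → IsUnit U.det → ∃ (e' : Module.Basis (Jx g) ℚ (LL f))
      (T' : Matrix (Jx g) (Jx g) ℤ), IsInt hm z e' (Uᵀ * B * U) T' ∧
      (∀ j, e' j = ∑ i, ((U i j : ℤ) : ℚ) • e i) ∧ Uᵀ * B * U * T' = Uᵀ * (B * T) * U

/-- Mh (the pair of an integral structure).  `HQ.StMd`, Me, Mf and Rh; `e'` from Mg.  Adapt
`HQ/M_Mh.lean`. -/
def StMh : Prop :=
  ∀ g : ℕ, 1 ≤ g → ∃ (C : ℝ) (κ : ℕ), 1 ≤ C ∧ ∀ H : ℕ, 1 ≤ H → ∀ f ∈ Fam (2 * g + 2) H,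
    ∀ (hm : f.Monic), Irreducible (fK f) → ∀ z : LL f, z ≠ 0 →
    ∀ (e : Module.Basis (Jx g) ℚ (LL f)) (B T : Matrix (Jx g) (Jx g) ℤ), IsInt hm z e B T →
    ∃ (U : Matrix (Jx g) (Jx g) ℤ) (e' : Module.Basis (Jx g) ℚ (LL f))
      (B' T' : Matrix (Jx g) (Jx g) ℤ) (m : Fin (g + 1) → ℕ), IsUnit U.det ∧
      (∀ j, e' j = ∑ i, ((U i j : ℤ) : ℚ) • e i) ∧ IsInt hm z e' B' T' ∧
      DAdm g (Nat.log 2 H + κ) m ∧ InBox g C H m (B', B' * T') ∧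
      (∀ j, met hm z (e' j) ≤ (C * (2 : ℝ) ^ nu g m j) ^ 2) ∧
      (Adm g (Nat.log 2 H + κ) m ∨ TL (B', B' * T'))

end Pool.Agent.Helper3.EV
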