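import Pool.Agent.Helper3.EV.Defs
import Pool.Agent.Helper54.HQ.StU

/-!
# EV: counting pairs of matrices (statements)

`N = 2 g + 2`, `n₂ = (g + 1) (2 g + 3)` is the number of pairs `i ≤ j`, `Q = |k|`.  The modules are adapted
from `Pool/Agent/Helper54/HQ/M_*.lean` (same names), where `N = 2 g + 1`.
-/

set_option autoImplicit false

namespace Pool.Agent.Helper3.EV

open Polynomial Finset Filter Topology Matrix IsDedekindDomain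
open Pool.Agent.Helper3.HY (co tau)
open Pool.Agent.Helper54.HQ (Prm pz factPrm fK RR LL algRL th kp red Bf Smooth NearOne LocSq Weak Fam qS)

/-- The unipotent matrices of the type `m`. -/
def Uni (g : ℕ) (m : Fin (g + 1) → ℕ) : Set (Matrix (Jx g) (Jx g) ℤ) :=
  {u | (∀ i, u i i = 1) ∧ ∀ i j, i ≠ j → u i j = 0 ∨
    (i < j ∧ |((u i j : ℤ) : ℝ)| ≤ (2 : ℝ) ^ (nu g m j - nu g m i))}

/-- The exponent of the number of unipotent matrices. -/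
def ups (g : ℕ) (m : Fin (g + 1) → ℕ) : ℕ :=
  ∑ p : Jx g × Jx g, if p.1 < p.2 then (nu g m p.2 - nu g m p.1).toNat else 0

/-- The exponent of the number of Gram matrices. -/
def sB (g : ℕ) (m : Fin (g + 1) → ℕ) : ℕ :=
  ∑ p : Jx g × Jx g, if p.1 ≤ p.2 then (nu g m p.1 + nu g m p.2).toNat else 0

/-- The action of `u` on pairs. -/
def act {g : ℕ} (u : Matrix (Jx g) (Jx g) ℤ) (p : Pr g) : Pr g := (uᵀ * p.1 * u, uᵀ * p.2 * u)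

/-- The pairs in the box which are good at `T`. -/
def PB (g : ℕ) (C H : ℝ) (m : Fin (g + 1) → ℕ) (T : Finset Prm) : Set (Pr g) :=
  {p | InBox g C H m p ∧ LocT T p}

/-- The pairs in the box which vanish as in the deep cusp. -/
def PD (g : ℕ) (C H : ℝ) (m : Fin (g + 1) → ℕ) : Set (Pr g) := {p | InBox g C H m p ∧ TL p}

/-- Un0 (basic facts).  `ν_(rev i) = - ν_i` (`Fin.rev i = 2 g + 1 - i`), `ν` is monotone, `|ν_i| ≤ m_0`,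
`∑ ν_i = 0`. -/
def StUn0 : Prop :=
  ∀ (g : ℕ) (m : Fin (g + 1) → ℕ), (∀ i : Jx g, nu g m (Fin.rev i) = -nu g m i) ∧
    ∑ i, nu g m i = 0 ∧ (Antitone m → Monotone (nu g m) ∧
      ∀ i, nu g m i ≤ m 0 ∧ -(m 0 : ℤ) ≤ nu g m i)

/-- Ua (many unipotent matrices).  `ν` is monotone (Un0).  For `i < j` choose `u_ij` among the
`2 ^ (ν_j - ν_i)` integers `0 ≤ x < 2 ^ (ν_j - ν_i)`; `u_ii = 1`, `u_ij = 0` for `i > j`.  The number of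
choices is `2 ^ ups`.  Adapt `HQ/M_Ua.lean`. -/
def StUa : Prop :=
  ∀ (g : ℕ) (m : Fin (g + 1) → ℕ), Antitone m →
    ∃ s : Finset (Matrix (Jx g) (Jx g) ℤ), (∀ u ∈ s, u ∈ Uni g m) ∧ 2 ^ ups g m ≤ s.card

/-- Ub (exponents).  Both sides are sums over pairs.  For `a < b ≤ g` the four pairs of indices
`{a, b}`, `{a, b̄}`, `{b, ā}`, `{b̄, ā}` (`ā = rev a = 2 g + 1 - a`, `ν_a = - m_a`, `ν_ā = m_a`) contribute to
`ups`: `(m_a - m_b) + (m_a + m_b) + (m_a + m_b) + (m_a - m_b) = 4 m_a`, and to the sum of the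
`(ν_i + ν_j)_+`, `i < j`: `0 + 0 + (m_a - m_b) + (m_a + m_b) = 2 m_a`; the pair `{a, ā}` contributes `2 m_a` to
`ups`, `0` to the other, and the diagonal of `sB` gives `(2 ν_ā)_+ = 2 m_a`.  So
`ups = ∑_a (4 (g - a) + 2) m_a`, `sB = ∑_a (2 (g - a) + 2) m_a`, `rho2 = ∑_a 2 (g - a) m_a`.
Possible proof: `ups = ∑_i ν_i (2 i - (2 g + 1))` as `ν` is monotone; for `sB`: for `i < j` with
`i + j ≤ 2 g + 1` we have `j ≤ rev i`, `ν_j ≤ - ν_i`, the term is `0`; for `i + j > 2 g + 1` it is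
`ν_i + ν_j ≥ 0`; for fixed `j > g` the index `i` runs over `rev j < i < j`, an interval symmetric under
`rev`, so `∑_i ν_i = 0` and the sum is `(2 j - 2 g - 2) ν_j`.  Compare `HQ/M_Ub.lean`, `HY/M_Ub.lean`. -/
def StUb : Prop :=
  ∀ (g : ℕ) (m : Fin (g + 1) → ℕ), Antitone m → ups g m = sB g m + rho2 g m

/-- Uc (cusp inequality).  Let `D = d + 1`.  With the pairs as in Ub (`a < b ≤ g`):
`rho2 = ∑_(a<b) 2 m_a = ∑_(a<b) [(m_a + m_b) + (m_a - m_b)]`, and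
`exc = ∑_(a<b) [(m_a + m_b - D)_+ + (m_a - m_b - D)_+] + ∑_a (2 m_a - D)_+` (pairs `{a, b}`, `{a, b̄}`, `{a, a}`; the
others give `0`).  With `x - (x - D)_+ = min(D, x)` it is enough that for every `a ≤ g`
`S_a = ∑_(b=a+1)^g [min(D, m_a + m_b) + min(D, m_a - m_b)] ≥ (2 m_a - D)_+ + [a = 0] min(⌊D/2⌋, m_0)`.
`a = g`: `S_g = 0`, `2 m_g ≤ d < D` (and `g ≥ 1`, so `a ≠ 0`).  `a < g`, with the term `b = g`:
(i) `2 m_a ≤ D`: `m_a + m_g ≤ D`, so `S_a ≥ (m_a + m_g) + (m_a - m_g) = 2 m_a ≥ m_a`.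
(ii) `D < 2 m_a`, `m_a < D`: if `m_a + m_g ≤ D` again `S_a ≥ 2 m_a ≥ (2 m_a - D) + D / 2`; if `m_a + m_g > D` then
`a ≠ g - 1` (as `m_(g-1) + m_g ≤ d`), and `m_a + m_(g-1) ≥ m_a + m_g > D`, so the terms `b = g`, `b = g - 1` give
`S_a ≥ D + (m_a - m_g) + D + (m_a - m_(g-1)) ≥ 2 D + 2 m_a - d ≥ D + 2 m_a`.
(iii) `m_a ≥ D`: `∑_b min(D, m_a + m_b) = (g - a) D` and `∑_b min(D, m_a - m_b) ≥ m_a - m_g` (each term is at
least the step `m_(b-1) - m_b ≤ d`), and `m_a + m_g ≤ (m_(g-1) + (g - 1 - a) d) + m_g ≤ (g - a) d`, so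
`S_a ≥ (g - a) D + m_a - m_g ≥ 2 m_a + (g - a) (D - d) `, more than enough.
Compare `HY/M_Uc.lean`. -/
def StUc : Prop :=
  ∀ (g d : ℕ), 1 ≤ g → ∀ (m : Fin (g + 1) → ℕ), Adm g d m →
    exc g d m + min ((d + 1) / 2) (m 0) ≤ rho2 g m

/-- Ud (stability).  `(uᵀ b u)_ij = ∑_kl u_ki b_kl u_lj`, `|u_ki| ≤ 2^(ν_i-ν_k)` (also for `k = i`; `0` for
`k > i`), so every term is at most `C 2^(ν_i+ν_j)` (resp. `C H 2^(ν_i+ν_j)`) and there are `N²` terms.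
`det u = 1` (upper triangular).  `det (x B' - A') = det(uᵀ (x B - A) u) = det (x B - A)`.  `LocT`: replace
`w` by `w'_j = ∑_i ū_ij w_i` (same `c`).  `TL`: `u` is upper triangular.  Adapt `HQ/M_Ud.lean`. -/
def StUd : Prop :=
  ∀ (g : ℕ) (C H : ℝ) (m : Fin (g + 1) → ℕ), 0 ≤ C → 0 ≤ H → ∀ (T : Finset Prm) (p : Pr g),
    ∀ u ∈ Uni g m, (InBox g C H m p → InBox g ((2 * g + 2) ^ 2 * C) H m (act u p)) ∧
      (LocT T p → LocT T (act u p)) ∧ (TL p → TL (act u p)) ∧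
      ∀ f : ℤ[X], IsChi p f → IsChi (act u p) f

/-- Ue (free orbits).  Adapt `HQ/M_Ue.lean` (the proof does not use the parity of `N`: `h = u1 u2⁻¹`
commutes with `X = B⁻¹ A`, `h = p(X)` by `HY.hUe1`, `h² = 1`, so `h = ± 1` as `charpoly X = f` is
irreducible). -/
def StUe : Prop :=
  ∀ (g : ℕ), 1 ≤ g → ∀ (m : Fin (g + 1) → ℕ) (p : Pr g) (f : ℤ[X]) (u₁ u₂ : Matrix (Jx g) (Jx g) ℤ),
    p.1.IsSymm → p.2.IsSymm → IsUnit p.1.det → IsChi p f → Irreducible (fK f) →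
    u₁ ∈ Uni g m → u₂ ∈ Uni g m → act u₁ p = act u₂ p → u₁ = u₂

/-- Uq (uniqueness of the characteristic polynomial).  `C (det B) * f = C (det B) * f'` and
`det B = ± 1`. -/
def StUq : Prop :=
  ∀ (g : ℕ) (p : Pr g) (f f' : ℤ[X]), IsUnit p.1.det → IsChi p f → IsChi p f' → f = f'

/-- Uf (number of pairs in the box).  A symmetric matrix is determined by the entries with `i ≤ j`.
The number of integers `x` with `|x| ≤ C y`, `y > 0`, is at most `2 C y + 1 ≤ (2 C + 1) max(1, y)`.  For `B`: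
`y = 2^(ν_i+ν_j)`, `∏_(i≤j) max(1, y) = 2 ^ sB`.  For `A`: `y = H 2^(ν_i+ν_j) ≤ 2^(d+1+ν_i+ν_j)`,
`d = log₂ H`, and `∑_(i≤j) (d+1+ν_i+ν_j)_+ = (d+1) n₂ + exc g d m` because `x_+ = x + (-x)_+` and
`∑_(i≤j) (ν_i+ν_j) = (N+1) ∑ ν_i = 0`.  Adapt `HQ/M_Uf.lean`. -/
def StUf : Prop :=
  ∀ (g : ℕ) (C : ℝ) (H : ℕ) (m : Fin (g + 1) → ℕ), 0 ≤ C → 1 ≤ H →
    {p : Pr g | InBox g C H m p}.Finite ∧
    ({p : Pr g | InBox g C H m p}.ncard : ℝ) ≤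
      (2 * C + 1) ^ (2 * ((g + 1) * (2 * g + 3))) *
        2 ^ (sB g m + (Nat.log 2 H + 1) * ((g + 1) * (2 * g + 3)) + exc g (Nat.log 2 H) m)

/-- Uv (vectors of a given norm).  `X` is totally isotropic of dimension `n = g + 1` in the
nondegenerate space `W` of dimension `2 n`, so `X^⊥ = X`.  For `y ∈ W` the function
`x ↦ b(x + y, x + y) = 2 b(x, y) + b(y, y)` on `X` is constant `0` if `y ∈ X` and otherwise affine and not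
constant: exactly `Q^(n-1)` of its values are `β`.  So on each of the `Q^n` cosets of `X` there are at most
`Q^(n-1)` vectors of norm `β ≠ 0`. -/
def StUv : Prop :=
  ∀ (k : Type) [Field k] [Fintype k], (2 : k) ≠ 0 → ∀ (g : ℕ) (W : Type) [AddCommGroup W]
    [Module k W] [FiniteDimensional k W] (b : LinearMap.BilinForm k W), (∀ x y, b x y = b y x) →
    (∀ x, (∀ y, b x y = 0) → x = 0) → Module.finrank k W = 2 * g + 2 →
    ∀ X : Submodule k W, Module.finrank k X = g + 1 → (∀ x ∈ X, ∀ y ∈ X, b x y = 0) →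
    ∀ β : k, β ≠ 0 → {w : W | b w w = β}.ncard ≤ Fintype.card k ^ (2 * g + 1)

/-- Uw (number of tuples with a given Gram matrix).  `W` and `X` as in Uv.  (1) There is an invertible
`S` such that `B' = Sᵀ B S` has `B'_(last,last) ≠ 0` (`B ≠ 0` symmetric and `2 ≠ 0`: some `B_ii ≠ 0` or some
`B_ii + 2 B_ij + B_jj ≠ 0`; complete that vector to a basis); `w ↦ (j ↦ ∑_i S_ij w_i)` is a bijection from the tuples
with Gram matrix `B` to those with Gram matrix `B'`.  (2) For the last vector `v` there are at most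
`Q^(2g+1)` choices (Uv).  For fixed `v` the other `2 g + 1` vectors are determined by their projections
`w'_i = w_i - (B'_(i,last)/β) v` to the complement `W' = v^⊥` (nondegenerate of dimension `2 g + 1`), whose
Gram matrix is the Schur complement `B'_ij - B'_(i,last) B'_(j,last) / β` (nonzero determinant): at most
`2 Q^(g(2g+1))` choices by `HQ.StUw` (proved: `HQ.hUw` in `HQ/M_Uw.lean`).
`2g+1 + g(2g+1) = (g+1)(2g+1)`. -/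
def StUw : Prop :=
  ∀ (k : Type) [Field k] [Fintype k], (2 : k) ≠ 0 → ∀ (g : ℕ) (W : Type) [AddCommGroup W]
    [Module k W] [FiniteDimensional k W] (b : LinearMap.BilinForm k W), (∀ x y, b x y = b y x) →
    (∀ x, (∀ y, b x y = 0) → x = 0) → Module.finrank k W = 2 * g + 2 →
    ∀ X : Submodule k W, Module.finrank k X = g + 1 → (∀ x ∈ X, ∀ y ∈ X, b x y = 0) →
    ∀ B : Matrix (Jx g) (Jx g) k, B.IsSymm → B.det ≠ 0 →
    {w : Jx g → W | ∀ i j, b (w i) (w j) = B i j}.ncard ≤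
      2 * Fintype.card k ^ ((g + 1) * (2 * g + 1))

/-- Ui2 (square roots of 1).  `k[x]/((x-a)(x-b)p) = k × k × k[x]/p` (pairwise coprime factors:
`a ≠ b`, `p` irreducible of degree `2 g ≥ 2` has no root), `(± 1, ± 1, ± 1)`.  Compare `HY/M_Ui2.lean`. -/
def StUi2 : Prop :=
  ∀ (k : Type) [Field k], (2 : k) ≠ 0 → ∀ (g : ℕ), 1 ≤ g → ∀ h ∈ TType k g,
    ∃ s : Finset (AdjoinRoot h), s.card = 8 ∧ ∀ β ∈ s, β ^ 2 = 1

/-- Ui3 (the matrices `A` from a given `h` and a given `c`).  The form `c tau (x y)` on `k[x]/h` is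
nondegenerate (`HY.StUi1`, proved: `HY.hUi1` in `HY/M_Ui1.lean`) and `X = span(1, x, .., x^g)` is isotropic
(`tau (x^(i+j)) = 0` for `i + j ≤ 2 g < 2 g + 1`).  The map `w ↦ A` from the set of tuples `w` with
`c tau (w_i w_j) = B_ij` (at most `2 Q^((g+1)(2g+1))`, Uw) has fibres of size at least `#s`: `w ↦ β w`, and
`β w = β' w` implies `β = β'` since `w` is a basis.  Compare `HY/M_Ui3.lean`. -/
def StUi3 : Prop :=
  ∀ (k : Type) [Field k] [Fintype k], (2 : k) ≠ 0 → ∀ (g : ℕ) (h : k[X]) (hm : h.Monic),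
    h.natDegree = 2 * g + 2 → ∀ s : Finset (AdjoinRoot h), (∀ β ∈ s, β ^ 2 = 1) →
    ∀ B : Matrix (Jx g) (Jx g) k, B.IsSymm → B.det ≠ 0 → ∀ c : k, c ≠ 0 →
    {A : Matrix (Jx g) (Jx g) k | ∃ w : Jx g → AdjoinRoot h,
      (∀ i j, c * tau hm (w i * w j) = B i j) ∧
      ∀ i j, c * tau hm (AdjoinRoot.root h * w i * w j) = A i j}.ncard * s.card ≤
        2 * Fintype.card k ^ ((g + 1) * (2 * g + 1))

/-- Ui (the local count).  Let `ε` be a nonsquare of `k` (`FiniteField.exists_nonsquare`).  If `(B, A)` comes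
from `(h, c, w)` then `c = δ s²` with `δ ∈ {1, ε}`, and it comes from `(h, δ, s w)`.  So for fixed `h` the number
of `A` is at most `2 · 2 Q^((g+1)(2g+1)) / 8` (Ui3 for `c = 1` and `c = ε`, Ui2).  Sum over `h ∈ TType` (finite).
If `B` is not symmetric the set is empty.  Compare `HQ/M_Ui.lean`. -/
def StUi : Prop :=
  ∀ (k : Type) [Field k] [Fintype k], (2 : k) ≠ 0 → ∀ (g : ℕ), 1 ≤ g →
    ∀ B : Matrix (Jx g) (Jx g) k, B.det ≠ 0 →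
    2 * {A : Matrix (Jx g) (Jx g) k | (B, A) ∈ LocPair k g (TType k g)}.ncard ≤
      (TType k g).ncard * Fintype.card k ^ ((g + 1) * (2 * g + 1))

/-- Uh (main region).  `M = ∏ P`.  For every `B` (at most `(2C+1)^(n₂) 2^(sB)` of them, as in Uf) count the
`A` by `HQ.StUeq` (proved: `HQ.hUeq`) with `ι = {(i, j) : i ≤ j}`, `X_ij = C H 2^(ν_i+ν_j)`, `A_P` = the upper
triangles of the matrices `Ā` with `(B̄, Ā) ∈ LocPair` (symmetric), `#A_P ≤ #TType P^((g+1)(2g+1)) / 2` (Ui;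
`det B̄ ≠ 0`).  Since `|ν_i| ≤ m_0` we have `H 2^(ν_i+ν_j) ≥ M`, so
`2 X_ij / M + 1 ≤ (2 C + 1) H 2^(ν_i+ν_j) / M`, and `∏_(i≤j) 2^(ν_i+ν_j) = 1`;
`P^((g+1)(2g+1)) / P^(n₂) = P^(-(2g+2))`.  Adapt `HQ/M_Uh.lean`. -/
def StUh : Prop :=
  ∀ (g : ℕ), 1 ≤ g → ∀ (C : ℝ) (H : ℕ) (m : Fin (g + 1) → ℕ), 0 ≤ C → Antitone m →
    ∀ T : Finset Prm, (∀ P ∈ T, (P : ℕ) ≠ 2) →
    (∀ i : Fin (g + 1), (∏ P ∈ T, (P : ℕ)) * 2 ^ (2 * m i) ≤ H) →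
    ((PB g C H m T).ncard : ℝ) ≤ (2 * C + 1) ^ (2 * ((g + 1) * (2 * g + 3))) * 2 ^ sB g m *
      (H : ℝ) ^ ((g + 1) * (2 * g + 3)) * ((1 / 2) ^ T.card * ∏ P ∈ T, dens g P)

/-- Uj (orbits).  `W` is a set of pairs in the box which is mapped by all `u ∈ Uni` into `W'` (finite).
Choose for every `f` a pair `p_f ∈ W` with `IsChi p_f f`; the map `(f, u) ↦ act u p_f` is injective by Ud
(`IsChi`), Uq and Ue, with values in `W'`; there are at least `2 ^ ups` matrices `u` (Ua).  Adapt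
`HQ/M_Uj.lean`. -/
def StUj : Prop :=
  ∀ (g : ℕ), 1 ≤ g → ∀ (m : Fin (g + 1) → ℕ), Antitone m → ∀ (W W' : Set (Pr g)), W'.Finite →
    (∀ p ∈ W, p.1.IsSymm ∧ p.2.IsSymm ∧ IsUnit p.1.det) →
    (∀ p ∈ W, ∀ u ∈ Uni g m, act u p ∈ W') →
    {f : ℤ[X] | Irreducible (fK f) ∧ ∃ p ∈ W, IsChi p f}.Finite ∧
    {f : ℤ[X] | Irreducible (fK f) ∧ ∃ p ∈ W, IsChi p f}.ncard * 2 ^ ups g m ≤ W'.ncard

/-- Uk (one type in the main region).  Uj with `W = PB g C`, `W' = PB g (N² C)` (Ud), Uh and Ub.  Adapt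
`HQ/M_Uk.lean`. -/
def StUk : Prop :=
  ∀ (g : ℕ), 1 ≤ g → ∀ C : ℝ, 0 ≤ C → ∃ K : ℝ, 0 < K ∧ ∀ (H : ℕ) (m : Fin (g + 1) → ℕ), Antitone m →
    ∀ T : Finset Prm, (∀ P ∈ T, (P : ℕ) ≠ 2) →
    (∀ i : Fin (g + 1), (∏ P ∈ T, (P : ℕ)) * 2 ^ (2 * m i) ≤ H) → (BadM g C H m T).Finite ∧
    ((BadM g C H m T).ncard : ℝ) * 2 ^ rho2 g m ≤
      K * (H : ℝ) ^ ((g + 1) * (2 * g + 3)) * ((1 / 2) ^ T.card * ∏ P ∈ T, dens g P)

/-- Ul (one type in general).  `d = log₂ H`, `2 ^ d ≤ H`.  Uj (with `PB ⊆ box`, Ud), Uf and Ub give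
`#BadM 2^(rho2) ≤ K₁ H^(n₂) 2^(exc g d m)`.  Every term of `exc` grows by at most `κ` if `d + κ` is replaced
by `d`: `exc g d m ≤ exc g (d+κ) m + κ n₂`, and Uc:
`exc g (d+κ) m + min ((d+κ+1)/2) m_0 ≤ rho2`.  Adapt `HQ/M_Ul.lean`. -/
def StUl : Prop :=
  ∀ (g : ℕ), 1 ≤ g → ∀ (C : ℝ) (κ : ℕ), 0 ≤ C → ∃ K : ℝ, 0 < K ∧ ∀ (H : ℕ), 1 ≤ H →
    ∀ (m : Fin (g + 1) → ℕ), Adm g (Nat.log 2 H + κ) m → ∀ (T : Finset Prm),
    (BadM g C H m T).Finite ∧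
    ((BadM g C H m T).ncard : ℝ) * 2 ^ min ((Nat.log 2 H + κ + 1) / 2) (m 0) ≤
      K * (H : ℝ) ^ ((g + 1) * (2 * g + 3))

/-- Um (the bad set).  `BadSet = ⋃_(m admissible) BadM`.  `d = log₂ H`; admissible `m` satisfy
`m_i ≤ (g+1) (d + κ)`: at most `((g+1) (d+κ) + 1)^(g+1)` of them.  Main `m`: `M 2^(2 m_0) ≤ H` (`M = ∏ P`): Uk,
`rho2 ≥ ∑ m_i` (`rho2 ≥ ∑_(a<g) 2 m_a ≥ ∑_(a<g) m_a + m_(g-1)`, `m_(g-1) ≥ m_g`), `∑_m 2^(-∑ m_i) ≤ 2^(g+1)`.  The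
other `m`: `2 m_0 > log₂ (H / M)`, Ul: `min ((d+κ+1)/2) m_0 ≥ (d - log₂ M - 2)/2`, total
`≤ ((g+1)(d+κ)+1)^(g+1) K 2^(-(d - log₂ M - 2)/2) H^(n₂) ≤ ε H^(n₂)` for large `H`.  Adapt `HQ/M_Um.lean`. -/
def StU : Prop :=
  ∀ (g : ℕ), 1 ≤ g → ∀ (C : ℝ) (κ : ℕ), 0 ≤ C →
    ∃ C₀ : ℝ, 0 < C₀ ∧ ∀ T : Finset Prm, (∀ P ∈ T, (P : ℕ) ≠ 2) → ∀ ε : ℝ, 0 < ε →
      ∀ᶠ H : ℕ in atTop, (BadSet g C κ H T).Finite ∧
        ((BadSet g C κ H T).ncard : ℝ) ≤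
          (C₀ * ((1 / 2) ^ T.card * ∏ P ∈ T, dens g P) + ε) * (H : ℝ) ^ ((g + 1) * (2 * g + 3))

/-! ### The deep cusp -/

/-- The exponent of the number of matrices `A` with the vanishing of the deep cusp. -/
def sD (g d : ℕ) (m : Fin (g + 1) → ℕ) : ℕ :=
  ∑ p : Jx g × Jx g, if p.1 ≤ p.2 ∧ ¬ ((p.1 : ℕ) < g ∧ (p.2 : ℕ) ≤ g) then
    ((d : ℤ) + nu g m p.1 + nu g m p.2).toNat else 0

/-- Un (inequality in the deep cusp), `d` arbitrary, `m ∈ DAdm g d`, `n₂ = (g+1)(2g+3)`; `N/2 = g + 1`.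
`2 (sD - rho2) ≤ 2 d n₂ - (d (g+1)² - 2 ∑ m_i)`.
Use `x_+ = x + (-x)_+`; `∑_(i≤j) (d+ν_i+ν_j) = d n₂`; the omitted pairs are `i ≤ j`, `i < g`, `j ≤ g`: these are
the pairs `i ≤ j ≤ g` except `(g, g)`, with
`∑ (d - m_i - m_j) = d (g(g+1)/2 + g) - [(g+1) ∑_(i<g) m_i + g m_g + ∑_(i<g) m_i]`
`= d g(g+3)/2 - (g+2) ∑_(i<g) m_i - g m_g`.
The negative parts: the pair `(g, g)` has `d - 2 m_g ≥ 0`; the pairs `(i, k̄)`, `i < k ≤ g`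
(`ν_i + ν_k̄ = - m_i + m_k`) give `E = ∑_(i<k≤g) (m_i - m_k - d)_+`; all others are `≥ 0`.  So
`sD = d n₂ - d g(g+3)/2 + (g+2) ∑_(i<g) m_i + g m_g + E`, `rho2 = ∑_(i<g) 2 (g - i) m_i`, and
`d n₂ - (sD - rho2) - (d (g+1)² / 2 - ∑_(i≤g) m_i) = (g-1) (d/2 - m_g) + ∑_(i<g) (g-1-2i) m_i - E`, where
`∑_(i<g) (g-1-2i) m_i = ∑_(i<k<g) (m_i - m_k)`; and `E ≤ ∑_(i<k<g) (m_i - m_k)`: for `i < k ≤ g` the step
condition `m_(k-1) ≤ m_k + d` gives `(m_i - m_k - d)_+ ≤ m_i - m_(k-1)`; sum over `k = i+1..g`.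
Compare `HQ/M_Un.lean`. -/
def StUn : Prop :=
  ∀ (g d : ℕ), 1 ≤ g → ∀ (m : Fin (g + 1) → ℕ), DAdm g d m →
    2 * ((sD g d m : ℤ) - rho2 g m) ≤
      2 * (d * ((g + 1) * (2 * g + 3))) - (d * (g + 1) ^ 2 - 2 * ∑ i, (m i : ℤ))

/-- Uo (number of pairs in the deep cusp).  As Uf; the entries of `A` with `i < g`, `j ≤ g` vanish, for the
others use `H 2^(ν_i+ν_j) ≤ 2^(d'+ν_i+ν_j)` with `d' = log₂ H + κ`, `κ ≥ 1`.  Adapt `HQ/M_Uo.lean`. -/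
def StUo : Prop :=
  ∀ (g : ℕ) (C : ℝ) (H κ : ℕ) (m : Fin (g + 1) → ℕ), 0 ≤ C → 1 ≤ H → 1 ≤ κ →
    ((PD g C H m).ncard : ℝ) ≤ (2 * C + 1) ^ (2 * ((g + 1) * (2 * g + 3))) *
      2 ^ (sB g m + sD g (Nat.log 2 H + κ) m)

/-- Up (the deep cusp).  `d' = log₂ H + κ'`, `κ' = κ + 1` (`DAdm` is monotone in `d`).  For every `m`: Uj
(Ud), Uo, Ub, Un: `#DeepM ≤ K 2^(d' n₂ - μ/2) ≤ K' H^(n₂) 2^(-μ/2)` with `μ = d' (g+1)² - 2 ∑ m_i ≥ 0`.  Put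
`x_i = (2 (g - i) + 1) d' - 2 m_i ≥ 0` (`DAdm`), `∑ x_i = μ`: there are at most `(k+1)^(g+1)` types with
`μ = k`.  The condition `M² 4^(∑ m) ≤ C H^((g+1)²)`, `H < 2^(d'+1)`, gives `2^μ ≥ M² / C'`.  So the total is at most
`K' H^(n₂) ∑_(k : 2^k ≥ M²/C') (k+1)^(g+1) 2^(-k/2) ≤ K'' H^(n₂) / √M`
(`(k+1)^(g+1) 2^(-k/2) ≤ K₃ 2^(-k/4) 2^(-k/8)` and `2^(-k/4) ≤ (C'/M²)^(1/4)`).  Adapt `HQ/M_Up.lean`. -/
def StDeep : Prop :=
  ∀ (g : ℕ), 1 ≤ g → ∀ (C : ℝ) (κ : ℕ), 0 ≤ C →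
    ∃ C₁ : ℝ, 0 < C₁ ∧ ∀ M : ℕ, 1 ≤ M → ∀ H : ℕ, 1 ≤ H → (DeepSet g C κ H M).Finite ∧
      ((DeepSet g C κ H M).ncard : ℝ) ≤ C₁ / √M * (H : ℝ) ^ ((g + 1) * (2 * g + 3))

end Pool.Agent.Helper3.EV
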